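import Pool.Agent.Lib.MP_de94ef_pr.ConcCube

/-!
Moment generating function bounds for functions of independent binary digits of exponential
variables.
-/

namespace Pool.Agent.Lib.MP_de94ef_pr.Conc

open Finset Function

set_option linter.unusedSectionVars false

variable {I : Type*} [Fintype I] [DecidableEq I]

/-- Bias of the binary digit of order `k` of a geometric variable of ratio `exp (-h)`. -/
noncomputable def pb (I : Type*) (h : ℝ) (n : ℕ) (i : I × Fin n) : ℝ :=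
  1 / (1 + Real.exp (h * 2 ^ (i.2 : ℕ)))

lemma pb_adm {h : ℝ} (hh : 0 < h) (n : ℕ) : Adm (pb I h n) := by
  intro i
  have h1 : 1 ≤ Real.exp (h * 2 ^ (i.2 : ℕ)) := Real.one_le_exp (by positivity)
  unfold pb
  refine ⟨by positivity, ?_⟩
  exact one_div_le_one_div_of_le (by norm_num) (by linarith)

lemma dyadic_term (x : ℝ) (hx : 0 ≤ x) :
    x ^ 2 * Real.exp (-(x / 4)) ≤ 3456 * (2 * x / (1 + 2 * x) - x / (1 + x)) := by
  have h1 : (1 + x / 12) ^ 3 ≤ Real.exp (x / 4) := by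
    have := Real.add_one_le_exp (x / 12)
    calc (1 + x / 12) ^ 3 ≤ Real.exp (x / 12) ^ 3 := by
          gcongr; linarith
      _ = Real.exp (x / 4) := by rw [← Real.exp_nat_mul]; congr 1; push_cast; ring
  have h2 : 2 * x / (1 + 2 * x) - x / (1 + x) = x / ((1 + x) * (1 + 2 * x)) := by
    field_simp; ring
  rw [h2, Real.exp_neg, ← div_eq_mul_inv, ← mul_div_assoc,
    div_le_div_iff₀ (Real.exp_pos _) (by positivity)]
  have h3 : x * ((1 + x) * (1 + 2 * x)) ≤ 3456 * (1 + x / 12) ^ 3 := by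
    nlinarith [mul_nonneg hx hx, mul_nonneg hx (mul_nonneg hx hx)]
  calc x ^ 2 * ((1 + x) * (1 + 2 * x)) = x * (x * ((1 + x) * (1 + 2 * x))) := by ring
    _ ≤ x * (3456 * Real.exp (x / 4)) := mul_le_mul_of_nonneg_left (by linarith) hx
    _ = _ := by ring

lemma dyadic_sum {h : ℝ} (hh : 0 < h) (n : ℕ) :
    ∑ k : Fin n, (h * 2 ^ (k : ℕ)) ^ 2 * Real.exp (-(h * 2 ^ (k : ℕ) / 4)) ≤ 3456 := by
  rw [Fin.sum_univ_eq_sum_range (fun k => (h * 2 ^ k) ^ 2 * Real.exp (-(h * 2 ^ k / 4))) n]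
  have key : ∀ n : ℕ, ∑ k ∈ range n, (h * 2 ^ k) ^ 2 * Real.exp (-(h * 2 ^ k / 4)) ≤
      3456 * (h * 2 ^ n / (1 + h * 2 ^ n)) := by
    intro n
    induction n with
    | zero => simp only [range_zero, sum_empty]; positivity
    | succ n ih =>
      rw [Finset.sum_range_succ]
      have := dyadic_term (h * 2 ^ n) (by positivity)
      have e : h * 2 ^ (n + 1) = 2 * (h * 2 ^ n) := by ring
      rw [e]
      linarith
  refine (key n).trans ?_
  have : h * 2 ^ n / (1 + h * 2 ^ n) ≤ 1 := by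
    rw [div_le_one (by positivity)]; linarith
  linarith

lemma sqrt_pb_le {h : ℝ} (n : ℕ) (i : I × Fin n) :
    √(pb I h n i) ≤ Real.exp (-(h * 2 ^ (i.2 : ℕ) / 2)) := by
  refine Real.sqrt_le_iff.2 ⟨(Real.exp_pos _).le, ?_⟩
  rw [← Real.exp_nat_mul]
  have e : ((2:ℕ):ℝ) * -(h * 2 ^ (i.2 : ℕ) / 2) = -(h * 2 ^ (i.2 : ℕ)) := by push_cast; ring
  rw [e, Real.exp_neg, ← one_div]
  exact one_div_le_one_div_of_le (Real.exp_pos _) (by linarith)

lemma abs_exp_sub_one_le' (y : ℝ) : |Real.exp y - 1| ≤ |y| * Real.exp |y| := by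
  rcases le_total 0 y with hy | hy
  · rw [abs_of_nonneg hy, abs_of_nonneg (by linarith [Real.add_one_le_exp y])]
    have h1 := Real.add_one_le_exp (-y)
    have h2 : Real.exp (-y) * Real.exp y = 1 := by rw [← Real.exp_add]; simp
    nlinarith [Real.exp_pos y]
  · have h0 : Real.exp y ≤ 1 := Real.exp_le_one_iff.2 hy
    rw [abs_of_nonpos hy, abs_of_nonpos (by linarith)]
    have h1 := Real.add_one_le_exp y
    have h2 : 1 ≤ Real.exp (-y) := Real.one_le_exp (by linarith)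
    nlinarith

/-- Hypotheses on a function of the digits: `q e` bounds the sensitivity to the weight `e`. -/
structure Sens (h : ℝ) (n : ℕ) (F : (I × Fin n → Bool) → ℝ) (q : I → (I × Fin n → Bool) → ℝ)
    (L : ℝ) : Prop where
  nonneg : ∀ e ω, 0 ≤ q e ω
  le_one : ∀ e ω, q e ω ≤ 1
  sum_le : ∀ ω, ∑ e, q e ω ≤ L
  dd : ∀ i ω, |DD i F ω| ≤ h * 2 ^ (i.2 : ℕ) * q i.1 (update ω i false)

section
variable {h : ℝ} {n : ℕ} {F : (I × Fin n → Bool) → ℝ} {q : I → (I × Fin n → Bool) → ℝ} {L : ℝ}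

lemma Sens.dd_exp (H : Sens h n F q L) (hh : 0 < h) {l : ℝ} (hl : |l| ≤ 1 / 4) (i : I × Fin n)
    (ω : I × Fin n → Bool) :
    |DD i (fun ω => Real.exp (l / 2 * F ω)) ω| ≤
      |l| / 2 * (h * 2 ^ (i.2 : ℕ)) * Real.exp (h * 2 ^ (i.2 : ℕ) / 8) *
        (q i.1 (update ω i false) * Real.exp (l / 2 * F (update ω i false))) := by
  set x := h * 2 ^ (i.2 : ℕ) with hx
  have hx0 : 0 ≤ x := by positivity
  have h1 := H.dd i ω
  have hq0 := H.nonneg i.1 (update ω i false)
  have hq1 := H.le_one i.1 (update ω i false)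
  set r := q i.1 (update ω i false)
  set y := l / 2 * DD i F ω with hy
  have e : DD i (fun ω => Real.exp (l / 2 * F ω)) ω =
      Real.exp (l / 2 * F (update ω i false)) * (Real.exp y - 1) := by
    simp only [DD, hy]
    rw [mul_sub (Real.exp _), ← Real.exp_add, mul_one]
    congr 2
    ring
  have h2 : |y| ≤ |l| / 2 * (x * r) := by
    rw [hy, abs_mul, abs_div, abs_two]
    gcongr
  have h3 : |y| ≤ x / 8 := by
    refine h2.trans ?_
    have : x * r ≤ x := by nlinarith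
    have h4 : 0 ≤ x * r := by positivity
    nlinarith [abs_nonneg l]
  rw [e, abs_mul, abs_of_pos (Real.exp_pos _)]
  have h4 : |Real.exp y - 1| ≤ |l| / 2 * (x * r) * Real.exp (x / 8) :=
    (abs_exp_sub_one_le' y).trans (by gcongr)
  calc _ ≤ Real.exp (l / 2 * F (update ω i false)) * (|l| / 2 * (x * r) * Real.exp (x / 8)) := by
        gcongr
    _ = _ := by ring

lemma Sens.energy (H : Sens h n F q L) (hh : 0 < h) {l : ℝ} (hl : |l| ≤ 1 / 4) :
    ∑ i, 6 * √(pb I h n i) *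
      EE (pb I h n) (fun ω => DD i (fun ω => Real.exp (l / 2 * F ω)) ω ^ 2) ≤
      10368 * L * l ^ 2 * EE (pb I h n) (fun ω => Real.exp (l / 2 * F ω) ^ 2) := by
  have hp := pb_adm (I := I) hh n
  set G : (I × Fin n → Bool) → ℝ := fun ω => Real.exp (l / 2 * F ω) with hG
  have h1 : ∀ i : I × Fin n, 6 * √(pb I h n i) * EE (pb I h n) (fun ω => DD i G ω ^ 2) ≤
      3 * l ^ 2 * ((h * 2 ^ (i.2 : ℕ)) ^ 2 * Real.exp (-(h * 2 ^ (i.2 : ℕ) / 4))) *
        EE (pb I h n) (fun ω => q i.1 ω * G ω ^ 2) := by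
    intro i
    set x := h * 2 ^ (i.2 : ℕ) with hx
    have h2 : EE (pb I h n) (fun ω => DD i G ω ^ 2) ≤
        (l ^ 2 / 4 * x ^ 2 * Real.exp (x / 4)) *
          (2 * EE (pb I h n) (fun ω => q i.1 ω * G ω ^ 2)) := by
      refine le_trans ?_ (mul_le_mul_of_nonneg_left (EE_update_false_le hp i
        (f := fun ω => q i.1 ω * G ω ^ 2)
        (fun ω => mul_nonneg (H.nonneg _ _) (sq_nonneg _))) (by positivity))
      rw [← EE_mul]
      refine EE_mono hp fun ω => ?_
      have h3 := pow_le_pow_left₀ (abs_nonneg _) (H.dd_exp hh hl i ω) 2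
      rw [sq_abs] at h3
      refine h3.trans ?_
      have hq0 := H.nonneg i.1 (update ω i false)
      have hq1 := H.le_one i.1 (update ω i false)
      have e : Real.exp (x / 8) ^ 2 = Real.exp (x / 4) := by
        rw [← Real.exp_nat_mul]; congr 1; push_cast; ring
      have h4 : q i.1 (update ω i false) ^ 2 ≤ q i.1 (update ω i false) := by nlinarith
      calc _ = (|l| ^ 2 / 4 * x ^ 2 * Real.exp (x / 8) ^ 2) *
            (q i.1 (update ω i false) ^ 2 * G (update ω i false) ^ 2) := by ring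
        _ ≤ _ := by rw [sq_abs, e]; gcongr
    have h3 := sqrt_pb_le (I := I) (h := h) n i
    have h4 : 0 ≤ EE (pb I h n) (fun ω => q i.1 ω * G ω ^ 2) :=
      EE_nonneg hp fun ω => mul_nonneg (H.nonneg _ _) (sq_nonneg _)
    have e : Real.exp (-(x / 2)) * Real.exp (x / 4) = Real.exp (-(x / 4)) := by
      rw [← Real.exp_add]; congr 1; ring
    calc _ ≤ 6 * Real.exp (-(x / 2)) * ((l ^ 2 / 4 * x ^ 2 * Real.exp (x / 4)) *
          (2 * EE (pb I h n) (fun ω => q i.1 ω * G ω ^ 2))) := by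
          gcongr
          exact EE_nonneg hp fun ω => sq_nonneg _
      _ = 3 * l ^ 2 * (x ^ 2 * (Real.exp (-(x / 2)) * Real.exp (x / 4))) *
        EE (pb I h n) (fun ω => q i.1 ω * G ω ^ 2) := by ring
      _ = _ := by rw [e]
  refine (Finset.sum_le_sum fun i _ => h1 i).trans ?_
  rw [Fintype.sum_prod_type]
  have h5 : ∑ e : I, EE (pb I h n) (fun ω => q e ω * G ω ^ 2) ≤
      L * EE (pb I h n) (fun ω => G ω ^ 2) := by
    rw [← EE_sum, ← EE_mul]
    refine EE_mono hp fun ω => ?_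
    rw [← Finset.sum_mul]
    exact mul_le_mul_of_nonneg_right (H.sum_le ω) (sq_nonneg _)
  calc _ = ∑ e : I, 3 * l ^ 2 * (∑ k : Fin n, (h * 2 ^ (k : ℕ)) ^ 2 *
        Real.exp (-(h * 2 ^ (k : ℕ) / 4))) * EE (pb I h n) (fun ω => q e ω * G ω ^ 2) := by
        refine Finset.sum_congr rfl fun e _ => ?_
        rw [Finset.mul_sum, Finset.sum_mul]
    _ ≤ ∑ e : I, 3 * l ^ 2 * 3456 * EE (pb I h n) (fun ω => q e ω * G ω ^ 2) := by
        refine Finset.sum_le_sum fun e _ => ?_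
        have h4 : 0 ≤ EE (pb I h n) (fun ω => q e ω * G ω ^ 2) :=
          EE_nonneg hp fun ω => mul_nonneg (H.nonneg _ _) (sq_nonneg _)
        have := dyadic_sum hh n
        gcongr
    _ = 3 * l ^ 2 * 3456 * ∑ e : I, EE (pb I h n) (fun ω => q e ω * G ω ^ 2) := by
        rw [Finset.mul_sum]
    _ ≤ 3 * l ^ 2 * 3456 * (L * EE (pb I h n) (fun ω => G ω ^ 2)) := by gcongr
    _ = _ := by ring

lemma Sens.influence (H : Sens h n F q L) (hh : 0 < h) {l : ℝ} (hl : |l| ≤ 1 / 4) {η : ℝ}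
    (hη : ∀ e, EE (pb I h n) (q e) ≤ η) :
    ∑ i, (2 * pb I h n i *
      EE (pb I h n) (fun ω => |DD i (fun ω => Real.exp (l / 2 * F ω)) ω|)) ^ 2 ≤
      13824 * √η * L * l ^ 2 * EE (pb I h n) (fun ω => Real.exp (l / 2 * F ω) ^ 2) := by
  have hp := pb_adm (I := I) hh n
  set G : (I × Fin n → Bool) → ℝ := fun ω => Real.exp (l / 2 * F ω) with hG
  have hG0 : ∀ ω, 0 ≤ G ω := fun ω => (Real.exp_pos _).le
  have h1 : ∀ i : I × Fin n, (2 * pb I h n i * EE (pb I h n) (fun ω => |DD i G ω|)) ^ 2 ≤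
      4 * l ^ 2 * ((h * 2 ^ (i.2 : ℕ)) ^ 2 * Real.exp (-(h * 2 ^ (i.2 : ℕ) / 4))) *
        EE (pb I h n) (fun ω => q i.1 ω * G ω) ^ 2 := by
    intro i
    set x := h * 2 ^ (i.2 : ℕ) with hx
    have hx0 : 0 ≤ x := by positivity
    have h2 : EE (pb I h n) (fun ω => |DD i G ω|) ≤
        (|l| / 2 * x * Real.exp (x / 8)) * (2 * EE (pb I h n) (fun ω => q i.1 ω * G ω)) := by
      refine le_trans ?_ (mul_le_mul_of_nonneg_left (EE_update_false_le hp i
        (f := fun ω => q i.1 ω * G ω)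
        (fun ω => mul_nonneg (H.nonneg _ _) (hG0 _))) (by positivity))
      rw [← EE_mul]
      exact EE_mono hp fun ω => H.dd_exp hh hl i ω
    have h3 := sqrt_pb_le (I := I) (h := h) n i
    have h3' : pb I h n i ≤ Real.exp (-(x / 4)) := by
      have h5 : pb I h n i ≤ √(pb I h n i) := by
        refine Real.le_sqrt_of_sq_le ?_
        nlinarith [(hp i).1, (hp i).2]
      refine h5.trans (h3.trans ?_)
      exact Real.exp_le_exp.2 (by linarith)
    have h4 : 0 ≤ EE (pb I h n) (fun ω => |DD i G ω|) := EE_nonneg hp fun ω => abs_nonneg _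
    have h5 := (hp i).1.le
    have e : Real.exp (-(x / 4)) ^ 2 * Real.exp (x / 8) ^ 2 = Real.exp (-(x / 4)) := by
      rw [← mul_pow, ← Real.exp_add, ← Real.exp_nat_mul]; congr 1; push_cast; ring
    calc _ ≤ (2 * Real.exp (-(x / 4)) * ((|l| / 2 * x * Real.exp (x / 8)) *
          (2 * EE (pb I h n) (fun ω => q i.1 ω * G ω)))) ^ 2 := by gcongr
      _ = 4 * |l| ^ 2 * (x ^ 2 * (Real.exp (-(x / 4)) ^ 2 * Real.exp (x / 8) ^ 2)) *
        EE (pb I h n) (fun ω => q i.1 ω * G ω) ^ 2 := by ring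
      _ = _ := by rw [e, sq_abs]
  refine (Finset.sum_le_sum fun i _ => h1 i).trans ?_
  rw [Fintype.sum_prod_type]
  set y := EE (pb I h n) (fun ω => G ω ^ 2) with hy
  have hy0 : 0 ≤ y := EE_nonneg hp fun ω => sq_nonneg _
  have h6 : ∀ e, EE (pb I h n) (fun ω => q e ω * G ω) ≤ √η * √y := by
    intro e
    have h7 : EE (pb I h n) (fun ω => q e ω ^ 2) ≤ η := by
      refine le_trans (EE_mono hp fun ω => ?_) (hη e)
      nlinarith [H.nonneg e ω, H.le_one e ω]
    have hη0 : 0 ≤ η := le_trans (EE_nonneg hp fun ω => sq_nonneg _) h7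
    rw [← Real.sqrt_mul hη0]
    refine Real.le_sqrt_of_sq_le ((EE_sq_le hp _ _).trans ?_)
    gcongr
  have h7 : EE (pb I h n) G ≤ √y := by
    refine Real.le_sqrt_of_sq_le ?_
    have := EE_sq_le hp (fun _ => 1) G
    simpa [EE_const] using this
  have hL : 0 ≤ L := le_trans (Finset.sum_nonneg fun e _ => H.nonneg e _) (H.sum_le fun _ => false)
  have h8 : ∑ e : I, EE (pb I h n) (fun ω => q e ω * G ω) ≤ L * √y := by
    refine le_trans ?_ (mul_le_mul_of_nonneg_left h7 hL)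
    rw [← EE_sum, ← EE_mul]
    refine EE_mono hp fun ω => ?_
    rw [← Finset.sum_mul]
    exact mul_le_mul_of_nonneg_right (H.sum_le ω) (hG0 _)
  have h9 : ∑ e : I, EE (pb I h n) (fun ω => q e ω * G ω) ^ 2 ≤ √η * L * y := by
    calc _ ≤ ∑ e : I, √η * √y * EE (pb I h n) (fun ω => q e ω * G ω) := by
          refine Finset.sum_le_sum fun e _ => ?_
          rw [sq]
          exact mul_le_mul_of_nonneg_right (h6 e)
            (EE_nonneg hp fun ω => mul_nonneg (H.nonneg _ _) (hG0 _))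
      _ = √η * √y * ∑ e : I, EE (pb I h n) (fun ω => q e ω * G ω) := by rw [Finset.mul_sum]
      _ ≤ √η * √y * (L * √y) := by gcongr
      _ = √η * L * (√y * √y) := by ring
      _ = _ := by rw [Real.mul_self_sqrt hy0]
  calc _ = ∑ e : I, 4 * l ^ 2 * (∑ k : Fin n, (h * 2 ^ (k : ℕ)) ^ 2 *
        Real.exp (-(h * 2 ^ (k : ℕ) / 4))) * EE (pb I h n) (fun ω => q e ω * G ω) ^ 2 := by
        refine Finset.sum_congr rfl fun e _ => ?_
        rw [Finset.mul_sum, Finset.sum_mul]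
    _ ≤ ∑ e : I, 4 * l ^ 2 * 3456 * EE (pb I h n) (fun ω => q e ω * G ω) ^ 2 := by
        refine Finset.sum_le_sum fun e _ => ?_
        have := dyadic_sum hh n
        gcongr
    _ = 4 * l ^ 2 * 3456 * ∑ e : I, EE (pb I h n) (fun ω => q e ω * G ω) ^ 2 := by
        rw [Finset.mul_sum]
    _ ≤ 4 * l ^ 2 * 3456 * (√η * L * y) := by gcongr
    _ = _ := by ring

lemma exp_half_sq (l y : ℝ) : Real.exp (l / 2 * y) ^ 2 = Real.exp (l * y) := by
  rw [← Real.exp_nat_mul]; congr 1; push_cast; ring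

/-- Diffusive bound. -/
theorem Sens.gauss (H : Sens h n F q L) (hh : 0 < h) {l : ℝ} (hl : |l| ≤ 1 / 4) :
    EE (pb I h n) (fun ω => Real.exp (l * F ω)) ≤
      Real.exp (l * EE (pb I h n) F + 2 * (10368 * L) * l ^ 2) := by
  have hp := pb_adm (I := I) hh n
  have hL : 0 ≤ L := le_trans (Finset.sum_nonneg fun e _ => H.nonneg e _) (H.sum_le fun _ => false)
  refine mgf_iter hp F (by positivity) (fun l hl => ?_) hl
  set G : (I × Fin n → Bool) → ℝ := fun ω => Real.exp (l / 2 * F ω) with hG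
  have hpos : ∀ l : ℝ, 0 < EE (pb I h n) (fun ω => Real.exp (l * F ω)) := fun l =>
    Finset.sum_pos (fun ω _ => mul_pos (wt_pos hp ω) (Real.exp_pos _)) univ_nonempty
  set x := EE (pb I h n) (fun ω => Real.exp (l * F ω)) with hx
  set a := EE (pb I h n) G with ha
  have hx0 : 0 < x := hpos l
  have ha0 : 0 < a := hpos (l / 2)
  have h1 := ((fs_lower hp G (θ := x / a ^ 2) (by positivity)).trans (lsi hp G)).trans
    (H.energy hh hl)
  have e1 : EE (pb I h n) (fun ω => G ω ^ 2) = x := EE_congr fun ω => exp_half_sq _ _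
  have e2 : EE (pb I h n) (fun ω => |G ω|) = a := EE_congr fun ω => abs_of_pos (Real.exp_pos _)
  have e3 : x / a ^ 2 * a ^ 2 = x := by field_simp
  simp only [exp_half_sq] at h1
  rw [e1, e2, e3, ← hx] at h1
  have h2 : Real.log (x / a ^ 2) ≤ 10368 * L * l ^ 2 := by
    refine le_of_mul_le_mul_right ?_ hx0
    linarith
  rw [Real.log_le_iff_le_exp (by positivity), div_le_iff₀ (by positivity)] at h2
  linarith

/-- Subdiffusive bound. -/
theorem Sens.sub (H : Sens h n F q L) (hh : 0 < h) {η : ℝ} (hη0 : 0 < η) (hη1 : η ≤ 1)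
    (hη : ∀ e, EE (pb I h n) (q e) ≤ η) {K : ℝ} (hK : 48384 * L ≤ K * (2 + Real.log (1 / η)))
    {l : ℝ} (hl : |l| ≤ 1 / 4) (hKl : K * l ^ 2 ≤ 1 / 2) :
    EE (pb I h n) (fun ω => Real.exp (l * F ω)) ≤
      Real.exp (l * EE (pb I h n) F + 2 * (2 * K) * l ^ 2) := by
  have hp := pb_adm (I := I) hh n
  have hL : 0 ≤ L := le_trans (Finset.sum_nonneg fun e _ => H.nonneg e _) (H.sum_le fun _ => false)
  have hlog : 0 ≤ Real.log (1 / η) := Real.log_nonneg (by rw [le_div_iff₀ hη0]; linarith)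
  have hK0 : 0 ≤ K := by
    by_contra hc
    push Not at hc
    nlinarith
  refine mgf_iter hp F (l0 := |l|) (by positivity) (fun l' hl' => ?_) le_rfl
  have hl2 : l' ^ 2 ≤ l ^ 2 := sq_le_sq.2 hl'
  have hKl' : K * l' ^ 2 ≤ 1 / 2 := le_trans (by gcongr) hKl
  set G : (I × Fin n → Bool) → ℝ := fun ω => Real.exp (l' / 2 * F ω) with hG
  set x := EE (pb I h n) (fun ω => Real.exp (l' * F ω)) with hx
  set a := EE (pb I h n) G with ha
  have hx0 : 0 ≤ x := EE_nonneg hp fun ω => (Real.exp_pos _).le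
  have hs : 0 < √η := Real.sqrt_pos.2 hη0
  have h1 := fs hp (θ := 1 / √η) (by positivity) G
  have h2 := H.energy hh (hl'.trans hl)
  have h3 := H.influence hh (hl'.trans hl) hη
  have e1 : EE (pb I h n) (fun ω => G ω ^ 2) = x := EE_congr fun ω => exp_half_sq _ _
  simp only [exp_half_sq] at h2 h3
  rw [← hx] at h2 h3
  have h4 := mul_le_mul_of_nonneg_left h3 (show 0 ≤ 1 / √η by positivity)
  have e2 : 1 / √η * (13824 * √η * L * l' ^ 2 * x) = 13824 * L * l' ^ 2 * x := by field_simp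
  have e3 : Real.log (1 / √η) = Real.log (1 / η) / 2 := by
    rw [one_div, one_div, Real.log_inv, Real.log_inv, Real.log_sqrt hη0.le]; ring
  have e4 : Var (pb I h n) G = x - a ^ 2 := by unfold Var; rw [e1]
  rw [e2] at h4
  rw [e3, e4] at h1
  have h5 : (1 + Real.log (1 / η) / 2) * (x - a ^ 2) ≤
      (1 + Real.log (1 / η) / 2) * (K * l' ^ 2 * x) := by
    have h6 := mul_le_mul_of_nonneg_right hK (show 0 ≤ l' ^ 2 * x by positivity)
    linarith
  have h6 := le_of_mul_le_mul_left h5 (by positivity)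
  have h7 : 1 ≤ (1 - K * l' ^ 2) * Real.exp (2 * K * l' ^ 2) := by
    have h8 := Real.add_one_le_exp (2 * K * l' ^ 2)
    have h9 : 0 ≤ K * l' ^ 2 := by positivity
    nlinarith
  have h8 := Real.exp_pos (2 * K * l' ^ 2)
  nlinarith

end

end Pool.Agent.Lib.MP_de94ef_pr.Conc
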