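import Mathlib

/-!
Biased discrete cube: logarithmic Sobolev inequality and the Falik-Samorodnitsky inequality.
-/

namespace Pool.Agent.Lib.MP_de94ef_pr.Conc

open Finset Function

set_option linter.unusedSectionVars false

variable {ι : Type*} [Fintype ι] [DecidableEq ι]

/-- Weight of a point of the biased cube. -/
noncomputable def wt (p : ι → ℝ) (ω : ι → Bool) : ℝ := ∏ i, if ω i then p i else 1 - p i

/-- Expectation on the biased cube. -/
noncomputable def EE (p : ι → ℝ) (f : (ι → Bool) → ℝ) : ℝ := ∑ ω, wt p ω * f ω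

/-- Discrete derivative. -/
def DD (i : ι) (f : (ι → Bool) → ℝ) (ω : ι → Bool) : ℝ :=
  f (update ω i true) - f (update ω i false)

/-- Expectation in one coordinate. -/
def Ei (p : ι → ℝ) (i : ι) (f : (ι → Bool) → ℝ) (ω : ι → Bool) : ℝ :=
  p i * f (update ω i true) + (1 - p i) * f (update ω i false)

/-- Admissible biases. -/
def Adm (p : ι → ℝ) : Prop := ∀ i, 0 < p i ∧ p i ≤ 1 / 2

lemma wt_nonneg {p : ι → ℝ} (hp : Adm p) (ω : ι → Bool) : 0 ≤ wt p ω := by
  unfold wt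
  refine Finset.prod_nonneg fun i _ => ?_
  have := hp i
  split_ifs <;> linarith

lemma wt_pos {p : ι → ℝ} (hp : Adm p) (ω : ι → Bool) : 0 < wt p ω := by
  unfold wt
  refine Finset.prod_pos fun i _ => ?_
  have := hp i
  split_ifs <;> linarith

lemma EE_one (p : ι → ℝ) : EE p (fun _ => 1) = 1 := by
  unfold EE wt
  simp only [mul_one]
  rw [← Fintype.piFinset_univ, ← Finset.prod_univ_sum (fun _ => (univ : Finset Bool))
    (fun i b => if b then p i else 1 - p i)]
  simp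

lemma EE_const (p : ι → ℝ) (c : ℝ) : EE p (fun _ => c) = c := by
  have h := EE_one p
  unfold EE at *
  simp only [mul_one] at h
  rw [← Finset.sum_mul, h, one_mul]

lemma EE_add (p : ι → ℝ) (f g : (ι → Bool) → ℝ) :
    EE p (fun ω => f ω + g ω) = EE p f + EE p g := by
  simp only [EE, mul_add, Finset.sum_add_distrib]

lemma EE_sub (p : ι → ℝ) (f g : (ι → Bool) → ℝ) :
    EE p (fun ω => f ω - g ω) = EE p f - EE p g := by
  simp only [EE, mul_sub, Finset.sum_sub_distrib]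

lemma EE_mul (p : ι → ℝ) (c : ℝ) (f : (ι → Bool) → ℝ) :
    EE p (fun ω => c * f ω) = c * EE p f := by
  simp only [EE, Finset.mul_sum]
  exact Finset.sum_congr rfl fun ω _ => by ring

lemma EE_sum {κ : Type*} (p : ι → ℝ) (s : Finset κ) (f : κ → (ι → Bool) → ℝ) :
    EE p (fun ω => ∑ k ∈ s, f k ω) = ∑ k ∈ s, EE p (f k) := by
  simp only [EE, Finset.mul_sum]
  exact Finset.sum_comm

lemma EE_mono {p : ι → ℝ} (hp : Adm p) {f g : (ι → Bool) → ℝ} (h : ∀ ω, f ω ≤ g ω) :
    EE p f ≤ EE p g :=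
  Finset.sum_le_sum fun ω _ => mul_le_mul_of_nonneg_left (h ω) (wt_nonneg hp ω)

lemma EE_nonneg {p : ι → ℝ} (hp : Adm p) {f : (ι → Bool) → ℝ} (h : ∀ ω, 0 ≤ f ω) :
    0 ≤ EE p f := by
  have := EE_mono hp (f := fun _ => 0) h
  rwa [EE_const] at this

lemma EE_congr {p : ι → ℝ} {f g : (ι → Bool) → ℝ} (h : ∀ ω, f ω = g ω) : EE p f = EE p g := by
  rw [show f = g from funext h]

lemma sum_flip (i : ι) (H : (ι → Bool) → ℝ) :
    2 * ∑ ω, H ω = ∑ ω, (H (update ω i true) + H (update ω i false)) := by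
  have hinv : Involutive (fun ω : ι → Bool => update ω i (!ω i)) := by
    intro ω
    simp
  have h1 : ∑ ω, H ω = ∑ ω, H (update ω i (!ω i)) :=
    (Equiv.sum_comp hinv.toPerm H).symm
  rw [two_mul]
  nth_rewrite 2 [h1]
  rw [← Finset.sum_add_distrib]
  refine Finset.sum_congr rfl fun ω _ => ?_
  cases h : ω i
  · have : update ω i false = ω := by rw [← h]; exact update_eq_self i ω
    rw [this]; simp [add_comm]
  · have : update ω i true = ω := by rw [← h]; exact update_eq_self i ω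
    rw [this]; simp

lemma wt_update (p : ι → ℝ) (i : ι) (ω : ι → Bool) (b : Bool) :
    wt p (update ω i b) = (if b then p i else 1 - p i) *
      ∏ j ∈ univ.erase i, if ω j then p j else 1 - p j := by
  unfold wt
  rw [← Finset.mul_prod_erase univ _ (mem_univ i)]
  congr 1
  · simp
  · refine Finset.prod_congr rfl fun j hj => ?_
    rw [update_of_ne (Finset.ne_of_mem_erase hj)]

lemma EE_Ei (p : ι → ℝ) (i : ι) (f : (ι → Bool) → ℝ) : EE p (Ei p i f) = EE p f := by
  have h1 := sum_flip i (fun ω => wt p ω * Ei p i f ω)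
  have h2 := sum_flip i (fun ω => wt p ω * f ω)
  unfold EE
  have : ∑ ω, (wt p (update ω i true) * Ei p i f (update ω i true) +
      wt p (update ω i false) * Ei p i f (update ω i false)) =
      ∑ ω, (wt p (update ω i true) * f (update ω i true) +
      wt p (update ω i false) * f (update ω i false)) := by
    refine Finset.sum_congr rfl fun ω _ => ?_
    simp only [wt_update, Ei, update_idem]
    simp only [if_true, Bool.false_eq_true, if_false]
    ring
  linarith

/-- Entropy of `f ^ 2`. -/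
noncomputable def Ent2 (p : ι → ℝ) (f : (ι → Bool) → ℝ) : ℝ :=
  EE p (fun ω => f ω ^ 2 * Real.log (f ω ^ 2)) -
    EE p (fun ω => f ω ^ 2) * Real.log (EE p (fun ω => f ω ^ 2))

lemma one_point (c u : ℝ) (hc : 0 ≤ c) (hu : 0 < u) :
    c ^ 2 * Real.log (c ^ 2) - c ^ 2 * Real.log (u ^ 2) - c ^ 2 + u ^ 2 ≤
      (c - u) ^ 2 * (2 * (c / u) + 1) := by
  rcases hc.eq_or_lt with rfl | hc
  · simp
  · have h1 : Real.log (c / u) ≤ c / u - 1 := Real.log_le_sub_one_of_pos (by positivity)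
    rw [Real.log_div hc.ne' hu.ne'] at h1
    rw [Real.log_pow, Real.log_pow]
    have h2 : c ^ 2 * (2 * (Real.log c - Real.log u)) ≤ c ^ 2 * (2 * (c / u - 1)) := by
      gcongr
    have h3 : (c - u) ^ 2 * (2 * (c / u) + 1) = c ^ 2 * (2 * (c / u - 1)) - c ^ 2 + u ^ 2 := by
      field_simp
      ring
    push_cast
    rw [h3]
    linarith

lemma two_point_nonneg (p a b : ℝ) (hp : 0 < p) (hp2 : p ≤ 1 / 2) (ha : 0 ≤ a) (hb : 0 ≤ b) :
    p * (a ^ 2 * Real.log (a ^ 2)) + (1 - p) * (b ^ 2 * Real.log (b ^ 2)) -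
      (p * a ^ 2 + (1 - p) * b ^ 2) * Real.log (p * a ^ 2 + (1 - p) * b ^ 2) ≤
      6 * √p * (a - b) ^ 2 := by
  set m := p * a ^ 2 + (1 - p) * b ^ 2 with hm
  have hq : 0 < 1 - p := by linarith
  have hm0 : 0 ≤ m := by positivity
  rcases hm0.eq_or_lt with h0 | h0
  · have ha2 : a ^ 2 = 0 := by nlinarith [sq_nonneg a, sq_nonneg b, mul_nonneg hp.le (sq_nonneg a), mul_nonneg hq.le (sq_nonneg b)]
    have hb2 : b ^ 2 = 0 := by nlinarith [sq_nonneg a, sq_nonneg b, mul_nonneg hp.le (sq_nonneg a), mul_nonneg hq.le (sq_nonneg b)]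
    rw [← h0, ha2, hb2]
    simp only [zero_mul, mul_zero, add_zero, sub_self]
    positivity
  · set u := √m with hu
    have hu0 : 0 < u := Real.sqrt_pos.2 h0
    have hu2 : u ^ 2 = m := Real.sq_sqrt hm0
    set s := √p with hs
    have hs0 : 0 < s := Real.sqrt_pos.2 hp
    have hs2 : s ^ 2 = p := Real.sq_sqrt hp.le
    have hs1 : s ≤ 1 := by nlinarith
    have hau : a / u ≤ 1 / s := by
      rw [div_le_div_iff₀ hu0 hs0, one_mul]
      refine abs_le_of_sq_le_sq' ?_ hu0.le |>.2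
      rw [mul_pow, hs2, hu2]
      nlinarith [mul_nonneg hq.le (sq_nonneg b)]
    have hbu : b / u ≤ 1 / s := by
      rw [div_le_div_iff₀ hu0 hs0, one_mul]
      refine abs_le_of_sq_le_sq' ?_ hu0.le |>.2
      rw [mul_pow, hs2, hu2]
      nlinarith [mul_nonneg hp.le (sq_nonneg a), sq_nonneg b]
    have h1 := one_point a u ha hu0
    have h2 := one_point b u hb hu0
    rw [hu2] at h1 h2
    have h1' : (a - u) ^ 2 * (2 * (a / u) + 1) ≤ (a - u) ^ 2 * (2 * (1 / s) + 1) := by gcongr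
    have h2' : (b - u) ^ 2 * (2 * (b / u) + 1) ≤ (b - u) ^ 2 * (2 * (1 / s) + 1) := by gcongr
    set μ := p * a + (1 - p) * b with hμ
    have hμ0 : 0 ≤ μ := by positivity
    have hvar : m - μ ^ 2 = p * (1 - p) * (a - b) ^ 2 := by rw [hm, hμ]; ring
    have hμu : μ ≤ u := by
      refine abs_le_of_sq_le_sq' ?_ hu0.le |>.2
      rw [hu2]
      nlinarith [mul_nonneg (mul_nonneg hp.le hq.le) (sq_nonneg (a - b))]
    have h3 : p * (a - u) ^ 2 + (1 - p) * (b - u) ^ 2 ≤ 2 * p * (a - b) ^ 2 := by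
      have e1 : p * (a - u) ^ 2 + (1 - p) * (b - u) ^ 2 = 2 * u * (u - μ) := by
        have : p * (a - u) ^ 2 + (1 - p) * (b - u) ^ 2 = m - 2 * u * μ + u ^ 2 := by
          rw [hm, hμ]; ring
        rw [this, ← hu2]; ring
      have e2 : 2 * u * (u - μ) ≤ 2 * (m - μ ^ 2) := by
        rw [← hu2]; nlinarith [mul_nonneg hμ0 (sub_nonneg.2 hμu)]
      rw [e1]
      refine e2.trans ?_
      rw [hvar]
      nlinarith [mul_nonneg hp.le (mul_nonneg hp.le (sq_nonneg (a - b)))]
    have h4 : (2 * (1 / s) + 1) * (2 * p) ≤ 6 * s := by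
      rw [← hs2]
      have : (2 * (1 / s) + 1) * (2 * s ^ 2) = 4 * s + 2 * s ^ 2 := by field_simp; ring
      rw [this]; nlinarith
    have h5 : 0 ≤ 2 * (1 / s) + 1 := by positivity
    have h6 : (2 * (1 / s) + 1) * (p * (a - u) ^ 2 + (1 - p) * (b - u) ^ 2) ≤
        6 * s * (a - b) ^ 2 := by
      calc _ ≤ (2 * (1 / s) + 1) * (2 * p * (a - b) ^ 2) := by gcongr
        _ = ((2 * (1 / s) + 1) * (2 * p)) * (a - b) ^ 2 := by ring
        _ ≤ _ := by gcongr
    have h7 := mul_le_mul_of_nonneg_left (h1.trans h1') hp.le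
    have h8 := mul_le_mul_of_nonneg_left (h2.trans h2') hq.le
    have h9 : m * Real.log m = p * (a ^ 2 * Real.log m) + (1 - p) * (b ^ 2 * Real.log m) := by
      rw [hm]; ring
    rw [h9]
    nlinarith

lemma two_point (p a b : ℝ) (hp : 0 < p) (hp2 : p ≤ 1 / 2) :
    p * (a ^ 2 * Real.log (a ^ 2)) + (1 - p) * (b ^ 2 * Real.log (b ^ 2)) -
      (p * a ^ 2 + (1 - p) * b ^ 2) * Real.log (p * a ^ 2 + (1 - p) * b ^ 2) ≤
      6 * √p * (a - b) ^ 2 := by
  have h := two_point_nonneg p |a| |b| hp hp2 (abs_nonneg a) (abs_nonneg b)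
  simp only [sq_abs] at h
  refine h.trans ?_
  have : (|a| - |b|) ^ 2 ≤ (a - b) ^ 2 := by
    rw [← sq_abs (a - b), ← sq_abs (|a| - |b|)]
    exact pow_le_pow_left₀ (abs_nonneg _) (abs_abs_sub_abs_le_abs_sub a b) 2
  gcongr

lemma minkowski_two (p a b c d : ℝ) (hp : 0 ≤ p) (hq : 0 ≤ 1 - p) :
    (√(p * a ^ 2 + (1 - p) * b ^ 2) - √(p * c ^ 2 + (1 - p) * d ^ 2)) ^ 2 ≤
      p * (a - c) ^ 2 + (1 - p) * (b - d) ^ 2 := by
  set x := p * a ^ 2 + (1 - p) * b ^ 2 with hx
  set y := p * c ^ 2 + (1 - p) * d ^ 2 with hy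
  have hx0 : 0 ≤ x := by positivity
  have hy0 : 0 ≤ y := by positivity
  have h1 : p * a * c + (1 - p) * b * d ≤ √x * √y := by
    rw [← Real.sqrt_mul hx0]
    refine Real.le_sqrt_of_sq_le ?_
    have : x * y - (p * a * c + (1 - p) * b * d) ^ 2 = p * (1 - p) * (a * d - b * c) ^ 2 := by
      rw [hx, hy]; ring
    nlinarith [mul_nonneg (mul_nonneg hp hq) (sq_nonneg (a * d - b * c))]
  have h2 := Real.sq_sqrt hx0
  have h3 := Real.sq_sqrt hy0
  nlinarith

/-- `f` does not depend on the coordinates outside `s`. -/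
def Dep (s : Finset ι) (f : (ι → Bool) → ℝ) : Prop :=
  ∀ j, j ∉ s → ∀ ω b, f (update ω j b) = f ω

lemma Dep.const {f : (ι → Bool) → ℝ} (h : Dep ∅ f) (ω ω' : ι → Bool) : f ω = f ω' := by
  have key : ∀ t : Finset ι, f (fun i => if i ∈ t then ω' i else ω i) = f ω := by
    intro t
    induction t using Finset.induction_on with
    | empty => simp
    | insert a t ha ih =>
      rw [← ih, ← h a (by simp) (fun i => if i ∈ t then ω' i else ω i) (ω' a)]
      congr 1
      funext i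
      by_cases hi : i = a
      · subst hi; simp
      · simp [hi]
  have := key univ
  simpa using this.symm

lemma Dep.Ei {s : Finset ι} {i : ι} {f : (ι → Bool) → ℝ} (h : Dep (insert i s) f) (p : ι → ℝ) :
    Dep s (Ei p i f) := by
  intro j hj ω b
  by_cases hji : j = i
  · subst hji
    simp [Conc.Ei]
  · have hj' : j ∉ insert i s := by simp [hji, hj]
    simp only [Conc.Ei]
    rw [update_comm hji, update_comm hji, h j hj', h j hj']

theorem lsi_aux {p : ι → ℝ} (hp : Adm p) (s : Finset ι) :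
    ∀ f : (ι → Bool) → ℝ, Dep s f →
      Ent2 p f ≤ ∑ j ∈ s, 6 * √(p j) * EE p (fun ω => DD j f ω ^ 2) := by
  induction s using Finset.induction_on with
  | empty =>
    intro f hf
    have hc : ∀ ω, f ω = f (fun _ => false) := fun ω => hf.const _ _
    unfold Ent2
    simp only [hc, EE_const]
    simp
  | insert i s hi ih =>
    intro f hf
    have hpi := hp i
    have hq : 0 ≤ 1 - p i := by linarith
    set g : (ι → Bool) → ℝ := fun ω => √(Ei p i (fun ω => f ω ^ 2) ω) with hg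
    have hg2 : ∀ ω, g ω ^ 2 = Ei p i (fun ω => f ω ^ 2) ω := fun ω =>
      Real.sq_sqrt (by unfold Ei; have := hpi.1.le; positivity)
    have hgdep : Dep s g := by
      have h2 : Dep (insert i s) (fun ω => f ω ^ 2) := fun j hj ω b => by simp only [hf j hj]
      intro j hj ω b
      simp only [hg]
      rw [h2.Ei p j hj]
    have hih := ih g hgdep
    have e1 : EE p (fun ω => g ω ^ 2) = EE p (fun ω => f ω ^ 2) := by
      rw [EE_congr hg2, EE_Ei]
    have e2 : EE p (fun ω => f ω ^ 2 * Real.log (f ω ^ 2)) -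
        EE p (fun ω => g ω ^ 2 * Real.log (g ω ^ 2)) ≤
        6 * √(p i) * EE p (fun ω => DD i f ω ^ 2) := by
      rw [← EE_Ei p i (fun ω => f ω ^ 2 * Real.log (f ω ^ 2)), ← EE_sub, ← EE_mul]
      refine EE_mono hp fun ω => ?_
      rw [hg2]
      exact two_point _ _ _ hpi.1 hpi.2
    have e3 : ∀ j ∈ s, EE p (fun ω => DD j g ω ^ 2) ≤ EE p (fun ω => DD j f ω ^ 2) := by
      intro j hj
      have hji : j ≠ i := fun h => hi (h ▸ hj)
      rw [← EE_Ei p i (fun ω => DD j f ω ^ 2)]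
      refine EE_mono hp fun ω => ?_
      simp only [DD, hg, Ei]
      rw [update_comm hji, update_comm hji, update_comm hji, update_comm hji]
      exact minkowski_two _ _ _ _ _ hpi.1.le hq
    rw [Finset.sum_insert hi]
    have e4 : ∑ j ∈ s, 6 * √(p j) * EE p (fun ω => DD j g ω ^ 2) ≤
        ∑ j ∈ s, 6 * √(p j) * EE p (fun ω => DD j f ω ^ 2) :=
      Finset.sum_le_sum fun j hj => by have := e3 j hj; gcongr
    unfold Ent2 at *
    rw [e1] at hih
    linarith

/-- Logarithmic Sobolev inequality on the biased cube. -/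
theorem lsi {p : ι → ℝ} (hp : Adm p) (f : (ι → Bool) → ℝ) :
    Ent2 p f ≤ ∑ j, 6 * √(p j) * EE p (fun ω => DD j f ω ^ 2) :=
  lsi_aux hp univ f (fun j hj => absurd (mem_univ j) hj)

/-- Falik-Samorodnitsky lower bound of the entropy. -/
lemma fs_lower {p : ι → ℝ} (hp : Adm p) (f : (ι → Bool) → ℝ) {θ : ℝ} (hθ : 0 < θ) :
    (1 + Real.log θ) * EE p (fun ω => f ω ^ 2) - θ * EE p (fun ω => |f ω|) ^ 2 ≤ Ent2 p f := by
  set x := EE p (fun ω => f ω ^ 2) with hx
  set a := EE p (fun ω => |f ω|) with ha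
  have hx0 : 0 ≤ x := EE_nonneg hp fun ω => sq_nonneg _
  rcases hx0.eq_or_lt with h0 | h0
  · have h1 : ∀ ω, f ω = 0 := by
      intro ω
      have h2 := (Finset.sum_eq_zero_iff_of_nonneg (fun ω _ =>
        mul_nonneg (wt_nonneg hp ω) (sq_nonneg (f ω)))).1 h0.symm ω (mem_univ ω)
      have h3 := (mul_eq_zero.1 h2).resolve_left (wt_pos hp ω).ne'
      exact pow_eq_zero_iff (two_ne_zero) |>.1 h3
    unfold Ent2
    rw [hx, ha]
    simp [h1, EE_const]
  · set u := √x with hu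
    have hu0 : 0 < u := Real.sqrt_pos.2 h0
    have hu2 : u ^ 2 = x := Real.sq_sqrt hx0
    set s := √θ with hs
    have hs0 : 0 < s := Real.sqrt_pos.2 hθ
    have hs2 : s ^ 2 = θ := Real.sq_sqrt hθ.le
    have key : ∀ ω, (2 + Real.log θ + Real.log x) * f ω ^ 2 - 2 * s * u * |f ω| ≤
        f ω ^ 2 * Real.log (f ω ^ 2) := by
      intro ω
      rcases (abs_nonneg (f ω)).eq_or_lt with hc | hc
      · have : f ω = 0 := abs_eq_zero.1 hc.symm
        simp [this]
      · set c := |f ω| with hcdef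
        have hc2 : f ω ^ 2 = c ^ 2 := (sq_abs _).symm
        have h1 : Real.log (s * u / c) ≤ s * u / c - 1 :=
          Real.log_le_sub_one_of_pos (by positivity)
        rw [Real.log_div (by positivity) hc.ne', Real.log_mul hs0.ne' hu0.ne'] at h1
        rw [hc2, ← hs2, ← hu2, Real.log_pow, Real.log_pow, Real.log_pow]
        have h2 := mul_le_mul_of_nonneg_left h1 (show 0 ≤ 2 * c ^ 2 by positivity)
        have h3 : 2 * c ^ 2 * (s * u / c - 1) = 2 * s * u * c - 2 * c ^ 2 := by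
          field_simp
        push_cast
        nlinarith
    have h4 := EE_mono hp key
    rw [EE_sub, EE_mul, EE_mul] at h4
    unfold Ent2
    rw [← hx, ← ha] at *
    nlinarith [sq_nonneg (u - s * a)]

/-- Variance on the biased cube. -/
noncomputable def Var (p : ι → ℝ) (f : (ι → Bool) → ℝ) : ℝ :=
  EE p (fun ω => f ω ^ 2) - EE p f ^ 2

lemma EE_sq_split (p : ι → ℝ) (i : ι) (f : (ι → Bool) → ℝ) :
    EE p (fun ω => f ω ^ 2) =
      EE p (fun ω => Ei p i f ω ^ 2) + EE p (fun ω => (f ω - Ei p i f ω) ^ 2) := by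
  rw [← EE_add, ← EE_Ei p i (fun ω => f ω ^ 2),
    ← EE_Ei p i (fun ω => Ei p i f ω ^ 2 + (f ω - Ei p i f ω) ^ 2)]
  refine EE_congr fun ω => ?_
  simp only [Ei, update_idem]
  ring

lemma DD_Ei {i j : ι} (hji : j ≠ i) (p : ι → ℝ) (f : (ι → Bool) → ℝ) (ω : ι → Bool) :
    DD j (Ei p i f) ω = Ei p i (DD j f) ω := by
  simp only [DD, Ei]
  rw [update_comm hji, update_comm hji, update_comm hji, update_comm hji]
  ring

lemma EE_abs_Ei_le {p : ι → ℝ} (hp : Adm p) (i : ι) (f : (ι → Bool) → ℝ) :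
    EE p (fun ω => |Ei p i f ω|) ≤ EE p (fun ω => |f ω|) := by
  rw [← EE_Ei p i (fun ω => |f ω|)]
  refine EE_mono hp fun ω => ?_
  have h1 := (hp i).1.le
  have h2 : 0 ≤ 1 - p i := by linarith [(hp i).2]
  simp only [Ei]
  refine (abs_add_le _ _).trans ?_
  rw [abs_mul, abs_mul, abs_of_nonneg h1, abs_of_nonneg h2]

theorem fs_aux {p : ι → ℝ} (hp : Adm p) {θ : ℝ} (hθ : 0 < θ) (s : Finset ι) :
    ∀ f : (ι → Bool) → ℝ, Dep s f →
      (1 + Real.log θ) * Var p f ≤ ∑ j ∈ s, 6 * √(p j) * EE p (fun ω => DD j f ω ^ 2) +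
        θ * ∑ j ∈ s, (2 * p j * EE p (fun ω => |DD j f ω|)) ^ 2 := by
  induction s using Finset.induction_on with
  | empty =>
    intro f hf
    have hc : ∀ ω, f ω = f (fun _ => false) := fun ω => hf.const _ _
    have hf' : f = fun _ => f (fun _ => false) := funext hc
    unfold Var
    rw [hf']
    simp [EE_const]
  | insert i s hi ih =>
    intro f hf
    have hpi := hp i
    have hq : 0 ≤ 1 - p i := by linarith
    set g := Ei p i f with hg
    set Δ : (ι → Bool) → ℝ := fun ω => f ω - g ω with hΔ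
    have hgdep : Dep s g := hf.Ei p
    have hih := ih g hgdep
    have hΔdep : Dep (insert i s) Δ := fun j hj ω b => by
      simp only [hΔ]
      rw [hf j hj, hgdep j (fun h => hj (mem_insert_of_mem h))]
    have h1 := (fs_lower hp Δ hθ).trans (lsi_aux hp _ Δ hΔdep)
    have e1 : Var p f = Var p g + EE p (fun ω => Δ ω ^ 2) := by
      unfold Var
      rw [EE_sq_split p i f, hg, EE_Ei]
      ring
    have e2 : ∀ ω, DD i Δ ω = DD i f ω := fun ω => by
      simp only [DD, hΔ, hg, Ei, update_idem]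
      ring
    have e3 : ∀ j ∈ s, EE p (fun ω => DD j f ω ^ 2) =
        EE p (fun ω => DD j g ω ^ 2) + EE p (fun ω => DD j Δ ω ^ 2) := by
      intro j hj
      have hji : j ≠ i := fun h => hi (h ▸ hj)
      rw [EE_sq_split p i (DD j f)]
      congr 1
      · exact EE_congr fun ω => by rw [hg, DD_Ei hji]
      · refine EE_congr fun ω => ?_
        rw [← DD_Ei hji]
        simp only [DD, hΔ, hg]
        ring
    have e4 : EE p (fun ω => |Δ ω|) ≤ 2 * p i * EE p (fun ω => |DD i f ω|) := by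
      rw [← EE_Ei p i (fun ω => |Δ ω|), ← EE_mul]
      refine EE_mono hp fun ω => ?_
      simp only [Ei, hΔ, hg, update_idem, DD]
      set a := f (update ω i true)
      set b := f (update ω i false)
      have ha : a - (p i * a + (1 - p i) * b) = (1 - p i) * (a - b) := by ring
      have hb : b - (p i * a + (1 - p i) * b) = -(p i * (a - b)) := by ring
      rw [ha, hb, abs_neg, abs_mul, abs_mul, abs_of_nonneg hq, abs_of_nonneg hpi.1.le]
      nlinarith [mul_nonneg (mul_nonneg hpi.1.le hpi.1.le) (abs_nonneg (a - b))]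
    have e4' : EE p (fun ω => |Δ ω|) ^ 2 ≤ (2 * p i * EE p (fun ω => |DD i f ω|)) ^ 2 :=
      pow_le_pow_left₀ (EE_nonneg hp fun ω => abs_nonneg _) e4 2
    have e5 : ∑ j ∈ s, (2 * p j * EE p (fun ω => |DD j g ω|)) ^ 2 ≤
        ∑ j ∈ s, (2 * p j * EE p (fun ω => |DD j f ω|)) ^ 2 := by
      refine Finset.sum_le_sum fun j hj => ?_
      have hji : j ≠ i := fun h => hi (h ▸ hj)
      have h2 : EE p (fun ω => |DD j g ω|) ≤ EE p (fun ω => |DD j f ω|) := by
        refine le_trans (le_of_eq ?_) (EE_abs_Ei_le hp i (DD j f))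
        exact EE_congr fun ω => by rw [hg, DD_Ei hji]
      have h3 : 0 ≤ EE p (fun ω => |DD j g ω|) := EE_nonneg hp fun ω => abs_nonneg _
      have h4 := (hp j).1.le
      gcongr
    have e6 : ∑ j ∈ s, 6 * √(p j) * EE p (fun ω => DD j f ω ^ 2) =
        ∑ j ∈ s, 6 * √(p j) * EE p (fun ω => DD j g ω ^ 2) +
        ∑ j ∈ s, 6 * √(p j) * EE p (fun ω => DD j Δ ω ^ 2) := by
      rw [← Finset.sum_add_distrib]
      exact Finset.sum_congr rfl fun j hj => by rw [e3 j hj]; ring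
    rw [Finset.sum_insert hi] at h1
    rw [Finset.sum_insert hi, Finset.sum_insert hi, e1, e6]
    simp only [e2] at h1
    have h5 := mul_le_mul_of_nonneg_left e4' hθ.le
    have h6 := mul_le_mul_of_nonneg_left e5 hθ.le
    linarith

/-- Falik-Samorodnitsky inequality on the biased cube. -/
theorem fs {p : ι → ℝ} (hp : Adm p) {θ : ℝ} (hθ : 0 < θ) (f : (ι → Bool) → ℝ) :
    (1 + Real.log θ) * Var p f ≤ ∑ j, 6 * √(p j) * EE p (fun ω => DD j f ω ^ 2) +
      θ * ∑ j, (2 * p j * EE p (fun ω => |DD j f ω|)) ^ 2 :=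
  fs_aux hp hθ univ f (fun j hj => absurd (mem_univ j) hj)

lemma EE_sq_le {p : ι → ℝ} (hp : Adm p) (f g : (ι → Bool) → ℝ) :
    EE p (fun ω => f ω * g ω) ^ 2 ≤ EE p (fun ω => f ω ^ 2) * EE p (fun ω => g ω ^ 2) := by
  unfold EE
  have h := Finset.sum_mul_sq_le_sq_mul_sq univ (fun ω => √(wt p ω) * f ω)
    (fun ω => √(wt p ω) * g ω)
  have e : ∀ ω, √(wt p ω) ^ 2 = wt p ω := fun ω => Real.sq_sqrt (wt_nonneg hp ω)
  have e1 : ∀ ω, √(wt p ω) * f ω * (√(wt p ω) * g ω) = wt p ω * (f ω * g ω) := fun ω => by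
    rw [← e ω]; nth_rewrite 1 [e ω]; nth_rewrite 1 [e ω]; ring
  simp only [e1, mul_pow, e] at h
  exact h

lemma EE_update_false_le {p : ι → ℝ} (hp : Adm p) (i : ι) {f : (ι → Bool) → ℝ}
    (hf : ∀ ω, 0 ≤ f ω) : EE p (fun ω => f (update ω i false)) ≤ 2 * EE p f := by
  rw [← EE_Ei p i f, ← EE_mul]
  refine EE_mono hp fun ω => ?_
  have h1 := hp i
  have h2 := hf (update ω i true)
  have h3 := hf (update ω i false)
  simp only [Ei]
  nlinarith [mul_nonneg h1.1.le h2]

/-- Iteration of a doubling inequality for the moment generating function. -/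
theorem mgf_iter {p : ι → ℝ} (hp : Adm p) (F : (ι → Bool) → ℝ) {K l0 : ℝ} (hK : 0 ≤ K)
    (h : ∀ l : ℝ, |l| ≤ l0 → EE p (fun ω => Real.exp (l * F ω)) ≤
      EE p (fun ω => Real.exp (l / 2 * F ω)) ^ 2 * Real.exp (K * l ^ 2))
    {l : ℝ} (hl : |l| ≤ l0) :
    EE p (fun ω => Real.exp (l * F ω)) ≤ Real.exp (l * EE p F + 2 * K * l ^ 2) := by
  set m := EE p F with hm
  obtain ⟨B, hB0, hB⟩ : ∃ B : ℝ, 0 < B ∧ ∀ ω, |F ω - m| ≤ B :=
    ⟨1 + ∑ ω, |F ω - m|, by positivity, fun ω => by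
      have := Finset.single_le_sum (f := fun ω => |F ω - m|) (fun ω _ => abs_nonneg _)
        (mem_univ ω)
      linarith⟩
  set φ : ℝ → ℝ := fun l => Real.log (EE p (fun ω => Real.exp (l * F ω))) - l * m with hφ
  have hpos : ∀ l : ℝ, 0 < EE p (fun ω => Real.exp (l * F ω)) := fun l =>
    Finset.sum_pos (fun ω _ => mul_pos (wt_pos hp ω) (Real.exp_pos _)) univ_nonempty
  have h1 : ∀ l : ℝ, |l| ≤ l0 → φ l ≤ 2 * φ (l / 2) + K * l ^ 2 := by
    intro l hl
    have h2 := Real.log_le_log (hpos l) (h l hl)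
    rw [Real.log_mul (pow_pos (hpos _) 2).ne' (Real.exp_pos _).ne', Real.log_pow,
      Real.log_exp] at h2
    simp only [hφ]
    push_cast at h2
    linarith
  have h2 : ∀ k : ℕ, φ l ≤ 2 ^ k * φ (l / 2 ^ k) + 2 * K * l ^ 2 * (1 - 1 / 2 ^ k) := by
    intro k
    induction k with
    | zero => simp
    | succ k ih =>
      have h3 : |l / 2 ^ k| ≤ l0 := by
        refine le_trans ?_ hl
        rw [abs_div, abs_of_pos (show (0:ℝ) < 2 ^ k by positivity)]
        exact div_le_self (abs_nonneg _) (one_le_pow₀ (by norm_num))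
      have h4 := mul_le_mul_of_nonneg_left (h1 _ h3) (show (0:ℝ) ≤ 2 ^ k by positivity)
      have e1 : l / 2 ^ k / 2 = l / 2 ^ (k + 1) := by rw [pow_succ]; field_simp
      rw [e1] at h4
      have e2 : (2:ℝ) ^ k * (2 * φ (l / 2 ^ (k + 1)) + K * (l / 2 ^ k) ^ 2) +
          2 * K * l ^ 2 * (1 - 1 / 2 ^ k) =
          2 ^ (k + 1) * φ (l / 2 ^ (k + 1)) + 2 * K * l ^ 2 * (1 - 1 / 2 ^ (k + 1)) := by
        rw [pow_succ]; field_simp; ring
      linarith
  have h3 : ∀ μ : ℝ, |μ| * B ≤ 1 → φ μ ≤ μ ^ 2 * B ^ 2 := by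
    intro μ hμ
    have h4 : ∀ ω, Real.exp (μ * F ω) ≤
        Real.exp (μ * m) * (1 + μ ^ 2 * B ^ 2) + Real.exp (μ * m) * μ * (F ω - m) := by
      intro ω
      have h5 : |μ * (F ω - m)| ≤ |μ| * B := by
        rw [abs_mul]; exact mul_le_mul_of_nonneg_left (hB ω) (abs_nonneg _)
      have h6 := (abs_le.1 (Real.abs_exp_sub_one_sub_id_le (h5.trans hμ))).2
      have h7 : (μ * (F ω - m)) ^ 2 ≤ μ ^ 2 * B ^ 2 := by
        rw [← sq_abs (μ * (F ω - m)), ← sq_abs μ, ← mul_pow]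
        exact pow_le_pow_left₀ (abs_nonneg _) h5 2
      have e : Real.exp (μ * F ω) = Real.exp (μ * m) * Real.exp (μ * (F ω - m)) := by
        rw [← Real.exp_add]; congr 1; ring
      rw [e]
      have := Real.exp_pos (μ * m)
      nlinarith
    have h5 := EE_mono hp h4
    rw [EE_add, EE_const, EE_mul, EE_sub, EE_const, ← hm, sub_self, mul_zero, add_zero] at h5
    have h6 := Real.log_le_log (hpos μ) h5
    rw [Real.log_mul (Real.exp_pos _).ne' (by positivity), Real.log_exp] at h6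
    have h7 := Real.log_le_sub_one_of_pos (show 0 < 1 + μ ^ 2 * B ^ 2 by positivity)
    simp only [hφ]
    linarith
  have h4 : φ l ≤ 2 * K * l ^ 2 := by
    refine le_of_forall_pos_le_add fun ε hε => ?_
    obtain ⟨k, hk⟩ := pow_unbounded_of_one_lt (|l| * B + l ^ 2 * B ^ 2 / ε) (one_lt_two (α := ℝ))
    have hk0 : (0:ℝ) < 2 ^ k := by positivity
    have h5 : |l / 2 ^ k| * B ≤ 1 := by
      rw [abs_div, abs_of_pos hk0, div_mul_eq_mul_div, div_le_one hk0]
      have : 0 ≤ l ^ 2 * B ^ 2 / ε := by positivity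
      linarith
    have h6 := mul_le_mul_of_nonneg_left (h3 _ h5) hk0.le
    have e : (2:ℝ) ^ k * ((l / 2 ^ k) ^ 2 * B ^ 2) = l ^ 2 * B ^ 2 / 2 ^ k := by field_simp
    have h7 : l ^ 2 * B ^ 2 / 2 ^ k ≤ ε := by
      rw [div_le_iff₀ hk0]
      have h8 : l ^ 2 * B ^ 2 / ε ≤ 2 ^ k := by
        have : 0 ≤ |l| * B := by positivity
        linarith
      rw [div_le_iff₀ hε] at h8
      linarith
    have h8 := h2 k
    have h9 : 2 * K * l ^ 2 * (1 - 1 / 2 ^ k) ≤ 2 * K * l ^ 2 := by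
      have : 0 ≤ 2 * K * l ^ 2 * (1 / 2 ^ k) := by positivity
      linarith
    linarith
  rw [← Real.log_le_iff_le_exp (hpos l)]
  simp only [hφ] at h4
  linarith

end Pool.Agent.Lib.MP_de94ef_pr.Conc
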