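import Pool.Agent.Lib.MP_de94ef_pr.ConcTransfer

/-!
Diffusive and subdiffusive concentration for minima of passage times over finite families of
finite sets of independent exponential weights.
-/

namespace Pool.Agent.Lib.MP_de94ef_pr.Conc

open Finset Function MeasureTheory ProbabilityTheory Filter Topology

set_option linter.unusedSectionVars false

section
variable {J κ : Type*} [Fintype κ] [Nonempty κ]

/-- Minimum over `k` of `c k` plus the total weight of `π k`. -/
noncomputable def MM (c : κ → ℝ) (π : κ → Finset J) (t : J → ℝ) : ℝ :=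
  univ.inf' univ_nonempty fun k => c k + ∑ j ∈ π k, t j

lemma MM_le (c : κ → ℝ) (π : κ → Finset J) (t : J → ℝ) (k : κ) :
    MM c π t ≤ c k + ∑ j ∈ π k, t j :=
  Finset.inf'_le (fun k => c k + ∑ j ∈ π k, t j) (mem_univ k)

lemma exists_MM_eq (c : κ → ℝ) (π : κ → Finset J) (t : J → ℝ) :
    ∃ k, MM c π t = c k + ∑ j ∈ π k, t j := by
  obtain ⟨k, -, hk⟩ := Finset.exists_mem_eq_inf' univ_nonempty (fun k => c k + ∑ j ∈ π k, t j)
  exact ⟨k, hk⟩

lemma le_MM {c : κ → ℝ} {π : κ → Finset J} {t : J → ℝ} {a : ℝ}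
    (h : ∀ k, a ≤ c k + ∑ j ∈ π k, t j) : a ≤ MM c π t := by
  obtain ⟨k, hk⟩ := exists_MM_eq c π t
  rw [hk]; exact h k

/-- A minimizer. -/
noncomputable def sel (c : κ → ℝ) (π : κ → Finset J) (t : J → ℝ) : κ :=
  (exists_MM_eq c π t).choose

lemma MM_eq_sel (c : κ → ℝ) (π : κ → Finset J) (t : J → ℝ) :
    MM c π t = c (sel c π t) + ∑ j ∈ π (sel c π t), t j := (exists_MM_eq c π t).choose_spec

lemma MM_sub_le (c : κ → ℝ) (π : κ → Finset J) (t s : J → ℝ) :
    MM c π t - MM c π s ≤ ∑ j ∈ π (sel c π s), (t j - s j) := by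
  rw [MM_eq_sel c π s, Finset.sum_sub_distrib]
  linarith [MM_le c π t (sel c π s)]

lemma MM_mono (c : κ → ℝ) (π : κ → Finset J) {t s : J → ℝ} (h : ∀ j, s j ≤ t j) :
    MM c π s ≤ MM c π t := by
  have h1 := MM_sub_le c π s t
  have h2 : ∑ j ∈ π (sel c π t), (s j - t j) ≤ 0 :=
    Finset.sum_nonpos fun j _ => sub_nonpos.2 (h j)
  linarith

lemma measurable_MM (c : κ → ℝ) (π : κ → Finset J) {Ω : Type*} [MeasurableSpace Ω]
    {X : J → Ω → ℝ} (hX : ∀ j, Measurable (X j)) :
    Measurable fun ω => MM c π fun j => X j ω := by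
  refine measurable_of_Iio fun a => ?_
  have e : (fun ω => MM c π fun j => X j ω) ⁻¹' Set.Iio a =
      ⋃ k, {ω | c k + ∑ j ∈ π k, X j ω < a} := by
    ext ω
    simp [MM, Finset.inf'_lt_iff]
  rw [e]
  exact MeasurableSet.iUnion fun k => measurableSet_lt
    (measurable_const.add (Finset.measurable_sum _ fun j _ => hX j)) measurable_const

end

section
variable {I J B κ : Type*} [Fintype I] [DecidableEq I] [Fintype κ] [Nonempty κ] [Fintype B]
  [Nonempty B]

/-- Average over the shifts `τ z` of the minimum. -/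
noncomputable def FF (c : κ → ℝ) (π : κ → Finset J) {E : Type*} (τ : B → J → E) (t : E → ℝ) : ℝ :=
  (∑ z, MM c π fun j => t (τ z j)) / Fintype.card B

/-- Fraction of the shifts whose minimizer uses `e`. -/
noncomputable def qq (c : κ → ℝ) (π : κ → Finset J) (τ : B → J → I) (e : I) (t : I → ℝ) : ℝ :=
  (∑ z, if e ∈ (π (sel c π fun j => t (τ z j))).image (τ z) then (1:ℝ) else 0) / Fintype.card B

lemma val_update (h : ℝ) {n : ℕ} (ω : I × Fin n → Bool) (i : I × Fin n) (e : I) :
    val h (update ω i true) e =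
      val h (update ω i false) e + if e = i.1 then h * 2 ^ (i.2 : ℕ) else 0 := by
  obtain ⟨e0, k0⟩ := i
  unfold val nv
  split_ifs with he
  · subst he
    rw [← Finset.add_sum_erase univ _ (mem_univ k0), ← Finset.add_sum_erase univ _ (mem_univ k0)]
    have : ∑ k ∈ univ.erase k0, (if update ω (e, k0) true (e, k) then 2 ^ (k : ℕ) else 0) =
        ∑ k ∈ univ.erase k0, (if update ω (e, k0) false (e, k) then 2 ^ (k : ℕ) else 0) := by
      refine Finset.sum_congr rfl fun k hk => ?_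
      have hk' : (e, k) ≠ (e, k0) := by simpa using Finset.ne_of_mem_erase hk
      rw [update_of_ne hk', update_of_ne hk']
    rw [this]
    simp
    ring
  · rw [add_zero]
    congr 2
    refine Finset.sum_congr rfl fun k _ => ?_
    have hk' : (e, k) ≠ (e0, k0) := fun h => he (congrArg Prod.fst h)
    rw [update_of_ne hk', update_of_ne hk']

lemma sens_FF (c : κ → ℝ) (π : κ → Finset J) {τ : B → J → I} (hτ : ∀ z, Injective (τ z))
    {L : ℝ} (hL : ∀ k, ((π k).card : ℝ) ≤ L) {h : ℝ} (hh : 0 < h) (n : ℕ) :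
    Sens h n (fun ω => FF c π τ (val h ω)) (fun e ω => qq c π τ e (val h ω)) L := by
  have hB : (0:ℝ) < Fintype.card B := by exact_mod_cast Fintype.card_pos
  refine ⟨fun e ω => ?_, fun e ω => ?_, fun ω => ?_, fun i ω => ?_⟩
  · unfold qq
    exact div_nonneg (Finset.sum_nonneg fun z _ => by split_ifs <;> norm_num) hB.le
  · unfold qq
    rw [div_le_one hB]
    calc _ ≤ ∑ _z : B, (1:ℝ) := Finset.sum_le_sum fun z _ => by split_ifs <;> norm_num
      _ = _ := by simp
  · unfold qq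
    rw [← Finset.sum_div, div_le_iff₀ hB, Finset.sum_comm]
    calc _ ≤ ∑ _z : B, L := by
          refine Finset.sum_le_sum fun z _ => ?_
          rw [Finset.sum_ite_mem, Finset.univ_inter, Finset.sum_const, nsmul_eq_mul, mul_one]
          exact le_trans (by exact_mod_cast Finset.card_image_le) (hL _)
      _ = _ := by simp [mul_comm]
  · unfold DD FF qq
    rw [← sub_div, ← Finset.sum_sub_distrib, abs_div, abs_of_pos hB, ← mul_div_assoc,
      Finset.mul_sum]
    gcongr
    refine (Finset.abs_sum_le_sum_abs _ _).trans (Finset.sum_le_sum fun z _ => ?_)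
    have hx : 0 ≤ h * 2 ^ (i.2 : ℕ) := by positivity
    rw [abs_of_nonneg (sub_nonneg.2 (MM_mono c π fun j => by
      rw [val_update]; split_ifs <;> linarith))]
    refine (MM_sub_le c π _ _).trans (le_of_eq ?_)
    simp only [val_update, add_sub_cancel_left]
    rw [← Finset.sum_image (g := τ z) (f := fun e => if e = i.1 then h * 2 ^ (i.2 : ℕ) else 0)
      (fun a _ b _ hab => hτ z hab), Finset.sum_ite_eq']
    split_ifs <;> simp

lemma EE_perm (h : ℝ) (n : ℕ) (σ : Equiv.Perm I) (Φ : (I → ℝ) → ℝ) :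
    EE (pb I h n) (fun ω => Φ fun e => val h ω (σ e)) = EE (pb I h n) (fun ω => Φ (val h ω)) := by
  unfold EE
  let ρ : (I × Fin n → Bool) ≃ (I × Fin n → Bool) :=
    Equiv.arrowCongr (Equiv.prodCongr σ.symm (Equiv.refl _)) (Equiv.refl _)
  rw [← Equiv.sum_comp ρ (fun ω => wt (pb I h n) ω * Φ (val h ω))]
  refine Finset.sum_congr rfl fun ω _ => ?_
  have e1 : val h (ρ ω) = fun e => val h ω (σ e) := by
    funext e
    simp [val, nv, ρ]
  have e2 : wt (pb I h n) (ρ ω) = wt (pb I h n) ω := by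
    unfold wt
    rw [← Equiv.prod_comp (Equiv.prodCongr σ (Equiv.refl (Fin n)))
      (fun i => if ω i then pb I h n i else 1 - pb I h n i)]
    refine Finset.prod_congr rfl fun i _ => ?_
    simp [ρ, pb]
  rw [e1, e2]

lemma EE_qq_le [Finite J] (c : κ → ℝ) (π : κ → Finset J) {τ : B → J → I}
    (hτ : ∀ z, Injective (τ z)) {η : ℝ}
    (hη : ∀ e k, ((univ.filter fun z => e ∈ (π k).image (τ z)).card : ℝ) ≤ η * Fintype.card B)
    {h : ℝ} (hh : 0 < h) (n : ℕ) (e : I) :
    EE (pb I h n) (fun ω => qq c π τ e (val h ω)) ≤ η := by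
  have hB : (0:ℝ) < Fintype.card B := by exact_mod_cast Fintype.card_pos
  have hp := pb_adm (I := I) hh n
  obtain ⟨z0⟩ := ‹Nonempty B›
  have h1 : ∀ z, EE (pb I h n) (fun ω =>
      if e ∈ (π (sel c π fun j => val h ω (τ z j))).image (τ z) then (1:ℝ) else 0) =
      EE (pb I h n) (fun ω =>
      if e ∈ (π (sel c π fun j => val h ω (τ z0 j))).image (τ z) then (1:ℝ) else 0) := by
    intro z
    obtain ⟨σ, hσ⟩ := Equiv.Perm.exists_extending_pair (τ z0) (τ z) (hτ z0) (hτ z)
    rw [← EE_perm h n σ (fun t =>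
      if e ∈ (π (sel c π fun j => t (τ z0 j))).image (τ z) then (1:ℝ) else 0)]
    simp only [hσ]
  unfold qq
  simp only [div_eq_inv_mul]
  rw [EE_mul, EE_sum, Finset.sum_congr rfl fun z _ => h1 z, ← EE_sum, ← EE_mul,
    ← EE_const (pb I h n) η]
  refine EE_mono hp fun ω => ?_
  rw [inv_mul_le_iff₀ hB, ← Finset.sum_filter, Finset.sum_const, nsmul_eq_mul, mul_one, mul_comm]
  exact hη e _

lemma FF_lip (c : κ → ℝ) (π : κ → Finset J) {E : Type*} (τ : B → J → E) {L h : ℝ} (hh : 0 < h)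
    (hL : ∀ k, ((π k).card : ℝ) ≤ L) (t s : E → ℝ) (hts : ∀ e, s e ≤ t e ∧ t e ≤ s e + h) :
    |FF c π τ t - FF c π τ s| ≤ h * L := by
  have hB : (0:ℝ) < Fintype.card B := by exact_mod_cast Fintype.card_pos
  unfold FF
  rw [← sub_div, ← Finset.sum_sub_distrib, abs_div, abs_of_pos hB, div_le_iff₀ hB]
  refine (Finset.abs_sum_le_sum_abs _ _).trans ?_
  calc _ ≤ ∑ _z : B, h * L := by
        refine Finset.sum_le_sum fun z _ => ?_
        rw [abs_of_nonneg (sub_nonneg.2 (MM_mono c π fun j => (hts _).1))]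
        refine (MM_sub_le c π _ _).trans ?_
        calc _ ≤ ∑ _j ∈ π (sel c π fun j => s (τ z j)), h :=
              Finset.sum_le_sum fun j _ => by linarith [(hts (τ z j)).2]
          _ ≤ _ := by
              rw [Finset.sum_const, nsmul_eq_mul, mul_comm]
              exact mul_le_mul_of_nonneg_left (hL _) hh.le
    _ = _ := by simp [mul_comm]

lemma measurable_FF (c : κ → ℝ) (π : κ → Finset J) {E : Type*} (τ : B → J → E) :
    Measurable (FF c π τ) :=
  (Finset.measurable_sum _ fun z _ =>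
    measurable_MM c π (X := fun j (t : E → ℝ) => t (τ z j))
      fun _ => measurable_pi_apply _).div_const _

variable {Ω : Type*} [MeasurableSpace Ω] {P : Measure Ω} [IsProbabilityMeasure P]

lemma conc_of_disc {X : I → Ω → ℝ} (H : ExpFam P X) (c : κ → ℝ) (π : κ → Finset J)
    (τ : B → J → I) {L : ℝ} (hL : ∀ k, ((π k).card : ℝ) ≤ L) {K l : ℝ} (hK : 0 < K) (hl : l ≠ 0)
    (hb : ∀ h : ℝ, 0 < h → ∀ (n : ℕ) (l' : ℝ), |l'| = |l| →
      EE (pb I h n) (fun ω => Real.exp (l' * FF c π τ (val h ω))) ≤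
        Real.exp (l' * EE (pb I h n) (fun ω => FF c π τ (val h ω)) + K * l' ^ 2)) :
    Integrable (fun ω => FF c π τ fun e => X e ω) P ∧
      Integrable (fun ω => Real.exp (l * FF c π τ fun e => X e ω)) P ∧
      ∫ ω, Real.exp (l * FF c π τ fun e => X e ω) ∂P ≤
        Real.exp (l * ∫ ω, (FF c π τ fun e => X e ω) ∂P + 3 * K * l ^ 2) := by
  have hL0 : 0 ≤ L := le_trans (Nat.cast_nonneg _) (hL (Classical.arbitrary κ))
  have hl0 : 0 < |l| := abs_pos.2 hl
  set h := K * |l| / (2 * (L + 1)) with hh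
  have hh0 : 0 < h := by positivity
  have h1 := H.transfer hh0 (Φ := fun t => l * FF c π τ t)
    ((measurable_FF c π τ).const_mul l) (D := K * l ^ 2 / 2) (C := 2 * K * l ^ 2)
    (fun t s hts => by
      rw [← mul_sub, abs_mul]
      refine (mul_le_mul_of_nonneg_left (FF_lip c π τ hh0 hL t s hts) hl0.le).trans ?_
      have h2 : h * L ≤ K * |l| / 2 := by
        rw [hh, div_mul_eq_mul_div, div_le_div_iff₀ (by positivity) (by norm_num)]
        nlinarith [mul_pos hK hl0]
      calc |l| * (h * L) ≤ |l| * (K * |l| / 2) := by gcongr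
        _ = K * |l| ^ 2 / 2 := by ring
        _ = _ := by rw [sq_abs])
    (fun n => by
      have h2 := hb h hh0 n l rfl
      have h3 := hb h hh0 n (-l) (abs_neg l)
      simp only [neg_mul] at h3
      refine (mul_le_mul h2 h3 (EE_nonneg (pb_adm hh0 n) fun _ => (Real.exp_pos _).le)
        (Real.exp_pos _).le).trans (le_of_eq ?_)
      rw [← Real.exp_add]
      congr 1
      ring)
  refine ⟨?_, h1.2.1, h1.2.2.trans (le_of_eq ?_)⟩
  · have := h1.1.const_mul l⁻¹
    simpa [← mul_assoc, inv_mul_cancel₀ hl] using this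
  · rw [integral_const_mul]
    congr 1
    ring

end

section
variable {E B κ : Type*} [DecidableEq E] [Fintype κ] [Nonempty κ] [Fintype B] [Nonempty B]
  {Ω : Type*} [MeasurableSpace Ω] {P : Measure Ω} [IsProbabilityMeasure P]

lemma conc_reduce {X : E → Ω → ℝ} (H : ExpFam P X) (c : κ → ℝ) (π : κ → Finset E)
    {τ : B → E → E} (hτ : ∀ z, Injective (τ z)) :
    ∃ (S I : Finset E) (π' : κ → Finset S) (τ' : B → S → I), (∀ z, Injective (τ' z)) ∧
      ExpFam P (fun e : I => X e) ∧ (∀ k, (π' k).card = (π k).card) ∧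
      (∀ z k (e : I), e ∈ (π' k).image (τ' z) → (e : E) ∈ (π k).image (τ z)) ∧
      ∀ t : E → ℝ, FF c π' τ' (fun e : I => t e) = FF c π τ t := by
  set S : Finset E := univ.biUnion π with hS
  set I : Finset E := univ.biUnion fun z => S.image (τ z) with hI
  have hsub : ∀ k, ∀ j ∈ π k, j ∈ S := fun k j hj => mem_biUnion.2 ⟨k, mem_univ _, hj⟩
  refine ⟨S, I, fun k => (π k).subtype (· ∈ S),
    fun z j => ⟨τ z j, mem_biUnion.2 ⟨z, mem_univ _, mem_image_of_mem _ j.2⟩⟩,
    fun z a b hab => Subtype.ext (hτ z (congrArg Subtype.val hab)),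
    H.precomp Subtype.val_injective, fun k => ?_, fun z k e he => ?_, fun t => ?_⟩
  · rw [Finset.card_subtype, Finset.filter_true_of_mem (hsub k)]
  · obtain ⟨j, hj, rfl⟩ := mem_image.1 he
    exact mem_image_of_mem _ (mem_subtype.1 hj)
  · unfold FF MM
    congr 1
    refine Finset.sum_congr rfl fun z _ => ?_
    congr 1
    funext k
    congr 1
    exact Finset.sum_subtype_of_mem (fun j => t (τ z j)) (hsub k)

/-- Subdiffusive concentration of the average over shifts of the minimum. -/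
theorem ExpFam.subdiffusive {X : E → Ω → ℝ} (H : ExpFam P X) (c : κ → ℝ) (π : κ → Finset E)
    {τ : B → E → E} (hτ : ∀ z, Injective (τ z)) {L η K l : ℝ}
    (hL : ∀ k, ((π k).card : ℝ) ≤ L) (hη0 : 0 < η) (hη1 : η ≤ 1)
    (hη : ∀ e k, ((univ.filter fun z => e ∈ (π k).image (τ z)).card : ℝ) ≤ η * Fintype.card B)
    (hK0 : 0 < K) (hK : 48384 * L ≤ K * (2 + Real.log (1 / η)))
    (hl : |l| ≤ 1 / 4) (hKl : K * l ^ 2 ≤ 1 / 2) :
    Integrable (fun ω => FF c π τ fun e => X e ω) P ∧
      Integrable (fun ω => Real.exp (l * FF c π τ fun e => X e ω)) P ∧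
      ∫ ω, Real.exp (l * FF c π τ fun e => X e ω) ∂P ≤
        Real.exp (l * ∫ ω, (FF c π τ fun e => X e ω) ∂P + 12 * K * l ^ 2) := by
  obtain ⟨S, I, π', τ', hτ', H', hc, him, hF⟩ := conc_reduce H c π hτ
  have hL' : ∀ k, ((π' k).card : ℝ) ≤ L := fun k => by rw [hc]; exact hL k
  have key : ∀ l : ℝ, l ≠ 0 → |l| ≤ 1 / 4 → K * l ^ 2 ≤ 1 / 2 →
      Integrable (fun ω => FF c π τ fun e => X e ω) P ∧
      Integrable (fun ω => Real.exp (l * FF c π τ fun e => X e ω)) P ∧
      ∫ ω, Real.exp (l * FF c π τ fun e => X e ω) ∂P ≤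
        Real.exp (l * ∫ ω, (FF c π τ fun e => X e ω) ∂P + 12 * K * l ^ 2) := by
    intro l hl0 hl hKl
    have h1 := conc_of_disc H' c π' τ' hL' (K := 2 * (2 * K)) (by positivity) hl0
      (fun h hh n l' hl' => (sens_FF c π' hτ' hL' hh n).sub hh hη0 hη1
        (EE_qq_le c π' hτ' (fun e k => le_trans (by
          exact_mod_cast Finset.card_le_card fun z hz =>
            mem_filter.2 ⟨mem_univ _, him z k e (mem_filter.1 hz).2⟩) (hη e k)) hh n)
        hK (hl' ▸ hl) (by rw [← sq_abs l', hl', sq_abs]; exact hKl))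
    have e : ∀ ω, (FF c π' τ' fun e : I => X e ω) = FF c π τ fun e => X e ω :=
      fun ω => hF fun e => X e ω
    simp only [e] at h1
    rwa [show 3 * (2 * (2 * K)) = 12 * K by ring] at h1
  rcases eq_or_ne l 0 with rfl | hl0
  · have h2 : 0 < min (1 / 4) (1 / (2 * K)) := by positivity
    refine ⟨(key (min (1 / 4) (1 / (2 * K))) h2.ne' ?_ ?_).1, by simp, by simp⟩
    · rw [abs_of_pos h2]; exact min_le_left _ _
    · have h3 : min (1 / 4) (1 / (2 * K)) ≤ 1 / (2 * K) := min_le_right _ _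
      have h4 : min (1 / 4) (1 / (2 * K)) ≤ 1 / 4 := min_le_left _ _
      rw [le_div_iff₀ (by positivity)] at h3
      nlinarith
  · exact key l hl0 hl hKl

/-- Diffusive concentration of the minimum. -/
theorem ExpFam.diffusive {X : E → Ω → ℝ} (H : ExpFam P X) (c : κ → ℝ) (π : κ → Finset E)
    {L l : ℝ} (hL0 : 0 < L) (hL : ∀ k, ((π k).card : ℝ) ≤ L) (hl : |l| ≤ 1 / 4) :
    Integrable (fun ω => MM c π fun e => X e ω) P ∧
      Integrable (fun ω => Real.exp (l * MM c π fun e => X e ω)) P ∧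
      ∫ ω, Real.exp (l * MM c π fun e => X e ω) ∂P ≤
        Real.exp (l * ∫ ω, (MM c π fun e => X e ω) ∂P + 62208 * L * l ^ 2) := by
  obtain ⟨S, I, π', τ', hτ', H', hc, -, hF⟩ :=
    conc_reduce H c π (B := Unit) (τ := fun _ => id) (fun _ => injective_id)
  have hL' : ∀ k, ((π' k).card : ℝ) ≤ L := fun k => by rw [hc]; exact hL k
  have key : ∀ l : ℝ, l ≠ 0 → |l| ≤ 1 / 4 →
      Integrable (fun ω => MM c π fun e => X e ω) P ∧
      Integrable (fun ω => Real.exp (l * MM c π fun e => X e ω)) P ∧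
      ∫ ω, Real.exp (l * MM c π fun e => X e ω) ∂P ≤
        Real.exp (l * ∫ ω, (MM c π fun e => X e ω) ∂P + 62208 * L * l ^ 2) := by
    intro l hl0 hl
    have h1 := conc_of_disc H' c π' τ' hL' (K := 2 * (10368 * L)) (by positivity) hl0
      (fun h hh n l' hl' => (sens_FF c π' hτ' hL' hh n).gauss hh (hl' ▸ hl))
    have e : ∀ ω, (FF c π' τ' fun e : I => X e ω) = MM c π fun e => X e ω := fun ω => by
      rw [hF fun e => X e ω]; simp [FF]
    simp only [e] at h1
    rwa [show 3 * (2 * (10368 * L)) = 62208 * L by ring] at h1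
  rcases eq_or_ne l 0 with rfl | hl0
  · exact ⟨(key (1 / 4) (by norm_num) (by rw [abs_of_pos] ; norm_num)).1, by simp, by simp⟩
  · exact key l hl0 hl

end

end Pool.Agent.Lib.MP_de94ef_pr.Conc
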