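import Pool.Agent.Lib.MP_de94ef_pr.ConcBits

/-!
Transfer of the moment generating function bounds from binary digits to independent
exponential variables.
-/

namespace Pool.Agent.Lib.MP_de94ef_pr.Conc

open Finset Function MeasureTheory ProbabilityTheory Filter Topology
open scoped ENNReal

set_option linter.unusedSectionVars false

variable {I : Type*} [Fintype I] [DecidableEq I]

/-- The natural number with the given binary digits. -/
def nv {n : ℕ} (ω : I × Fin n → Bool) (e : I) : ℕ := ∑ k : Fin n, if ω (e, k) then 2 ^ (k : ℕ) else 0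

/-- The weight with the given binary digits. -/
def val (h : ℝ) {n : ℕ} (ω : I × Fin n → Bool) (e : I) : ℝ := h * nv ω e

lemma exists_bits (n N : ℕ) (hN : N < 2 ^ n) :
    ∃ b : Fin n → Bool, N = ∑ k : Fin n, if b k then 2 ^ (k : ℕ) else 0 := by
  induction n generalizing N with
  | zero => exact ⟨fun _ => false, by simpa using hN⟩
  | succ n ih =>
    by_cases h : N < 2 ^ n
    · obtain ⟨b, hb⟩ := ih N h
      refine ⟨Fin.snoc b false, ?_⟩
      rw [Fin.sum_univ_castSucc]
      simpa using hb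
    · obtain ⟨b, hb⟩ := ih (N - 2 ^ n) (by rw [pow_succ] at hN; omega)
      refine ⟨Fin.snoc b true, ?_⟩
      rw [Fin.sum_univ_castSucc]
      simp only [Fin.snoc_castSucc, Fin.val_castSucc, Fin.snoc_last, if_true, Fin.val_last]
      omega

lemma prod_one_add_pow (r : ℝ) (n : ℕ) :
    (1 - r) * ∏ k : Fin n, (1 + r ^ 2 ^ (k : ℕ)) = 1 - r ^ 2 ^ n := by
  induction n with
  | zero => simp
  | succ n ih =>
    rw [Fin.prod_univ_castSucc, ← mul_assoc]
    simp only [Fin.val_castSucc, Fin.val_last]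
    rw [ih, pow_succ 2 n, pow_mul]
    ring

lemma wt_pb (h : ℝ) (n : ℕ) (ω : I × Fin n → Bool) :
    wt (pb I h n) ω = ∏ e : I, (Real.exp (-h) ^ nv ω e /
      ∏ k : Fin n, (1 + Real.exp (-h) ^ 2 ^ (k : ℕ))) := by
  unfold wt
  rw [Fintype.prod_prod_type]
  refine Finset.prod_congr rfl fun e _ => ?_
  unfold nv
  rw [← Finset.prod_pow_eq_pow_sum, ← Finset.prod_div_distrib]
  refine Finset.prod_congr rfl fun k _ => ?_
  have e1 : Real.exp (-h) ^ 2 ^ (k : ℕ) = (Real.exp (h * 2 ^ (k : ℕ)))⁻¹ := by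
    rw [← Real.exp_nat_mul, ← Real.exp_neg]; congr 1; push_cast; ring
  have h0 := Real.exp_pos (h * 2 ^ (k : ℕ))
  unfold pb
  split_ifs
  · rw [e1]; field_simp; ring
  · rw [e1]; field_simp; ring

lemma exp_Ioc {a b : ℝ} (ha : 0 ≤ a) (hab : a ≤ b) :
    expMeasure 1 (Set.Ioc a b) = ENNReal.ofReal (Real.exp (-a) - Real.exp (-b)) := by
  have := isProbabilityMeasure_expMeasure (r := 1) one_pos
  rw [← measure_cdf (expMeasure 1), StieltjesFunction.measure_Ioc,
    cdf_expMeasure_eq one_pos, cdf_expMeasure_eq one_pos, if_pos ha, if_pos (ha.trans hab)]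
  congr 1
  simp

lemma exp_Iic_zero : expMeasure 1 (Set.Iic 0) = 0 := by
  have := isProbabilityMeasure_expMeasure (r := 1) one_pos
  rw [← ofReal_cdf, cdf_expMeasure_eq one_pos]
  simp

/-- Independent exponential variables of parameter one. -/
structure ExpFam {Ω E : Type*} [MeasurableSpace Ω] (P : Measure Ω) (X : E → Ω → ℝ) : Prop where
  meas : ∀ e, Measurable (X e)
  indep : iIndepFun X P
  law : ∀ e, Measure.map (X e) P = expMeasure 1

section
variable {Ω : Type*} [MeasurableSpace Ω] {P : Measure Ω}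

lemma ExpFam.precomp {E E' : Type*} {X : E → Ω → ℝ} (H : ExpFam P X) {g : E' → E}
    (hg : Injective g) : ExpFam P (fun e => X (g e)) :=
  ⟨fun _ => H.meas _, H.indep.precomp hg, fun _ => H.law _⟩

lemma ExpFam.ae_pos {E : Type*} {X : E → Ω → ℝ} (H : ExpFam P X) (e : E) :
    ∀ᵐ ω ∂P, 0 < X e ω := by
  rw [ae_iff]
  have : {ω | ¬ 0 < X e ω} = X e ⁻¹' Set.Iic 0 := by ext ω; simp
  rw [this, ← Measure.map_apply (H.meas e) measurableSet_Iic, H.law, exp_Iic_zero]

lemma ExpFam.cell {X : I → Ω → ℝ} (H : ExpFam P X) {h : ℝ} (hh : 0 < h) {n : ℕ}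
    (ω' : I × Fin n → Bool) :
    P (⋂ e, X e ⁻¹' Set.Ioc (val h ω' e) (val h ω' e + h)) ≤
      ENNReal.ofReal (wt (pb I h n) ω') := by
  have h1 := H.indep.measure_inter_preimage_eq_mul univ
    (sets := fun e => Set.Ioc (val h ω' e) (val h ω' e + h)) (fun _ _ => measurableSet_Ioc)
  simp only [mem_univ, Set.iInter_true] at h1
  have hr0 : 0 < Real.exp (-h) := Real.exp_pos _
  rw [h1, wt_pb, ENNReal.ofReal_prod_of_nonneg (fun e _ => by positivity)]
  refine Finset.prod_le_prod' fun e _ => ?_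
  have hv : 0 ≤ val h ω' e := by unfold val; positivity
  rw [← Measure.map_apply (H.meas e) measurableSet_Ioc, H.law, exp_Ioc hv (by linarith)]
  refine ENNReal.ofReal_le_ofReal ?_
  have e1 : Real.exp (-val h ω' e) = Real.exp (-h) ^ nv ω' e := by
    rw [← Real.exp_nat_mul]; congr 1; unfold val; ring
  have e2 : Real.exp (-(val h ω' e + h)) = Real.exp (-h) ^ nv ω' e * Real.exp (-h) := by
    rw [← e1, ← Real.exp_add]; congr 1; ring
  rw [e1, e2, le_div_iff₀ (by positivity)]
  have h2 := prod_one_add_pow (Real.exp (-h)) n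
  have h3 : 0 ≤ Real.exp (-h) ^ 2 ^ n := by positivity
  have h4 : 0 ≤ Real.exp (-h) ^ nv ω' e := by positivity
  calc _ = Real.exp (-h) ^ nv ω' e *
        ((1 - Real.exp (-h)) * ∏ k : Fin n, (1 + Real.exp (-h) ^ 2 ^ (k : ℕ))) := by ring
    _ ≤ Real.exp (-h) ^ nv ω' e * 1 := by rw [h2]; gcongr; linarith
    _ = _ := mul_one _

lemma ExpFam.trunc_le {X : I → Ω → ℝ} (H : ExpFam P X) {h : ℝ} (hh : 0 < h) (n : ℕ)
    {Ψ : (I → ℝ) → ℝ} {D : ℝ}
    (hΨ : ∀ t s : I → ℝ, (∀ e, s e ≤ t e ∧ t e ≤ s e + h) → Ψ t ≤ Ψ s + D) :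
    ∫⁻ ω, {ω | ∀ e, X e ω ∈ Set.Ioc 0 (h * 2 ^ n)}.indicator
      (fun ω => ENNReal.ofReal (Real.exp (Ψ fun e => X e ω))) ω ∂P ≤
      ENNReal.ofReal (Real.exp D * EE (pb I h n) (fun ω' => Real.exp (Ψ (val h ω')))) := by
  have hp := pb_adm (I := I) hh n
  set A : (I × Fin n → Bool) → Set Ω := fun ω' =>
    ⋂ e, X e ⁻¹' Set.Ioc (val h ω' e) (val h ω' e + h) with hA
  have hAm : ∀ ω', MeasurableSet (A ω') := fun ω' =>
    MeasurableSet.iInter fun e => H.meas e measurableSet_Ioc
  calc _ ≤ ∫⁻ ω, ∑ ω', (A ω').indicator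
        (fun _ => ENNReal.ofReal (Real.exp D * Real.exp (Ψ (val h ω')))) ω ∂P := by
        refine lintegral_mono fun ω => ?_
        by_cases hω : ω ∈ {ω | ∀ e, X e ω ∈ Set.Ioc 0 (h * 2 ^ n)}
        · rw [Set.indicator_of_mem hω]
          have h1 : ∀ e, ∃ b : Fin n → Bool,
              ⌈X e ω / h⌉₊ - 1 = ∑ k : Fin n, if b k then 2 ^ (k : ℕ) else 0 := by
            intro e
            refine exists_bits n _ ?_
            have h2 : ⌈X e ω / h⌉₊ ≤ 2 ^ n := by
              rw [Nat.ceil_le, div_le_iff₀ hh]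
              push_cast
              linarith [(hω e).2]
            have : 0 < 2 ^ n := by positivity
            omega
          choose b hb using h1
          set ω' : I × Fin n → Bool := fun i => b i.1 i.2 with hω'
          have h2 : ∀ e, val h ω' e < X e ω ∧ X e ω ≤ val h ω' e + h := by
            intro e
            have h3 : 0 < X e ω / h := div_pos (hω e).1 hh
            have h4 : 1 ≤ ⌈X e ω / h⌉₊ := Nat.one_le_ceil_iff.2 h3
            have h5 : (nv ω' e : ℝ) = ⌈X e ω / h⌉₊ - 1 := by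
              have : nv ω' e = ⌈X e ω / h⌉₊ - 1 := (hb e).symm
              rw [this, Nat.cast_sub h4, Nat.cast_one]
            have h6 := Nat.ceil_lt_add_one h3.le
            have h7 := Nat.le_ceil (X e ω / h)
            unfold val
            rw [h5]
            rw [div_le_iff₀ hh] at h7
            have h8 : (⌈X e ω / h⌉₊ - 1 : ℝ) < X e ω / h := by linarith
            rw [lt_div_iff₀ hh] at h8
            constructor <;> linarith
          have h3 : ω ∈ A ω' := Set.mem_iInter.2 fun e => h2 e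
          refine le_trans ?_ (Finset.single_le_sum (f := fun ω' => (A ω').indicator
            (fun _ => ENNReal.ofReal (Real.exp D * Real.exp (Ψ (val h ω')))) ω)
            (fun _ _ => zero_le) (mem_univ ω'))
          simp only [Set.indicator_of_mem h3]
          refine ENNReal.ofReal_le_ofReal ?_
          rw [← Real.exp_add, Real.exp_le_exp, add_comm]
          exact hΨ _ _ fun e => ⟨(h2 e).1.le, (h2 e).2⟩
        · rw [Set.indicator_of_notMem hω]; exact zero_le
    _ = ∑ ω', ENNReal.ofReal (Real.exp D * Real.exp (Ψ (val h ω'))) * P (A ω') := by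
        rw [lintegral_finsetSum _ fun ω' _ => measurable_const.indicator (hAm ω')]
        exact Finset.sum_congr rfl fun ω' _ => lintegral_indicator_const (hAm ω') _
    _ ≤ ∑ ω', ENNReal.ofReal (Real.exp D * (wt (pb I h n) ω' * Real.exp (Ψ (val h ω')))) := by
        refine Finset.sum_le_sum fun ω' _ => ?_
        refine (mul_le_mul_right (H.cell hh ω') _).trans (le_of_eq ?_)
        rw [← ENNReal.ofReal_mul (by positivity)]
        congr 1
        ring
    _ = _ := by
        rw [← ENNReal.ofReal_sum_of_nonneg fun ω' _ =>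
          mul_nonneg (Real.exp_pos _).le (mul_nonneg (wt_nonneg hp _) (Real.exp_pos _).le)]
        rw [← Finset.mul_sum]
        rfl

lemma ExpFam.trunc_tendsto {X : I → Ω → ℝ} (H : ExpFam P X) {h : ℝ} (hh : 0 < h)
    {g : Ω → ℝ≥0∞} (hg : Measurable g) :
    Tendsto (fun n : ℕ => ∫⁻ ω, {ω | ∀ e, X e ω ∈ Set.Ioc 0 (h * 2 ^ n)}.indicator g ω ∂P) atTop
      (𝓝 (∫⁻ ω, g ω ∂P)) := by
  have hm : ∀ n : ℕ, MeasurableSet {ω | ∀ e, X e ω ∈ Set.Ioc 0 (h * 2 ^ n)} := fun n => by
    rw [Set.ofPred_forall]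
    exact MeasurableSet.iInter fun e => H.meas e measurableSet_Ioc
  refine lintegral_tendsto_of_tendsto_of_monotone (fun n => (hg.indicator (hm n)).aemeasurable)
    (Eventually.of_forall fun ω m n hmn => ?_) ?_
  · refine Set.indicator_le_indicator_of_subset (fun ω hω e => ⟨(hω e).1, (hω e).2.trans ?_⟩)
      (fun _ => zero_le) ω
    have : (2:ℝ) ^ m ≤ 2 ^ n := pow_le_pow_right₀ one_le_two hmn
    gcongr
  · filter_upwards [ae_all_iff.2 H.ae_pos] with ω hω
    refine tendsto_const_nhds.congr' ?_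
    have h1 : ∀ e, ∀ᶠ n : ℕ in atTop, X e ω ≤ h * 2 ^ n := fun e =>
      ((tendsto_pow_atTop_atTop_of_one_lt one_lt_two).const_mul_atTop hh).eventually_ge_atTop _
    filter_upwards [eventually_all.2 h1] with n hn
    rw [Set.indicator_of_mem]
    exact fun e => ⟨hω e, hn e⟩

lemma mgf_of_prod [IsProbabilityMeasure P] {Y : Ω → ℝ} (hY : Measurable Y) {C : ℝ}
    (h : (∫⁻ ω, ENNReal.ofReal (Real.exp (Y ω)) ∂P) *
      (∫⁻ ω, ENNReal.ofReal (Real.exp (-Y ω)) ∂P) ≤ ENNReal.ofReal (Real.exp C)) :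
    Integrable Y P ∧ Integrable (fun ω => Real.exp (Y ω)) P ∧
      ∫ ω, Real.exp (Y ω) ∂P ≤ Real.exp (∫ ω, Y ω ∂P + C) := by
  have hpos : ∀ Z : Ω → ℝ, Measurable Z → ∫⁻ ω, ENNReal.ofReal (Real.exp (Z ω)) ∂P ≠ 0 := by
    intro Z hZ h0
    rw [lintegral_eq_zero_iff (by fun_prop)] at h0
    obtain ⟨ω, hω⟩ := h0.exists
    simp only [Pi.zero_apply, ENNReal.ofReal_eq_zero] at hω
    exact absurd (Real.exp_pos _) (not_lt.2 hω)
  have hfin := (h.trans_lt ENNReal.ofReal_lt_top).ne
  have h1 : ∫⁻ ω, ENNReal.ofReal (Real.exp (Y ω)) ∂P ≠ ∞ := fun h1 => by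
    rw [h1, ENNReal.top_mul (hpos (fun ω => -Y ω) hY.neg)] at hfin; exact hfin rfl
  have h2 : ∫⁻ ω, ENNReal.ofReal (Real.exp (-Y ω)) ∂P ≠ ∞ := fun h2 => by
    rw [h2, ENNReal.mul_top (hpos Y hY)] at hfin; exact hfin rfl
  have i1 : Integrable (fun ω => Real.exp (Y ω)) P :=
    (lintegral_ofReal_ne_top_iff_integrable (by fun_prop)
      (Eventually.of_forall fun ω => (Real.exp_pos _).le)).1 h1
  have i2 : Integrable (fun ω => Real.exp (-Y ω)) P :=
    (lintegral_ofReal_ne_top_iff_integrable (by fun_prop)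
      (Eventually.of_forall fun ω => (Real.exp_pos _).le)).1 h2
  have i3 : Integrable Y P := by
    refine (i1.add i2).mono' hY.aestronglyMeasurable (Eventually.of_forall fun ω => ?_)
    have := Real.add_one_le_exp (Y ω)
    have := Real.add_one_le_exp (-Y ω)
    have := Real.exp_pos (Y ω)
    have := Real.exp_pos (-Y ω)
    simp only [Real.norm_eq_abs, Pi.add_apply]
    rw [abs_le]
    constructor <;> linarith
  refine ⟨i3, i1, ?_⟩
  rw [← ofReal_integral_eq_lintegral_ofReal i1 (Eventually.of_forall fun ω => (Real.exp_pos _).le),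
    ← ofReal_integral_eq_lintegral_ofReal i2 (Eventually.of_forall fun ω => (Real.exp_pos _).le),
    ← ENNReal.ofReal_mul (integral_nonneg fun ω => (Real.exp_pos _).le),
    ENNReal.ofReal_le_ofReal_iff (Real.exp_pos _).le] at h
  set m := ∫ ω, Y ω ∂P with hm
  have h3 : Real.exp (-m) ≤ ∫ ω, Real.exp (-Y ω) ∂P := by
    have h4 : ∫ ω, (Real.exp (-m) * (1 + m) - Real.exp (-m) * Y ω) ∂P ≤
        ∫ ω, Real.exp (-Y ω) ∂P := by
      refine integral_mono ((integrable_const _).sub (i3.const_mul _)) i2 fun ω => ?_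
      have e : Real.exp (-Y ω) = Real.exp (-m) * Real.exp (m - Y ω) := by
        rw [← Real.exp_add]; congr 1; ring
      have := Real.add_one_le_exp (m - Y ω)
      have := Real.exp_pos (-m)
      simp only
      rw [e]
      nlinarith
    rw [integral_sub (integrable_const _) (i3.const_mul _), integral_const, integral_const_mul,
      ← hm] at h4
    simp only [probReal_univ, smul_eq_mul, one_mul] at h4
    linarith
  have h4 : 0 ≤ ∫ ω, Real.exp (Y ω) ∂P := integral_nonneg fun ω => (Real.exp_pos _).le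
  have h5 := (mul_le_mul_of_nonneg_left h3 h4).trans h
  rw [Real.exp_neg, ← div_eq_mul_inv, div_le_iff₀ (Real.exp_pos _), ← Real.exp_add] at h5
  rwa [add_comm]

/-- Transfer of a two sided bound from the digits to the exponential variables. -/
theorem ExpFam.transfer [IsProbabilityMeasure P] {X : I → Ω → ℝ} (H : ExpFam P X) {h : ℝ}
    (hh : 0 < h) {Φ : (I → ℝ) → ℝ} (hΦm : Measurable Φ) {D C : ℝ}
    (hΦ : ∀ t s : I → ℝ, (∀ e, s e ≤ t e ∧ t e ≤ s e + h) → |Φ t - Φ s| ≤ D)
    (hb : ∀ n : ℕ, EE (pb I h n) (fun ω' => Real.exp (Φ (val h ω'))) *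
      EE (pb I h n) (fun ω' => Real.exp (-Φ (val h ω'))) ≤ Real.exp C) :
    Integrable (fun ω => Φ fun e => X e ω) P ∧
      Integrable (fun ω => Real.exp (Φ fun e => X e ω)) P ∧
      ∫ ω, Real.exp (Φ fun e => X e ω) ∂P ≤
        Real.exp (∫ ω, (Φ fun e => X e ω) ∂P + (C + 2 * D)) := by
  have hY : Measurable fun ω => Φ fun e => X e ω := hΦm.comp (measurable_pi_lambda _ H.meas)
  refine mgf_of_prod hY ?_
  have t1 := H.trunc_tendsto hh (g := fun ω => ENNReal.ofReal (Real.exp (Φ fun e => X e ω)))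
    hY.exp.ennreal_ofReal
  have t2 := H.trunc_tendsto hh (g := fun ω => ENNReal.ofReal (Real.exp (-Φ fun e => X e ω)))
    hY.neg.exp.ennreal_ofReal
  have hpos : ∀ Z : Ω → ℝ, Measurable Z → ∫⁻ ω, ENNReal.ofReal (Real.exp (Z ω)) ∂P ≠ 0 := by
    intro Z hZ h0
    rw [lintegral_eq_zero_iff (by fun_prop)] at h0
    obtain ⟨ω, hω⟩ := h0.exists
    simp only [Pi.zero_apply, ENNReal.ofReal_eq_zero] at hω
    exact absurd (Real.exp_pos _) (not_lt.2 hω)
  refine le_of_tendsto' (ENNReal.Tendsto.mul t1 (Or.inl (hpos _ hY)) t2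
    (Or.inl (hpos (fun ω => -Φ fun e => X e ω) hY.neg))) fun n => ?_
  have h1 := H.trunc_le hh n (Ψ := Φ) (D := D) fun t s hts => by
    linarith [(abs_le.1 (hΦ t s hts)).2]
  have h2 := H.trunc_le hh n (Ψ := fun t => -Φ t) (D := D) fun t s hts => by
    linarith [(abs_le.1 (hΦ t s hts)).1]
  have hp := pb_adm (I := I) hh n
  refine (mul_le_mul' h1 h2).trans ?_
  rw [← ENNReal.ofReal_mul (mul_nonneg (Real.exp_pos _).le
    (EE_nonneg hp fun _ => (Real.exp_pos _).le))]
  refine ENNReal.ofReal_le_ofReal ?_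
  have h3 := mul_le_mul_of_nonneg_left (hb n) (show 0 ≤ Real.exp D * Real.exp D by positivity)
  have e : Real.exp (C + 2 * D) = Real.exp D * Real.exp D * Real.exp C := by
    rw [← Real.exp_add, ← Real.exp_add]; congr 1; ring
  rw [e]
  linarith

end

end Pool.Agent.Lib.MP_de94ef_pr.Conc
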