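import Pool.Agent.Lib.MP_de94ef_pr.Val

-- part Pool.Agent.Lib.MP_de94ef_pr.Conc
section

/-!
Sub-Gaussian and sub-diffusive bounds on the Laplace transform of passage times.
-/

open MeasureTheory ProbabilityTheory Set Real Function Filter Topology
open scoped ENNReal

namespace Pool.Agent.Lib.MP_de94ef_pr

lemma exp_avg_le {ι κ : Type} {Z : Finset κ} (hZ : Z.Nonempty) (φ : κ → (ι → ℝ) → ℝ)
    (ω : ι → ℝ) : exp (avg Z φ ω) ≤ avg Z (fun z ω => exp (φ z ω)) ω := by
  have hc : (0 : ℝ) < Z.card := by exact_mod_cast hZ.card_pos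
  have := convexOn_exp.map_sum_le (t := Z) (w := fun _ => (Z.card : ℝ)⁻¹) (p := fun z => φ z ω)
    (fun _ _ => by positivity) (by simp [hc.ne']) (fun _ _ => mem_univ _)
  simpa only [avg, smul_eq_mul, Finset.mul_sum] using this

lemma lintegral_exp_avg_le {ι κ : Type} {Z : Finset κ} (hZ : Z.Nonempty)
    {φ : κ → (ι → ℝ) → ℝ} (hm : ∀ z ∈ Z, Measurable (φ z)) {B : ℝ≥0∞}
    (h : ∀ z ∈ Z, ∫⁻ ω, ENNReal.ofReal (exp (φ z ω)) ∂PP ι ≤ B) :
    ∫⁻ ω, ENNReal.ofReal (exp (avg Z φ ω)) ∂PP ι ≤ B := by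
  have hc : (0 : ℝ) < Z.card := by exact_mod_cast hZ.card_pos
  calc _ ≤ ∫⁻ ω, ENNReal.ofReal (Z.card : ℝ)⁻¹ * ∑ z ∈ Z, ENNReal.ofReal (exp (φ z ω)) ∂PP ι := by
        refine lintegral_mono fun ω => ?_
        rw [← ENNReal.ofReal_sum_of_nonneg fun _ _ => (exp_pos _).le,
          ← ENNReal.ofReal_mul (by positivity)]
        exact ENNReal.ofReal_le_ofReal (exp_avg_le hZ φ ω)
    _ ≤ ENNReal.ofReal (Z.card : ℝ)⁻¹ * ∑ _z ∈ Z, B := by
        rw [lintegral_const_mul' _ _ (by simp), lintegral_finsetSum _ fun z hz =>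
          (hm z hz).exp.ennreal_ofReal]
        gcongr with z hz
        exact h z hz
    _ = B := by
        rw [Finset.sum_const, nsmul_eq_mul, ← mul_assoc, ← ENNReal.ofReal_natCast,
          ← ENNReal.ofReal_mul (by positivity), inv_mul_cancel₀ hc.ne']
        simp

lemma mul_avg {ι κ : Type} (Z : Finset κ) (φ : κ → (ι → ℝ) → ℝ) (s : ℝ) (ω : ι → ℝ) :
    s * avg Z φ ω = avg Z (fun z ω => s * φ z ω) ω := by
  simp only [avg, ← Finset.mul_sum]; ring

lemma integral_avg {ι κ : Type} {Z : Finset κ} (hZ : Z.Nonempty) {φ : κ → (ι → ℝ) → ℝ}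
    (hi : ∀ z ∈ Z, Integrable (φ z) (PP ι)) {c : ℝ} (h : ∀ z ∈ Z, ∫ ω, φ z ω ∂PP ι = c) :
    ∫ ω, avg Z φ ω ∂PP ι = c := by
  have hc : (0 : ℝ) < Z.card := by exact_mod_cast hZ.card_pos
  unfold avg
  rw [integral_const_mul, integral_finsetSum _ hi, Finset.sum_congr rfl h, Finset.sum_const,
    nsmul_eq_mul]
  field_simp

lemma lintegral_tau (z : VV) {f : (EE → ℝ) → ℝ≥0∞} (hf : Measurable f) :
    ∫⁻ ω, f (tau z ω) ∂PP EE = ∫⁻ ω, f ω ∂PP EE := (measurePreserving_tau z).lintegral_comp hf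

/-- Average of translates of the truncated passage time. -/
noncomputable def FL (L : ℕ) (x : VV) (Z : Finset VV) : (EE → ℝ) → ℝ :=
  avg Z fun z ω => phiL L x (tau z ω)

lemma integral_FL (L : ℕ) (x : VV) {Z : Finset VV} (hZ : Z.Nonempty) :
    ∫ ω, FL L x Z ω ∂PP EE = ∫ ω, phiL L x ω ∂PP EE :=
  integral_avg hZ (fun z _ => ((isMP_phiL L x).tau z).bdd.integrable)
    fun z _ => integral_tau z (isMP_phiL L x).meas

lemma eventually_stair (x : VV) :
    ∀ᶠ L : ℕ in atTop, ∀ ω, phiL L x ω ≤ wt ω (es (stair 0 x)) := by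
  obtain ⟨L0, h⟩ := exists_box (stair 0 x).support
  filter_upwards [eventually_ge_atTop L0] with L hL ω using phiL_le ω _ (h L hL)

lemma FL_hyp {L : ℕ} {x : VV} {Z : Finset VV} (hZ : Z.Nonempty) {n : ℝ} (hn : n1 x ≤ n)
    (hL : ∀ ω, phiL L x ω ≤ wt ω (es (stair 0 x))) :
    ∫ ω, FL L x Z ω ∂PP EE ≤ n ∧ ∫ ω, exp (1 / 2 * FL L x Z ω) ∂PP EE ≤ exp n := by
  have hc := card_stair 0 x
  rw [sub_zero] at hc
  constructor
  · rw [integral_FL L x hZ]
    refine (integral_mono (isMP_phiL L x).bdd.integrable (integrable_wt _) hL).trans ?_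
    rw [integral_wt]; linarith
  · have bF : Bdd (FL L x Z) := bdd_avg fun z _ => ((isMP_phiL L x).tau z).bdd
    rw [← ENNReal.ofReal_le_ofReal_iff (exp_pos _).le, ofReal_integral_eq_lintegral_ofReal
      (bF.expmul _).integrable (ae_of_all _ fun ω => (exp_pos _).le)]
    simp only [FL, mul_avg]
    refine lintegral_exp_avg_le hZ (fun z _ => ((isMP_phiL L x).tau z).meas.const_mul _)
      fun z _ => ?_
    have hm := (isMP_phiL L x).meas
    rw [lintegral_tau z (f := fun ω => ENNReal.ofReal (exp (1 / 2 * phiL L x ω))) (by fun_prop)]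
    have := lintegral_exp_wt_le (t := 1 / 2) (by norm_num) le_rfl (hc.trans hn)
    refine le_trans (lintegral_mono fun ω => ?_) (this.trans (le_of_eq (by congr 2; ring)))
    gcongr
    exact hL ω

lemma lim_avg (x : VV) {Z : Finset VV} (hZ : Z.Nonempty) (s B : ℝ)
    (h : ∀ᶠ L : ℕ in atTop,
      ∫ ω, exp (s * (FL L x Z ω - ∫ η, FL L x Z η ∂PP EE)) ∂PP EE ≤ B) :
    ∫⁻ ω, ENNReal.ofReal (exp (s * (avg Z (fun z ω => TT ω z (x + z)) ω - hh x))) ∂PP EE ≤
      ENNReal.ofReal B := by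
  have bF : ∀ L, Bdd (FL L x Z) := fun L => bdd_avg fun z _ => ((isMP_phiL L x).tau z).bdd
  have c1 : Tendsto (fun L : ℕ => ∫ η, FL L x Z η ∂PP EE) atTop (𝓝 (hh x)) := by
    simp only [integral_FL _ x hZ]
    refine tendsto_integral_filter_of_dominated_convergence (fun ω => wt ω (es (stair 0 x)))
      (Eventually.of_forall fun L => (isMP_phiL L x).meas.aestronglyMeasurable) ?_
      (integrable_wt _) (ae_of_all _ (tendsto_phiL x))
    filter_upwards [eventually_stair x] with L hL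
    refine ae_of_all _ fun ω => ?_
    rw [Real.norm_eq_abs, abs_of_nonneg ((isMP_phiL L x).nonneg ω)]
    exact hL ω
  have c2 : ∀ ω, Tendsto (fun L : ℕ => ENNReal.ofReal
      (exp (s * (FL L x Z ω - ∫ η, FL L x Z η ∂PP EE)))) atTop
      (𝓝 (ENNReal.ofReal (exp (s * (avg Z (fun z ω => TT ω z (x + z)) ω - hh x))))) := by
    intro ω
    refine ENNReal.tendsto_ofReal (Tendsto.rexp (Tendsto.const_mul _ (Tendsto.sub ?_ c1)))
    refine Tendsto.const_mul _ (tendsto_finsetSum _ fun z _ => ?_)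
    have := tendsto_phiL x (tau z ω)
    rwa [TT_tau, zero_add] at this
  have c3 := lintegral_liminf_le (μ := PP EE) (u := atTop)
    (f := fun (L : ℕ) ω => ENNReal.ofReal (exp (s * (FL L x Z ω - ∫ η, FL L x Z η ∂PP EE))))
    (fun L => (((bF L).sub (Bdd.const _)).expmul s).1.ennreal_ofReal)
  simp only [(c2 _).liminf_eq] at c3
  refine c3.trans (liminf_le_of_frequently_le' (Eventually.frequently ?_))
  filter_upwards [h] with L hL
  rw [← ofReal_integral_eq_lintegral_ofReal (((bF L).sub (Bdd.const _)).expmul s).integrable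
    (ae_of_all _ fun ω => (exp_pos _).le)]
  exact ENNReal.ofReal_le_ofReal hL

lemma dependsOn_FL (L : ℕ) (x : VV) (Z : Finset VV) : ∀ z ∈ Z,
    DependsOn (fun ω => phiL L x (tau z ω))
      ((Z.biUnion fun z => (box 0 L).sym2.image (sh z) : Finset EE) : Set EE) := fun z hz =>
  (dependsOn_tau (dependsOn_phiL L x) z).mono
    (Finset.coe_subset.2 (Finset.subset_biUnion_of_mem (fun z => (box 0 L).sym2.image (sh z)) hz))

lemma lintegral_shift (u v : VV) {g : ℝ → ℝ≥0∞} (hg : Measurable g) :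
    ∫⁻ ω, g (TT ω u v) ∂PP EE = ∫⁻ ω, g (TT ω 0 (v - u)) ∂PP EE := by
  rw [← lintegral_tau u (f := fun ω => g (TT ω 0 (v - u))) (by fun_prop)]
  simp [TT_tau]

/-- Sub-Gaussian bound for passage times. -/
theorem subgauss (u v : VV) {n s : ℝ} (hn : n1 (v - u) ≤ n) (hs : |s| ≤ 1 / 4) :
    ∫⁻ ω, ENNReal.ofReal (exp (s * (TT ω u v - hh (v - u)))) ∂PP EE ≤
      ENNReal.ofReal (exp (46000 * (2 * n + 1) * s ^ 2)) := by
  rw [lintegral_shift u v (g := fun t => ENNReal.ofReal (exp (s * (t - hh (v - u)))))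
    (by fun_prop)]
  have hZ : ({0} : Finset VV).Nonempty := Finset.singleton_nonempty _
  have := lim_avg (v - u) hZ s (exp (46000 * (2 * n + 1) * s ^ 2)) (by
    filter_upwards [eventually_stair (v - u)] with L hL
    obtain ⟨h1, h2⟩ := FL_hyp hZ hn hL
    refine (sg_abs (fun z _ => (isMP_phiL L (v - u)).tau z) (dependsOn_FL L (v - u) _)
      ((n1_nonneg _).trans hn) h1 h2 hs).trans (le_of_eq ?_)
    congr 1; ring)
  simpa [avg] using this

lemma sh_neg_injective (e : EE) : Injective fun z : VV => sh (-z) e := by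
  induction e using Sym2.ind with
  | h a b =>
    intro z z' h
    simp only [sh, Sym2.map_mk, Sym2.eq_iff, Prod.ext_iff, Prod.fst_add, Prod.snd_add,
      Prod.fst_neg, Prod.snd_neg] at h ⊢
    omega

lemma n1_le_of_mem_box {a u v : VV} {L : ℕ} (hu : u ∈ box a L) (hv : v ∈ box a L) :
    n1 (v - u) ≤ 4 * L := by
  rw [mem_box] at hu hv
  have h1 : |v.1 - u.1| ≤ 2 * L := by rw [abs_le]; omega
  have h2 : |v.2 - u.2| ≤ 2 * L := by rw [abs_le]; omega
  have h1' : |(v.1 : ℝ) - u.1| ≤ 2 * L := by exact_mod_cast h1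
  have h2' : |(v.2 : ℝ) - u.2| ≤ 2 * L := by exact_mod_cast h2
  simp only [n1, Prod.fst_sub, Prod.snd_sub, Int.cast_sub]
  linarith

lemma integrable_exp_wt (S : Finset EE) :
    Integrable (fun ω : EE → ℝ => exp (1 / 2 * wt ω S)) (PP EE) := by
  refine ⟨Measurable.aestronglyMeasurable (by fun_prop), ?_⟩
  rw [hasFiniteIntegral_iff_ofReal (ae_of_all _ fun ω => (exp_pos _).le)]
  exact lt_of_le_of_lt (lintegral_exp_wt_le (by norm_num) le_rfl le_rfl) ENNReal.ofReal_lt_top

lemma integral_exp_wt_le {S : Finset EE} {n : ℝ} (hn : (S.card : ℝ) ≤ n) :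
    ∫ ω, exp (1 / 2 * wt ω S) ∂PP EE ≤ exp n := by
  rw [← ENNReal.ofReal_le_ofReal_iff (exp_pos _).le, ofReal_integral_eq_lintegral_ofReal
    (integrable_exp_wt S) (ae_of_all _ fun ω => (exp_pos _).le)]
  exact (lintegral_exp_wt_le (by norm_num) le_rfl hn).trans (le_of_eq (by congr 2; ring))

lemma local_mean (L : ℕ) (x : VV) (S : Finset EE) (a : VV) (k : ℕ)
    (hS : ∀ e ∈ S, e ∈ GG.edgeSet → ∀ w ∈ e, w ∈ box a k) :
    ∫ ω, ∑ e ∈ S, max (ω e) 0 * piv (phiL L x) L e ω ∂PP EE ≤ 24 * k + 2 := by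
  set B := box a k
  have i1 : ∀ q ∈ B ×ˢ B, Integrable (fun ω : EE → ℝ =>
      2 * exp (-(12 * k)) * exp (1 / 2 * wt ω (es (stair q.1 q.2)))) (PP EE) := fun q _ =>
    (integrable_exp_wt _).const_mul _
  calc _ ≤ ∫ ω, (24 * k + ∑ q ∈ B ×ˢ B,
        2 * exp (-(12 * k)) * exp (1 / 2 * wt ω (es (stair q.1 q.2)))) ∂PP EE := by
        refine integral_mono (integrable_finsetSum _ fun e _ =>
          (bdd_piv (isMP_phiL L x).meas L e).mul_integrable (integrable_pos_coord e))
          ((integrable_const _).add (integrable_finsetSum _ i1)) fun ω => ?_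
        refine local_piv L x ω S B hS (by positivity) fun u hu v hv => ?_
        have h1 := Finset.single_le_sum (s := B ×ˢ B) (a := (u, v))
          (f := fun q => 2 * exp (-(12 * k)) * exp (1 / 2 * wt ω (es (stair q.1 q.2))))
          (fun _ _ => by positivity) (Finset.mem_product.2 ⟨hu, hv⟩)
        have h2 := add_one_le_exp (-(12 * k) + 1 / 2 * wt ω (es (stair u v)))
        rw [exp_add] at h2
        simp only at h1
        linarith
    _ ≤ 24 * k + ∑ _q ∈ B ×ˢ B, 2 * exp (-(12 * k)) * exp (4 * k) := by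
        rw [integral_add (integrable_const _) (integrable_finsetSum _ i1), integral_finsetSum _ i1]
        simp only [integral_const, probReal_univ, smul_eq_mul, one_mul]
        gcongr with q hq
        rw [integral_const_mul]
        gcongr
        exact integral_exp_wt_le ((card_stair _ _).trans
          (n1_le_of_mem_box (Finset.mem_product.1 hq).1 (Finset.mem_product.1 hq).2))
    _ ≤ _ := by
        rw [Finset.sum_const, Finset.card_product, card_box, nsmul_eq_mul]
        have h1 : (2 * k + 1 : ℝ) ≤ exp (2 * k) := add_one_le_exp _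
        have h2 : exp (2 * k) ^ 4 * (exp (-(12 * k)) * exp (4 * k)) = 1 := by
          rw [← exp_nat_mul, ← exp_add, ← exp_add, exp_eq_one_iff]; push_cast; ring
        have h3 : (2 * k + 1 : ℝ) ^ 4 ≤ exp (2 * k) ^ 4 := by gcongr
        have h4 := mul_le_mul_of_nonneg_right h3
          (by positivity : 0 ≤ exp (-(12 * k : ℝ)) * exp (4 * k))
        push_cast
        nlinarith

lemma beta_le (L : ℕ) (x : VV) {m : ℕ} (hm : 1 ≤ m) (e : EE) :
    ∫ ω, max (ω e) 0 * avg (box 0 m) (fun z => piv (fun ω => phiL L x (tau z ω)) L e) ω ∂PP EE ≤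
      16 / m := by
  have bp : ∀ e, Bdd (piv (phiL L x) L e) := fun e => bdd_piv (isMP_phiL L x).meas L e
  have e1 : ∀ ω : EE → ℝ, max (ω e) 0 *
      avg (box 0 m) (fun z => piv (fun ω => phiL L x (tau z ω)) L e) ω =
      ((box 0 m).card : ℝ)⁻¹ * ∑ z ∈ box 0 m,
        max (tau z ω (sh (-z) e)) 0 * piv (phiL L x) L (sh (-z) e) (tau z ω) := by
    intro ω
    have : ∀ z, tau z ω (sh (-z) e) = ω e := fun z => by simp [tau, sh_sh]
    simp only [avg, piv_tau, this, ← Finset.mul_sum]; ring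
  have i1 : ∀ e, Integrable (fun ω : EE → ℝ => max (ω e) 0 * piv (phiL L x) L e ω) (PP EE) :=
    fun e => (bp e).mul_integrable (integrable_pos_coord e)
  simp only [e1]
  have i2 : ∀ z ∈ box 0 m, Integrable (fun ω => max (tau z ω (sh (-z) e)) 0 *
      piv (phiL L x) L (sh (-z) e) (tau z ω)) (PP EE) := fun z _ =>
    (measurePreserving_tau z).integrable_comp_of_integrable (i1 (sh (-z) e))
  rw [integral_const_mul, integral_finsetSum _ i2]
  have e2 : ∀ z ∈ box 0 m, ∫ ω, max (tau z ω (sh (-z) e)) 0 *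
      piv (phiL L x) L (sh (-z) e) (tau z ω) ∂PP EE =
      ∫ ω, max (ω (sh (-z) e)) 0 * piv (phiL L x) L (sh (-z) e) ω ∂PP EE := fun z _ =>
    integral_tau z (f := fun ω => max (ω (sh (-z) e)) 0 * piv (phiL L x) L (sh (-z) e) ω)
      (Measurable.mul (by fun_prop) (bp _).1)
  rw [Finset.sum_congr rfl e2, ← Finset.sum_image (s := box 0 m) (g := fun z => sh (-z) e)
    (f := fun e' => ∫ ω, max (ω e') 0 * piv (phiL L x) L e' ω ∂PP EE)
    (fun a _ b _ h => sh_neg_injective e h), ← integral_finsetSum _ fun e _ => i1 e]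
  induction e using Sym2.ind with
  | h a b =>
    have := local_mean L x ((box 0 m).image fun z => sh (-z) s(a, b)) a (m + 1) (by
      intro e' he' hadj w hw
      obtain ⟨z, hz, rfl⟩ := Finset.mem_image.1 he'
      simp only [sh, Sym2.map_mk, SimpleGraph.mem_edgeSet, GG, Sym2.mem_iff, Prod.fst_add,
        Prod.snd_add, Prod.fst_neg, Prod.snd_neg] at hadj hw
      have a1 := abs_nonneg (b.1 + -z.1 - (a.1 + -z.1))
      have a2 := abs_nonneg (b.2 + -z.2 - (a.2 + -z.2))
      have a3 := abs_le.1 (show |b.1 + -z.1 - (a.1 + -z.1)| ≤ 1 by omega)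
      have a4 := abs_le.1 (show |b.2 + -z.2 - (a.2 + -z.2)| ≤ 1 by omega)
      simp only [mem_box, Prod.fst_zero, Prod.snd_zero] at hz ⊢
      rcases hw with rfl | rfl <;>
        simp only [Prod.fst_add, Prod.snd_add, Prod.fst_neg, Prod.snd_neg] <;> omega)
    have hm' : (1 : ℝ) ≤ m := by exact_mod_cast hm
    rw [card_box, inv_mul_le_iff₀ (by positivity)]
    refine this.trans ?_
    push_cast
    rw [mul_div_assoc', le_div_iff₀ (by positivity)]
    nlinarith

lemma exp_add_le (a b : ℝ) : exp (a + b) ≤ 1 / 2 * exp (2 * a) + 1 / 2 * exp (2 * b) := by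
  rw [exp_add, two_mul, two_mul, exp_add, exp_add]
  nlinarith [sq_nonneg (exp a - exp b)]

lemma lintegral_exp_add_le {α : Type*} [MeasurableSpace α] {P : Measure α} {X Y : α → ℝ}
    (hX : Measurable X) {A B : ℝ} (hA : 0 ≤ A) (hB : 0 ≤ B)
    (h1 : ∫⁻ ω, ENNReal.ofReal (exp (2 * X ω)) ∂P ≤ ENNReal.ofReal A)
    (h2 : ∫⁻ ω, ENNReal.ofReal (exp (2 * Y ω)) ∂P ≤ ENNReal.ofReal B) :
    ∫⁻ ω, ENNReal.ofReal (exp (X ω + Y ω)) ∂P ≤ ENNReal.ofReal ((A + B) / 2) := by
  calc _ ≤ ∫⁻ ω, (ENNReal.ofReal (1 / 2) * ENNReal.ofReal (exp (2 * X ω)) +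
        ENNReal.ofReal (1 / 2) * ENNReal.ofReal (exp (2 * Y ω))) ∂P := by
        refine lintegral_mono fun ω => ?_
        rw [← ENNReal.ofReal_mul (by norm_num), ← ENNReal.ofReal_mul (by norm_num),
          ← ENNReal.ofReal_add (by positivity) (by positivity)]
        exact ENNReal.ofReal_le_ofReal (exp_add_le _ _)
    _ ≤ ENNReal.ofReal (1 / 2) * ENNReal.ofReal A + ENNReal.ofReal (1 / 2) * ENNReal.ofReal B := by
        rw [lintegral_add_left (by fun_prop), lintegral_const_mul' _ _ (by simp),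
          lintegral_const_mul' _ _ (by simp)]
        gcongr
    _ = _ := by
        rw [← ENNReal.ofReal_mul (by norm_num), ← ENNReal.ofReal_mul (by norm_num),
          ← ENNReal.ofReal_add (by positivity) (by positivity)]
        congr 1; ring

lemma superconc_aux (x : VV) {m : ℕ} (hm : 5 ≤ m) {n s : ℝ} (hn : n1 x ≤ n) (hs : |s| ≤ 1 / 8)
    (hsm : 16 * |s| * m ≤ 1) (hsn : 2 * (12000 * (8 * n + 4) / (log m / 4)) * (2 * s) ^ 2 ≤ 1) :
    ∫⁻ ω, ENNReal.ofReal (exp (s * (TT ω 0 x - hh x))) ∂PP EE ≤ ENNReal.ofReal 3 := by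
  have hZ : (box 0 m).Nonempty := ⟨0, by simp [mem_box]⟩
  have hm' : (5 : ℝ) ≤ m := by exact_mod_cast hm
  have hn0 : 0 ≤ n := (n1_nonneg _).trans hn
  have hlog : 1.6 ≤ log m := by
    rw [le_log_iff_exp_le (by linarith)]
    refine le_trans ?_ hm'
    have h1 : exp 1.6 = exp 1 * exp 0.6 := by rw [← exp_add]; norm_num
    have h2 : exp 0.6 ≤ 1.83 := by
      have := exp_bound' (x := 0.6) (by norm_num) (by norm_num) (n := 4) (by norm_num)
      norm_num [Finset.sum_range_succ, Nat.factorial] at this ⊢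
      linarith
    rw [h1]
    nlinarith [exp_one_lt_d9, exp_pos 1, exp_pos 0.6]
  have e3 : exp 1 ≤ 3 := by linarith [exp_one_lt_d9]
  have hsq : 0 < √(m : ℝ) := sqrt_pos.2 (by linarith)
  have A := lim_avg x hZ (2 * s) 3 (by
    filter_upwards [eventually_stair x] with L hL
    obtain ⟨h1, h2⟩ := FL_hyp hZ hn hL
    refine (sc_abs (fun z _ => (isMP_phiL L x).tau z) (dependsOn_FL L x _) hn0 h1 h2
      (a := √(m : ℝ) / 4) (b := 4 / √(m : ℝ)) (l := log m / 4) (by positivity) (by positivity)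
      (le_of_eq (by field_simp)) (by linarith) ?_ (fun e => ?_) (s := 2 * s)
      (by rw [abs_mul, abs_two]; linarith) ?_).trans ((exp_le_exp.2 hsn).trans e3)
    · rw [log_div hsq.ne' (by norm_num), log_sqrt (by linarith)]
      have : log 4 = 2 * log 2 := by rw [show (4 : ℝ) = 2 ^ 2 by norm_num, Real.log_pow]; norm_num
      linarith [log_two_lt_d9]
    · rw [div_pow, sq_sqrt (by linarith)]
      exact (beta_le L x (by omega) e).trans (le_of_eq (by norm_num))
    · have : 0 ≤ 12000 * (8 * n + 4) / (log m / 4) * (2 * s) ^ 2 := by positivity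
      linarith)
  have Bm : ∫⁻ ω, ENNReal.ofReal (exp (avg (box 0 m) (fun z ω =>
      2 * |s| * wt ω (es (stair 0 z)) + 2 * |s| * wt ω (es (stair x (x + z)))) ω)) ∂PP EE ≤
      ENNReal.ofReal 3 := by
    refine lintegral_exp_avg_le hZ (fun z _ => by fun_prop) fun z hz => ?_
    have hz' : n1 z ≤ 2 * m := by
      rw [mem_box] at hz
      have h1 : |z.1| ≤ m := by rw [abs_le]; simp at hz; omega
      have h2 : |z.2| ≤ m := by rw [abs_le]; simp at hz; omega
      have h1' : |(z.1 : ℝ)| ≤ m := by exact_mod_cast h1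
      have h2' : |(z.2 : ℝ)| ≤ m := by exact_mod_cast h2
      unfold n1; linarith
    have key : ∀ S : Finset EE, (S.card : ℝ) ≤ 2 * m →
        ∫⁻ ω, ENNReal.ofReal (exp (2 * (2 * |s| * wt ω S))) ∂PP EE ≤ ENNReal.ofReal 3 := by
      intro S hS
      have := lintegral_exp_wt_le (t := 4 * |s|) (by positivity) (by linarith) hS
      refine le_trans (le_of_eq ?_) (this.trans (ENNReal.ofReal_le_ofReal
        ((exp_le_exp.2 (by linarith)).trans e3)))
      congr 1; funext ω; congr 2; ring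
    have := lintegral_exp_add_le (P := PP EE) (X := fun ω => 2 * |s| * wt ω (es (stair 0 z)))
      (Y := fun ω => 2 * |s| * wt ω (es (stair x (x + z)))) (by fun_prop) (by norm_num)
      (by norm_num) (key _ ((card_stair _ _).trans (by simpa using hz')))
      (key _ ((card_stair _ _).trans (by simpa using hz')))
    simpa using this
  have C := lintegral_exp_add_le (P := PP EE)
    (X := fun ω => s * (avg (box 0 m) (fun z ω => TT ω z (x + z)) ω - hh x))
    (Y := fun ω => |s| * avg (box 0 m) (fun z ω =>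
      wt ω (es (stair 0 z)) + wt ω (es (stair x (x + z)))) ω) (A := 3) (B := 3)
    (by unfold avg; fun_prop) (by norm_num) (by norm_num)
    (by simpa only [mul_assoc] using A)
    (by simpa only [← mul_assoc, mul_avg, mul_add] using Bm)
  refine le_trans (lintegral_mono fun ω => ?_) (C.trans (le_of_eq (by norm_num)))
  refine ENNReal.ofReal_le_ofReal (exp_le_exp.2 ?_)
  have hc : (0 : ℝ) < (box 0 m).card := by exact_mod_cast hZ.card_pos
  have d1 : |TT ω 0 x - avg (box 0 m) (fun z ω => TT ω z (x + z)) ω| ≤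
      avg (box 0 m) (fun z ω => wt ω (es (stair 0 z)) + wt ω (es (stair x (x + z)))) ω := by
    have : TT ω 0 x - avg (box 0 m) (fun z ω => TT ω z (x + z)) ω =
        ((box 0 m).card : ℝ)⁻¹ * ∑ z ∈ box 0 m, (TT ω 0 x - TT ω z (x + z)) := by
      rw [Finset.sum_sub_distrib, Finset.sum_const, nsmul_eq_mul, avg]; field_simp
    rw [this, abs_mul, abs_of_pos (by positivity), avg]
    refine mul_le_mul_of_nonneg_left ((Finset.abs_sum_le_sum_abs _ _).trans
      (Finset.sum_le_sum fun z _ => ?_)) (by positivity)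
    have t1 := TT_triangle ω 0 z x
    have t2 := TT_triangle ω z (x + z) x
    have t3 := TT_triangle ω z 0 (x + z)
    have t4 := TT_triangle ω 0 x (x + z)
    rw [TT_symm ω (x + z) x] at t2
    rw [TT_symm ω z 0] at t3
    rw [abs_le]
    constructor <;> linarith [TT_le ω (stair 0 z), TT_le ω (stair x (x + z))]
  have d2 := le_abs_self (s * (TT ω 0 x - avg (box 0 m) (fun z ω => TT ω z (x + z)) ω))
  rw [abs_mul] at d2
  nlinarith [mul_le_mul_of_nonneg_left d1 (abs_nonneg s)]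

end Pool.Agent.Lib.MP_de94ef_pr
end

-- part Pool.Agent.Lib.MP_de94ef_pr.Sigma
section

/-!
The sub-diffusive scale, superconcentration, and a calculus of exponential moments.
-/

open MeasureTheory ProbabilityTheory Set Real Function Filter Topology
open scoped ENNReal

namespace Pool.Agent.Lib.MP_de94ef_pr

/-- The sub-diffusive scale. -/
noncomputable def sig (r : ℝ) : ℝ := √(r / log (r + 1024))

lemma log_1024 : log 1024 = 10 * log 2 := by
  rw [show (1024 : ℝ) = 2 ^ 10 by norm_num, Real.log_pow]; norm_num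

lemma le_lg {r : ℝ} (hr : 0 ≤ r) : 10 * log 2 ≤ log (r + 1024) := by
  rw [← log_1024]; exact log_le_log (by norm_num) (by linarith)

lemma one_le_lg {r : ℝ} (hr : 0 ≤ r) : 1 ≤ log (r + 1024) := by
  linarith [le_lg hr, log_two_gt_d9]

lemma sig_nonneg (r : ℝ) : 0 ≤ sig r := sqrt_nonneg _

lemma sig_sq {r : ℝ} (hr : 0 ≤ r) : sig r ^ 2 = r / log (r + 1024) :=
  sq_sqrt (div_nonneg hr (by linarith [one_le_lg hr]))

lemma sig_mono {r r' : ℝ} (hr : 0 ≤ r) (h : r ≤ r') : sig r ≤ sig r' := by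
  refine sqrt_le_sqrt ?_
  have h1 := one_le_lg hr
  have h2 := one_le_lg (hr.trans h)
  rw [div_le_div_iff₀ (by linarith) (by linarith)]
  have h3 := log_le_sub_one_of_pos (x := (r' + 1024) / (r + 1024)) (by
    apply div_pos <;> linarith)
  rw [log_div (by linarith) (by linarith)] at h3
  have h4 : r * ((r' + 1024) / (r + 1024) - 1) ≤ r' - r := by
    have : (r' + 1024) / (r + 1024) - 1 = (r' - r) / (r + 1024) := by field_simp; ring
    rw [this, ← mul_div_assoc, div_le_iff₀ (by linarith)]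
    nlinarith
  nlinarith [mul_le_mul_of_nonneg_left h3 hr]

lemma sig_le_mul {r r' k : ℝ} (hr : 0 ≤ r) (hr' : 0 ≤ r') (hk : 0 ≤ k)
    (h : r * log (r' + 1024) ≤ k ^ 2 * r' * log (r + 1024)) : sig r ≤ k * sig r' := by
  refine abs_le_of_sq_le_sq' ?_ (mul_nonneg hk (sig_nonneg _)) |>.2
  have h1 := one_le_lg hr
  have h2 := one_le_lg hr'
  rw [mul_pow, sig_sq hr, sig_sq hr', ← mul_div_assoc, div_le_div_iff₀ (by linarith) (by linarith)]
  exact h

lemma sig_half {r : ℝ} (hr : 0 ≤ r) : sig (r / 2) ≤ 3 / 4 * sig r := by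
  refine sig_le_mul (by linarith) hr (by norm_num) ?_
  have h1 : log (r + 1024) ≤ log 2 + log (r / 2 + 1024) := by
    rw [← log_mul (by norm_num) (by linarith)]
    exact log_le_log (by linarith) (by linarith)
  have h2 := le_lg (r := r / 2) (by linarith)
  have h3 : log (r + 1024) ≤ 9 / 8 * log (r / 2 + 1024) := by linarith [log_two_gt_d9]
  nlinarith [mul_le_mul_of_nonneg_left h3 hr]

lemma sig_pow_half {r : ℝ} (hr : 0 ≤ r) (j : ℕ) : sig (r / 2 ^ j) ≤ (3 / 4) ^ j * sig r := by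
  induction j with
  | zero => simp
  | succ j ih =>
    have := sig_half (r := r / 2 ^ j) (by positivity)
    rw [div_div, ← pow_succ] at this
    rw [pow_succ (3 / 4 : ℝ)]
    linarith

lemma sig_mul {r k : ℝ} (hr : 0 ≤ r) (hk : 1 ≤ k) : sig (k ^ 2 * r) ≤ k * sig r := by
  have h0 : r ≤ k ^ 2 * r := by nlinarith [one_le_pow₀ (n := 2) hk]
  refine sig_le_mul (by positivity) hr (by linarith) ?_
  exact mul_le_mul_of_nonneg_left (log_le_log (by linarith) (by linarith)) (by positivity)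

lemma sig_le {r r' k : ℝ} (hr : 0 ≤ r) (hr' : 0 ≤ r') (hk : 1 ≤ k) (h : r ≤ k ^ 2 * r') :
    sig r ≤ k * sig r' := (sig_mono hr h).trans (sig_mul hr' hk)

lemma sig_sq_le {r : ℝ} (hr : 0 ≤ r) : sig r ^ 2 ≤ r := by
  rw [sig_sq hr]; exact div_le_self hr (one_le_lg hr)

lemma sig_le_self {r : ℝ} (hr : 1 ≤ r) : sig r ≤ r :=
  abs_le_of_sq_le_sq' ((sig_sq_le (by linarith)).trans (by nlinarith)) (by linarith) |>.2

lemma sig_ge {r : ℝ} (hr : 1 ≤ r) : 1 / 3 ≤ sig r := by
  refine le_trans ?_ (sig_mono zero_le_one hr)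
  refine le_sqrt_of_sq_le ?_
  have h1 : log (1 + 1024) ≤ 11 * log 2 := by
    rw [← show log ((2 : ℝ) ^ 11) = 11 * log 2 by rw [Real.log_pow]; norm_num]
    exact log_le_log (by norm_num) (by norm_num)
  rw [le_div_iff₀ (by linarith [one_le_lg zero_le_one])]
  generalize log (1 + 1024) = L at h1 ⊢
  linarith [log_two_lt_d9]

lemma sig_pos {r : ℝ} (hr : 1 ≤ r) : 0 < sig r := by linarith [sig_ge hr]

lemma sig_large (C : ℝ) : ∃ m0 : ℝ, 1 ≤ m0 ∧ ∀ m, m0 ≤ m → C ≤ sig m := by
  obtain ⟨j, hj⟩ := exists_pow_lt_of_lt_one (x := 1 / (3 * (|C| + 1))) (y := (3 / 4 : ℝ))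
    (by positivity) (by norm_num)
  refine ⟨2 ^ j, one_le_pow₀ (by norm_num), fun m hm => ?_⟩
  have h1 := sig_pow_half (r := 2 ^ j) (by positivity) j
  rw [div_self (by positivity)] at h1
  have h2 := sig_mono (by positivity) hm
  have h3 := sig_ge le_rfl
  have h4 := sig_nonneg (2 ^ j)
  have h5 := mul_le_mul_of_nonneg_right hj.le h4
  rw [one_div, inv_mul_eq_div] at h5
  have h6 : 1 / 3 ≤ sig (2 ^ j) / (3 * (|C| + 1)) := by linarith
  rw [le_div_iff₀ (by positivity)] at h6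
  linarith [le_abs_self C]

lemma sig_small {ε : ℝ} (hε : 0 < ε) : ∃ m0 : ℝ, 1 ≤ m0 ∧ ∀ m, m0 ≤ m → sig m ≤ ε * m := by
  refine ⟨max 1 (1 / ε ^ 2), le_max_left _ _, fun m hm => ?_⟩
  have h1 : 1 ≤ m := (le_max_left _ _).trans hm
  have h2 : 1 / ε ^ 2 ≤ m := (le_max_right _ _).trans hm
  refine abs_le_of_sq_le_sq' ((sig_sq_le (by linarith)).trans ?_) (by positivity) |>.2
  rw [div_le_iff₀ (by positivity)] at h2
  nlinarith

lemma sig_div {n K : ℝ} (hK : 1 ≤ K) (hn : K ^ 2 ≤ n) : √K * sig (n / K) ≤ 2 * sig n := by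
  have hn0 : 0 ≤ n := le_trans (by positivity) hn
  have hs : 0 < √K := sqrt_pos.2 (by linarith)
  have h := sig_le_mul (r := n / K) (r' := n) (k := 2 / √K) (by positivity) hn0 (by positivity) (by
    have h1 : log (n + 1024) ≤ 2 * log (n / K + 1024) := by
      rw [← show log ((n / K + 1024) ^ 2) = 2 * log (n / K + 1024) by
        rw [Real.log_pow]; norm_num]
      refine log_le_log (by linarith) ?_
      have h2 : n ≤ (n / K) ^ 2 := by
        rw [div_pow, le_div_iff₀ (by positivity)]; nlinarith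
      have : 0 ≤ n / K := by positivity
      nlinarith
    rw [div_pow, sq_sqrt (by linarith)]
    have h3 := one_le_lg (r := n / K) (by positivity)
    have h4 : 0 ≤ n / K := by positivity
    calc n / K * log (n + 1024) ≤ n / K * (4 * log (n / K + 1024)) := by gcongr; linarith
      _ = _ := by ring)
  rw [div_mul_eq_mul_div, le_div_iff₀ hs] at h
  linarith

/-- Superconcentration of passage times. -/
theorem superconc (u v : VV) {r s : ℝ} (hn : n1 (v - u) ≤ r) (hr : 1 ≤ r)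
    (hs : |s| * (4800 * sig r) ≤ 1) :
    ∫⁻ ω, ENNReal.ofReal (exp (s * (TT ω u v - hh (v - u)))) ∂PP EE ≤ ENNReal.ofReal 3 := by
  have e3 : exp 1 ≤ 3 := by linarith [exp_one_lt_d9]
  have g1 := sig_ge hr
  have g0 := abs_nonneg s
  have hs8 : |s| ≤ 1 / 8 := by nlinarith
  have hL := one_le_lg (r := r) (by linarith)
  have hs2 : s ^ 2 * r ≤ log (r + 1024) / 4800 ^ 2 := by
    have h1 : (|s| * (4800 * sig r)) ^ 2 ≤ 1 := by
      have : 0 ≤ |s| * (4800 * sig r) := by positivity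
      nlinarith
    rw [mul_pow, mul_pow, sq_abs, sig_sq (by linarith)] at h1
    rw [le_div_iff₀ (by norm_num)]
    have h2 : s ^ 2 * (4800 ^ 2 * (r / log (r + 1024))) = s ^ 2 * r * 4800 ^ 2 / log (r + 1024) := by
      ring
    rw [h2, div_le_iff₀ (by linarith)] at h1
    linarith
  by_cases hbig : r < 33 ^ 4
  · refine (subgauss u v hn (by linarith)).trans
      (ENNReal.ofReal_le_ofReal (le_trans (exp_le_exp.2 ?_) e3))
    have h1 : log (r + 1024) ≤ 21 * log 2 := by
      rw [← show log ((2 : ℝ) ^ 21) = 21 * log 2 by rw [Real.log_pow]; norm_num]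
      exact log_le_log (by linarith) (by linarith)
    have h2 : s ^ 2 ≤ s ^ 2 * r := by nlinarith [sq_nonneg s]
    linarith [log_two_lt_d9]
  · push Not at hbig
    rw [lintegral_shift u v (g := fun t => ENNReal.ofReal (exp (s * (t - hh (v - u)))))
      (by fun_prop)]
    set m := Nat.sqrt (Nat.sqrt ⌊r⌋₊) with hm
    have a1 : m ^ 4 ≤ ⌊r⌋₊ := by
      have h1 := Nat.sqrt_le' (Nat.sqrt ⌊r⌋₊)
      have h2 := Nat.sqrt_le' ⌊r⌋₊
      calc m ^ 4 = (m ^ 2) ^ 2 := by ring
        _ ≤ (Nat.sqrt ⌊r⌋₊) ^ 2 := by gcongr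
        _ ≤ _ := h2
    have a2 : ⌊r⌋₊ + 1 ≤ (m + 1) ^ 4 := by
      have h1 := Nat.lt_succ_sqrt' (Nat.sqrt ⌊r⌋₊)
      have h2 := Nat.lt_succ_sqrt' ⌊r⌋₊
      calc ⌊r⌋₊ + 1 ≤ (Nat.sqrt ⌊r⌋₊ + 1) ^ 2 := h2
        _ ≤ ((m + 1) ^ 2) ^ 2 := by gcongr; exact h1
        _ = _ := by ring
    have b1 : (m : ℝ) ^ 4 ≤ r := le_trans (by exact_mod_cast a1) (Nat.floor_le (by linarith))
    have b2 : r < ((m : ℝ) + 1) ^ 4 := lt_of_lt_of_le (Nat.lt_floor_add_one r) (by exact_mod_cast a2)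
    have b3 : (32 : ℝ) < m := by
      have : (33 : ℝ) ^ 4 < ((m : ℝ) + 1) ^ 4 := by linarith
      have := lt_of_pow_lt_pow_left₀ 4 (by positivity) this
      linarith
    have b4 : log (r + 1024) ≤ 5 * log m := by
      rw [← show log ((m : ℝ) ^ 5) = 5 * log m by rw [Real.log_pow]; norm_num]
      refine log_le_log (by linarith) ?_
      have h1 : ((m : ℝ) + 1) ^ 4 ≤ (2 * m) ^ 4 := by gcongr; linarith
      have h2 : (m : ℝ) ^ 5 = m * m ^ 4 := by ring
      have h3 : 0 ≤ (m : ℝ) ^ 4 := by positivity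
      nlinarith
    have b5 : 0 < log (m : ℝ) := by linarith
    have b6 : (m : ℝ) ≤ sig r := by
      refine le_sqrt_of_sq_le ?_
      rw [le_div_iff₀ (by linarith)]
      have h1 := log_le_sub_one_of_pos (x := (m : ℝ)) (by linarith)
      have h2 : log (r + 1024) ≤ (m : ℝ) ^ 2 := by nlinarith
      nlinarith [mul_le_mul_of_nonneg_left h2 (sq_nonneg (m : ℝ))]
    refine superconc_aux (v - u) (m := m) (by exact_mod_cast (by linarith : (5 : ℝ) ≤ m)) hn hs8
      (by nlinarith) ?_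
    have h1 : 2 * (12000 * (8 * r + 4) / (log m / 4)) * (2 * s) ^ 2 =
        384000 * ((8 * r + 4) * s ^ 2) / log m := by field_simp; ring
    rw [h1, div_le_one b5]
    have h2 : s ^ 2 ≤ s ^ 2 * r := by nlinarith [sq_nonneg s]
    nlinarith

/-- The values in `A ω` are dominated, in exponential moment, at level `d` and scale `s`. -/
def Dom (A : (EE → ℝ) → ℝ → Prop) (d s : ℝ) : Prop :=
  ∃ W : (EE → ℝ) → ℝ≥0∞, Measurable W ∧
    (∀ ω a, A ω a → ENNReal.ofReal (exp ((a - d) / s)) ≤ W ω) ∧ ∫⁻ ω, W ω ∂PP EE ≤ 3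

variable {A B C : (EE → ℝ) → ℝ → Prop} {d d' s s' : ℝ}

lemma Dom.mono (h : Dom A d s) (hs : 0 < s)
    (hC : ∀ ω a, C ω a → ∃ b, A ω b ∧ a - d' ≤ b - d) : Dom C d' s := by
  obtain ⟨W, h1, h2, h3⟩ := h
  refine ⟨W, h1, fun ω a ha => ?_, h3⟩
  obtain ⟨b, hb, hab⟩ := hC ω a ha
  refine le_trans ?_ (h2 ω b hb)
  gcongr

lemma exp_conv {t x y : ℝ} (ht0 : 0 ≤ t) (ht1 : t ≤ 1) :
    exp (t * x + (1 - t) * y) ≤ t * exp x + (1 - t) * exp y := by
  simpa using convexOn_exp.2 (mem_univ x) (mem_univ y) ht0 (by linarith : 0 ≤ 1 - t) (by ring)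

lemma conv_three {t : ℝ} (ht0 : 0 ≤ t) (ht1 : t ≤ 1) :
    ENNReal.ofReal t * 3 + ENNReal.ofReal (1 - t) * 3 = 3 := by
  rw [← add_mul, ← ENNReal.ofReal_add ht0 (by linarith)]; simp

lemma Dom.add (hA : Dom A d s) (hB : Dom B d' s') (hs : 0 < s) (hs' : 0 < s')
    (hC : ∀ ω a, C ω a → ∃ b c, A ω b ∧ B ω c ∧ a ≤ b + c) : Dom C (d + d') (s + s') := by
  obtain ⟨W, h1, h2, h3⟩ := hA
  obtain ⟨W', h1', h2', h3'⟩ := hB
  have ht0 : 0 ≤ s / (s + s') := by positivity
  have ht1 : s / (s + s') ≤ 1 := by rw [div_le_one (by positivity)]; linarith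
  refine ⟨fun ω => ENNReal.ofReal (s / (s + s')) * W ω + ENNReal.ofReal (1 - s / (s + s')) * W' ω,
    by fun_prop, fun ω a ha => ?_, ?_⟩
  · obtain ⟨b, c, hb, hc, habc⟩ := hC ω a ha
    have e1 : (a - (d + d')) / (s + s') ≤
        s / (s + s') * ((b - d) / s) + (1 - s / (s + s')) * ((c - d') / s') := by
      have : s / (s + s') * ((b - d) / s) + (1 - s / (s + s')) * ((c - d') / s') =
          (b + c - (d + d')) / (s + s') := by field_simp; ring
      rw [this]; gcongr
    calc _ ≤ ENNReal.ofReal (s / (s + s') * exp ((b - d) / s) +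
          (1 - s / (s + s')) * exp ((c - d') / s')) :=
          ENNReal.ofReal_le_ofReal ((exp_le_exp.2 e1).trans (exp_conv ht0 ht1))
      _ ≤ _ := by
          have : 0 ≤ 1 - s / (s + s') := by linarith
          rw [ENNReal.ofReal_add (by positivity) (by positivity), ENNReal.ofReal_mul ht0,
            ENNReal.ofReal_mul this]
          exact add_le_add (mul_le_mul_right (h2 ω b hb) _) (mul_le_mul_right (h2' ω c hc) _)
  · rw [lintegral_add_left (by fun_prop), lintegral_const_mul _ h1, lintegral_const_mul _ h1',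
      ← conv_three ht0 ht1]
    gcongr

lemma dom_zero (hs : 0 < s) : Dom (fun _ a => a ≤ 0) 0 s := by
  refine ⟨fun _ => 1, measurable_const, fun ω a ha => ?_, by simp⟩
  rw [← ENNReal.ofReal_one]
  refine ENNReal.ofReal_le_ofReal (exp_le_one_iff.2 ?_)
  rw [sub_zero]; exact div_nonpos_of_nonpos_of_nonneg ha hs.le

lemma Dom.scale (h : Dom A d s) (hs : 0 < s) (hss : s ≤ s') : Dom A d s' := by
  rcases hss.eq_or_lt with rfl | hlt
  · exact h
  · have := h.add (dom_zero (s := s' - s) (by linarith)) hs (by linarith) (C := A)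
      fun ω a ha => ⟨a, 0, ha, le_rfl, by simp⟩
    simpa using this

lemma dom_union {κ : Type*} (Z : Finset κ) {F : κ → (EE → ℝ) → ℝ → Prop} (hs : 0 < s)
    (h : ∀ z ∈ Z, Dom (F z) d s) {N : ℝ} (hN : (Z.card : ℝ) ≤ exp N)
    (hC : ∀ ω a, C ω a → ∃ z ∈ Z, F z ω a) : Dom C (d + s * N) s := by
  classical
  choose! W h1 h2 h3 using h
  refine ⟨fun ω => ENNReal.ofReal (exp (-N)) * ∑ z ∈ Z, W z ω,
    (Finset.measurable_sum _ h1).const_mul _, fun ω a ha => ?_, ?_⟩
  · obtain ⟨z, hz, hza⟩ := hC ω a ha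
    have e1 : exp ((a - (d + s * N)) / s) = exp (-N) * exp ((a - d) / s) := by
      rw [← exp_add]; congr 1; field_simp; ring
    rw [e1, ENNReal.ofReal_mul (exp_pos _).le]
    exact mul_le_mul_right ((h2 z hz ω a hza).trans
      (Finset.single_le_sum (f := fun z => W z ω) (fun _ _ => zero_le) hz)) _
  · rw [lintegral_const_mul' _ _ (by simp), lintegral_finsetSum _ h1]
    calc _ ≤ ENNReal.ofReal (exp (-N)) * ∑ _z ∈ Z, (3 : ℝ≥0∞) := by gcongr with z hz; exact h3 z hz
      _ ≤ 1 * 3 := by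
          rw [Finset.sum_const, nsmul_eq_mul, ← mul_assoc, ← ENNReal.ofReal_natCast,
            ← ENNReal.ofReal_mul (exp_pos _).le, ← ENNReal.ofReal_one]
          gcongr
          rw [exp_neg, inv_mul_le_iff₀ (exp_pos _)]; linarith
      _ = 3 := one_mul _

lemma Dom.union (hA : Dom A d s) (hB : Dom B d s) (hs : 0 < s)
    (hC : ∀ ω a, C ω a → A ω a ∨ B ω a) : Dom C (d + s) s := by
  have := dom_union (Finset.univ : Finset Bool) (F := fun b => if b then A else B) (N := 1) hs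
    (fun b _ => by cases b <;> simpa) (by simp; linarith [add_one_le_exp (1 : ℝ)]) (C := C)
    (fun ω a ha => by
      rcases hC ω a ha with h | h
      · exact ⟨true, by simp, by simpa⟩
      · exact ⟨false, by simp, by simpa⟩)
  simpa using this

lemma dom_single {X : (EE → ℝ) → ℝ} (hX : Measurable X)
    (h : ∫⁻ ω, ENNReal.ofReal (exp ((X ω - d) / s)) ∂PP EE ≤ ENNReal.ofReal 3) :
    Dom (fun ω a => a = X ω) d s :=
  ⟨fun ω => ENNReal.ofReal (exp ((X ω - d) / s)), by fun_prop,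
    fun ω a ha => by rw [ha], by simpa using h⟩

lemma dom_up (u v : VV) {r : ℝ} (hn : n1 (v - u) ≤ r) (hr : 1 ≤ r) :
    Dom (fun ω a => a = TT ω u v) (hh (v - u)) (4800 * sig r) := by
  have := sig_pos hr
  refine dom_single (by fun_prop) ?_
  have h := superconc u v (s := (4800 * sig r)⁻¹) hn hr (by
    rw [abs_of_pos (by positivity), inv_mul_cancel₀ (by positivity)])
  simpa only [div_eq_inv_mul] using h

lemma dom_down (u v : VV) {r : ℝ} (hn : n1 (v - u) ≤ r) (hr : 1 ≤ r) :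
    Dom (fun ω a => a = -TT ω u v) (-hh (v - u)) (4800 * sig r) := by
  have := sig_pos hr
  refine dom_single (by fun_prop) ?_
  have h := superconc u v (s := -(4800 * sig r)⁻¹) hn hr (by
    rw [abs_neg, abs_of_pos (by positivity), inv_mul_cancel₀ (by positivity)])
  refine le_trans (le_of_eq ?_) h
  congr 1; funext ω; congr 2; ring

lemma dom_gauss (u v : VV) {n s : ℝ} (hn : n1 (v - u) ≤ n) (hs : 4 ≤ s) {ε : ℝ}
    (hε : ε = 1 ∨ ε = -1) :
    Dom (fun ω a => a = ε * TT ω u v) (ε * hh (v - u) + 46000 * (2 * n + 1) / s) s := by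
  refine dom_single (by fun_prop) ?_
  have h := subgauss u v (s := ε / s) hn (by
    rw [abs_div, abs_of_pos (by linarith : 0 < s), div_le_iff₀ (by linarith)]
    rcases hε with rfl | rfl <;> simp <;> linarith)
  have hε2 : ε ^ 2 = 1 := by rcases hε with rfl | rfl <;> norm_num
  have e1 : ∀ ω, exp ((ε * TT ω u v - (ε * hh (v - u) + 46000 * (2 * n + 1) / s)) / s) =
      exp (-(46000 * (2 * n + 1) * (ε / s) ^ 2)) * exp (ε / s * (TT ω u v - hh (v - u))) := by
    intro ω
    rw [← exp_add, div_pow, hε2]; congr 1; field_simp; ring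
  simp only [e1, ENNReal.ofReal_mul (exp_pos _).le]
  rw [lintegral_const_mul' _ _ (by simp)]
  refine (mul_le_mul_right h _).trans ?_
  rw [← ENNReal.ofReal_mul (exp_pos _).le, ← exp_add]
  exact ENNReal.ofReal_le_ofReal (by simp)

end Pool.Agent.Lib.MP_de94ef_pr
end

-- part Pool.Agent.Lib.MP_de94ef_pr.BK
section

/-!
The van den Berg-Kesten inequality for Laplace transforms of minimal weights.
-/

open MeasureTheory ProbabilityTheory Set Real Function Filter Topology
open scoped ENNReal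

namespace Pool.Agent.Lib.MP_de94ef_pr

variable {ι : Type}

/-- Boltzmann factor of a finite set. -/
noncomputable def WW (l : ℝ) (ω : ι → ℝ) (S : Finset ι) : ℝ≥0∞ :=
  ENNReal.ofReal (exp (-l * wt ω S))

@[fun_prop] lemma measurable_WW (l : ℝ) (S : Finset ι) : Measurable fun ω : ι → ℝ => WW l ω S := by
  unfold WW; fun_prop

@[simp] lemma WW_empty (l : ℝ) (ω : ι → ℝ) : WW l ω ∅ = 1 := by simp [WW]

variable [DecidableEq ι]

lemma WW_union (l : ℝ) (ω : ι → ℝ) {S S' : Finset ι} (h : Disjoint S S') :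
    WW l ω (S ∪ S') = WW l ω S * WW l ω S' := by
  unfold WW
  rw [wt_union ω h, mul_add, exp_add, ENNReal.ofReal_mul (exp_pos _).le]

lemma WW_update_of_mem (l : ℝ) (ω : ι → ℝ) {S : Finset ι} {e : ι} (h : e ∈ S) (y : ℝ) :
    WW l (update ω e y) S = ENNReal.ofReal (exp (-l * max y 0)) * WW l ω (S.erase e) := by
  unfold WW
  rw [wt_update_of_mem ω h, mul_add, exp_add, ENNReal.ofReal_mul (exp_pos _).le]

lemma WW_update_of_notMem (l : ℝ) (ω : ι → ℝ) {S : Finset ι} {e : ι} (h : e ∉ S) (y : ℝ) :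
    WW l (update ω e y) S = WW l ω S := by
  unfold WW
  rw [wt_update_of_notMem ω h]

lemma resample_two (e : ι) {F : (ι → ℝ) → (ι → ℝ) → ℝ≥0∞} (hF : Measurable (uncurry F)) :
    ∫⁻ ω, ∫⁻ ω', F ω ω' ∂PP ι ∂PP ι =
      ∫⁻ ω, ∫⁻ ω', ∫⁻ y, ∫⁻ y', F (update ω e y) (update ω' e y') ∂nu ∂nu ∂PP ι ∂PP ι := by
  rw [lintegral_update e hF.lintegral_prod_right]
  refine lintegral_congr fun ω => ?_
  have h1 : ∀ y, ∫⁻ ω', F (update ω e y) ω' ∂PP ι =
      ∫⁻ ω', ∫⁻ y', F (update ω e y) (update ω' e y') ∂nu ∂PP ι := fun y =>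
    lintegral_update e (hF.comp (measurable_const.prodMk measurable_id))
  simp only [h1]
  refine lintegral_lintegral_swap (Measurable.aemeasurable ?_)
  have : Measurable (uncurry fun (p : ℝ × (ι → ℝ)) (y' : ℝ) =>
      F (update ω e p.1) (update p.2 e y')) :=
    hF.comp (f := fun q : (ℝ × (ι → ℝ)) × ℝ => (update ω e q.1.1, update q.1.2 e q.2))
      (by fun_prop)
  exact this.lintegral_prod_right

lemma bk_one (a b c : ℝ≥0∞) {w : ℝ → ℝ≥0∞} (hw : Measurable w) :
    ∫⁻ y, ∫⁻ _y', max a (max (b * w y) (c * w y)) ∂nu ∂nu ≤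
      ∫⁻ y, ∫⁻ y', max a (max (b * w y) (c * w y')) ∂nu ∂nu := by
  rcases le_total c b with h | h
  · refine lintegral_mono fun y => lintegral_mono fun y' => ?_
    rw [max_eq_left (a := b * w y) (by gcongr)]
    gcongr; exact le_max_left _ _
  · rw [lintegral_lintegral_swap (Measurable.aemeasurable (by
      change Measurable fun p : ℝ × ℝ => max a (max (b * w p.1) (c * w p.1)); fun_prop))]
    refine lintegral_mono fun y => lintegral_mono fun y' => ?_
    rw [max_eq_right (a := b * w y') (by gcongr)]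
    gcongr; exact le_max_right _ _

variable {I J : Type} [Countable I] [Countable J]

open Classical in
/-- Interpolation between one and two copies of the environment. -/
noncomputable def Psi (l : ℝ) (C : I → ℝ≥0∞) (ρ : I → Finset ι) (C' : J → ℝ≥0∞)
    (ρ' : J → Finset ι) (S : Finset ι) (ω ω' : ι → ℝ) : ℝ≥0∞ :=
  ⨆ p : I × J, if Disjoint (ρ p.1 \ S) (ρ' p.2) then
    C p.1 * C' p.2 * (WW l ω (ρ p.1) * WW l ω' (ρ' p.2 ∩ S) * WW l ω (ρ' p.2 \ S)) else 0

variable (l : ℝ) (C : I → ℝ≥0∞) (ρ : I → Finset ι) (C' : J → ℝ≥0∞) (ρ' : J → Finset ι)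

lemma measurable_Psi (S : Finset ι) : Measurable (uncurry (Psi l C ρ C' ρ' S)) := by
  refine Measurable.iSup fun p => ?_
  split_ifs
  · fun_prop
  · exact measurable_const

lemma Psi_step (S : Finset ι) {e : ι} (he : e ∉ S) :
    ∫⁻ ω, ∫⁻ ω', Psi l C ρ C' ρ' S ω ω' ∂PP ι ∂PP ι ≤
      ∫⁻ ω, ∫⁻ ω', Psi l C ρ C' ρ' (insert e S) ω ω' ∂PP ι ∂PP ι := by
  classical
  rw [resample_two e (measurable_Psi l C ρ C' ρ' S),
    resample_two e (measurable_Psi l C ρ C' ρ' (insert e S))]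
  refine lintegral_mono fun ω => lintegral_mono fun ω' => ?_
  set base : I × J → ℝ≥0∞ := fun p => C p.1 * C' p.2 *
    (WW l ω ((ρ p.1).erase e) * WW l ω' (ρ' p.2 ∩ S) * WW l ω ((ρ' p.2 \ S).erase e)) with hbase
  set f : (I × J → Prop) → ℝ≥0∞ := fun Q =>
    ⨆ p : I × J, if Disjoint (ρ p.1 \ S) (ρ' p.2) ∧ Q p then base p else 0 with hf
  have hle : ∀ (Q : I × J → Prop) p, Disjoint (ρ p.1 \ S) (ρ' p.2) → Q p → base p ≤ f Q :=
    fun Q p h1 h2 => le_iSup_of_le p (by simp [h1, h2])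
  have hsup : ∀ (Q : I × J → Prop) (k X : ℝ≥0∞),
      (∀ p, Disjoint (ρ p.1 \ S) (ρ' p.2) → Q p → base p * k ≤ X) → f Q * k ≤ X := by
    intro Q k X h
    simp only [hf]
    rw [ENNReal.iSup_mul]
    refine iSup_le fun p => ?_
    split_ifs with hp
    · exact h p hp.1 hp.2
    · simp
  have heS : ∀ j, e ∉ ρ' j ∩ S := fun j h => he (Finset.mem_inter.1 h).2
  refine le_trans ?_ ((bk_one (f fun p => e ∉ ρ p.1 ∧ e ∉ ρ' p.2) (f fun p => e ∈ ρ p.1)
    (f fun p => e ∈ ρ' p.2) (w := fun y => ENNReal.ofReal (exp (-l * max y 0)))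
    (by fun_prop)).trans ?_)
  · refine lintegral_mono fun y => lintegral_mono fun y' => iSup_le fun p => ?_
    split_ifs with hp
    swap
    · simp
    rw [WW_update_of_notMem l ω' (heS _)]
    by_cases h1 : e ∈ ρ p.1
    · have h2 : e ∉ ρ' p.2 \ S := fun h =>
        Finset.disjoint_left.1 hp (Finset.mem_sdiff.2 ⟨h1, he⟩) (Finset.mem_sdiff.1 h).1
      refine le_max_of_le_right (le_max_of_le_left
        (le_trans (le_of_eq ?_) (mul_le_mul_left (hle _ p hp h1) _)))
      rw [WW_update_of_mem l ω h1, WW_update_of_notMem l ω h2]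
      simp only [hbase, Finset.erase_eq_of_notMem h2]; ring
    · by_cases h2 : e ∈ ρ' p.2
      · refine le_max_of_le_right (le_max_of_le_right
          (le_trans (le_of_eq ?_) (mul_le_mul_left (hle _ p hp h2) _)))
        rw [WW_update_of_notMem l ω h1, WW_update_of_mem l ω (Finset.mem_sdiff.2 ⟨h2, he⟩)]
        simp only [hbase, Finset.erase_eq_of_notMem h1]; ring
      · have h3 : e ∉ ρ' p.2 \ S := fun h => h2 (Finset.mem_sdiff.1 h).1
        refine le_max_of_le_left (le_trans (le_of_eq ?_) (hle _ p hp ⟨h1, h2⟩))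
        rw [WW_update_of_notMem l ω h1, WW_update_of_notMem l ω h3]
        simp only [hbase, Finset.erase_eq_of_notMem h1, Finset.erase_eq_of_notMem h3]
  · refine lintegral_mono fun y => lintegral_mono fun y' => ?_
    have key : ∀ p : I × J, Disjoint (ρ p.1 \ S) (ρ' p.2) →
        C p.1 * C' p.2 * (WW l (update ω e y) (ρ p.1) *
          WW l (update ω' e y') (ρ' p.2 ∩ insert e S) * WW l ω ((ρ' p.2 \ S).erase e)) ≤
        Psi l C ρ C' ρ' (insert e S) (update ω e y) (update ω' e y') := by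
      intro p hp
      refine le_iSup_of_le p ?_
      rw [if_pos (hp.mono_left (Finset.sdiff_subset_sdiff le_rfl (Finset.subset_insert _ _))),
        Finset.sdiff_insert, WW_update_of_notMem l ω (Finset.notMem_erase _ _)]
    have i1 : ∀ j, e ∉ ρ' j → WW l (update ω' e y') (ρ' j ∩ insert e S) = WW l ω' (ρ' j ∩ S) :=
      fun j hj => by rw [Finset.inter_insert_of_notMem hj, WW_update_of_notMem l ω' (heS j)]
    refine max_le ?_ (max_le ?_ ?_)
    · rw [← mul_one (f _)]
      refine hsup _ _ _ fun p hp hQ => le_trans (le_of_eq ?_) (key p hp)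
      rw [WW_update_of_notMem l ω hQ.1, i1 _ hQ.2]
      simp only [hbase, Finset.erase_eq_of_notMem hQ.1, mul_one]
    · refine hsup _ _ _ fun p hp hQ => le_trans (le_of_eq ?_) (key p hp)
      have h2 : e ∉ ρ' p.2 := fun h =>
        Finset.disjoint_left.1 hp (Finset.mem_sdiff.2 ⟨hQ, he⟩) h
      rw [WW_update_of_mem l ω hQ, i1 _ h2]
      simp only [hbase]; ring
    · refine hsup _ _ _ fun p hp hQ => le_trans (le_of_eq ?_) (key p hp)
      have h1 : e ∉ ρ p.1 := fun h =>
        Finset.disjoint_left.1 hp (Finset.mem_sdiff.2 ⟨h, he⟩) hQ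
      rw [WW_update_of_notMem l ω h1, Finset.inter_insert_of_mem hQ,
        WW_update_of_mem l ω' (Finset.mem_insert_self _ _), Finset.erase_insert (heS _)]
      simp only [hbase, Finset.erase_eq_of_notMem h1]; ring

lemma Psi_le (S : Finset ι) :
    ∫⁻ ω, ∫⁻ ω', Psi l C ρ C' ρ' ∅ ω ω' ∂PP ι ∂PP ι ≤
      ∫⁻ ω, ∫⁻ ω', Psi l C ρ C' ρ' S ω ω' ∂PP ι ∂PP ι := by
  induction S using Finset.induction_on with
  | empty => exact le_rfl
  | insert e S he ih => exact ih.trans (Psi_step l C ρ C' ρ' S he)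

omit [DecidableEq ι] in
/-- Largest Boltzmann factor in a family. -/
noncomputable def ZZ (l : ℝ) (C : I → ℝ≥0∞) (ρ : I → Finset ι) (ω : ι → ℝ) : ℝ≥0∞ :=
  ⨆ i, C i * WW l ω (ρ i)

omit [DecidableEq ι] in
lemma measurable_ZZ : Measurable (ZZ l C ρ) := Measurable.iSup fun i => by fun_prop

open Classical in
/-- Largest Boltzmann factor among disjoint pairs. -/
noncomputable def ZD (l : ℝ) (C : I → ℝ≥0∞) (ρ : I → Finset ι) (C' : J → ℝ≥0∞)
    (ρ' : J → Finset ι) (ω : ι → ℝ) : ℝ≥0∞ :=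
  ⨆ p : I × J, if Disjoint (ρ p.1) (ρ' p.2) then
    C p.1 * C' p.2 * (WW l ω (ρ p.1) * WW l ω (ρ' p.2)) else 0

lemma measurable_ZD : Measurable (ZD l C ρ C' ρ') := by
  refine Measurable.iSup fun p => ?_
  split_ifs
  · fun_prop
  · exact measurable_const

lemma bk_fin (S : Finset ι) (hS : ∀ j, C' j ≠ 0 → ρ' j ⊆ S) :
    ∫⁻ ω, ZD l C ρ C' ρ' ω ∂PP ι ≤ (∫⁻ ω, ZZ l C ρ ω ∂PP ι) * ∫⁻ ω, ZZ l C' ρ' ω ∂PP ι := by
  have h0 : ∀ ω ω', Psi l C ρ C' ρ' ∅ ω ω' = ZD l C ρ C' ρ' ω := fun ω ω' => by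
    simp [Psi, ZD]
  have h1 := Psi_le l C ρ C' ρ' S
  simp only [h0, lintegral_const, measure_univ, mul_one] at h1
  refine h1.trans ?_
  rw [← lintegral_mul_const _ (measurable_ZZ l C ρ)]
  refine lintegral_mono fun ω => ?_
  rw [← lintegral_const_mul _ (measurable_ZZ l C' ρ')]
  refine lintegral_mono fun ω' => iSup_le fun p => ?_
  split_ifs
  swap
  · simp
  by_cases hc : C' p.2 = 0
  · simp [hc]
  rw [Finset.inter_eq_left.2 (hS _ hc), Finset.sdiff_eq_empty_iff_subset.2 (hS _ hc), WW_empty]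
  calc _ = (C p.1 * WW l ω (ρ p.1)) * (C' p.2 * WW l ω' (ρ' p.2)) := by ring
    _ ≤ _ := mul_le_mul' (le_iSup (fun i => C i * WW l ω (ρ i)) p.1)
        (le_iSup (fun j => C' j * WW l ω' (ρ' j)) p.2)

/-- The van den Berg-Kesten inequality. -/
theorem bk [Countable ι] [Nonempty ι] :
    ∫⁻ ω, ZD l C ρ C' ρ' ω ∂PP ι ≤ (∫⁻ ω, ZZ l C ρ ω ∂PP ι) * ∫⁻ ω, ZZ l C' ρ' ω ∂PP ι := by
  classical
  obtain ⟨f, hf⟩ := exists_surjective_nat ι
  set S : ℕ → Finset ι := fun n => (Finset.range n).image f with hS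
  have hmono : Monotone S := fun n m h => Finset.image_subset_image (Finset.range_mono h)
  have hex : ∀ A : Finset ι, ∃ n, A ⊆ S n := by
    intro A
    induction A using Finset.induction_on with
    | empty => exact ⟨0, Finset.empty_subset _⟩
    | insert a A _ ih =>
      obtain ⟨n, hn⟩ := ih
      obtain ⟨k, rfl⟩ := hf a
      refine ⟨max n (k + 1), Finset.insert_subset ?_ (hn.trans (hmono (le_max_left _ _)))⟩
      exact hmono (le_max_right _ _) (Finset.mem_image_of_mem _ (by simp))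
  set D : ℕ → J → ℝ≥0∞ := fun n j => if ρ' j ⊆ S n then C' j else 0 with hD
  have hDle : ∀ n j, D n j ≤ C' j := fun n j => by
    simp only [hD]; split_ifs <;> simp
  have h1 : ∀ ω, ZD l C ρ C' ρ' ω ≤ ⨆ n, ZD l C ρ (D n) ρ' ω := fun ω => by
    refine iSup_le fun p => ?_
    obtain ⟨n, hn⟩ := hex (ρ' p.2)
    refine le_iSup_of_le n (le_iSup_of_le p ?_)
    simp [hD, hn]
  refine (lintegral_mono h1).trans ?_
  rw [lintegral_iSup (fun n => measurable_ZD l C ρ (D n) ρ')]
  · refine iSup_le fun n => (bk_fin l C ρ (D n) ρ' (S n) fun j hj => ?_).trans ?_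
    · by_contra hc; simp [hD, hc] at hj
    · refine mul_le_mul_right (lintegral_mono fun ω => iSup_mono fun j => ?_) _
      gcongr; exact hDle n j
  · intro n m h ω
    refine iSup_mono fun p => ?_
    split_ifs
    swap
    · exact le_rfl
    gcongr
    simp only [hD]
    split_ifs with a1 a2
    · exact le_rfl
    · exact absurd (a1.trans (hmono h)) a2
    · simp
    · exact le_rfl

end Pool.Agent.Lib.MP_de94ef_pr
end

-- part Pool.Agent.Lib.MP_de94ef_pr.Geom
section

/-!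
Linear lower bound on mean passage times, and frames adapted to a norm.
-/

open MeasureTheory ProbabilityTheory Set Real Function Filter Topology
open scoped ENNReal

namespace Pool.Agent.Lib.MP_de94ef_pr

lemma one_le_lintegral_exp {α : Type*} [MeasurableSpace α] {P : Measure α}
    [IsProbabilityMeasure P] {X : α → ℝ} (hm : Measurable X) (hX : Integrable X P)
    (h0 : ∫ x, X x ∂P = 0) : 1 ≤ ∫⁻ x, ENNReal.ofReal (exp (X x)) ∂P := by
  by_cases ht : ∫⁻ x, ENNReal.ofReal (exp (X x)) ∂P = ⊤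
  · simp [ht]
  have hi : Integrable (fun x => exp (X x)) P := by
    refine ⟨hm.exp.aestronglyMeasurable, ?_⟩
    rw [hasFiniteIntegral_iff_ofReal (ae_of_all _ fun x => (exp_pos _).le)]
    exact lt_top_iff_ne_top.2 ht
  rw [← ofReal_integral_eq_lintegral_ofReal hi (ae_of_all _ fun x => (exp_pos _).le),
    ← ENNReal.ofReal_one]
  refine ENNReal.ofReal_le_ofReal ?_
  have := integral_mono (hX.add (integrable_const 1)) hi fun x => add_one_le_exp (X x)
  rw [integral_add' hX (integrable_const 1), h0] at this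
  simpa using this

lemma exp_TT_le {l : ℝ} (hl : 0 ≤ l) {ω : EE → ℝ} {u v : VV} {M : ℝ≥0∞} (c : ℝ≥0∞) (hc : c ≠ ⊤)
    (h : ∀ p : GG.Walk u v, p.IsPath → c * WW l ω (es p) ≤ M) :
    c * ENNReal.ofReal (exp (-l * TT ω u v)) ≤ M := by
  have hcont : Continuous fun t : ℝ => c * ENNReal.ofReal (exp (-l * t)) :=
    (ENNReal.continuous_const_mul hc).comp (ENNReal.continuous_ofReal.comp (by fun_prop))
  refine le_of_tendsto ((hcont.tendsto (TT ω u v)).mono_left
    (nhdsWithin_le_nhds (s := Ioi (TT ω u v)))) (eventually_nhdsWithin_of_forall fun t ht => ?_)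
  obtain ⟨p, hp, hpt⟩ := exists_lt_TT (show TT ω u v < t from ht)
  refine le_trans ?_ (h p hp)
  unfold WW
  gcongr c * ENNReal.ofReal (exp ?_)
  nlinarith

lemma n1_le_length {u v : VV} (p : GG.Walk u v) : n1 (v - u) ≤ p.length := by
  induction p with
  | nil => simp [n1]
  | @cons a b c hab p ih =>
    have := n1_add_le (c - b) (b - a)
    rw [sub_add_sub_cancel, n1_of_adj hab] at this
    simp only [SimpleGraph.Walk.length_cons]
    push_cast
    linarith

open Classical in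
/-- Selection of long trails. -/
noncomputable def cLong (k : ℕ) (u : VV) (p : Σ v, GG.Walk u v) : ℝ≥0∞ :=
  if k ≤ p.2.length ∧ p.2.IsTrail then 1 else 0

lemma long_le (k : ℕ) : ∀ u : VV,
    ∫⁻ ω, ZZ 7 (cLong k u) (fun p => es p.2) ω ∂PP EE ≤ ENNReal.ofReal ((1 / 2) ^ k) := by
  induction k with
  | zero =>
    intro u
    calc _ ≤ ∫⁻ _ω, 1 ∂PP EE := by
          refine lintegral_mono fun ω => iSup_le fun p => mul_le_one' ?_ ?_
          · unfold cLong; split_ifs <;> simp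
          · unfold WW
            rw [← ENNReal.ofReal_one]
            exact ENNReal.ofReal_le_ofReal (exp_le_one_iff.2 (by linarith [wt_nonneg ω (es p.2)]))
      _ = _ := by simp
  | succ k ih =>
    intro u
    set nb : Finset VV := {(1, 0), (-1, 0), (0, 1), (0, -1)} with hnb
    have h1 : ∀ ω, ZZ 7 (cLong (k + 1) u) (fun p => es p.2) ω ≤ ∑ d ∈ nb,
        ZD 7 (fun _ : Unit => 1) (fun _ => {s(u, u + d)}) (cLong k (u + d)) (fun p => es p.2) ω := by
      intro ω
      refine iSup_le fun ⟨v, p⟩ => ?_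
      unfold cLong
      split_ifs with hp
      swap
      · simp
      cases p with
      | nil => simp at hp
      | @cons _ b _ hab p =>
        obtain ⟨d, rfl⟩ : ∃ d, b = u + d := ⟨b - u, by simp⟩
        have hd : d ∈ nb := by
          have : |d.1| + |d.2| = 1 := by simpa [GG] using hab
          obtain ⟨d1, d2⟩ := d
          simp only [hnb, Finset.mem_insert, Prod.mk.injEq, Finset.mem_singleton] at this ⊢
          rcases abs_cases d1 with h | h <;> rcases abs_cases d2 with h' | h' <;> omega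
        refine le_trans ?_ (Finset.single_le_sum (f := fun d => ZD 7 (fun _ : Unit => 1)
          (fun _ => {s(u, u + d)}) (cLong k (u + d)) (fun p => es p.2) ω) (fun _ _ => zero_le) hd)
        simp only [SimpleGraph.Walk.length_cons, SimpleGraph.Walk.isTrail_cons] at hp
        have hdis : Disjoint ({s(u, u + d)} : Finset EE) (es p) := by
          simpa [es] using hp.2.2
        refine le_iSup_of_le ((), ⟨v, p⟩) ?_
        have e1 : es (SimpleGraph.Walk.cons hab p) = {s(u, u + d)} ∪ es p := by simp [es]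
        rw [if_pos hdis]
        simp only []
        rw [e1, WW_union _ _ hdis]
        simp [cLong, hp.2.1, Nat.le_of_succ_le_succ hp.1]
    refine (lintegral_mono h1).trans ?_
    rw [lintegral_finsetSum _ fun d _ => measurable_ZD _ _ _ _ _]
    have h2 : ∀ e : EE, ∫⁻ ω, ZZ 7 (fun _ : Unit => 1) (fun _ => {e}) ω ∂PP EE =
        ENNReal.ofReal (1 / 8) := fun e => by
      have := lintegral_exp_wt (t := -7) (by norm_num) ({e} : Finset EE)
      simp only [ZZ, WW, one_mul, ciSup_unique]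
      rw [this]; norm_num
    calc _ ≤ ∑ _d ∈ nb, ENNReal.ofReal (1 / 8) * ENNReal.ofReal ((1 / 2) ^ k) := by
          refine Finset.sum_le_sum fun d _ => (bk _ _ _ _ _).trans ?_
          rw [h2]
          gcongr
          exact ih _
      _ = _ := by
          have : nb.card = 4 := by rw [hnb]; decide
          rw [Finset.sum_const, this, nsmul_eq_mul, ← ENNReal.ofReal_natCast,
            ← ENNReal.ofReal_mul (by norm_num), ← ENNReal.ofReal_mul (by norm_num)]
          congr 1; push_cast; ring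

lemma n1_le_hh (v : VV) : n1 v ≤ 11 * hh v := by
  obtain ⟨k, hk⟩ : ∃ k : ℕ, n1 v = k :=
    ⟨(|v.1| + |v.2|).toNat, by
      rw [← Int.cast_natCast, Int.toNat_of_nonneg (by positivity)]; simp [n1]⟩
  have h1 : ∫⁻ ω, ENNReal.ofReal (exp (-7 * TT ω 0 v)) ∂PP EE ≤ ENNReal.ofReal ((1 / 2) ^ k) := by
    refine le_trans (lintegral_mono fun ω => ?_) (long_le k 0)
    have := exp_TT_le (l := 7) (by norm_num) (ω := ω) (u := 0) (v := v) 1 (by simp)
      (M := ZZ 7 (cLong k 0) (fun p => es p.2) ω) fun p hp => le_iSup_of_le ⟨v, p⟩ (by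
        have h := n1_le_length p
        rw [sub_zero, hk, Nat.cast_le] at h
        simp [cLong, h, hp.isTrail])
    simpa using this
  have h2 := one_le_lintegral_exp (P := PP EE) (X := fun ω => -7 * (TT ω 0 v - hh v))
    (by fun_prop) (((integrable_TT 0 v).sub (integrable_const _)).const_mul _) (by
      rw [integral_const_mul, integral_sub (integrable_TT 0 v) (integrable_const _)]
      simp [hh])
  have e1 : ∀ ω, exp (-7 * (TT ω 0 v - hh v)) = exp (7 * hh v) * exp (-7 * TT ω 0 v) := by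
    intro ω; rw [← exp_add]; congr 1; ring
  simp only [e1, ENNReal.ofReal_mul (exp_pos _).le] at h2
  rw [lintegral_const_mul' _ _ (by simp)] at h2
  have h3 := h2.trans (mul_le_mul_right h1 _)
  rw [← ENNReal.ofReal_mul (exp_pos _).le, ENNReal.one_le_ofReal] at h3
  have h4 := log_le_log one_pos h3
  rw [log_one, log_mul (exp_pos _).ne' (by positivity), log_exp, Real.log_pow, one_div,
    log_inv] at h4
  have := Nat.cast_nonneg (α := ℝ) k
  nlinarith [log_two_gt_d9]

/-- The real point of a lattice point. -/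
def iv (z : VV) : ℝ × ℝ := ((z.1 : ℝ), (z.2 : ℝ))

/-- The l1 norm on the plane. -/
def r1 (x : ℝ × ℝ) : ℝ := |x.1| + |x.2|

/-- Coordinatewise floor. -/
noncomputable def fl (x : ℝ × ℝ) : VV := (⌊x.1⌋, ⌊x.2⌋)

lemma r1_iv (z : VV) : r1 (iv z) = n1 z := rfl

lemma iv_add (u v : VV) : iv (u + v) = iv u + iv v := by simp [iv]

lemma iv_sub (u v : VV) : iv (u - v) = iv u - iv v := by simp [iv]

lemma iv_neg (u : VV) : iv (-u) = -iv u := by simp [iv]

@[simp] lemma iv_zero : iv 0 = 0 := by simp [iv]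

lemma iv_nsmul (n : ℕ) (v : VV) : iv (n • v) = (n : ℝ) • iv v := by simp [iv]

lemma fl_iv (z : VV) : fl (iv z) = z := by simp [fl, iv]

lemma r1_fl (x : ℝ × ℝ) : r1 (iv (fl x) - x) ≤ 2 := by
  simp only [r1, iv, fl, Prod.fst_sub, Prod.snd_sub]
  have a1 := Int.floor_le x.1
  have a2 := Int.lt_floor_add_one x.1
  have a3 := Int.floor_le x.2
  have a4 := Int.lt_floor_add_one x.2
  rw [abs_of_nonpos (by linarith), abs_of_nonpos (by linarith)]
  linarith

lemma r1_fl_sub (x y : ℝ × ℝ) : r1 (iv (fl x - fl y) - (x - y)) ≤ 2 := by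
  simp only [r1, iv, fl, Prod.fst_sub, Prod.snd_sub, Int.cast_sub]
  have : ∀ a b : ℝ, |(⌊a⌋ : ℝ) - ⌊b⌋ - (a - b)| ≤ 1 := fun a b => by
    rw [abs_le]
    constructor <;> linarith [Int.floor_le a, Int.lt_floor_add_one a, Int.floor_le b,
      Int.lt_floor_add_one b]
  linarith [this x.1 y.1, this x.2 y.2]

lemma n1_fl_sub (x y : ℝ × ℝ) : n1 (fl (x - y) - (fl x - fl y)) ≤ 4 := by
  have h1 := r1_fl (x - y)
  have h2 := r1_fl_sub x y
  simp only [r1, iv, n1, Prod.fst_sub, Prod.snd_sub, Int.cast_sub] at *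
  have : ∀ a b c : ℝ, |a - b| ≤ |a - c| + |b - c| := fun a b c => by
    have := abs_sub_le a c b
    rwa [abs_sub_comm c b] at this
  linarith [this ((fl (x - y)).1 : ℝ) (((fl x).1 : ℝ) - (fl y).1) (x.1 - y.1),
    this ((fl (x - y)).2 : ℝ) (((fl x).2 : ℝ) - (fl y).2) (x.2 - y.2)]

/-- The properties of the time constant that are used. -/
structure IsTC (μ : ℝ × ℝ → ℝ) : Prop where
  add : ∀ x y, μ (x + y) ≤ μ x + μ y
  smul : ∀ (c : ℝ) x, 0 ≤ c → μ (c • x) = c * μ x
  neg : ∀ x, μ (-x) = μ x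
  le : ∀ x, μ x ≤ r1 x
  ge : ∀ x, r1 x ≤ 11 * μ x
  le_hh : ∀ z, μ (iv z) ≤ hh z
  lim : ∀ z, ∀ ε > 0, ∃ N : ℕ, 1 ≤ N ∧ hh (N • z) ≤ N * (μ (iv z) + ε)

variable {μ : ℝ × ℝ → ℝ}

lemma IsTC.nonneg (h : IsTC μ) (x : ℝ × ℝ) : 0 ≤ μ x := by
  have := h.ge x
  have : 0 ≤ r1 x := by unfold r1; positivity
  linarith

lemma IsTC.smul_abs (h : IsTC μ) (c : ℝ) (x : ℝ × ℝ) : μ (c • x) = |c| * μ x := by
  rcases le_total 0 c with hc | hc
  · rw [h.smul c x hc, abs_of_nonneg hc]
  · rw [← h.neg, ← neg_smul, h.smul _ x (by linarith), abs_of_nonpos hc]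

lemma IsTC.le_add (h : IsTC μ) (x y : ℝ × ℝ) : μ x ≤ μ y + r1 (x - y) := by
  have := h.add y (x - y)
  rw [add_sub_cancel] at this
  linarith [h.le (x - y)]

lemma r1_sub_comm (x y : ℝ × ℝ) : r1 (x - y) = r1 (y - x) := by
  simp only [r1, Prod.fst_sub, Prod.snd_sub, abs_sub_comm x.1, abs_sub_comm x.2]

lemma IsTC.continuous (h : IsTC μ) : Continuous μ := by
  refine continuous_iff_continuousAt.2 fun x => ?_
  have c1 : Continuous fun y => r1 (y - x) := by unfold r1; fun_prop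
  have t1 : Tendsto (fun y => r1 (y - x)) (𝓝 x) (𝓝 0) := by
    simpa [r1] using c1.tendsto x
  refine tendsto_of_tendsto_of_tendsto_of_le_of_le (g := fun y => μ x - r1 (y - x))
    (h := fun y => μ x + r1 (y - x)) (by simpa using t1.const_sub (μ x))
    (by simpa using t1.const_add (μ x)) (fun y => ?_) fun y => h.le_add y x
  have := h.le_add x y
  rw [r1_sub_comm] at this
  simp only; linarith

/-- One-sided data of an adapted frame. -/
structure Cone (μ : ℝ × ℝ → ℝ) (κ : ℝ) (u t : ℝ × ℝ) (L : ℝ × ℝ →ₗ[ℝ] ℝ) : Prop where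
  hu : μ u ≤ 1
  ht : μ t ≤ 3
  hL : ∀ v, |L v| ≤ 3 * μ v
  up : ∀ α β : ℝ, |β| ≤ α → μ (α • u + β • t) ≤ L (α • u + β • t) + κ * α

lemma Cone.neg (h : IsTC μ) {κ : ℝ} {u t : ℝ × ℝ} {L : ℝ × ℝ →ₗ[ℝ] ℝ} (c : Cone μ κ u t L) :
    Cone μ κ (-u) t (-L) := by
  refine ⟨by rw [h.neg]; exact c.hu, c.ht, fun v => by simpa using c.hL v, fun α β hβ => ?_⟩
  have := c.up α (-β) (by simpa using hβ)
  have e1 : α • -u + β • t = -(α • u + -β • t) := by simp [add_comm]
  rw [e1, h.neg]
  simpa using this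

/-- A frame adapted to the norm at the unit vector `u` and precision `κ`. -/
structure Frame (μ : ℝ × ℝ → ℝ) (κ : ℝ) (u t : ℝ × ℝ) (a b L : ℝ × ℝ →ₗ[ℝ] ℝ) : Prop where
  cone : Cone μ κ u t L
  dec : ∀ v, v = a v • u + b v • t
  au : a u = 1
  at' : a t = 0
  bu : b u = 0
  Lu : L u = 1
  ha : ∀ v, a v ≤ μ v
  low1 : ∀ α β : ℝ, 0 ≤ α → L (α • u + β • t) + κ * (|β| - 2 * α) ≤ μ (α • u + β • t)
  low2 : ∀ α β : ℝ, 0 ≤ α → L (α • u + β • t) ≤ μ (α • u + β • t) / 2 + 5 / 2 * α

lemma exists_support (h : IsTC μ) {u : ℝ × ℝ} (hu : μ u = 1) :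
    ∃ a : ℝ × ℝ →ₗ[ℝ] ℝ, a u = 1 ∧ ∀ v, a v ≤ μ v := by
  have hu0 : u ≠ 0 := by
    rintro rfl
    have := h.smul 0 0 le_rfl
    simp [hu] at this
  obtain ⟨g, hg1, hg2⟩ := exists_extension_of_le_sublinear
    (LinearPMap.mkSpanSingleton (K := ℝ) u (1 : ℝ) hu0) μ (fun c hc x => h.smul c x hc.le) h.add
    (fun x => by
      obtain ⟨x, hx⟩ := x
      obtain ⟨c, rfl⟩ := Submodule.mem_span_singleton.1 hx
      have := LinearPMap.mkSpanSingleton'_apply (R := ℝ) u (1 : ℝ)
        (fun c hc => (smul_eq_zero.1 hc).elim (fun hc => by simp [hc])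
          fun hx' => absurd hx' hu0) c hx
      erw [this]
      simp only [smul_eq_mul, mul_one, h.smul_abs, hu]
      exact le_abs_self c)
  refine ⟨g, ?_, hg2⟩
  have := hg1 ⟨u, Submodule.mem_span_singleton_self u⟩
  rw [this]
  exact LinearPMap.mkSpanSingleton'_apply_self _ _ _ _

theorem exists_frame (h : IsTC μ) {u : ℝ × ℝ} (hu : μ u = 1) {κ : ℝ} (hκ : 0 < κ) (hκ1 : κ ≤ 1) :
    ∃ t a b L, Frame μ κ u t a b L := by
  obtain ⟨a, au, ha⟩ := exists_support h hu
  have ha' : ∀ v, |a v| ≤ μ v := fun v => abs_le.2 ⟨by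
    have := ha (-v); rw [map_neg, h.neg] at this; linarith, ha v⟩
  set α0 := a (1, 0)
  set β0 := a (0, 1)
  have aex : ∀ v : ℝ × ℝ, a v = α0 * v.1 + β0 * v.2 := fun v => by
    have : v = v.1 • ((1, 0) : ℝ × ℝ) + v.2 • ((0, 1) : ℝ × ℝ) := by simp
    rw [this, map_add, map_smul, map_smul]; simp; ring
  have hN : 0 < α0 ^ 2 + β0 ^ 2 := by
    by_contra hc
    have h1 : α0 = 0 := by nlinarith [sq_nonneg α0, sq_nonneg β0]
    have h2 : β0 = 0 := by nlinarith [sq_nonneg α0, sq_nonneg β0]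
    rw [aex, h1, h2] at au; simp at au
  set w : ℝ × ℝ := (-β0, α0) with hw
  have hw0 : 0 < μ w := by
    have h1 := h.ge w
    have h2 : 0 < r1 w := by
      simp only [r1, hw, abs_neg]
      by_contra hc
      have h1 : α0 = 0 := abs_eq_zero.1 (by linarith [abs_nonneg α0, abs_nonneg β0])
      have h2 : β0 = 0 := abs_eq_zero.1 (by linarith [abs_nonneg α0, abs_nonneg β0])
      simp [h1, h2] at hN
    linarith
  have hc := h.continuous
  have hcont : Continuous fun r : ℝ => μ (u + r • w) + μ (u - r • w) := by fun_prop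
  have hlow : ∀ r : ℝ, |r| * μ w - 1 ≤ μ (u + r • w) := fun r => by
    have := h.add (u + r • w) (-u)
    rw [h.neg, hu, add_neg_cancel_comm, h.smul_abs] at this
    linarith
  obtain ⟨D, hD, hDe⟩ := intermediate_value_Icc (a := 0) (b := 3 / μ w) (by positivity)
    hcont.continuousOn (show 2 + 2 * κ ∈ Icc _ _ from ⟨by simp [hu]; linarith, by
      have h1 := hlow (3 / μ w)
      have h2 := hlow (-(3 / μ w))
      rw [abs_neg] at h2
      rw [abs_of_pos (by positivity), div_mul_cancel₀ _ hw0.ne'] at h1 h2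
      rw [neg_smul, ← sub_eq_add_neg] at h2
      linarith⟩)
  simp only at hDe
  have hD0 : 0 < D := by
    rcases hD.1.eq_or_lt with rfl | h0
    · simp [hu] at hDe; linarith
    · exact h0
  set t := D • w with ht
  have at' : a t = 0 := by rw [ht, map_smul, aex]; simp [hw]; right; ring
  have μt : μ t ≤ 3 := by
    rw [ht, h.smul _ _ hD.1]
    have := hD.2
    rwa [le_div_iff₀ hw0] at this
  set b : ℝ × ℝ →ₗ[ℝ] ℝ := (D * (α0 ^ 2 + β0 ^ 2))⁻¹ •
    ((-β0) • LinearMap.fst ℝ ℝ ℝ + α0 • LinearMap.snd ℝ ℝ ℝ -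
      (-β0 * u.1 + α0 * u.2) • a) with hb
  have bex : ∀ v : ℝ × ℝ, b v = (D * (α0 ^ 2 + β0 ^ 2))⁻¹ *
      (-β0 * v.1 + α0 * v.2 - (-β0 * u.1 + α0 * u.2) * a v) := fun v => by simp [hb]
  have au' : α0 * u.1 + β0 * u.2 = 1 := by rw [← aex, au]
  have dec : ∀ v, v = a v • u + b v • t := fun v => by
    rw [bex, aex]
    ext
    · simp only [ht, hw, Prod.fst_add, Prod.smul_fst, smul_eq_mul]
      field_simp
      linear_combination (-(α0 * (α0 * v.1 + β0 * v.2))) * au'
    · simp only [ht, hw, Prod.snd_add, Prod.smul_snd, smul_eq_mul]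
      field_simp
      linear_combination (-(β0 * (α0 * v.1 + β0 * v.2))) * au'
  have bu : b u = 0 := by rw [bex, au]; simp
  have bt : b t = 1 := by
    rw [bex, at']
    simp only [ht, hw, Prod.smul_fst, Prod.smul_snd, smul_eq_mul]
    field_simp; ring
  clear_value b t
  obtain ⟨l, hl⟩ : ∃ l, l = (μ (u + t) - μ (u - t)) / 2 := ⟨_, rfl⟩
  have hP : μ (u + t) = 1 + κ + l := by rw [hl]; linarith
  have hM : μ (u - t) = 1 + κ - l := by rw [hl]; linarith
  have hP1 : 1 ≤ μ (u + t) := by simpa [au, at'] using ha (u + t)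
  have hM1 : 1 ≤ μ (u - t) := by simpa [au, at'] using ha (u - t)
  have hP2 : μ (u + t) ≤ 1 + μ t := by simpa [hu] using h.add u t
  have hM2 : μ (u - t) ≤ 1 + μ t := by simpa [hu, h.neg, sub_eq_add_neg] using h.add u (-t)
  have Lex : ∀ α β : ℝ, (a + l • b) (α • u + β • t) = α + l * β := fun α β => by
    simp [au, at', bu, bt]
  have hl1 : |l| ≤ κ := abs_le.2 ⟨by linarith, by linarith⟩
  have hl2 : |l| ≤ μ t := abs_le.2 ⟨by linarith, by linarith⟩
  have low0 : ∀ α β : ℝ, α ≤ μ (α • u + β • t) := fun α β => by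
    simpa [au, at'] using ha (α • u + β • t)
  have lowt : ∀ α β : ℝ, |β| * μ t ≤ μ (α • u + β • t) + |α| := fun α β => by
    have := h.add (α • u + β • t) (-(α • u))
    rwa [h.neg, add_neg_cancel_comm, h.smul_abs β t, h.smul_abs α u, hu, mul_one] at this
  have low1 : ∀ α β : ℝ, 0 ≤ α → α + l * β + κ * (|β| - 2 * α) ≤ μ (α • u + β • t) := by
    intro α β hα
    by_cases hβ : |β| ≤ α
    · have h1 := le_abs_self (l * β)
      rw [abs_mul] at h1
      nlinarith [low0 α β, mul_le_mul_of_nonneg_right hl1 (abs_nonneg β), abs_nonneg β]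
    · push Not at hβ
      rcases le_total 0 β with h0 | h0
      · rw [abs_of_nonneg h0] at hβ ⊢
        have := h.add (α • u + β • t) ((β - α) • u)
        have e1 : α • u + β • t + (β - α) • u = β • (u + t) := by module
        rw [e1, h.smul _ _ h0, h.smul _ _ (by linarith), hu, hP] at this
        nlinarith
      · rw [abs_of_nonpos h0] at hβ ⊢
        have := h.add (α • u + β • t) ((-β - α) • u)
        have e1 : α • u + β • t + (-β - α) • u = (-β) • (u - t) := by module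
        rw [e1, h.smul _ _ (by linarith), h.smul _ _ (by linarith), hu, hM] at this
        nlinarith
  refine ⟨t, a, b, a + l • b, ⟨hu.le, μt, fun v => ?_, fun α β hβ => ?_⟩, dec, au, at', bu,
    by simp [au, bu], ha, fun α β hα => by rw [Lex]; exact low1 α β hα, fun α β hα => ?_⟩
  · have h1 := lowt (a v) (b v)
    rw [← dec] at h1
    have h2 : (a + l • b) v = a v + l * b v := by simp
    rw [h2]
    have h3 := abs_add_le (a v) (l * b v)
    rw [abs_mul] at h3
    nlinarith [ha' v, mul_le_mul_of_nonneg_right hl2 (abs_nonneg (b v))]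
  · have h1 := abs_le.1 hβ
    have := h.add (((α + β) / 2) • (u + t)) (((α - β) / 2) • (u - t))
    have e1 : ((α + β) / 2) • (u + t) + ((α - β) / 2) • (u - t) = α • u + β • t := by module
    rw [e1, h.smul _ _ (by linarith), h.smul _ _ (by linarith), hP, hM] at this
    rw [Lex]; nlinarith
  · rw [Lex]
    have h1 := h.add (α • u) (β • t)
    rw [h.smul _ _ hα, h.smul_abs, hu] at h1
    have h2 := lowt α β
    rw [abs_of_nonneg hα] at h2
    have h3 := low1 α β hα
    have h4 := le_abs_self (l * β)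
    rw [abs_mul] at h4
    have h5 := abs_nonneg β
    by_cases hk : μ t / 2 ≤ κ
    · have h6 := mul_le_mul_of_nonneg_right hk h5
      have h7 := mul_le_mul_of_nonneg_right hκ1 hα
      linarith
    · push Not at hk
      have h6 := mul_le_mul_of_nonneg_right (hl1.trans hk.le) h5
      linarith

end Pool.Agent.Lib.MP_de94ef_pr
end
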