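import Pool.Agent.Lib.MP_de94ef_pr.Geom

-- part Pool.Agent.Lib.MP_de94ef_pr.Chain
section

/-!
Chaining: passage times from an anchor to all points of a thin cell.
-/

open MeasureTheory ProbabilityTheory Set Real Function Filter Topology
open scoped ENNReal

namespace Pool.Agent.Lib.MP_de94ef_pr

/-- Lattice points in a parallelogram. -/
def Cell (u t c : ℝ × ℝ) (r : ℝ) (p : VV) : Prop :=
  ∃ α β : ℝ, 0 ≤ α ∧ α ≤ 1 ∧ 0 ≤ β ∧ β ≤ r ∧ iv p = c + α • u + β • t

/-- Upper bound on the non-random fluctuations up to scale `R`. -/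
def Up (μ : ℝ × ℝ → ℝ) (B R : ℝ) : Prop :=
  ∀ (y : VV) (r : ℝ), μ (iv y) ≤ r → r ≤ R → hh y ≤ μ (iv y) + B * sig r

variable {μ : ℝ × ℝ → ℝ} {κ B R : ℝ} {u t : ℝ × ℝ} {L : ℝ × ℝ →ₗ[ℝ] ℝ}

lemma Cone.le (h : IsTC μ) (hc : Cone μ κ u t L) (α β : ℝ) :
    μ (α • u + β • t) ≤ |α| + 3 * |β| := by
  have h1 := h.add (α • u) (β • t)
  rw [h.smul_abs α u, h.smul_abs β t] at h1
  nlinarith [mul_le_mul_of_nonneg_left hc.hu (abs_nonneg α),
    mul_le_mul_of_nonneg_left hc.ht (abs_nonneg β)]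

lemma r1_add_le (x y : ℝ × ℝ) : r1 (x + y) ≤ r1 x + r1 y := by
  simp only [r1, Prod.fst_add, Prod.snd_add]
  linarith [abs_add_le x.1 y.1, abs_add_le x.2 y.2]

lemma mem_box_of_n1 {a w : VV} {k : ℕ} (h : n1 (w - a) ≤ k) : w ∈ box a k := by
  simp only [n1, Prod.fst_sub, Prod.snd_sub] at h
  have h1 : |w.1 - a.1| + |w.2 - a.2| ≤ k := by exact_mod_cast h
  rw [mem_box]
  have := abs_nonneg (w.1 - a.1)
  have := abs_nonneg (w.2 - a.2)
  have := le_abs_self (w.1 - a.1)
  have := le_abs_self (w.2 - a.2)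
  have := neg_abs_le (w.1 - a.1)
  have := neg_abs_le (w.2 - a.2)
  omega

lemma leg (h : IsTC μ) (hc : Cone μ κ u t L) (hB : 0 ≤ B) (IH : Up μ B R) {r β : ℝ} (hr : 1 ≤ r)
    (hR : 4 * r ≤ R) (hβ : |β| ≤ r / 2) (z : ℝ × ℝ) :
    Dom (fun ω a => a = TT ω (fl z) (fl (z + ((r / 2) • u + β • t))) - L ((r / 2) • u + β • t))
      (κ * (r / 2) + 2 + 2 * B * sig r) (33600 * sig r) := by
  have h0 := hc.le h (r / 2) β
  have h1 := hc.up (r / 2) β hβ
  rw [abs_of_pos (by linarith)] at h0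
  generalize (r / 2) • u + β • t = v at *
  have h2 := r1_fl_sub (z + v) z
  rw [add_sub_cancel_left] at h2
  have h3 := h.le_add (iv (fl (z + v) - fl z)) v
  have h4 := h.ge (iv (fl (z + v) - fl z))
  rw [r1_iv] at h4
  have h5 := IH (fl (z + v) - fl z) (2 ^ 2 * r) (by linarith) (by linarith)
  have h6 := sig_mul (r := r) (k := 2) (by linarith) (by norm_num)
  have h7 := sig_mul (r := r) (k := 7) (by linarith) (by norm_num)
  have h8 := sig_pos (r := 7 ^ 2 * r) (by linarith)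
  refine ((dom_up (fl z) (fl (z + v)) (r := 7 ^ 2 * r) (by linarith) (by linarith)).scale
    (by linarith) (by linarith)).mono (by linarith) fun ω a ha => ⟨_, rfl, ?_⟩
  rw [ha]
  nlinarith [mul_le_mul_of_nonneg_left h6 hB]

lemma chain_base (h : IsTC μ) (hc : Cone μ κ u t L) (c : ℝ × ℝ) {r : ℝ} (hr0 : 0 ≤ r)
    (hr : r ≤ 1) :
    Dom (fun ω a => ∃ p, Cell u t c r p ∧
      a = TT ω (fl (c - r • u)) p - L (iv p - (c - r • u))) 3000000 273600 := by
  classical
  set z := c - r • u with hz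
  have key : ∀ p, Cell u t c r p → μ (iv p - z) ≤ 5 ∧ n1 (p - fl z) ≤ 57 := by
    rintro p ⟨α, β, a1, a2, a3, a4, hp⟩
    have e1 : iv p - z = (α + r) • u + β • t := by rw [hp, hz]; module
    have h1 := hc.le h (α + r) β
    rw [← e1, abs_of_nonneg (by linarith), abs_of_nonneg a3] at h1
    have h2 := h.ge (iv p - z)
    have h3 := r1_add_le (iv p - z) (z - iv (fl z))
    rw [sub_add_sub_cancel, r1_sub_comm z, ← iv_sub, r1_iv] at h3
    exact ⟨by linarith, by linarith [r1_fl z]⟩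
  have hs := sig_le_self (r := 57) (by norm_num)
  have hs' := sig_pos (r := 57) (by norm_num)
  have := dom_union ((box (fl z) 57).filter (Cell u t c r)) (N := 10) (s := 273600) (d := 72)
    (F := fun p ω a => a = TT ω (fl z) p - L (iv p - z))
    (C := fun ω a => ∃ p, Cell u t c r p ∧ a = TT ω (fl z) p - L (iv p - z)) (by norm_num)
    (fun p hp => by
      obtain ⟨k1, k2⟩ := key p (Finset.mem_filter.1 hp).2
      refine ((dom_up (fl z) p k2 (by norm_num)).scale (by linarith) (by linarith)).mono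
        (by norm_num) fun ω a ha => ⟨_, rfl, ?_⟩
      rw [ha]
      linarith [hh_le (p - fl z), hc.hL (iv p - z), neg_abs_le (L (iv p - z))])
    (by
      have h1 : (((box (fl z) 57).filter (Cell u t c r)).card : ℝ) ≤ (box (fl z) 57).card := by
        exact_mod_cast Finset.card_filter_le _ _
      rw [card_box] at h1
      have h2 : (2.7 : ℝ) ^ 10 ≤ exp 1 ^ 10 := by
        gcongr; linarith [exp_one_gt_d9]
      rw [← exp_nat_mul] at h2
      norm_num at h2
      push_cast at h1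
      linarith)
    (by
      rintro ω a ⟨p, hp, rfl⟩
      exact ⟨p, Finset.mem_filter.2 ⟨mem_box_of_n1 (by exact_mod_cast (key p hp).2), hp⟩, rfl⟩)
  exact this.mono (by norm_num) fun ω a ha => ⟨a, ha, by linarith⟩

theorem chain_aux (h : IsTC μ) (hc : Cone μ κ u t L) (hκ : 0 ≤ κ) (hB : 0 ≤ B) (IH : Up μ B R)
    (J : ℕ) : ∀ (c : ℝ × ℝ) (r : ℝ), 0 ≤ r → r ≤ 2 ^ J → 4 * r ≤ R →
    Dom (fun ω a => ∃ p, Cell u t c r p ∧
      a = TT ω (fl (c - r • u)) p - L (iv p - (c - r • u)))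
      (κ * r + (8 * B + 4000000) * sig r + 3000000) (134400 * sig r + 273600) := by
  have base : ∀ (c : ℝ × ℝ) (r : ℝ), 0 ≤ r → r ≤ 1 →
      Dom (fun ω a => ∃ p, Cell u t c r p ∧
      a = TT ω (fl (c - r • u)) p - L (iv p - (c - r • u)))
      (κ * r + (8 * B + 4000000) * sig r + 3000000) (134400 * sig r + 273600) := by
    intro c r hr0 hr
    have := sig_nonneg r
    refine ((chain_base h hc c hr0 hr).scale (by norm_num) (by linarith)).mono (by positivity)
      fun ω a ha => ⟨a, ha, ?_⟩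
    have : 0 ≤ κ * r + (8 * B + 4000000) * sig r := by positivity
    linarith
  induction J with
  | zero => exact fun c r hr0 hr _ => base c r hr0 (by simpa using hr)
  | succ J ih =>
    intro c r hr0 hr hR
    rcases le_total r 1 with hr1 | hr1
    · exact base c r hr0 hr1
    have s1 := sig_ge hr1
    have s2 := sig_half hr0
    have s3 := sig_nonneg (r / 2)
    have half : ∀ β : ℝ, |β| ≤ r / 2 → Dom (fun ω a => ∃ p, Cell u t (c + β • t) (r / 2) p ∧
        a = TT ω (fl (c - r • u)) p - L (iv p - (c - r • u)))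
        (κ * r + 2 + 2 * B * sig r + (8 * B + 4000000) * sig (r / 2) + 3000000)
        (134400 * sig r + 273600) := by
      intro β hβ
      have h1 := ih (c + β • t) (r / 2) (by linarith) (by rw [pow_succ] at hr; linarith)
        (by linarith)
      have e1 : c + β • t - (r / 2) • u = c - r • u + ((r / 2) • u + β • t) := by module
      rw [e1] at h1
      have h2 := (leg h hc hB IH hr1 hR hβ (c - r • u)).add h1 (by linarith) (by positivity)
        (C := fun ω a => ∃ p, Cell u t (c + β • t) (r / 2) p ∧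
          a = TT ω (fl (c - r • u)) p - L (iv p - (c - r • u))) (by
          rintro ω a ⟨p, hp, rfl⟩
          refine ⟨_, _, rfl, ⟨p, hp, rfl⟩, ?_⟩
          have h3 := TT_triangle ω (fl (c - r • u)) (fl (c - r • u + ((r / 2) • u + β • t))) p
          have h4 : L (iv p - (c - r • u)) = L ((r / 2) • u + β • t) +
              L (iv p - (c - r • u + ((r / 2) • u + β • t))) := by
            rw [← map_add]; congr 1; module
          linarith)
      exact (h2.scale (by positivity) (by linarith)).mono (by positivity)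
        fun ω a ha => ⟨a, ha, by linarith⟩
    have h3 := (half 0 (by simp; linarith)).union
      (half (r / 2) (by rw [abs_of_nonneg (by linarith)])) (by positivity)
      (C := fun ω a => ∃ p, Cell u t c r p ∧
        a = TT ω (fl (c - r • u)) p - L (iv p - (c - r • u))) (by
        rintro ω a ⟨p, ⟨α, β, a1, a2, a3, a4, hp⟩, rfl⟩
        rcases le_total β (r / 2) with hβ | hβ
        · exact Or.inl ⟨p, ⟨α, β, a1, a2, a3, hβ, by rw [hp]; module⟩, rfl⟩
        · exact Or.inr ⟨p, ⟨α, β - r / 2, a1, a2, by linarith, by linarith,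
            by rw [hp]; module⟩, rfl⟩)
    refine h3.mono (by positivity) fun ω a ha => ⟨a, ha, ?_⟩
    nlinarith [mul_le_mul_of_nonneg_left s2 hB]

theorem chain (h : IsTC μ) (hc : Cone μ κ u t L) (hκ : 0 ≤ κ) (hB : 0 ≤ B) (IH : Up μ B R)
    (c : ℝ × ℝ) {r : ℝ} (hr0 : 0 ≤ r) (hR : 4 * r ≤ R) :
    Dom (fun ω a => ∃ p, Cell u t c r p ∧
      a = TT ω (fl (c - r • u)) p - L (iv p - (c - r • u)))
      (κ * r + (8 * B + 4000000) * sig r + 3000000) (134400 * sig r + 273600) := by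
  obtain ⟨J, hJ⟩ := pow_unbounded_of_one_lt r (by norm_num : (1 : ℝ) < 2)
  exact chain_aux h hc hκ hB IH J c r hr0 hJ.le hR

end Pool.Agent.Lib.MP_de94ef_pr
end

-- part Pool.Agent.Lib.MP_de94ef_pr.Block
section

/-!
Block decomposition of long paths.
-/

open MeasureTheory ProbabilityTheory Set Real Function Filter Topology
open scoped ENNReal

namespace Pool.Agent.Lib.MP_de94ef_pr

/-- Corner of a cell. -/
def cc (u t : ℝ × ℝ) (m w : ℝ) (i : ℕ) (k : ℤ) : ℝ × ℝ := ((i : ℝ) * m) • u + ((k : ℝ) * w) • t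

/-- Gains between two consecutive cells. -/
def Blk (u t : ℝ × ℝ) (L : ℝ × ℝ →ₗ[ℝ] ℝ) (m w : ℝ) (M : ℕ) (k k' : ℤ) (ω : EE → ℝ) (a : ℝ) :
    Prop :=
  ∃ p q, Cell u t (cc u t m w M k) w p ∧ Cell u t (cc u t m w (M + 1) k') w q ∧
    a = L (iv q - iv p) - TT ω p q

open Classical in
/-- Selection of trails from the origin to a cell. -/
noncomputable def cA (u t : ℝ × ℝ) (L : ℝ × ℝ →ₗ[ℝ] ℝ) (m w S : ℝ) (M : ℕ) (k : ℤ)
    (i : Σ q, GG.Walk 0 q) : ℝ≥0∞ :=
  if Cell u t (cc u t m w M k) w i.1 ∧ i.2.IsTrail then ENNReal.ofReal (exp (L (iv i.1) / S))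
  else 0

open Classical in
/-- Selection of walks between consecutive cells. -/
noncomputable def cB (u t : ℝ × ℝ) (L : ℝ × ℝ →ₗ[ℝ] ℝ) (m w S : ℝ) (M : ℕ) (k k' : ℤ)
    (i : Σ p : VV × VV, GG.Walk p.1 p.2) : ℝ≥0∞ :=
  if Cell u t (cc u t m w M k) w i.1.1 ∧ Cell u t (cc u t m w (M + 1) k') w i.1.2 then
    ENNReal.ofReal (exp (L (iv i.1.2 - iv i.1.1) / S)) else 0

variable {μ : ℝ × ℝ → ℝ} {κ B R m w S : ℝ} {u t : ℝ × ℝ} {a b L : ℝ × ℝ →ₗ[ℝ] ℝ}

lemma cB_le (hS : 0 < S) {M : ℕ} {k k' : ℤ} {g : ℝ} (hD : Dom (Blk u t L m w M k k') g S) :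
    ∫⁻ ω, ZZ S⁻¹ (cB u t L m w S M k k') (fun i => es i.2) ω ∂PP EE ≤
      ENNReal.ofReal (3 * exp (g / S)) := by
  obtain ⟨W, h1, h2, h3⟩ := hD
  calc _ ≤ ∫⁻ ω, ENNReal.ofReal (exp (g / S)) * W ω ∂PP EE := by
        refine lintegral_mono fun ω => iSup_le fun ⟨⟨p, q⟩, γ⟩ => ?_
        unfold cB
        split_ifs with hc
        swap
        · simp
        refine le_trans ?_ (mul_le_mul_right (h2 ω _ ⟨p, q, hc.1, hc.2, rfl⟩) _)
        unfold WW
        rw [← ENNReal.ofReal_mul (exp_pos _).le, ← ENNReal.ofReal_mul (exp_pos _).le, ← exp_add,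
          ← exp_add]
        refine ENNReal.ofReal_le_ofReal (exp_le_exp.2 ?_)
        have := TT_le ω γ
        simp only at this ⊢
        rw [neg_mul, inv_mul_eq_div, ← neg_div, ← add_div, ← add_div]
        exact div_le_div_of_nonneg_right (by linarith) hS.le
    _ ≤ _ := by
        rw [lintegral_const_mul _ h1, mul_comm 3, ENNReal.ofReal_mul (exp_pos _).le]
        gcongr
        simpa using h3

lemma cell_of (hF : Frame μ κ u t a b L) (hw : 0 < w) {M : ℕ} {p : VV}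
    (h1 : M * m ≤ a (iv p)) (h2 : a (iv p) ≤ M * m + 1) :
    Cell u t (cc u t m w M ⌊b (iv p) / w⌋) w p := by
  have a1 := Int.floor_le (b (iv p) / w)
  have a2 := Int.lt_floor_add_one (b (iv p) / w)
  rw [le_div_iff₀ hw] at a1
  rw [div_lt_iff₀ hw] at a2
  refine ⟨a (iv p) - M * m, b (iv p) - ⌊b (iv p) / w⌋ * w, by linarith, by linarith, by linarith,
    by linarith, ?_⟩
  conv_lhs => rw [hF.dec (iv p)]
  unfold cc
  module

lemma a_of_cell (hF : Frame μ κ u t a b L) {M : ℕ} {k : ℤ} {p : VV}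
    (h : Cell u t (cc u t m w M k) w p) : M * m ≤ a (iv p) := by
  obtain ⟨α, β, a1, -, -, -, hp⟩ := h
  rw [hp]
  simp [cc, hF.au, hF.at', a1]

lemma a_adj (h : IsTC μ) (hF : Frame μ κ u t a b L) (p q : VV) (hpq : GG.Adj p q) :
    a (iv q) ≤ a (iv p) + 1 := by
  have h1 := hF.ha (iv (q - p))
  have h2 := h.le (iv (q - p))
  rw [r1_iv, n1_of_adj hpq] at h2
  rw [iv_sub, map_sub] at h1
  rw [iv_sub] at h2
  linarith

lemma cA_step (h : IsTC μ) (hF : Frame μ κ u t a b L) (hm : 0 ≤ m) (hw : 0 < w) (M : ℕ) (k' : ℤ)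
    (ω : EE → ℝ) : ZZ S⁻¹ (cA u t L m w S (M + 1) k') (fun i => es i.2) ω ≤
      ∑' k : ℤ, ZD S⁻¹ (cA u t L m w S M k) (fun i => es i.2) (cB u t L m w S M k k')
        (fun i => es i.2) ω := by
  refine iSup_le fun ⟨q, γ⟩ => ?_
  unfold cA
  split_ifs with hc
  swap
  · simp
  obtain ⟨hq, hγ⟩ := hc
  have h0 := a_of_cell hF hq
  have hM : 0 ≤ (M : ℝ) * m := by positivity
  obtain ⟨p, γ1, γ2, rfl, h1, h2⟩ := crossing (φ := fun p => a (iv p)) (a_adj h hF)
    (c := M * m) γ (by simp; linarith) (by push_cast at h0; linarith)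
  have hp := cell_of hF hw h1 h2
  refine le_trans ?_ (ENNReal.le_tsum ⌊b (iv p) / w⌋)
  refine le_iSup_of_le (⟨p, γ1⟩, ⟨(p, q), γ2⟩) ?_
  have hdis := disjoint_of_isTrail hγ
  rw [if_pos hdis]
  simp only [cB]
  rw [if_pos ⟨hp, hγ.of_append_left⟩, if_pos ⟨hp, hq⟩, es_append, WW_union _ _ hdis,
    ← ENNReal.ofReal_mul (exp_pos _).le, ← exp_add, ← add_div, ← map_add, add_sub_cancel]

lemma cA_one (hw : 0 ≤ w) (k : ℤ) (ω : EE → ℝ) :
    ZZ S⁻¹ (cA u t L m w S 1 k) (fun i => es i.2) ω ≤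
      ZZ S⁻¹ (cB u t L m w S 0 0 k) (fun i => es i.2) ω := by
  refine iSup_le fun ⟨q, γ⟩ => ?_
  unfold cA
  split_ifs with hc
  swap
  · simp
  refine le_iSup_of_le ⟨(0, q), γ⟩ ?_
  simp only [cB]
  rw [if_pos ⟨⟨0, 0, le_rfl, zero_le_one, le_rfl, hw, by simp [cc]⟩, hc.1⟩]
  simp

theorem tree_aux (h : IsTC μ) (hF : Frame μ κ u t a b L) (hm : 0 ≤ m) (hw : 0 < w) (hS : 0 < S)
    {g : ℤ → ℝ} (hD : ∀ M k j, Dom (Blk u t L m w M k (k + j)) (g j) S) (β : ℝ) (M : ℕ) :
    ∑' k : ℤ, ENNReal.ofReal (exp (β * k)) *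
      ∫⁻ ω, ZZ S⁻¹ (cA u t L m w S (M + 1) k) (fun i => es i.2) ω ∂PP EE ≤
      (∑' j : ℤ, ENNReal.ofReal (exp (β * j)) * ENNReal.ofReal (3 * exp (g j / S))) ^ (M + 1) := by
  induction M with
  | zero =>
    rw [zero_add, pow_one]
    refine ENNReal.tsum_le_tsum fun k => mul_le_mul_right ?_ _
    refine (lintegral_mono fun ω => cA_one hw.le k ω).trans (cB_le hS ?_)
    simpa using hD 0 0 k
  | succ M ih =>
    set Z : ℤ → ℝ≥0∞ := fun k =>
      ∫⁻ ω, ZZ S⁻¹ (cA u t L m w S (M + 1) k) (fun i => es i.2) ω ∂PP EE with hZ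
    set Y : ℤ → ℝ≥0∞ := fun j => ENNReal.ofReal (3 * exp (g j / S)) with hY
    have h1 : ∀ k', ∫⁻ ω, ZZ S⁻¹ (cA u t L m w S (M + 1 + 1) k') (fun i => es i.2) ω ∂PP EE ≤
        ∑' k : ℤ, Z k * Y (k' - k) := by
      intro k'
      refine (lintegral_mono fun ω => cA_step h hF hm hw (M + 1) k' ω).trans ?_
      rw [lintegral_tsum fun k => (measurable_ZD _ _ _ _ _).aemeasurable]
      refine ENNReal.tsum_le_tsum fun k => (bk _ _ _ _ _).trans (mul_le_mul_right ?_ _)
      refine cB_le hS ?_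
      simpa using hD (M + 1) k (k' - k)
    calc _ ≤ ∑' k' : ℤ, ∑' k : ℤ, ENNReal.ofReal (exp (β * k)) * Z k *
            (ENNReal.ofReal (exp (β * ((k' - k : ℤ) : ℝ))) * Y (k' - k)) := by
          refine ENNReal.tsum_le_tsum fun k' => (mul_le_mul_right (h1 k') _).trans ?_
          rw [← ENNReal.tsum_mul_left]
          refine ENNReal.tsum_le_tsum fun k => le_of_eq ?_
          have : exp (β * k') = exp (β * k) * exp (β * ((k' - k : ℤ) : ℝ)) := by
            rw [← exp_add]; congr 1; push_cast; ring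
          rw [this, ENNReal.ofReal_mul (exp_pos _).le]; ring
      _ = (∑' k : ℤ, ENNReal.ofReal (exp (β * k)) * Z k) *
            ∑' j : ℤ, ENNReal.ofReal (exp (β * j)) * Y j := by
          rw [ENNReal.tsum_comm, ← ENNReal.tsum_mul_right]
          refine tsum_congr fun k => ?_
          rw [ENNReal.tsum_mul_left]
          congr 1
          exact (Equiv.subRight k).tsum_eq fun j => ENNReal.ofReal (exp (β * j)) * Y j
      _ ≤ _ := by rw [pow_succ]; exact mul_le_mul_left ih _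

theorem tree (h : IsTC μ) (hF : Frame μ κ u t a b L) (hm : 0 ≤ m) (hw : 0 < w) (hS : 0 < S)
    {g : ℤ → ℝ} (hD : ∀ M k j, Dom (Blk u t L m w M k (k + j)) (g j) S) (β : ℝ) {M : ℕ}
    (hM : 1 ≤ M) {y : VV} (hy : iv y = ((M : ℝ) * m) • u) :
    ∫⁻ ω, ENNReal.ofReal (exp ((M * m - TT ω 0 y) / S)) ∂PP EE ≤
      (∑' j : ℤ, ENNReal.ofReal (3 * exp (g j / S + β * j))) ^ M := by
  obtain ⟨M, rfl⟩ : ∃ M', M = M' + 1 := ⟨M - 1, by omega⟩
  have h1 := tree_aux h hF hm hw hS hD β M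
  have e1 : ∀ j : ℤ, ENNReal.ofReal (exp (β * j)) * ENNReal.ofReal (3 * exp (g j / S)) =
      ENNReal.ofReal (3 * exp (g j / S + β * j)) := fun j => by
    rw [← ENNReal.ofReal_mul (exp_pos _).le, exp_add]; congr 1; ring
  simp only [e1] at h1
  refine le_trans ?_ ((ENNReal.le_tsum 0).trans h1)
  simp only [Int.cast_zero, mul_zero, exp_zero, ENNReal.ofReal_one, one_mul]
  refine lintegral_mono fun ω => ?_
  have := exp_TT_le (l := S⁻¹) (by positivity) (ω := ω) (u := 0) (v := y)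
    (ENNReal.ofReal (exp (L (iv y) / S))) (by simp)
    (M := ZZ S⁻¹ (cA u t L m w S (M + 1) 0) (fun i => es i.2) ω) fun p hp =>
      le_iSup_of_le ⟨y, p⟩ (by
        simp only [cA]
        rw [if_pos ⟨⟨0, 0, le_rfl, zero_le_one, le_rfl, hw.le, by simp [cc, hy]⟩, hp.isTrail⟩])
  refine le_trans (le_of_eq ?_) this
  rw [← ENNReal.ofReal_mul (exp_pos _).le, ← exp_add, hy, map_smul, hF.Lu]
  congr 2
  simp only [smul_eq_mul]
  ring

/-- Displacement between anchors. -/
def vj (u t : ℝ × ℝ) (m w : ℝ) (j : ℤ) : ℝ × ℝ := (m + 1 + 2 * w) • u + ((j : ℝ) * w) • t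

/-- Excess of the mean passage time over the linear form. -/
noncomputable def ff (u t : ℝ × ℝ) (L : ℝ × ℝ →ₗ[ℝ] ℝ) (m w : ℝ) (j : ℤ) : ℝ :=
  hh (fl (vj u t m w j)) - L (vj u t m w j)

lemma IsTC.le_fl (h : IsTC μ) (v : ℝ × ℝ) : μ v - 2 ≤ hh (fl v) := by
  have h1 := h.le_add v (iv (fl v))
  rw [r1_sub_comm] at h1
  linarith [r1_fl v, h.le_hh (fl v)]

lemma ff_low (h : IsTC μ) (hF : Frame μ κ u t a b L) (hm : 0 ≤ m) (hw : 0 ≤ w) (j : ℤ) :
    κ * w * |(j : ℝ)| - (2 * κ * (m + 1 + 2 * w) + 2) ≤ ff u t L m w j := by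
  have h1 := hF.low1 (m + 1 + 2 * w) (j * w) (by linarith)
  have h2 := h.le_fl (vj u t m w j)
  rw [abs_mul, abs_of_nonneg hw] at h1
  unfold ff
  unfold vj at *
  linarith

lemma mid (h : IsTC μ) (hF : Frame μ κ u t a b L) (hκ : 0 ≤ κ) (hm : 0 ≤ m) (hw : 0 ≤ w)
    (hS : 6000000 ≤ S) (hS' : 72000 * sig (m + 1 + 2 * w) ≤ S) (j : ℤ) (z : ℝ × ℝ) :
    Dom (fun ω x => x = L (vj u t m w j) - TT ω (fl z) (fl (z + vj u t m w j)))
      (-ff u t L m w j / 2 + κ * (m + 1 + 2 * w) + 6) S := by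
  have f1 := ff_low h hF hm hw j
  have f2 := hF.low2 (m + 1 + 2 * w) (j * w) (by linarith)
  have f0 : 0 ≤ κ * w * |(j : ℝ)| := by positivity
  change L (vj u t m w j) ≤ μ (vj u t m w j) / 2 + _ at f2
  unfold ff at *
  have hm' : 1 ≤ m + 1 + 2 * w := by linarith
  generalize vj u t m w j = v at *
  generalize m + 1 + 2 * w = m' at *
  have f3 := h.le_fl v
  have h2 := r1_fl_sub (z + v) z
  have h2' := n1_fl_sub (z + v) z
  rw [add_sub_cancel_left] at h2 h2'
  have h3 := h.le_add (iv (fl (z + v) - fl z)) v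
  have h4 := h.ge (iv (fl (z + v) - fl z))
  rw [r1_iv] at h4
  have h5 := hh_lip (fl v) (fl (z + v) - fl z)
  have h6 : 0 ≤ κ * m' := by positivity
  rcases le_total (μ v + 2) (20 * m') with hs | hs
  · have h7 := sig_mul (r := m') (k := 15) (by linarith) (by norm_num)
    have h8 := sig_pos (r := 15 ^ 2 * m') (by linarith)
    refine ((dom_down (fl z) (fl (z + v)) (r := 15 ^ 2 * m') (by linarith) (by linarith)).scale
      (by linarith) (by linarith)).mono (by linarith) fun ω x hx => ⟨_, rfl, ?_⟩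
    rw [hx]; linarith
  · refine (dom_gauss (fl z) (fl (z + v)) (n := 11 * (μ v + 2)) (s := S) (by linarith)
      (by linarith) (Or.inr rfl)).mono (by linarith) fun ω x hx => ⟨_, rfl, ?_⟩
    have h7 : 46000 * (2 * (11 * (μ v + 2)) + 1) / S ≤ 3 / 16 * (μ v + 2) := by
      rw [div_le_iff₀ (by linarith)]
      nlinarith
    rw [hx]; linarith

theorem block (h : IsTC μ) (hB : 0 ≤ B) (IH : Up μ B R) (hm : 1 ≤ m)
    (hF : Frame μ (sig m / m) u t a b L) (hw : 0 < w) (hwm : w ≤ m) (hR : 4 * w ≤ R)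
    (M : ℕ) (k j : ℤ) :
    Dom (Blk u t L m w M k (k + j))
      (-ff u t L m w j / 2 + 16 * B * sig w + 30000000 * sig m) (30000000 * sig m) := by
  have s1 := sig_ge hm
  have s2 := sig_mono hw.le hwm
  have s3 := sig_le (r := m + 1 + 2 * w) (r' := m) (k := 2) (by linarith) (by linarith)
    (by norm_num) (by linarith)
  have s4 := sig_nonneg w
  have hκ : 0 ≤ sig m / m := by positivity
  have k1 : sig m / m * m = sig m := by field_simp
  have k2 : sig m / m * w ≤ sig m / m * m := by gcongr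
  have k3 : sig m / m * 1 ≤ sig m / m * m := by gcongr
  set c := cc u t m w M k with hc
  have e1 : cc u t m w (M + 1) (k + j) + u - w • -u = c - w • u + vj u t m w j := by
    rw [hc]; unfold cc vj; push_cast; module
  have h1 := chain h hF.cone hκ hB IH c hw.le hR
  have h2 := chain h (hF.cone.neg h) hκ hB IH (cc u t m w (M + 1) (k + j) + u) hw.le hR
  rw [e1] at h2
  have h3 := mid h hF hκ (m := m) (by linarith) hw.le (S := 20000000 * sig m) (by linarith)
    (by linarith) j (c - w • u)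
  have h4 := (h3.add h1 (by linarith) (by positivity) (C := fun ω x => ∃ p, Cell u t c w p ∧
      x = L (vj u t m w j) - TT ω (fl (c - w • u)) (fl (c - w • u + vj u t m w j)) +
        (TT ω (fl (c - w • u)) p - L (iv p - (c - w • u)))) (by
      rintro ω x ⟨p, hp, rfl⟩
      exact ⟨_, _, rfl, ⟨p, hp, rfl⟩, le_rfl⟩)).add h2 (by positivity) (by positivity)
    (C := Blk u t L m w M k (k + j)) (by
      rintro ω x ⟨p, q, hp, ⟨α, β, a1, a2, a3, a4, hq⟩, rfl⟩
      refine ⟨_, _, ⟨p, hp, rfl⟩, ⟨q, ⟨1 - α, β, by linarith, by linarith, a3, a4,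
        by rw [hq]; module⟩, rfl⟩, ?_⟩
      have t1 := TT_triangle ω (fl (c - w • u)) p (fl (c - w • u + vj u t m w j))
      have t2 := TT_triangle ω p q (fl (c - w • u + vj u t m w j))
      have t3 := TT_symm ω q (fl (c - w • u + vj u t m w j))
      have t4 : L (iv q - iv p) = L (vj u t m w j) - L (iv p - (c - w • u)) +
          L (iv q - (c - w • u + vj u t m w j)) := by
        rw [← map_sub, ← map_add]; congr 1; module
      simp only [LinearMap.neg_apply]
      linarith)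
  refine (h4.scale (by positivity) (by linarith)).mono (by positivity)
    fun ω x hx => ⟨x, hx, ?_⟩
  linarith

end Pool.Agent.Lib.MP_de94ef_pr
end

-- part Pool.Agent.Lib.MP_de94ef_pr.Mean
section

/-!
Non-random fluctuations are bounded by the sub-diffusive scale.
-/

open MeasureTheory ProbabilityTheory Set Real Function Filter Topology
open scoped ENNReal

namespace Pool.Agent.Lib.MP_de94ef_pr

lemma sum_exp {ε : ℝ} (hε : 0 < ε) : ∃ Λ : ℝ, 0 ≤ Λ ∧
    ∑' j : ℤ, ENNReal.ofReal (exp (-ε * |(j : ℝ)|)) ≤ ENNReal.ofReal (exp Λ) := by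
  have h1 : Summable fun n : ℕ => exp (-ε * n) := by
    have := summable_geometric_of_lt_one (exp_pos (-ε)).le (exp_lt_one_iff.2 (by linarith))
    refine this.congr fun n => ?_
    rw [← exp_nat_mul]; congr 1; ring
  have h2 : Summable fun j : ℤ => exp (-ε * |(j : ℝ)|) :=
    Summable.of_nat_of_neg (by simpa using h1) (by simpa using h1)
  refine ⟨∑' j : ℤ, exp (-ε * |(j : ℝ)|), tsum_nonneg fun _ => (exp_pos _).le, ?_⟩
  rw [← ENNReal.ofReal_tsum_of_nonneg (fun _ => (exp_pos _).le) h2]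
  exact ENNReal.ofReal_le_ofReal (by linarith [add_one_le_exp (∑' j : ℤ, exp (-ε * |(j : ℝ)|))])

lemma G_le {ε Λ A : ℝ}
    (hΛ : ∑' j : ℤ, ENNReal.ofReal (exp (-ε * |(j : ℝ)|)) ≤ ENNReal.ofReal (exp Λ))
    {g : ℤ → ℝ} (hg : ∀ j, g j ≤ A - ε * |(j : ℝ)|) :
    ∑' j : ℤ, ENNReal.ofReal (3 * exp (g j)) ≤ ENNReal.ofReal (3 * exp (A + Λ)) := by
  calc _ ≤ ∑' j : ℤ, ENNReal.ofReal (3 * exp A) * ENNReal.ofReal (exp (-ε * |(j : ℝ)|)) := by
        refine ENNReal.tsum_le_tsum fun j => ?_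
        rw [← ENNReal.ofReal_mul (by positivity), mul_assoc, ← exp_add]
        gcongr
        linarith [hg j]
    _ ≤ _ := by
        rw [ENNReal.tsum_mul_left, exp_add, ← mul_assoc, ENNReal.ofReal_mul (p := 3 * exp A)
          (by positivity)]
        gcongr

lemma two_point (f : ℤ → ℝ) (θ : ℝ) (h : ¬ ∃ β : ℝ, ∀ j : ℤ, θ + β * j ≤ f j) :
    ∃ (j j' : ℤ) (p : ℝ), 0 ≤ p ∧ p ≤ 1 ∧ p * j + (1 - p) * j' = 0 ∧
      p * f j + (1 - p) * f j' ≤ θ := by
  by_contra hc
  push Not at hc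
  apply h
  have h0 : θ < f 0 := by simpa using hc 0 0 1 zero_le_one le_rfl (by simp)
  have key : ∀ j j' : ℤ, j < 0 → 0 < j' → (f j - θ) / j ≤ (f j' - θ) / j' := by
    intro j j' hj hj'
    have a1 : (j : ℝ) < 0 := by exact_mod_cast hj
    have a2 : (0 : ℝ) < j' := by exact_mod_cast hj'
    have a3 : (0 : ℝ) < j' - j := by linarith
    have := hc j j' (j' / (j' - j)) (by positivity) (by rw [div_le_one a3]; linarith)
      (by field_simp; ring)
    have e1 : (j' : ℝ) / (j' - j) * f j + (1 - j' / (j' - j)) * f j' =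
        (j' * f j - j * f j') / (j' - j) := by field_simp; ring
    rw [e1, lt_div_iff₀ a3] at this
    rw [le_div_iff₀ a2, div_mul_eq_mul_div, div_le_iff_of_neg a1]
    linarith
  have hb : BddAbove (range fun j : {j : ℤ // j < 0} => (f j - θ) / j) :=
    ⟨_, by rintro _ ⟨j, rfl⟩; exact key j 1 j.2 one_pos⟩
  have : Nonempty {j : ℤ // j < 0} := ⟨⟨-1, by norm_num⟩⟩
  refine ⟨⨆ j : {j : ℤ // j < 0}, (f j - θ) / j, fun j => ?_⟩
  rcases lt_trichotomy j 0 with hj | rfl | hj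
  · have := le_ciSup hb ⟨j, hj⟩
    have a1 : (j : ℝ) < 0 := by exact_mod_cast hj
    simp only at this
    rw [div_le_iff_of_neg a1] at this
    linarith
  · simpa using h0.le
  · have := ciSup_le (f := fun j : {j : ℤ // j < 0} => (f j - θ) / j)
      fun i => key i j i.2 hj
    rw [le_div_iff₀ (by exact_mod_cast hj)] at this
    linarith

lemma exp_le_lintegral (y : VV) (c : ℝ) {S : ℝ} :
    ENNReal.ofReal (exp ((c - hh y) / S)) ≤
      ∫⁻ ω, ENNReal.ofReal (exp ((c - TT ω 0 y) / S)) ∂PP EE := by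
  have h2 := one_le_lintegral_exp (P := PP EE) (X := fun ω => (hh y - TT ω 0 y) / S)
    (by fun_prop) (((integrable_const _).sub (integrable_TT 0 y)).div_const _) (by
      rw [integral_div, integral_sub (integrable_const _) (integrable_TT 0 y)]
      simp [hh])
  have e1 : ∀ ω, exp ((c - TT ω 0 y) / S) =
      exp ((c - hh y) / S) * exp ((hh y - TT ω 0 y) / S) := by
    intro ω; rw [← exp_add]; congr 1; ring
  simp only [e1, ENNReal.ofReal_mul (exp_pos _).le]
  rw [lintegral_const_mul' _ _ (by simp)]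
  exact le_mul_of_one_le_right' h2

variable {μ : ℝ × ℝ → ℝ} {κ B R m w S : ℝ} {u t : ℝ × ℝ} {a b L : ℝ × ℝ →ₗ[ℝ] ℝ}

lemma G_ge (h : IsTC μ) (hF : Frame μ κ u t a b L) (hm : 0 ≤ m) (hw : 0 < w) (hS : 0 < S)
    {g : ℤ → ℝ} (hD : ∀ M k j, Dom (Blk u t L m w M k (k + j)) (g j) S) (β : ℝ) {K : ℕ}
    (hK : 1 ≤ K) {x : VV} (hx : iv x = ((K : ℝ) * m) • u) (hn : μ (iv x) = K * m) :
    ¬ ∑' j : ℤ, ENNReal.ofReal (3 * exp (g j / S + β * j)) ≤ ENNReal.ofReal (1 / 2) := by
  intro hG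
  obtain ⟨N, hN, hN'⟩ := h.lim x (S / 2) (by linarith)
  have h1 := tree h hF hm hw hS hD β (M := N * K) (y := N • x) (Nat.mul_pos hN hK)
    (by rw [iv_nsmul, hx, smul_smul]; push_cast; rw [mul_assoc])
  have h2 := (exp_le_lintegral _ _).trans (h1.trans (pow_le_pow_left' hG _))
  rw [← ENNReal.ofReal_pow (by norm_num), ENNReal.ofReal_le_ofReal_iff (by positivity)] at h2
  have h3 : (1 / 2 : ℝ) ^ (N * K) ≤ (1 / 2) ^ N :=
    pow_le_pow_of_le_one (by norm_num) (by norm_num) (Nat.le_mul_of_pos_right _ hK)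
  have h4 : exp (-(1 / 2)) ^ N ≤ exp ((((N * K : ℕ) : ℝ) * m - hh (N • x)) / S) := by
    rw [← exp_nat_mul]
    refine exp_le_exp.2 ?_
    rw [le_div_iff₀ hS]
    rw [hn] at hN'
    push_cast
    linarith
  have h5 : (1 / 2 : ℝ) ^ N < exp (-(1 / 2)) ^ N :=
    pow_lt_pow_left₀ (by linarith [add_one_lt_exp (x := -(1 / 2)) (by norm_num)]) (by norm_num)
      (by omega)
  linarith

lemma r1_smul (c : ℝ) (x : ℝ × ℝ) : r1 (c • x) = |c| * r1 x := by
  simp [r1, abs_mul, mul_add]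

lemma combine (h : IsTC μ) {x : VV} {v v' : ℝ × ℝ} {s s' : ℝ} (hs : 0 ≤ s) (hs' : 0 ≤ s')
    (hx : iv x = s • v + s' • v') : ∃ (y : VV) (θ θ' : ℝ), 0 ≤ θ ∧ θ ≤ 1 ∧ θ ≤ s ∧
      0 ≤ θ' ∧ θ' ≤ 1 ∧ θ' ≤ s' ∧ μ (iv y) ≤ θ * μ v + θ' * μ v' + 2 * (s + s') ∧
      hh x ≤ (s - θ) * hh (fl v) + (s' - θ') * hh (fl v') + hh y := by
  have a1 := Nat.floor_le hs
  have a2 := Nat.lt_floor_add_one s
  have a3 := Nat.floor_le hs'
  have a4 := Nat.lt_floor_add_one s'
  have a5 := Nat.cast_nonneg (α := ℝ) ⌊s⌋₊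
  have a6 := Nat.cast_nonneg (α := ℝ) ⌊s'⌋₊
  refine ⟨x - ⌊s⌋₊ • fl v - ⌊s'⌋₊ • fl v', s - ⌊s⌋₊, s' - ⌊s'⌋₊, by linarith, by linarith,
    by linarith, by linarith, by linarith, by linarith, ?_, ?_⟩
  · have e1 : iv (x - ⌊s⌋₊ • fl v - ⌊s'⌋₊ • fl v') = ((s - ⌊s⌋₊) • v + (s' - ⌊s'⌋₊) • v') +
        ((-(⌊s⌋₊ : ℝ)) • (iv (fl v) - v) + (-(⌊s'⌋₊ : ℝ)) • (iv (fl v') - v')) := by
      rw [iv_sub, iv_sub, iv_nsmul, iv_nsmul, hx]; module
    rw [e1]
    have h1 := h.add ((s - ⌊s⌋₊) • v) ((s' - ⌊s'⌋₊) • v')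
    rw [h.smul _ _ (by linarith), h.smul _ _ (by linarith)] at h1
    have h2 := r1_add_le ((-(⌊s⌋₊ : ℝ)) • (iv (fl v) - v)) ((-(⌊s'⌋₊ : ℝ)) • (iv (fl v') - v'))
    rw [r1_smul, r1_smul, abs_neg, abs_neg, abs_of_nonneg a5, abs_of_nonneg a6] at h2
    have h3 := mul_le_mul_of_nonneg_left (r1_fl v) a5
    have h4 := mul_le_mul_of_nonneg_left (r1_fl v') a6
    exact (h.add _ _).trans (by linarith [h.le ((-(⌊s⌋₊ : ℝ)) • (iv (fl v) - v) +
      (-(⌊s'⌋₊ : ℝ)) • (iv (fl v') - v'))])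
  · have h1 := hh_add (⌊s⌋₊ • fl v + ⌊s'⌋₊ • fl v') (x - ⌊s⌋₊ • fl v - ⌊s'⌋₊ • fl v')
    rw [show ⌊s⌋₊ • fl v + ⌊s'⌋₊ • fl v' + (x - ⌊s⌋₊ • fl v - ⌊s'⌋₊ • fl v') = x by abel] at h1
    have h2 := hh_add (⌊s⌋₊ • fl v) (⌊s'⌋₊ • fl v')
    have h3 := hh_nsmul ⌊s⌋₊ (fl v)
    have h4 := hh_nsmul ⌊s'⌋₊ (fl v')
    simp only [sub_sub_cancel]
    linarith

lemma unit_dir (h : IsTC μ) {x : VV} {n : ℝ} (hn : μ (iv x) = n) (h0 : 0 < n) :
    μ (n⁻¹ • iv x) = 1 := by
  rw [h.smul _ _ (by positivity), hn, inv_mul_cancel₀ h0.ne']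

lemma two_blocks (h : IsTC μ) {δ Λ : ℝ} (hδ : 0 < δ) (hδ1 : δ ≤ 1)
    (hΛ : ∑' j : ℤ, ENNReal.ofReal (exp (-(δ / 120000000) * |(j : ℝ)|)) ≤ ENNReal.ofReal (exp Λ))
    (hB : 0 ≤ B) (IH : Up μ B R) (hm : 1 ≤ m) (hF : Frame μ (sig m / m) u t a b L)
    (hR : 4 * m ≤ R) {K : ℕ} (hK : 1 ≤ K) {x : VV} (hx : iv x = ((K : ℝ) * m) • u)
    (hn : μ (iv x) = K * m) :
    ∃ (j j' : ℤ) (p : ℝ), 0 ≤ p ∧ p ≤ 1 ∧ p * j + (1 - p) * j' = 0 ∧
      p * ff u t L m (δ * m) j + (1 - p) * ff u t L m (δ * m) j' ≤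
        64 * B * sig (δ * m) + (4 * Λ + 13) * (30000000 * sig m) := by
  refine two_point _ _ fun ⟨β, hβ⟩ => ?_
  have s1 := sig_ge hm
  have hw : 0 < δ * m := by positivity
  have hwm : δ * m ≤ m := by nlinarith
  have hD := block h hB IH hm hF hw hwm (by linarith)
  refine G_ge h hF (by linarith) hw (by linarith) hD (β / (4 * (30000000 * sig m))) hK hx hn
    ((G_le hΛ (A := -Λ - 2) fun j => ?_).trans (ENNReal.ofReal_le_ofReal ?_))
  · have f1 := ff_low h hF (m := m) (by linarith) hw.le j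
    have f2 := hβ j
    have k1 : sig m / m * (δ * m) = δ * sig m := by field_simp
    have k2 : sig m / m * m = sig m := by field_simp
    have k3 : sig m / m * 1 ≤ sig m / m * m := by gcongr
    have k4 : δ * sig m ≤ sig m := by nlinarith
    have e1 : β / (4 * (30000000 * sig m)) * j = (β * j / 4) / (30000000 * sig m) := by
      field_simp
    rw [e1, ← add_div, div_le_iff₀ (by linarith)]
    rw [k1] at f1
    linarith
  · have : exp (-Λ - 2 + Λ) = (exp 1 * exp 1)⁻¹ := by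
      rw [← exp_add, ← exp_neg]; congr 1; ring
    rw [this, ← div_eq_mul_inv, div_le_iff₀ (by positivity)]
    nlinarith [exp_one_gt_d9]

lemma mean_step (h : IsTC μ) {δ Λ : ℝ} (hδ : 0 < δ) (hδ1 : δ ≤ 1) (hΛ0 : 0 ≤ Λ)
    (hΛ : ∑' j : ℤ, ENNReal.ofReal (exp (-(δ / 120000000) * |(j : ℝ)|)) ≤ ENNReal.ofReal (exp Λ))
    (hδs : ∀ m, 0 ≤ m → sig (δ * m) ≤ 1 / 10 ^ 8 * sig m)
    (hB : 10 ^ 14 * (Λ + 4) ≤ B) (IH : Up μ B R) {x : VV} (h1 : 128 ≤ μ (iv x))
    (h2 : μ (iv x) ≤ 2 * R) : hh x ≤ μ (iv x) + B * sig (μ (iv x)) := by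
  have hB0 : 0 ≤ B := le_trans (by positivity) hB
  obtain ⟨m, hm⟩ : ∃ m, μ (iv x) = 128 * m := ⟨μ (iv x) / 128, by ring⟩
  have hm1 : 1 ≤ m := by linarith
  rcases le_total (11 * μ (iv x)) (B * sig (μ (iv x))) with hc | hc
  · have := h.ge (iv x)
    rw [r1_iv] at this
    linarith [hh_le x]
  have s1 := sig_ge hm1
  obtain ⟨t, a, b, L, hF⟩ := exists_frame h (unit_dir h hm (by linarith)) (κ := sig m / m)
    (by positivity) (by rw [div_le_one (by linarith)]; exact sig_le_self hm1)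
  set u := (128 * m)⁻¹ • iv x with hu
  have hx : iv x = (128 * m) • u := by rw [hu, smul_inv_smul₀ (by positivity)]
  clear_value u
  obtain ⟨j, j', p, p0, p1, hp, hθ⟩ := two_blocks h hδ hδ1 hΛ hB0 IH hm1 hF (by linarith)
    (K := 128) (by norm_num) (by simpa using hx) (by simpa using hm)
  have hw : 0 < δ * m := by positivity
  have hwm : δ * m ≤ m := by nlinarith
  have s2 := hδs m (by linarith)
  have s3 := sig_mono (r := m) (r' := μ (iv x)) (by linarith) (by linarith)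
  have s4 := sig_half (r := μ (iv x)) (by linarith)
  have f1 := fun j => ff_low h hF (by linarith : 0 ≤ m) hw.le j
  have f2 := fun j : ℤ => hF.low2 (m + 1 + 2 * (δ * m)) (j * (δ * m)) (by linarith)
  have k2 : sig m / m * m = sig m := by field_simp
  have k3 : sig m / m * 1 ≤ sig m / m * m := by gcongr
  have k4 : sig m / m * (δ * m) ≤ sig m / m * m := by gcongr
  have f3 : ∀ j, 0 ≤ ff u t L m (δ * m) j + 14 * sig m := fun j => by
    have : 0 ≤ sig m / m * (δ * m) * |(j : ℝ)| := by positivity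
    linarith [f1 j]
  generalize δ * m = w at *
  obtain ⟨s, hs⟩ : ∃ s, s = 128 * m / (m + 1 + 2 * w) := ⟨_, rfl⟩
  have hs0 : 0 ≤ s := by rw [hs]; positivity
  have hs1 : s ≤ 128 := by rw [hs, div_le_iff₀ (by positivity)]; linarith
  have hs2 : s * (m + 1 + 2 * w) = 128 * m := by rw [hs]; field_simp
  have hxv : iv x = (p * s) • vj u t m w j + ((1 - p) * s) • vj u t m w j' := by
    have : (p * s) • vj u t m w j + ((1 - p) * s) • vj u t m w j' =
        (s * (m + 1 + 2 * w)) • u + (s * w * (p * j + (1 - p) * j')) • t := by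
      unfold vj; module
    rw [this, hp, hs2, hx]; simp
  obtain ⟨y, θ, θ', a1, a2, a3, a4, a5, a6, a7, a8⟩ := combine h (by positivity)
    (mul_nonneg (by linarith) hs0) hxv
  have hL : p * s * L (vj u t m w j) + (1 - p) * s * L (vj u t m w j') = 128 * m := by
    have := congrArg L hxv
    rw [hx, map_smul, hF.Lu, map_add, map_smul, map_smul] at this
    simp only [smul_eq_mul] at this
    linarith
  have g1 := h.le_fl (vj u t m w j)
  have g2 := h.le_fl (vj u t m w j')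
  have g3 := f2 j
  have g4 := f2 j'
  have g5 := f3 j
  have g6 := f3 j'
  change L (vj u t m w j) ≤ μ (vj u t m w j) / 2 + _ at g3
  change L (vj u t m w j') ≤ μ (vj u t m w j') / 2 + _ at g4
  have e1 : hh (fl (vj u t m w j)) = ff u t L m w j + L (vj u t m w j) := by unfold ff; ring
  have e2 : hh (fl (vj u t m w j')) = ff u t L m w j' + L (vj u t m w j') := by unfold ff; ring
  rw [e1] at g1 a8
  rw [e2] at g2 a8
  generalize ff u t L m w j = F at *
  generalize ff u t L m w j' = F' at *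
  generalize L (vj u t m w j) = l at *
  generalize L (vj u t m w j') = l' at *
  generalize μ (vj u t m w j) = M at *
  generalize μ (vj u t m w j') = M' at *
  have b1 : 128 * (64 * B * sig w + (4 * Λ + 14) * (30000000 * sig m)) + 300 ≤
      1 / 1408 * (B * sig (μ (iv x))) := by
    have c1 := mul_le_mul_of_nonneg_left s2 hB0
    have c2 := mul_le_mul_of_nonneg_left s3 hB0
    have c3 := mul_le_mul_of_nonneg_right hB (sig_nonneg m)
    have c4 : 0 ≤ Λ * sig m := by positivity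
    linarith
  have b0 : 0 ≤ 64 * B * sig w + (4 * Λ + 13) * (30000000 * sig m) := by
    have := sig_nonneg w
    positivity
  have b2 : p * s * F + (1 - p) * s * F' ≤
      128 * (64 * B * sig w + (4 * Λ + 13) * (30000000 * sig m)) := by
    have c1 := mul_le_mul_of_nonneg_left hθ hs0
    have c2 := mul_le_mul_of_nonneg_right hs1 b0
    linarith
  have b3 : μ (iv y) ≤ μ (iv x) / 2 := by
    have c1 := mul_le_mul_of_nonneg_right a3 g5
    have c2 := mul_le_mul_of_nonneg_right a6 g6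
    have c3 := mul_le_mul_of_nonneg_left (show M ≤ 2 * (F + 14 * sig m) + (4 + 20 * m) by linarith)
      a1
    have c4 := mul_le_mul_of_nonneg_left
      (show M' ≤ 2 * (F' + 14 * sig m) + (4 + 20 * m) by linarith) a4
    have c5 := mul_le_mul_of_nonneg_right a2 (show 0 ≤ 4 + 20 * m by linarith)
    have c6 := mul_le_mul_of_nonneg_right a5 (show 0 ≤ 4 + 20 * m by linarith)
    have c7 := mul_le_mul_of_nonneg_right hs1 (sig_nonneg m)
    linarith
  have b4 := IH y _ b3 (by linarith)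
  have c1 := mul_le_mul_of_nonneg_left s4 hB0
  have c3 := mul_le_mul_of_nonneg_left (show M ≤ F + l + 2 by linarith) a1
  have c4 := mul_le_mul_of_nonneg_left (show M' ≤ F' + l' + 2 by linarith) a4
  have c5 : 0 ≤ B * sig (μ (iv x)) := mul_nonneg hB0 (sig_nonneg _)
  linarith

lemma sig_ge_small {n : ℝ} (h0 : 0 ≤ n) (h : n ≤ 128) : n / 32 ≤ sig n := by
  refine le_sqrt_of_sq_le ?_
  have h1 : log (n + 1024) ≤ 11 * log 2 := by
    rw [← show log ((2 : ℝ) ^ 11) = 11 * log 2 by rw [Real.log_pow]; norm_num]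
    exact log_le_log (by linarith) (by linarith)
  rw [le_div_iff₀ (by linarith [one_le_lg h0])]
  have h2 : log (n + 1024) ≤ 8 := by linarith [log_two_lt_d9]
  nlinarith [mul_le_mul_of_nonneg_left h2 (sq_nonneg (n / 32))]

/-- Non-random fluctuations are at most of order `sig`. -/
theorem mean_bound : ∃ B : ℝ, 0 ≤ B ∧ ∀ μ, IsTC μ → ∀ R, Up μ B R := by
  obtain ⟨J, hJ⟩ := exists_pow_lt_of_lt_one (x := (1 / 10 ^ 8 : ℝ)) (y := 3 / 4) (by positivity)
    (by norm_num)
  obtain ⟨Λ, hΛ0, hΛ⟩ := sum_exp (ε := (2 ^ J)⁻¹ / 120000000) (by positivity)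
  have hB0 : (0 : ℝ) ≤ 10 ^ 14 * (Λ + 4) := by positivity
  refine ⟨10 ^ 14 * (Λ + 4), hB0, fun μ h R => ?_⟩
  have small : ∀ y : VV, μ (iv y) ≤ 128 →
      hh y ≤ μ (iv y) + 10 ^ 14 * (Λ + 4) * sig (μ (iv y)) := fun y hy => by
    have h1 := h.ge (iv y)
    rw [r1_iv] at h1
    have h2 := sig_ge_small (h.nonneg _) hy
    have h3 : 0 ≤ Λ * sig (μ (iv y)) := mul_nonneg hΛ0 (sig_nonneg _)
    linarith [hh_le y, h.nonneg (iv y)]
  have up : ∀ (y : VV) (r : ℝ), μ (iv y) ≤ r →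
      hh y ≤ μ (iv y) + 10 ^ 14 * (Λ + 4) * sig (μ (iv y)) →
      hh y ≤ μ (iv y) + 10 ^ 14 * (Λ + 4) * sig r := fun y r h1 h2 => by
    linarith [mul_le_mul_of_nonneg_left (sig_mono (h.nonneg _) h1) hB0]
  have all : ∀ k : ℕ, Up μ (10 ^ 14 * (Λ + 4)) (2 ^ k) := by
    intro k
    induction k with
    | zero => exact fun y r h1 h2 => up y r h1 (small y (by norm_num at h2; linarith))
    | succ k ih =>
      intro y r h1 h2
      refine up y r h1 ?_
      rcases le_total (μ (iv y)) 128 with hy | hy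
      · exact small y hy
      · refine mean_step h (by positivity) (inv_le_one_of_one_le₀ (one_le_pow₀ (by norm_num)))
          hΛ0 hΛ (fun m hm => ?_) le_rfl ih hy (by rw [pow_succ] at h2; linarith)
        rw [inv_mul_eq_div]
        exact (sig_pow_half hm J).trans (mul_le_mul_of_nonneg_right hJ.le (sig_nonneg m))
  obtain ⟨k, hk⟩ := pow_unbounded_of_one_lt R (by norm_num : (1 : ℝ) < 2)
  exact fun y r h1 h2 => all k y r h1 (h2.trans hk.le)

end Pool.Agent.Lib.MP_de94ef_pr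
end

-- part Pool.Agent.Lib.MP_de94ef_pr.Transfer
section

/-!
Transfer from an abstract probability space to the product space.
-/

open MeasureTheory ProbabilityTheory Set Real Function Filter Topology
open scoped ENNReal

namespace Pool.Agent.Lib.MP_de94ef_pr

lemma TT_adj {ω : EE → ℝ} (hω : ∀ e, 0 ≤ ω e) {a b : VV} (h : GG.Adj a b) :
    TT ω a b ≤ ω s(a, b) := by
  simpa [es, wt, hω] using TT_le ω (SimpleGraph.Walk.cons h .nil)

lemma sum_getVert {ω : EE → ℝ} (hω : ∀ e, 0 ≤ ω e) {u v : VV} (q : GG.Walk u v)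
    (hq : q.IsTrail) :
    ∑ i ∈ Finset.range q.length, ω s(q.getVert i, q.getVert (i + 1)) = wt ω (es q) := by
  induction q with
  | nil => simp [es]
  | @cons a b c hab p ih =>
    rw [SimpleGraph.Walk.isTrail_cons] at hq
    have e1 : es (SimpleGraph.Walk.cons hab p) = insert s(a, b) (es p) := by simp [es]
    rw [SimpleGraph.Walk.length_cons, Finset.sum_range_succ', e1, wt,
      Finset.sum_insert (fun h => hq.2 (mem_es.1 h))]
    simp only [SimpleGraph.Walk.getVert_cons_succ, SimpleGraph.Walk.getVert_zero]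
    rw [ih hq.1, max_eq_left (hω _), add_comm, wt]

lemma sInf_eq_TT {ω : EE → ℝ} (hω : ∀ e, 0 ≤ ω e) (v : VV) :
    sInf {s : ℝ | ∃ n : ℕ, ∃ p : ℕ → ℤ × ℤ, p 0 = 0 ∧ p n = v ∧
      (∀ i < n, |(p (i + 1)).1 - (p i).1| + |(p (i + 1)).2 - (p i).2| = 1) ∧
      s = ∑ i ∈ Finset.range n, ω s(p i, p (i + 1))} = TT ω 0 v := by
  have h1 : ∀ (p : ℕ → VV) (n : ℕ),
      (∀ i < n, |(p (i + 1)).1 - (p i).1| + |(p (i + 1)).2 - (p i).2| = 1) →
      TT ω (p 0) (p n) ≤ ∑ i ∈ Finset.range n, ω s(p i, p (i + 1)) := by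
    intro p n
    induction n with
    | zero => simp [TT_self]
    | succ n ih =>
      intro h
      rw [Finset.sum_range_succ]
      have a1 := ih fun i hi => h i (by omega)
      have a2 := TT_adj hω (a := p n) (b := p (n + 1)) (h n (by omega))
      linarith [TT_triangle ω (p 0) (p n) (p (n + 1))]
  have h2 : ∀ q : GG.Walk 0 v, q.IsPath → wt ω (es q) ∈ {s : ℝ | ∃ n : ℕ, ∃ p : ℕ → ℤ × ℤ,
      p 0 = 0 ∧ p n = v ∧
      (∀ i < n, |(p (i + 1)).1 - (p i).1| + |(p (i + 1)).2 - (p i).2| = 1) ∧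
      s = ∑ i ∈ Finset.range n, ω s(p i, p (i + 1))} := fun q hq =>
    ⟨q.length, q.getVert, by simp, by simp, fun i hi => q.adj_getVert_succ hi,
      (sum_getVert hω q hq.isTrail).symm⟩
  have h3 : ∀ s ∈ {s : ℝ | ∃ n : ℕ, ∃ p : ℕ → ℤ × ℤ, p 0 = 0 ∧ p n = v ∧
      (∀ i < n, |(p (i + 1)).1 - (p i).1| + |(p (i + 1)).2 - (p i).2| = 1) ∧
      s = ∑ i ∈ Finset.range n, ω s(p i, p (i + 1))}, TT ω 0 v ≤ s := by
    rintro s ⟨n, p, a1, a2, a3, rfl⟩
    have := h1 p n a3
    rwa [a1, a2] at this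
  exact le_antisymm (le_TT fun q hq => csInf_le ⟨_, h3⟩ (h2 q hq))
    (le_csInf ⟨_, h2 _ (stair 0 v).bypass_isPath⟩ h3)

lemma n1_nsmul (n : ℕ) (z : VV) : n1 (n • z) = n * n1 z := by
  rw [← r1_iv, iv_nsmul, r1_smul, r1_iv, Nat.abs_cast]

lemma not_frequently {z : VV} {c ε η : ℝ} (hε : 0 < ε) (hη : η = 1 ∨ η = -1)
    (h : ∀ᵐ ω ∂PP EE, Tendsto (fun n : ℕ => TT ω 0 (n • z) / n) atTop (𝓝 c)) :
    ¬ ∃ᶠ n : ℕ in atTop, η * (hh (n • z) / n) ≤ η * c - ε := by
  intro hf
  have hz := n1_nonneg z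
  obtain ⟨s, hs0, hs1, hs2⟩ : ∃ s : ℝ, 0 < s ∧ s ≤ 1 / 1000 ∧ 92000 * n1 z * s ≤ ε / 4 := by
    refine ⟨min (1 / 1000) (ε / (4 * (92000 * n1 z + 1))), by positivity, min_le_left _ _, ?_⟩
    have := min_le_right (1 / 1000) (ε / (4 * (92000 * n1 z + 1)))
    rw [le_div_iff₀ (by positivity)] at this
    have h0 : 0 < min (1 / 1000) (ε / (4 * (92000 * n1 z + 1))) := by positivity
    linarith
  set F := atTop ⊓ 𝓟 {n : ℕ | η * (hh (n • z) / n) ≤ η * c - ε} with hF
  have : F.NeBot := frequently_iff_neBot.1 hf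
  have hη2 : η ^ 2 = 1 := by rcases hη with rfl | rfl <;> norm_num
  set f : ℕ → (EE → ℝ) → ℝ≥0∞ := fun n ω => ENNReal.ofReal
    (exp (η * s * (TT ω 0 (n • z) - hh (n • z)) - 46000 * (2 * (n * n1 z) + 1) * s ^ 2)) with hf
  have h1 : ∀ n, ∫⁻ ω, f n ω ∂PP EE ≤ 1 := fun n => by
    have := subgauss 0 (n • z) (n := n * n1 z) (s := η * s) (by rw [sub_zero, n1_nsmul]) (by
      rcases hη with rfl | rfl <;> simp [abs_of_pos hs0] <;> linarith)
    rw [sub_zero, mul_pow, hη2, one_mul] at this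
    simp only [hf, sub_eq_add_neg _ ((46000 : ℝ) * _ * _), exp_add, ENNReal.ofReal_mul (exp_pos _).le]
    rw [lintegral_mul_const' _ _ (by simp)]
    refine (mul_le_mul_left this _).trans ?_
    rw [← ENNReal.ofReal_mul (exp_pos _).le, ← exp_add]
    simp
  have h2 : ∀ᵐ ω ∂PP EE, 2 ≤ liminf (fun n => f n ω) F := by
    filter_upwards [h] with ω hω
    refine le_liminf_of_le (h := ?_)
    have a1 : ∀ᶠ n : ℕ in atTop, η * c - ε / 2 < η * (TT ω 0 (n • z) / n) :=
      (hω.const_mul η).eventually (lt_mem_nhds (by linarith))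
    have a2 : ∀ᶠ n : ℕ in atTop, 8 / (s * ε) < n :=
      tendsto_natCast_atTop_atTop.eventually (eventually_gt_atTop _)
    filter_upwards [mem_inf_of_left a1, mem_inf_of_left a2,
      mem_inf_of_right (mem_principal_self _)] with n b1 b2 b3
    have hn : (0 : ℝ) < n := lt_trans (by positivity) b2
    rw [div_lt_iff₀ (by positivity)] at b2
    have b4 : ε / 2 * n ≤ η * (TT ω 0 (n • z) - hh (n • z)) := by
      rw [← le_div_iff₀ hn]
      have : η * (TT ω 0 (n • z) - hh (n • z)) / n =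
          η * (TT ω 0 (n • z) / n) - η * (hh (n • z) / n) := by ring
      linarith
    rw [← ENNReal.ofReal_ofNat]
    refine ENNReal.ofReal_le_ofReal (le_trans ?_ (add_one_le_exp _))
    have b5 := mul_le_mul_of_nonneg_left b4 hs0.le
    have b6 := mul_le_mul_of_nonneg_left hs2 (mul_pos hs0 hn).le
    nlinarith
  have h3 := (lintegral_mono_ae h2).trans (lintegral_liminf_le (μ := PP EE) (u := F) (f := f)
    fun n => by simp only [hf]; fun_prop)
  have h4 : liminf (fun n => ∫⁻ ω, f n ω ∂PP EE) F ≤ 1 :=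
    liminf_le_of_frequently_le' (Frequently.of_forall h1)
  have := h3.trans h4
  simp at this

lemma tendsto_hh {z : VV} {c : ℝ}
    (h : ∀ᵐ ω ∂PP EE, Tendsto (fun n : ℕ => TT ω 0 (n • z) / n) atTop (𝓝 c)) :
    Tendsto (fun n : ℕ => hh (n • z) / n) atTop (𝓝 c) := by
  rw [tendsto_order]
  constructor
  · intro a ha
    have := not_frequently (ε := c - a) (by linarith) (Or.inl rfl) h
    rw [Filter.not_frequently] at this
    filter_upwards [this] with n hn
    linarith [not_le.1 hn]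
  · intro a ha
    have := not_frequently (ε := a - c) (by linarith) (Or.inr rfl) h
    rw [Filter.not_frequently] at this
    filter_upwards [this] with n hn
    linarith [not_le.1 hn]

lemma norm_le_r1 (x : ℝ × ℝ) : ‖x‖ ≤ r1 x := by
  rw [Prod.norm_def, r1, Real.norm_eq_abs, Real.norm_eq_abs]
  exact max_le (by linarith [abs_nonneg x.2]) (by linarith [abs_nonneg x.1])

lemma approx (x : ℝ × ℝ) :
    Tendsto (fun n : ℕ => (n : ℝ)⁻¹ • iv (fl ((n : ℝ) • x))) atTop (𝓝 x) := by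
  rw [tendsto_iff_norm_sub_tendsto_zero]
  refine squeeze_zero' (Eventually.of_forall fun _ => norm_nonneg _) ?_
    (tendsto_const_div_atTop_nhds_zero_nat (2 : ℝ))
  filter_upwards [eventually_gt_atTop 0] with n hn
  have hn' : (0 : ℝ) < n := by exact_mod_cast hn
  have e1 : (n : ℝ)⁻¹ • iv (fl ((n : ℝ) • x)) - x =
      (n : ℝ)⁻¹ • (iv (fl ((n : ℝ) • x)) - (n : ℝ) • x) := by
    rw [smul_sub, inv_smul_smul₀ hn'.ne']
  rw [e1]
  refine (norm_le_r1 _).trans ?_
  rw [r1_smul, abs_of_pos (by positivity), inv_mul_eq_div]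
  gcongr
  exact r1_fl _

lemma extend {F : (ℝ × ℝ) × (ℝ × ℝ) → ℝ} (hc : Continuous F)
    (hs : ∀ (c : ℝ) x y, 0 ≤ c → F (c • x, c • y) = c * F (x, y))
    (h : ∀ z z', 0 ≤ F (iv z, iv z')) (x y : ℝ × ℝ) : 0 ≤ F (x, y) := by
  refine ge_of_tendsto' ((hc.tendsto _).comp ((approx x).prodMk_nhds (approx y))) fun n => ?_
  simp only [comp]
  rw [hs _ _ _ (by positivity)]
  exact mul_nonneg (by positivity) (h _ _)

theorem isTC_of {μ : ℝ × ℝ → ℝ} (hs : ∀ (x : ℝ × ℝ) (c : ℝ), 0 ≤ c → μ (c • x) = c * μ x)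
    (hc : Continuous μ)
    (hl : ∀ z : VV, Tendsto (fun n : ℕ => hh (n • z) / n) atTop (𝓝 (μ (iv z)))) : IsTC μ := by
  have hr : Continuous r1 := by unfold r1; fun_prop
  have pos : ∀ᶠ n : ℕ in atTop, (0 : ℝ) < n := by
    filter_upwards [eventually_gt_atTop 0] with n hn using by exact_mod_cast hn
  have le_hh : ∀ z, μ (iv z) ≤ hh z := fun z => by
    refine le_of_tendsto (hl z) ?_
    filter_upwards [pos] with n hn
    rw [div_le_iff₀ hn, mul_comm]; exact hh_nsmul n z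
  refine ⟨fun x y => ?_, fun c x hc => hs x c hc, fun x => ?_, fun x => ?_, fun x => ?_, le_hh,
    fun z ε hε => ?_⟩
  · have := extend (F := fun p => μ p.1 + μ p.2 - μ (p.1 + p.2)) (by fun_prop)
      (fun c x y hc => by simp only; rw [← smul_add, hs _ _ hc, hs _ _ hc, hs _ _ hc]; ring)
      (fun z z' => by
        simp only
        rw [← iv_add, sub_nonneg]
        refine le_of_tendsto_of_tendsto (hl _) ((hl z).add (hl z')) ?_
        filter_upwards [pos] with n hn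
        rw [smul_add, ← add_div]
        gcongr
        exact hh_add _ _) x y
    simp only at this; linarith
  · have := fun x => extend (F := fun p => μ p.1 - μ (-p.1)) (by fun_prop)
      (fun c x y hc => by simp only; rw [← smul_neg, hs _ _ hc, hs _ _ hc]; ring)
      (fun z z' => by
        simp only
        rw [← iv_neg, sub_nonneg]
        refine le_of_tendsto_of_tendsto' (hl _) (hl z) fun n => ?_
        rw [smul_neg, hh_neg]) x x
    have h1 := this x
    have h2 := this (-x)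
    simp only [neg_neg] at h1 h2
    linarith
  · have := extend (F := fun p => r1 p.1 - μ p.1) (by fun_prop)
      (fun c x y hc => by simp only; rw [hs _ _ hc, r1_smul, abs_of_nonneg hc]; ring)
      (fun z z' => by simp only; rw [r1_iv]; linarith [le_hh z, hh_le z]) x x
    simp only at this; linarith
  · have := extend (F := fun p => 11 * μ p.1 - r1 p.1) (by fun_prop)
      (fun c x y hc => by simp only; rw [hs _ _ hc, r1_smul, abs_of_nonneg hc]; ring)
      (fun z z' => by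
        simp only
        rw [r1_iv, sub_nonneg]
        refine ge_of_tendsto ((hl z).const_mul 11) ?_
        filter_upwards [pos] with n hn
        rw [← mul_div_assoc, le_div_iff₀ hn, mul_comm, ← n1_nsmul]
        exact n1_le_hh _) x x
    simp only at this; linarith
  · obtain ⟨N, h1, h2⟩ := (((hl z).eventually (gt_mem_nhds (by linarith :
      μ (iv z) < μ (iv z) + ε))).and (eventually_ge_atTop 1)).exists
    refine ⟨N, h2, ?_⟩
    rw [div_lt_iff₀ (by exact_mod_cast h2)] at h1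
    linarith

theorem transfer {Ω : Type} [MeasureSpace Ω] [IsProbabilityMeasure (volume : Measure Ω)]
    {X : Sym2 (ℤ × ℤ) → Ω → ℝ} {T : Ω → ℤ × ℤ → ℝ} {μ : ℝ × ℝ → ℝ}
    (h1 : ∀ e, Measurable (X e)) (h2 : iIndepFun X (volume : Measure Ω))
    (h3 : ∀ e, Measure.map (X e) (volume : Measure Ω) = expMeasure 1)
    (h4 : ∀ ω v, T ω v = sInf {s : ℝ | ∃ n : ℕ, ∃ p : ℕ → ℤ × ℤ, p 0 = 0 ∧ p n = v ∧
        (∀ i < n, |(p (i + 1)).1 - (p i).1| + |(p (i + 1)).2 - (p i).2| = 1) ∧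
        s = ∑ i ∈ Finset.range n, X s(p i, p (i + 1)) ω})
    (h5 : ∀ (x : ℝ × ℝ) (c : ℝ), 0 ≤ c → μ (c • x) = c * μ x) (h6 : Continuous μ)
    (h7 : ∀ z : ℤ × ℤ, ∀ᵐ ω ∂(volume : Measure Ω),
        Tendsto (fun n : ℕ => T ω ((n : ℤ) • z) / (n : ℝ)) atTop
          (nhds (μ ((z.1 : ℝ), (z.2 : ℝ))))) :
    ∃ Φ : Ω → EE → ℝ, MeasurePreserving Φ volume (PP EE) ∧
      (∀ᵐ ω ∂(volume : Measure Ω), ∀ v, T ω v = TT (Φ ω) 0 v) ∧ IsTC μ := by
  have hΦ : MeasurePreserving (fun ω e => X e ω) volume (PP EE) :=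
    ⟨measurable_pi_iff.2 h1, by rw [h2.map_fun_eq_infinitePi_map h1]; simp only [h3]⟩
  have ha : ∀ᵐ ω ∂(volume : Measure Ω), ∀ v, T ω v = TT (fun e => X e ω) 0 v := by
    have : ∀ᵐ ω ∂(volume : Measure Ω), ∀ e, 0 < X e ω := ae_all_iff.2 fun e => by
      have := nu_ae_pos
      rw [← show Measure.map (X e) volume = nu from h3 e] at this
      exact ae_of_ae_map (h1 e).aemeasurable this
    filter_upwards [this] with ω hω v
    rw [h4, ← sInf_eq_TT fun e => (hω e).le]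
  refine ⟨_, hΦ, ha, isTC_of h5 h6 fun z => tendsto_hh ?_⟩
  rw [← hΦ.map_eq, ae_map_iff hΦ.measurable.aemeasurable
    (measurableSet_tendsto_fun (fun n => by fun_prop) measurable_const)]
  filter_upwards [ha, h7 z] with ω a1 a2
  simpa only [a1, natCast_zsmul, iv] using a2

end Pool.Agent.Lib.MP_de94ef_pr
end

-- part Pool.Agent.Lib.MP_de94ef_pr.Upper
section

/-!
Exponential moments of passage times across many blocks.
-/

open MeasureTheory ProbabilityTheory Set Real Function Filter Topology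
open scoped ENNReal

namespace Pool.Agent.Lib.MP_de94ef_pr

section indep

variable {ι : Type} [DecidableEq ι]

lemma lintegral_mul_indep (S : Finset ι) {g : (ι → ℝ) → ℝ≥0∞} (hg : Measurable g) :
    ∀ f : (ι → ℝ) → ℝ≥0∞, Measurable f → DependsOn f (S : Set ι) →
      (∀ e ∈ S, ∀ ω y, g (update ω e y) = g ω) →
      ∫⁻ ω, f ω * g ω ∂PP ι = (∫⁻ ω, f ω ∂PP ι) * ∫⁻ ω, g ω ∂PP ι := by
  induction S using Finset.induction_on with
  | empty =>
    intro f _ hf _
    have : ∀ ω, f ω = f 0 := fun ω => hf (by simp)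
    simp only [this]
    rw [lintegral_const_mul _ hg]; simp
  | insert e S he ih =>
    intro f hf hd hu
    have hm : Measurable fun ω => ∫⁻ y, f (update ω e y) ∂nu :=
      Measurable.lintegral_prod_right (f := fun ω y => f (update ω e y))
        (hf.comp (by fun_prop : Measurable fun p : (ι → ℝ) × ℝ => update p.1 e p.2))
    rw [lintegral_update e (F := fun ω => f ω * g ω) (hf.mul hg), lintegral_update e hf,
      ← ih _ hm (fun ω ω' h => lintegral_congr fun y => hd fun i hi => ?_)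
        fun i hi => hu i (Finset.mem_insert_of_mem hi)]
    · refine lintegral_congr fun ω => ?_
      simp only [hu e (Finset.mem_insert_self _ _)]
      exact lintegral_mul_const _ (hf.comp (measurable_update ω))
    · by_cases hie : i = e
      · simp [hie]
      · rw [update_of_ne hie, update_of_ne hie]
        exact h i (by simpa [hie] using hi)

lemma lintegral_prod_le {κ : Type} (Z : Finset κ) {f : κ → (ι → ℝ) → ℝ≥0∞} {S : κ → Finset ι}
    {c : ℝ≥0∞} (hm : ∀ i ∈ Z, Measurable (f i)) (hd : ∀ i ∈ Z, DependsOn (f i) (S i : Set ι))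
    (hS : ∀ i ∈ Z, ∀ j ∈ Z, i ≠ j → Disjoint (S i) (S j)) (hc : ∀ i ∈ Z, ∫⁻ ω, f i ω ∂PP ι ≤ c) :
    ∫⁻ ω, ∏ i ∈ Z, f i ω ∂PP ι ≤ c ^ Z.card := by
  classical
  induction Z using Finset.induction_on with
  | empty => simp
  | insert j Z hj ih =>
    have hj' := Finset.mem_insert_self j Z
    have hi' : ∀ i ∈ Z, i ∈ insert j Z := fun i hi => Finset.mem_insert_of_mem hi
    simp only [Finset.prod_insert hj]
    rw [lintegral_mul_indep (S j) (Finset.measurable_prod _ fun i hi => hm i (hi' i hi)) _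
      (hm j hj') (hd j hj') fun e he ω y => Finset.prod_congr rfl fun i hi => ?_,
      Finset.card_insert_of_notMem hj, pow_succ']
    · exact mul_le_mul' (hc j hj') (ih (fun i hi => hm i (hi' i hi)) (fun i hi => hd i (hi' i hi))
        (fun i hi k hk => hS i (hi' i hi) k (hi' k hk)) fun i hi => hc i (hi' i hi))
    · refine hd i (hi' i hi) fun k hk => update_of_ne ?_ _ _
      rintro rfl
      exact Finset.disjoint_left.1 (hS j hj' i (hi' i hi) (by rintro rfl; exact hj hi)) he hk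

end indep

/-- Passage time restricted to a box. -/
noncomputable def TL (L : ℕ) (y y' : VV) : (EE → ℝ) → ℝ :=
  val (I := {p : GG.Walk y y' // ∀ w ∈ p.support, w ∈ box y L}) (fun _ => 0) fun p => es p.1

@[fun_prop] lemma measurable_TL (L : ℕ) (y y' : VV) : Measurable (TL L y y') := measurable_val

lemma dependsOn_TL (L : ℕ) (y y' : VV) :
    DependsOn (TL L y y') (((box y L).sym2 : Finset EE) : Set EE) := by
  refine dependsOn_val fun p e he => ?_
  rw [Finset.mem_coe, Finset.mem_sym2_iff]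
  exact fun w hw => p.2 w (p.1.mem_support_of_mem_edges (mem_es.1 he) hw)

lemma TL_le {L : ℕ} {y y' : VV} (ω : EE → ℝ) (p : GG.Walk y y')
    (hp : ∀ w ∈ p.support, w ∈ box y L) : TL L y y' ω ≤ wt ω (es p) := by
  simpa [TL] using val_le (I := {p : GG.Walk y y' // ∀ w ∈ p.support, w ∈ box y L})
    (c := fun _ => 0) (ρ := fun p => es p.1) (fun _ => le_rfl) ω ⟨p, hp⟩

lemma stair_mem {L : ℕ} {y y' : VV} (h : n1 (y' - y) ≤ L) :
    ∀ w ∈ (stair y y').support, w ∈ box y L := fun w hw =>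
  (btw_stair y y' w hw).mem_box (mem_box_of_n1 (by simp [n1])) (mem_box_of_n1 h)

lemma TT_le_TL {L : ℕ} {y y' : VV} (h : n1 (y' - y) ≤ L) (ω : EE → ℝ) :
    TT ω y y' ≤ TL L y y' ω := by
  have : Nonempty {p : GG.Walk y y' // ∀ w ∈ p.support, w ∈ box y L} := ⟨⟨_, stair_mem h⟩⟩
  exact le_val fun p => by simpa using TT_le ω p.1

lemma TL_cases {L : ℕ} {y y' : VV} (h : n1 (y' - y) ≤ L) (ω : EE → ℝ) :
    TL L y y' ω ≤ TT ω y y' ∨ ∃ e, L ≤ n1 (e - y) ∧ n1 (e - y) ≤ L + 1 ∧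
      TL L y y' ω ≤ 2 * wt ω (es (stair y y')) - TT ω y e := by
  refine (le_or_gt _ _).imp_right fun hlt => ?_
  obtain ⟨γ, -, hγ⟩ := exists_lt_TT hlt
  have : ¬ ∀ w ∈ γ.support, w ∈ box y L := fun hc => absurd (TL_le ω γ hc) (not_le.2 hγ)
  push Not at this
  obtain ⟨w, hw, hw'⟩ := this
  have h1 : (L : ℝ) ≤ n1 (w - y) := le_of_not_ge fun hc => hw' (mem_box_of_n1 hc)
  obtain ⟨e, p1, p2, h2, h3, h4⟩ := crossing (φ := fun v => n1 (v - y)) (fun a b hab => by
      have := n1_add_le (a - y) (b - a)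
      rw [n1_of_adj hab, show a - y + (b - a) = b - y by abel] at this
      exact this) (c := L) (γ.takeUntil w hw) (by simp [n1]; positivity) h1
  refine ⟨e, h3, h4, ?_⟩
  have h5 : es p1 ⊆ es γ := fun f hf => mem_es.2 (γ.edges_takeUntil_subset_edges hw (by
    rw [h2, SimpleGraph.Walk.edges_append]; exact List.mem_append_left _ (mem_es.1 hf)))
  linarith [TT_le ω p1, wt_mono ω h5, TL_le ω _ (stair_mem h)]

lemma dom_exit {m : ℝ} (hm : 10 ^ 27 ≤ m) {L : ℕ} (hL : 1000 * m ≤ L) (hL' : L ≤ 1001 * m)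
    {y y' : VV} (h : n1 (y' - y) ≤ 13 * m) :
    Dom (fun ω a => ∃ e, L ≤ n1 (e - y) ∧ n1 (e - y) ≤ L + 1 ∧
      a = 2 * wt ω (es (stair y y')) - TT ω y e) 0 20000000 := by
  classical
  have hV : Dom (fun ω a => a = 2 * wt ω (es (stair y y'))) (52 * m) 4 := by
    refine dom_single (by fun_prop) ?_
    have h1 := lintegral_exp_wt_le (t := 1 / 2) (by norm_num) le_rfl ((card_stair y y').trans h)
    have e1 : ∀ ω, exp ((2 * wt ω (es (stair y y')) - 52 * m) / 4) =
        exp (-(13 * m)) * exp (1 / 2 * wt ω (es (stair y y'))) := fun ω => by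
      rw [← exp_add]; congr 1; ring
    simp only [e1, ENNReal.ofReal_mul (exp_pos _).le]
    rw [lintegral_const_mul' _ _ (by simp)]
    refine (mul_le_mul_right h1 _).trans ?_
    rw [← ENNReal.ofReal_mul (exp_pos _).le, ← exp_add]
    exact ENNReal.ofReal_le_ofReal (by simp)
  have := dom_union ((box y (L + 1)).filter fun e => L ≤ n1 (e - y) ∧ n1 (e - y) ≤ L + 1)
    (N := m / 2000000) (s := 20000000) (d := -10 * m)
    (F := fun e ω a => a = 2 * wt ω (es (stair y y')) - TT ω y e)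
    (C := fun ω a => ∃ e, L ≤ n1 (e - y) ∧ n1 (e - y) ≤ L + 1 ∧
      a = 2 * wt ω (es (stair y y')) - TT ω y e) (by norm_num)
    (fun e he => by
      obtain ⟨k1, k2⟩ := (Finset.mem_filter.1 he).2
      have h2 := hV.add (dom_gauss y e k2 (s := 10000000) (by norm_num) (Or.inr rfl))
        (by norm_num) (by norm_num) (C := fun ω a => a = 2 * wt ω (es (stair y y')) - TT ω y e)
        fun ω a ha => ⟨_, _, rfl, rfl, by rw [ha]; linarith⟩
      refine (h2.scale (by norm_num) (by norm_num)).mono (by norm_num) fun ω a ha => ⟨a, ha, ?_⟩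
      linarith [n1_le_hh (e - y)])
    (by
      have h1 : (((box y (L + 1)).filter fun e => L ≤ n1 (e - y) ∧ n1 (e - y) ≤ L + 1).card : ℝ) ≤
          (box y (L + 1)).card := by exact_mod_cast Finset.card_filter_le _ _
      rw [card_box] at h1
      push_cast at h1
      have h2 := pow_div_factorial_le_exp (m / 2000000) (by linarith) 3
      have h3 : (2 * ((L : ℝ) + 1) + 1) ^ 2 ≤ (2010 * m) ^ 2 := by gcongr; linarith
      have h4 : 10 ^ 27 * m ^ 2 ≤ m * m ^ 2 := by gcongr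
      norm_num [Nat.factorial] at h2
      nlinarith)
    (by
      rintro ω a ⟨e, k1, k2, rfl⟩
      exact ⟨e, Finset.mem_filter.2 ⟨mem_box_of_n1 (by exact_mod_cast k2), k1, k2⟩, rfl⟩)
  exact this.mono (by norm_num) fun ω a ha => ⟨a, ha, by linarith⟩

variable {μ : ℝ × ℝ → ℝ} {B m : ℝ}

lemma lintegral_TL (h : IsTC μ) (hB : 0 ≤ B) (IH : ∀ R, Up μ B R) (hm : 10 ^ 27 ≤ m) {L : ℕ}
    (hL : 1000 * m ≤ L) (hL' : L ≤ 1001 * m) {y y' : VV} (hy : μ (iv (y' - y)) ≤ m + 2) :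
    ∫⁻ ω, ENNReal.ofReal (exp ((TL L y y' ω - m) / (60000000 * sig m))) ∂PP EE ≤
      ENNReal.ofReal (exp (B + 4)) := by
  have h1 := h.ge (iv (y' - y))
  rw [r1_iv] at h1
  have s1 := sig_ge (r := m) (by linarith)
  have s2 := sig_mul (r := m) (k := 2) (by linarith) (by norm_num)
  have s3 := sig_mul (r := m) (k := 4) (by linarith) (by norm_num)
  have s4 := sig_pos (r := 4 ^ 2 * m) (by linarith)
  have h2 := IH _ (y' - y) (2 ^ 2 * m) (by linarith) le_rfl
  have h3 := mul_le_mul_of_nonneg_left s2 hB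
  have h4 : 0 ≤ B * sig m := by positivity
  obtain ⟨W, a1, a2, a3⟩ := Dom.union (d := m + (2 * B + 6) * sig m) (s := 60000000 * sig m)
    (C := fun ω a => a = TL L y y' ω) (A := fun ω a => a ≤ TT ω y y')
    (B := fun ω a => ∃ e, L ≤ n1 (e - y) ∧ n1 (e - y) ≤ L + 1 ∧
      a ≤ 2 * wt ω (es (stair y y')) - TT ω y e)
    (((dom_up y y' (r := 4 ^ 2 * m) (by linarith) (by linarith)).scale (by linarith)
      (by linarith)).mono (by linarith) fun ω a ha => ⟨_, rfl, by linarith⟩)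
    (((dom_exit hm hL hL' (y := y) (y' := y') (by linarith)).scale (by norm_num)
      (by linarith)).mono (by linarith) fun ω a ⟨e, k1, k2, k3⟩ => ⟨_, ⟨e, k1, k2, rfl⟩, by
        linarith⟩) (by linarith)
    fun ω a ha => by rw [ha]; exact TL_cases (by linarith) ω
  calc _ ≤ ∫⁻ ω, ENNReal.ofReal (exp (B + 2)) * W ω ∂PP EE := by
        refine lintegral_mono fun ω => le_trans ?_ (mul_le_mul_right (a2 ω _ rfl) _)
        rw [← ENNReal.ofReal_mul (exp_pos _).le, ← exp_add]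
        refine ENNReal.ofReal_le_ofReal (exp_le_exp.2 ?_)
        rw [← sub_le_iff_le_add, ← sub_div, div_le_iff₀ (by linarith)]
        linarith
    _ ≤ ENNReal.ofReal (exp (B + 2)) * ENNReal.ofReal (exp 2) := by
        rw [lintegral_const_mul _ a1]
        gcongr
        refine a3.trans ?_
        rw [← ENNReal.ofReal_ofNat]
        exact ENNReal.ofReal_le_ofReal (by linarith [add_one_le_exp (2 : ℝ)])
    _ = _ := by rw [← ENNReal.ofReal_mul (exp_pos _).le, ← exp_add]; congr 2; ring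

lemma TT_le_sum (ω : EE → ℝ) (y : ℕ → VV) (K : ℕ) :
    TT ω (y 0) (y K) ≤ ∑ i ∈ Finset.range K, TT ω (y i) (y (i + 1)) := by
  induction K with
  | zero => simp [TT_self]
  | succ K ih => rw [Finset.sum_range_succ]; linarith [TT_triangle ω (y 0) (y K) (y (K + 1))]

theorem upper_mgf (h : IsTC μ) (hB : 0 ≤ B) (IH : ∀ R, Up μ B R) (hm : 10 ^ 27 ≤ m) {K : ℕ}
    (hK : 1 ≤ K) {x : VV} (hx : μ (iv x) = K * m) :
    ∫⁻ ω, ENNReal.ofReal (exp ((TT ω 0 x - K * m) / (540000000000 * sig m))) ∂PP EE ≤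
      ENNReal.ofReal (exp ((B + 4) * K)) := by
  have hK' : (1 : ℝ) ≤ K := by exact_mod_cast hK
  have hm0 : 0 < m := by linarith
  have hu := unit_dir h hx (by positivity)
  set u := ((K : ℝ) * m)⁻¹ • iv x with hu'
  have hx' : iv x = ((K : ℝ) * m) • u := by rw [hu', smul_inv_smul₀ (by positivity)]
  clear_value u
  set y : ℕ → VV := fun i => fl (((i : ℝ) * m) • u) with hy
  have y0 : y 0 = 0 := by simp [hy, fl]
  have yK : y K = x := by simp only [hy]; rw [← hx', fl_iv]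
  have hd : ∀ i j : ℕ, μ (iv (y i - y j)) ≤ |(i : ℝ) - j| * m + 2 ∧
      |(i : ℝ) - j| * m - 2 ≤ μ (iv (y i - y j)) := fun i j => by
    have h1 := r1_fl_sub (((i : ℝ) * m) • u) (((j : ℝ) * m) • u)
    rw [← sub_smul, ← sub_mul] at h1
    have h2 := h.le_add (iv (y i - y j)) ((((i : ℝ) - j) * m) • u)
    have h3 := h.le_add ((((i : ℝ) - j) * m) • u) (iv (y i - y j))
    rw [r1_sub_comm] at h3
    rw [h.smul_abs, hu, abs_mul, abs_of_pos hm0] at h2 h3
    constructor <;> linarith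
  have hd1 : ∀ i, μ (iv (y (i + 1) - y i)) ≤ m + 2 := fun i => by simpa using (hd (i + 1) i).1
  set L := ⌈1000 * m⌉₊ with hL
  have L1 : 1000 * m ≤ L := Nat.le_ceil _
  have L2 : L ≤ 1001 * m := by linarith [Nat.ceil_lt_add_one (a := 1000 * m) (by linarith)]
  have s1 := sig_pos (r := m) (by linarith)
  set φ : ℕ → (EE → ℝ) → ℝ := fun c ω => ∑ i ∈ (Finset.range K).filter (· % 9000 = c),
    (TL L (y i) (y (i + 1)) ω - m) / (60000000 * sig m) with hφ
  refine le_trans (lintegral_mono fun ω => ?_) (lintegral_exp_avg_le (Z := Finset.range 9000)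
    (φ := φ) (by simp) (fun c _ => by simp only [hφ]; fun_prop) fun c _ => ?_)
  · refine ENNReal.ofReal_le_ofReal (exp_le_exp.2 ?_)
    simp only [avg, hφ]
    rw [Finset.sum_fiberwise_of_maps_to (g := (· % 9000))
      fun i _ => Finset.mem_range.2 (Nat.mod_lt _ (by norm_num)), ← Finset.sum_div,
      Finset.sum_sub_distrib]
    have h1 := TT_le_sum ω y K
    rw [y0, yK] at h1
    have h2 : ∑ i ∈ Finset.range K, TT ω (y i) (y (i + 1)) ≤
        ∑ i ∈ Finset.range K, TL L (y i) (y (i + 1)) ω := Finset.sum_le_sum fun i _ =>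
      TT_le_TL (by have := h.ge (iv (y (i + 1) - y i)); rw [r1_iv] at this; linarith [hd1 i]) ω
    simp only [Finset.sum_const, Finset.card_range, nsmul_eq_mul]
    rw [inv_mul_eq_div, div_div, show 60000000 * sig m * ((9000 : ℕ) : ℝ) =
      540000000000 * sig m by push_cast; ring]
    exact div_le_div_of_nonneg_right (by linarith) (by linarith)
  · simp only [hφ, exp_sum, ENNReal.ofReal_prod_of_nonneg fun _ _ => (exp_pos _).le]
    refine (lintegral_prod_le _ (S := fun i => (box (y i) L).sym2)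
      (c := ENNReal.ofReal (exp (B + 4))) (fun i _ => by fun_prop)
      (fun i _ ω ω' hω => by simp only [dependsOn_TL L (y i) (y (i + 1)) hω])
      (fun i hi j hj hij => ?_) fun i _ => lintegral_TL h hB IH hm L1 L2 (hd1 i)).trans ?_
    · rw [Finset.disjoint_left]
      intro e h1 h2
      rw [Finset.mem_sym2_iff] at h1 h2
      obtain ⟨w, hw⟩ : ∃ w, w ∈ e := ⟨e.out.1, Sym2.out_fst_mem e⟩
      have a1 := n1_le_of_mem_box (h1 w hw) (mem_box_of_n1 (w := y i) (by simp [n1]))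
      have a2 := n1_le_of_mem_box (mem_box_of_n1 (w := y j) (by simp [n1])) (h2 w hw)
      have a3 := n1_add_le (y i - w) (w - y j)
      rw [sub_add_sub_cancel] at a3
      have a4 := h.le (iv (y i - y j))
      rw [r1_iv] at a4
      have a5 : (9000 : ℝ) ≤ |(i : ℝ) - j| := by
        have b1 := (Finset.mem_filter.1 hi).2
        have b2 := (Finset.mem_filter.1 hj).2
        have : (9000 : ℤ) ≤ |(i : ℤ) - j| := by
          rcases abs_cases ((i : ℤ) - j) with b | b <;> omega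
        exact_mod_cast this
      nlinarith [(hd i j).2]
    · rw [← ENNReal.ofReal_pow (exp_pos _).le, ← exp_nat_mul]
      refine ENNReal.ofReal_le_ofReal (exp_le_exp.2 ?_)
      have : ((((Finset.range K).filter (· % 9000 = c)).card : ℕ) : ℝ) ≤ K := by
        exact_mod_cast (Finset.card_filter_le _ _).trans (Finset.card_range K).le
      nlinarith

theorem lower_mgf : ∃ Λ : ℝ, 0 ≤ Λ ∧ ∀ {μ : ℝ × ℝ → ℝ} {B m : ℝ}, IsTC μ → 0 ≤ B →
    (∀ R, Up μ B R) → 1 ≤ m → ∀ {K : ℕ}, 1 ≤ K → ∀ {x : VV}, μ (iv x) = K * m →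
    ∫⁻ ω, ENNReal.ofReal (exp ((K * m - TT ω 0 x) / (30000000 * sig m))) ∂PP EE ≤
      ENNReal.ofReal (exp ((B + Λ) * K)) := by
  obtain ⟨Λ, hΛ0, hΛ⟩ := sum_exp (ε := 1 / 60000000) (by norm_num)
  refine ⟨Λ + 4, by linarith, fun {μ B m} h hB IH hm K hK x hx => ?_⟩
  have hK' : (1 : ℝ) ≤ K := by exact_mod_cast hK
  have s1 := sig_ge hm
  obtain ⟨t, a, b, L, hF⟩ := exists_frame h (unit_dir h hx (by positivity)) (κ := sig m / m)
    (by positivity) (by rw [div_le_one (by linarith)]; exact sig_le_self hm)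
  set u := ((K : ℝ) * m)⁻¹ • iv x with hu'
  have hx' : iv x = ((K : ℝ) * m) • u := by rw [hu', smul_inv_smul₀ (by positivity)]
  clear_value u
  have h1 := tree h hF (by linarith) (w := m) (by linarith) (by linarith)
    (block h hB (IH (4 * m)) hm hF (by linarith) le_rfl le_rfl) 0 hK hx'
  refine h1.trans ((pow_le_pow_left' (G_le hΛ (A := B + 2) fun j => ?_) _).trans ?_)
  · have f1 := ff_low h hF (m := m) (w := m) (by linarith) (by linarith) j
    have k2 : sig m / m * m = sig m := by field_simp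
    have k3 : sig m / m * 1 ≤ sig m / m * m := by gcongr
    have k4 : 0 ≤ B * sig m := by positivity
    rw [k2] at f1
    rw [zero_mul, add_zero, div_le_iff₀ (by linarith)]
    linarith
  · rw [← ENNReal.ofReal_pow (by positivity), mul_comm _ (K : ℝ), exp_nat_mul]
    refine ENNReal.ofReal_le_ofReal (pow_le_pow_left₀ (by positivity) ?_ _)
    rw [show B + (Λ + 4) = 2 + (B + 2 + Λ) by ring, exp_add 2]
    gcongr
    linarith [add_one_le_exp (2 : ℝ)]

end Pool.Agent.Lib.MP_de94ef_pr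
end
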