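import Pool.Agent.Lib.MP_de94ef_pr.Upper

/-!
Tail bounds around the time constant.
-/

open MeasureTheory ProbabilityTheory Set Real Function Filter Topology
open scoped ENNReal

namespace Pool.Agent.Lib.MP_de94ef_pr

lemma markov_exp {X : (EE → ℝ) → ℝ} (hX : Measurable X) {S A s : ℝ} (hS : 0 < S)
    (h : ∫⁻ ω, ENNReal.ofReal (exp (X ω / S)) ∂PP EE ≤ ENNReal.ofReal (exp A)) :
    PP EE {ω | s ≤ X ω} ≤ ENNReal.ofReal (exp (A - s / S)) := by
  have h1 := meas_ge_le_lintegral_div (μ := PP EE) (f := fun ω => ENNReal.ofReal (exp (X ω / S)))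
    (Measurable.aemeasurable (by fun_prop)) (ε := ENNReal.ofReal (exp (s / S)))
    (by simp [exp_pos]) (by simp)
  refine le_trans (measure_mono fun ω hω => ?_) (h1.trans ?_)
  · exact ENNReal.ofReal_le_ofReal (exp_le_exp.2 (div_le_div_of_nonneg_right hω hS.le))
  · rw [exp_sub, ENNReal.ofReal_div_of_pos (exp_pos _)]
    gcongr

theorem tail : ∃ c C : ℝ, 0 < c ∧ 1 ≤ C ∧ ∀ μ, IsTC μ → ∀ (v : VV) (s : ℝ), 0 < s →
    PP EE {ω | s ≤ |TT ω 0 v - μ (iv v)|} ≤
      ENNReal.ofReal (C * exp (-(c * (s ^ 2 * log (n1 v / s) / n1 v)))) := by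
  obtain ⟨B, hB, hU⟩ := mean_bound
  obtain ⟨Λ, hΛ, hL⟩ := lower_mgf
  obtain ⟨C, hC⟩ : ∃ C, C = B + Λ + 1000 := ⟨_, rfl⟩
  have hC1 : 1000 ≤ C := by linarith
  obtain ⟨c, hc⟩ : ∃ c, c = ((2 * C * 540000000000) ^ 2)⁻¹ := ⟨_, rfl⟩
  have hc0 : 0 < c := by rw [hc]; positivity
  have hc1 : c * (22 * 10 ^ 27) ≤ 1 := by
    rw [hc, inv_mul_le_iff₀ (by positivity)]
    nlinarith
  refine ⟨C * c, 2 * exp C, by positivity, by linarith [add_one_le_exp C],
    fun μ h v s hs => ?_⟩
  obtain ⟨k, hk⟩ : ∃ k, k = c * (s ^ 2 * log (n1 v / s) / n1 v) := ⟨_, rfl⟩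
  rw [mul_assoc C c, ← hk, mul_assoc, ← exp_add]
  rcases le_or_gt k 1 with hk1 | hk1
  · refine prob_le_one.trans ?_
    rw [← ENNReal.ofReal_one]
    refine ENNReal.ofReal_le_ofReal ?_
    have : 0 ≤ C + -(C * k) := by nlinarith
    linarith [add_one_le_exp (C + -(C * k))]
  have hn : 0 < n1 v := by
    rcases (n1_nonneg v).eq_or_lt with h0 | h0
    · rw [← h0] at hk; simp at hk; linarith
    · exact h0
  have hlog : 0 < log (n1 v / s) := by
    by_contra hc'
    have : s ^ 2 * log (n1 v / s) / n1 v ≤ 0 :=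
      div_nonpos_of_nonpos_of_nonneg (by nlinarith [sq_nonneg s]) hn.le
    nlinarith
  have hr : s < n1 v := by
    have := (log_pos_iff (by positivity)).1 hlog
    rwa [lt_div_iff₀ hs, one_mul] at this
  have hk2 : k ≤ c * s := by
    rw [hk]
    refine mul_le_mul_of_nonneg_left ?_ hc0.le
    have := log_le_sub_one_of_pos (x := n1 v / s) (by positivity)
    rw [div_le_iff₀ hn]
    calc s ^ 2 * log (n1 v / s) ≤ s ^ 2 * (n1 v / s) := by gcongr; linarith
      _ = _ := by field_simp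
  set K := ⌈k⌉₊ with hK
  have K1 : k ≤ K := Nat.le_ceil _
  have K2 : (K : ℝ) ≤ k + 1 := (Nat.ceil_lt_add_one (by linarith)).le
  have K3 : 1 ≤ K := by exact_mod_cast (by linarith : (1 : ℝ) ≤ K)
  obtain ⟨m, hm⟩ : ∃ m, μ (iv v) = K * m := ⟨μ (iv v) / K, by
    rw [mul_div_cancel₀ _ (by linarith)]⟩
  have a1 := h.le (iv v)
  have a2 := h.ge (iv v)
  rw [r1_iv, hm] at a1 a2
  have m0 : 0 < m := by
    by_contra hc'
    nlinarith
  have m1 : 10 ^ 27 ≤ m := by
    have b1 : K * m ≤ 2 * (c * n1 v) * m := by gcongr; nlinarith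
    have b2 : 1 ≤ 22 * c * m := by
      by_contra hc'
      nlinarith
    by_contra hc'
    nlinarith
  have m2 : m ≤ n1 v / k := by
    rw [le_div_iff₀ (by linarith)]; nlinarith
  have m3 : sig m ≤ s / (2 * C * 540000000000 * k) := by
    refine (sig_mono m0.le m2).trans (abs_le_of_sq_le_sq' ?_ (by positivity)).2
    have b1 : n1 v / s ≤ n1 v / k := by
      gcongr; nlinarith
    rw [sig_sq (by positivity)]
    calc _ ≤ n1 v / k / log (n1 v / s) := by
          gcongr; linarith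
      _ = c * s ^ 2 / k ^ 2 := by
          have : k * n1 v = c * s ^ 2 * log (n1 v / s) := by rw [hk]; field_simp
          field_simp
          linarith
      _ = _ := by rw [hc]; field_simp
  have s1 := sig_pos (r := m) (by linarith)
  have m4 : 2 * C * k ≤ s / (540000000000 * sig m) := by
    rw [le_div_iff₀ (by positivity)] at m3 ⊢
    linarith
  have m5 : s / (540000000000 * sig m) ≤ s / (30000000 * sig m) := by gcongr; norm_num
  have h1 := markov_exp (s := s) (by fun_prop) (by positivity) (upper_mgf h hB (hU μ h) m1 K3 hm)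
  have h2 := markov_exp (s := s) (by fun_prop) (by positivity)
    (hL h hB (hU μ h) (by linarith) K3 hm)
  have b1 : (B + 4) * K ≤ C * (k + 1) := by gcongr; linarith
  have b2 : (B + Λ) * K ≤ C * (k + 1) := by gcongr; linarith
  rw [two_mul, ENNReal.ofReal_add (exp_pos _).le (exp_pos _).le, hm]
  refine le_trans (measure_mono fun ω hω => ?_) ((measure_union_le _ _).trans (add_le_add
    (h1.trans (ENNReal.ofReal_le_ofReal (exp_le_exp.2 (by linarith))))
    (h2.trans (ENNReal.ofReal_le_ofReal (exp_le_exp.2 (by linarith))))))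
  rcases le_abs.1 (show s ≤ |TT ω 0 v - K * m| from hω) with h' | h'
  · exact Or.inl h'
  · exact Or.inr (show s ≤ K * m - TT ω 0 v by linarith)

end Pool.Agent.Lib.MP_de94ef_pr
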