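import Mathlib

-- part Pool.Agent.Lib.MP_de94ef_pr.Exp1
section

/-!
One-dimensional facts on the standard exponential law: Laplace transform, a weighted
logarithmic Sobolev inequality and an L1 Poincare inequality.
-/

open MeasureTheory ProbabilityTheory Set Real
open scoped ENNReal

namespace Pool.Agent.Lib.MP_de94ef_pr

/-- The standard exponential law. -/
noncomputable abbrev nu : Measure ℝ := expMeasure 1

instance instProbNu : IsProbabilityMeasure nu := isProbabilityMeasure_expMeasure one_pos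

lemma lintegral_nu {f : ℝ → ℝ≥0∞} (hf : Measurable f) :
    ∫⁻ x, f x ∂nu = ∫⁻ x in Ioi (0 : ℝ), ENNReal.ofReal (exp (-x)) * f x := by
  have h1 : nu = volume.withDensity (exponentialPDF 1) := rfl
  have hm : Measurable (exponentialPDF 1) := (measurable_exponentialPDFReal 1).ennreal_ofReal
  rw [h1, lintegral_withDensity_eq_lintegral_mul _ hm hf, ← lintegral_indicator measurableSet_Ioi]
  refine lintegral_congr_ae ?_
  have : ∀ᵐ x : ℝ, x ≠ 0 := by simp [ae_iff]
  filter_upwards [this] with x hx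
  rcases lt_or_gt_of_ne hx with h | h
  · simp [exponentialPDF_of_neg h, indicator, not_lt.2 h.le]
  · simp [exponentialPDF_of_nonneg h.le, indicator, h]

lemma nu_ae_pos : ∀ᵐ x ∂nu, 0 < x := by
  rw [ae_iff]
  have hs : MeasurableSet {x : ℝ | ¬ 0 < x} := by
    have : {x : ℝ | ¬ 0 < x} = Iic 0 := by ext; simp
    rw [this]; exact measurableSet_Iic
  rw [← lintegral_indicator_one hs, lintegral_nu (measurable_one.indicator hs)]
  rw [setLIntegral_congr_fun measurableSet_Ioi (g := fun _ => 0)]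
  · simp
  · intro x hx
    have : 0 < x := hx
    simp [indicator, this]

lemma lintegral_exp_Ioi {a : ℝ} (ha : 0 < a) (c : ℝ) :
    ∫⁻ x in Ioi c, ENNReal.ofReal (exp (-a * x)) = ENNReal.ofReal (exp (-a * c) / a) := by
  rw [← ofReal_integral_eq_lintegral_ofReal (integrableOn_exp_mul_Ioi (by linarith) c)
    (ae_of_all _ fun x => (exp_pos _).le), integral_exp_mul_Ioi (by linarith)]
  congr 1
  field_simp

lemma lintegral_exp_nu {t : ℝ} (ht : t < 1) :
    ∫⁻ x, ENNReal.ofReal (exp (t * max x 0)) ∂nu = ENNReal.ofReal (1 / (1 - t)) := by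
  rw [lintegral_nu (by fun_prop)]
  rw [setLIntegral_congr_fun measurableSet_Ioi
    (g := fun x => ENNReal.ofReal (exp (-(1 - t) * x)))]
  · rw [lintegral_exp_Ioi (by linarith)]; simp
  · intro x hx
    have hx' : 0 < x := hx
    simp only
    rw [← ENNReal.ofReal_mul (exp_pos _).le, ← exp_add, max_eq_left hx'.le]
    congr 2; ring

lemma integrable_pos_nu : Integrable (fun x : ℝ => max x 0) nu := by
  refine ⟨(by fun_prop : Measurable fun x : ℝ => max x 0).aestronglyMeasurable, ?_⟩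
  rw [hasFiniteIntegral_iff_ofReal (f := fun x : ℝ => max x 0)
    (ae_of_all _ fun x => le_max_right _ _)]
  calc ∫⁻ x, ENNReal.ofReal (max x 0) ∂nu
      ≤ ∫⁻ x, 2 * ENNReal.ofReal (exp (1 / 2 * max x 0)) ∂nu := by
        refine lintegral_mono fun x => ?_
        rw [← ENNReal.ofReal_ofNat 2, ← ENNReal.ofReal_mul (by norm_num)]
        refine ENNReal.ofReal_le_ofReal ?_
        have := add_one_le_exp (1 / 2 * max x 0)
        linarith
    _ < ⊤ := by
        rw [lintegral_const_mul _ (by fun_prop), lintegral_exp_nu (by norm_num)]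
        exact ENNReal.mul_lt_top (by simp) (by simp)

lemma integral_pos_nu : ∫ x, max x 0 ∂nu = 1 := by
  rw [integral_eq_lintegral_of_nonneg_ae (f := fun x : ℝ => max x 0)
    (ae_of_all _ fun x => le_max_right _ _)
    (by fun_prop : Measurable fun x : ℝ => max x 0).aestronglyMeasurable,
    lintegral_nu (by fun_prop)]
  have h2 := Real.GammaIntegral_convergent (s := 2) (by norm_num)
  have h3 := Real.Gamma_eq_integral (s := 2) (by norm_num)
  rw [setLIntegral_congr_fun measurableSet_Ioi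
    (g := fun x => ENNReal.ofReal (exp (-x) * x ^ ((2 : ℝ) - 1)))]
  · rw [← ofReal_integral_eq_lintegral_ofReal h2, ← h3]
    · simp
    · filter_upwards [ae_restrict_mem measurableSet_Ioi] with x hx
      have hx' : 0 < x := hx
      positivity
  · intro x hx
    have hx' : 0 < x := hx
    simp only
    rw [← ENNReal.ofReal_mul (exp_pos _).le, max_eq_left hx'.le]
    norm_num

lemma tonelli_up {k r : ℝ → ℝ≥0∞} (hk : Measurable k) (hr : Measurable r) :
    ∫⁻ x in Ioi (1 : ℝ), r x * ∫⁻ y in Ioc 1 x, k y =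
      ∫⁻ y in Ioi (1 : ℝ), k y * ∫⁻ x in Ici y, r x := by
  have hm : Measurable fun p : ℝ × ℝ => if p.2 ≤ p.1 then r p.1 * k p.2 else 0 :=
    Measurable.ite (measurableSet_le measurable_snd measurable_fst) (by fun_prop) measurable_const
  have e1 : ∀ x, r x * ∫⁻ y in Ioc 1 x, k y =
      ∫⁻ y in Ioi (1 : ℝ), if y ≤ x then r x * k y else 0 := by
    intro x
    rw [← lintegral_const_mul _ hk, ← Ioi_inter_Iic, inter_comm,
      ← Measure.restrict_restrict measurableSet_Iic, ← lintegral_indicator measurableSet_Iic]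
    rfl
  have e2 : ∀ y ∈ Ioi (1 : ℝ), k y * ∫⁻ x in Ici y, r x =
      ∫⁻ x in Ioi (1 : ℝ), if y ≤ x then r x * k y else 0 := by
    intro y hy
    have : Ici y = Ici y ∩ Ioi 1 := by
      ext x; simp only [mem_Ici, mem_inter_iff, mem_Ioi] at hy ⊢
      exact ⟨fun h => ⟨h, lt_of_lt_of_le hy h⟩, fun h => h.1⟩
    rw [← lintegral_const_mul _ hr, this,
      ← Measure.restrict_restrict measurableSet_Ici, ← lintegral_indicator measurableSet_Ici]
    refine lintegral_congr fun x => ?_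
    simp only [indicator, mem_Ici, mul_comm]
  simp_rw [e1]
  rw [setLIntegral_congr_fun measurableSet_Ioi e2]
  exact lintegral_lintegral_swap hm.aemeasurable

lemma tonelli_down {k : ℝ → ℝ≥0∞} (hk : Measurable k) :
    ∫⁻ x in Ioc (0 : ℝ) 1, ∫⁻ y in Ioc x 1, k y =
      ∫⁻ y in Ioc (0 : ℝ) 1, k y * ENNReal.ofReal y := by
  have hm : Measurable fun p : ℝ × ℝ => if p.1 < p.2 then k p.2 else 0 :=
    Measurable.ite (measurableSet_lt measurable_fst measurable_snd) (by fun_prop) measurable_const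
  have e1 : ∀ x ∈ Ioc (0 : ℝ) 1, ∫⁻ y in Ioc x 1, k y =
      ∫⁻ y in Ioc (0 : ℝ) 1, if x < y then k y else 0 := by
    intro x hx
    have : Ioc x 1 = Ioi x ∩ Ioc 0 1 := by
      ext y; simp only [mem_Ioc, mem_inter_iff, mem_Ioi] at hx ⊢
      exact ⟨fun h => ⟨h.1, lt_trans hx.1 h.1, h.2⟩, fun h => ⟨h.1, h.2.2⟩⟩
    rw [this, ← Measure.restrict_restrict measurableSet_Ioi,
      ← lintegral_indicator measurableSet_Ioi]
    rfl
  have e2 : ∀ y ∈ Ioc (0 : ℝ) 1, k y * ENNReal.ofReal y =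
      ∫⁻ x in Ioc (0 : ℝ) 1, if x < y then k y else 0 := by
    intro y hy
    have h1 : (fun x => if x < y then k y else 0) = (Iio y).indicator fun _ => k y := by
      funext x; simp [indicator]
    have h2 : Iio y ∩ Ioc 0 1 = Ioo 0 y := by
      ext x; simp only [mem_Ioc, mem_inter_iff, mem_Iio, mem_Ioo] at hy ⊢
      exact ⟨fun h => ⟨h.2.1, h.1⟩, fun h => ⟨h.2, h.1, by linarith [h.2, hy.2]⟩⟩
    rw [h1, lintegral_indicator measurableSet_Iio, Measure.restrict_restrict measurableSet_Iio, h2]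
    simp
  rw [setLIntegral_congr_fun measurableSet_Ioc e1, setLIntegral_congr_fun measurableSet_Ioc e2]
  exact lintegral_lintegral_swap hm.aemeasurable

lemma intervalIntegrable_of_bdd {g : ℝ → ℝ} (hg : Measurable g) {M : ℝ} (hM : ∀ y, |g y| ≤ M)
    (a b : ℝ) : IntervalIntegrable g volume a b := by
  refine (intervalIntegrable_const (c := M)).mono_fun hg.aestronglyMeasurable
    (ae_of_all _ fun y => ?_)
  simp only [Real.norm_eq_abs]
  exact (hM y).trans (le_abs_self _)

/-- Weighted Cauchy-Schwarz inequality on an interval. -/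
lemma cs_interval {g w : ℝ → ℝ} {a b M : ℝ} (hab : a ≤ b) (hg : Measurable g)
    (hM : ∀ y, |g y| ≤ M) (hw : ContinuousOn w (Icc a b)) (hw0 : ∀ y ∈ Icc a b, 0 < w y) :
    (∫ y in a..b, |g y|) ^ 2 ≤ (∫ y in a..b, w y * g y ^ 2) * ∫ y in a..b, (w y)⁻¹ := by
  have hu : uIcc a b = Icc a b := uIcc_of_le hab
  have i1 : IntervalIntegrable (fun y => |g y|) volume a b :=
    (intervalIntegrable_of_bdd hg hM a b).abs
  have i2 : IntervalIntegrable (fun y => w y * g y ^ 2) volume a b := by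
    refine IntervalIntegrable.continuousOn_mul ?_ (hu ▸ hw)
    refine intervalIntegrable_of_bdd (by fun_prop) (M := M ^ 2) (fun y => ?_) a b
    rw [abs_pow]; gcongr; exact hM y
  have i3 : IntervalIntegrable (fun y => (w y)⁻¹) volume a b :=
    ContinuousOn.intervalIntegrable (hu ▸ hw.inv₀ fun y hy => (hw0 y hy).ne')
  have key : ∀ t : ℝ, 0 ≤ (∫ y in a..b, w y * g y ^ 2) * (t * t) +
      (-2 * ∫ y in a..b, |g y|) * t + ∫ y in a..b, (w y)⁻¹ := by
    intro t
    have : (∫ y in a..b, w y * g y ^ 2) * (t * t) + (-2 * ∫ y in a..b, |g y|) * t +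
        ∫ y in a..b, (w y)⁻¹ =
        ∫ y in a..b, (t * t * (w y * g y ^ 2) + -2 * t * |g y| + (w y)⁻¹) := by
      rw [intervalIntegral.integral_add ((i2.const_mul _).add (i1.const_mul _)) i3,
        intervalIntegral.integral_add (i2.const_mul _) (i1.const_mul _),
        intervalIntegral.integral_const_mul, intervalIntegral.integral_const_mul]
      ring
    rw [this]
    refine intervalIntegral.integral_nonneg hab fun y hy => ?_
    have h0 := hw0 y hy
    have : t * t * (w y * g y ^ 2) + -2 * t * |g y| + (w y)⁻¹ =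
        (t * w y * |g y| - 1) ^ 2 / w y := by
      rw [← sq_abs (g y)]; field_simp; ring
    rw [this]; positivity
  have := discrim_le_zero key
  unfold discrim at this
  nlinarith

end Pool.Agent.Lib.MP_de94ef_pr
end

-- part Pool.Agent.Lib.MP_de94ef_pr.Lsi1
section

/-!
The weighted logarithmic Sobolev inequality and the L1 Poincare inequality for the standard
exponential law.
-/

open MeasureTheory ProbabilityTheory Set Real
open scoped ENNReal

namespace Pool.Agent.Lib.MP_de94ef_pr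

lemma psi_nonneg {z a : ℝ} (hz : 0 < z) (ha : 0 < a) : 0 ≤ z * log (z / a) - z + a := by
  have h := one_sub_inv_le_log_of_pos (div_pos hz ha)
  have h2 : z * (1 - (z / a)⁻¹) = z - a := by field_simp
  nlinarith [mul_le_mul_of_nonneg_left h hz.le]

lemma psi_le {s α e q L : ℝ} (hs : 0 < s) (hα : 0 < α) (he : 0 < e) (hαe : e ≤ α ^ 2)
    (hq : (s - α) ^ 2 ≤ q) (hL0 : 0 ≤ L) (hL : 4 * q ≤ e * exp L) :
    s ^ 2 * log (s ^ 2 / α ^ 2) - s ^ 2 + α ^ 2 ≤ q * (5 + 4 * L) := by
  have hq0 : 0 ≤ q := (sq_nonneg _).trans hq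
  by_cases h : s - α ≤ α
  · have h1 : log (s ^ 2 / α ^ 2) ≤ 2 * ((s - α) / α) := by
      rw [← div_pow, Real.log_pow]
      have := log_le_sub_one_of_pos (div_pos hs hα)
      have e1 : s / α - 1 = (s - α) / α := by field_simp
      push_cast
      linarith
    have h2 : s ^ 2 * (2 * ((s - α) / α)) - s ^ 2 + α ^ 2 =
        3 * (s - α) ^ 2 + 2 * (s - α) ^ 2 * ((s - α) / α) := by field_simp; ring
    have h3 : (s - α) / α ≤ 1 := by rw [div_le_one hα]; exact h
    have h4 := mul_le_mul_of_nonneg_left h1 (sq_nonneg s)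
    have h5 := mul_le_mul_of_nonneg_left h3 (by positivity : 0 ≤ 2 * (s - α) ^ 2)
    nlinarith [mul_nonneg hq0 hL0]
  · push Not at h
    have h1 : s ^ 2 ≤ 4 * q := by nlinarith
    have h2 : α ^ 2 ≤ q := by nlinarith
    have h3 : log (s ^ 2 / α ^ 2) ≤ L := by
      rw [log_le_iff_le_exp (by positivity), div_le_iff₀ (by positivity)]
      nlinarith [exp_pos L]
    have h4 : s ^ 2 * log (s ^ 2 / α ^ 2) ≤ 4 * q * L :=
      (mul_le_mul_of_nonneg_left h3 (sq_nonneg s)).trans (mul_le_mul_of_nonneg_right h1 hL0)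
    nlinarith [sq_nonneg s]

lemma sqrt_close {f c ε e : ℝ} (hε : 0 < ε) (he : 0 ≤ e) :
    (√(f ^ 2 + ε) - √(c ^ 2 + e + ε)) ^ 2 ≤ 2 * (f - c) ^ 2 + 2 * e := by
  set s := √(f ^ 2 + ε)
  set β := √(c ^ 2 + ε)
  set α := √(c ^ 2 + e + ε)
  have hs : s ^ 2 = f ^ 2 + ε := sq_sqrt (by positivity)
  have hβ : β ^ 2 = c ^ 2 + ε := sq_sqrt (by positivity)
  have hα : α ^ 2 = c ^ 2 + e + ε := sq_sqrt (by positivity)
  have hs0 : 0 ≤ s := sqrt_nonneg _
  have hβ0 : 0 ≤ β := sqrt_nonneg _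
  have h1 : f * c + ε ≤ s * β := by
    refine abs_le_of_sq_le_sq' ?_ (by positivity) |>.2
    rw [mul_pow, hs, hβ]
    nlinarith [mul_nonneg hε.le (sq_nonneg (f - c))]
  have h2 : β ≤ α := sqrt_le_sqrt (by linarith)
  have h3 : (s - β) ^ 2 ≤ (f - c) ^ 2 := by nlinarith
  have h4 : (β - α) ^ 2 ≤ e := by nlinarith
  nlinarith [sq_nonneg (s - β - (β - α))]

lemma psi_bound {f c ε e L : ℝ} (hε : 0 < ε) (he : 0 < e) (hL0 : 0 ≤ L)
    (hL : 8 * (f - c) ^ 2 + 8 * e ≤ e * exp L) :
    (f ^ 2 + ε) * log ((f ^ 2 + ε) / (c ^ 2 + e + ε)) - (f ^ 2 + ε) + (c ^ 2 + e + ε) ≤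
      (2 * (f - c) ^ 2 + 2 * e) * (5 + 4 * L) := by
  have h := psi_le (s := √(f ^ 2 + ε)) (α := √(c ^ 2 + e + ε)) (e := e)
    (q := 2 * (f - c) ^ 2 + 2 * e) (L := L) (by positivity) (by positivity) he
    (by rw [sq_sqrt (by positivity)]; nlinarith [sq_nonneg c]) (sqrt_close hε he.le) hL0
    (by linarith)
  rwa [sq_sqrt (by positivity), sq_sqrt (by positivity)] at h

lemma ent_le_psi {α : Type*} [MeasurableSpace α] {P : Measure α} [IsProbabilityMeasure P]
    {Z : α → ℝ} {a : ℝ} (ha : 0 < a) (hZ : ∀ x, 0 < Z x) (i1 : Integrable Z P)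
    (i2 : Integrable (fun x => Z x * log (Z x)) P) :
    ∫ x, Z x * log (Z x) ∂P - (∫ x, Z x ∂P) * log (∫ x, Z x ∂P) ≤
      ∫ x, (Z x * log (Z x / a) - Z x + a) ∂P := by
  have hm : 0 < ∫ x, Z x ∂P := by
    rw [integral_pos_iff_support_of_nonneg (fun x => (hZ x).le) i1]
    have : Function.support Z = univ := by ext x; simp [(hZ x).ne']
    simp [this]
  have e1 : ∀ x, Z x * log (Z x / a) - Z x + a =
      (Z x * log (Z x) - (log a + 1) * Z x) + a := by
    intro x; rw [log_div (hZ x).ne' ha.ne']; ring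
  simp_rw [e1]
  have i3 : Integrable (fun x => Z x * log (Z x) - (log a + 1) * Z x) P := i2.sub (i1.const_mul _)
  rw [integral_add i3 (integrable_const _),
    integral_sub i2 (i1.const_mul _), integral_const_mul]
  have := psi_nonneg hm ha
  rw [log_div hm.ne' ha.ne'] at this
  simp only [integral_const, probReal_univ, smul_eq_mul, one_mul]
  nlinarith

lemma K_up {x : ℝ} (hx : 1 ≤ x) :
    ∫ y in (1 : ℝ)..x, (y * exp (-(1 / 2) * y))⁻¹ ≤ 20 * exp (1 / 2 * x) / (x + 4) := by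
  have hd : ∀ y : ℝ, 0 < y → HasDerivAt (fun y : ℝ => 20 * exp (1 / 2 * y) / (y + 4))
      ((20 * (exp (1 / 2 * y) * (1 / 2)) * (y + 4) - 20 * exp (1 / 2 * y) * 1) / (y + 4) ^ 2)
      y := by
    intro y hy
    refine HasDerivAt.div ?_ ((hasDerivAt_id y).add_const 4) (by linarith)
    have := ((hasDerivAt_id y).const_mul (1 / 2 : ℝ)).exp.const_mul 20
    simpa using this
  have h := intervalIntegral.integral_le_sub_of_hasDeriv_right_of_le hx
    (g := fun y : ℝ => 20 * exp (1 / 2 * y) / (y + 4))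
    (φ := fun y => (y * exp (-(1 / 2) * y))⁻¹)
    (fun y hy => (hd y (by linarith [hy.1])).continuousAt.continuousWithinAt)
    (fun y hy => (hd y (by linarith [hy.1])).hasDerivWithinAt)
    (ContinuousOn.integrableOn_Icc (ContinuousOn.inv₀ (by fun_prop) fun y hy => by
      have : 0 < y := by linarith [hy.1]
      positivity))
    (fun y hy => by
      have h1 : 1 < y := hy.1
      have h2 : (y * exp (-(1 / 2) * y))⁻¹ = exp (1 / 2 * y) / y := by
        rw [neg_mul, exp_neg]; field_simp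
      rw [h2, div_le_div_iff₀ (by linarith) (by positivity)]
      have := exp_pos (1 / 2 * y)
      have h3 : (y + 4) ^ 2 ≤ (10 * (y + 4) - 20) * y := by nlinarith
      nlinarith [mul_le_mul_of_nonneg_left h3 this.le])
  have : 0 ≤ 20 * exp (1 / 2 * 1) / ((1 : ℝ) + 4) := by positivity
  linarith

lemma K_down {x : ℝ} (hx : 0 < x) :
    ∫ y in x..1, y⁻¹ ≤ 4 * x ^ (-(1 / 4) : ℝ) := by
  rw [integral_inv_of_pos hx one_pos]
  have := log_le_rpow_div (x := 1 / x) (ε := 1 / 4) (by positivity) (by norm_num)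
  rw [one_div x, inv_rpow hx.le, ← rpow_neg hx.le] at this
  rw [one_div x]
  linarith

section lsi

variable {f g : ℝ → ℝ} {M : ℝ}

lemma ofReal_int {k : ℝ → ℝ} {a b : ℝ} (hab : a ≤ b) (hi : IntervalIntegrable k volume a b)
    (h0 : ∀ y ∈ Ioc a b, 0 ≤ k y) :
    ENNReal.ofReal (∫ y in a..b, k y) = ∫⁻ y in Ioc a b, ENNReal.ofReal (k y) := by
  rw [intervalIntegral.integral_of_le hab, ofReal_integral_eq_lintegral_ofReal hi.1]
  filter_upwards [ae_restrict_mem measurableSet_Ioc] with y hy using h0 y hy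

lemma int_wg (hg : Measurable g) (hgM : ∀ y, |g y| ≤ M) {w : ℝ → ℝ} (hw : Continuous w)
    (a b : ℝ) : IntervalIntegrable (fun y => w y * g y ^ 2) volume a b := by
  refine IntervalIntegrable.continuousOn_mul ?_ hw.continuousOn
  refine intervalIntegrable_of_bdd (by fun_prop) (M := M ^ 2) (fun y => ?_) a b
  rw [abs_pow]; gcongr; exact hgM y

lemma seg_le (hg : Measurable g) (hgM : ∀ y, |g y| ≤ M) {e : ℝ} (he : 0 < e)
    (hE : ∫⁻ y in Ioi (0 : ℝ), ENNReal.ofReal (exp (-y) * (y * g y ^ 2)) ≤ ENNReal.ofReal e)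
    {a b c : ℝ} (ha : 0 ≤ a) (hab : a ≤ b) (hc : 0 ≤ c) {w : ℝ → ℝ} (hw : Continuous w)
    (hw0 : ∀ y ∈ Ioc a b, 0 ≤ w y) (hwc : ∀ y ∈ Ioc a b, w y ≤ c * (exp (-y) * y)) :
    ∫ y in a..b, w y * g y ^ 2 ≤ c * e := by
  rw [← ENNReal.ofReal_le_ofReal_iff (by positivity),
    ofReal_int hab (int_wg hg hgM hw a b) (fun y hy => by have := hw0 y hy; positivity),
    ENNReal.ofReal_mul hc]
  calc ∫⁻ y in Ioc a b, ENNReal.ofReal (w y * g y ^ 2)
      ≤ ∫⁻ y in Ioc a b, ENNReal.ofReal c * ENNReal.ofReal (exp (-y) * (y * g y ^ 2)) := by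
        refine setLIntegral_mono' measurableSet_Ioc fun y hy => ?_
        rw [← ENNReal.ofReal_mul hc]
        refine ENNReal.ofReal_le_ofReal ?_
        nlinarith [mul_le_mul_of_nonneg_right (hwc y hy) (sq_nonneg (g y))]
    _ ≤ ∫⁻ y in Ioi (0 : ℝ), ENNReal.ofReal c * ENNReal.ofReal (exp (-y) * (y * g y ^ 2)) :=
        lintegral_mono_set fun y hy => lt_of_le_of_lt ha hy.1
    _ ≤ _ := by
        rw [lintegral_const_mul _ (by fun_prop)]
        gcongr

lemma psi_up (hg : Measurable g) (hgM : ∀ y, |g y| ≤ M)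
    (hfg : ∀ a b, 0 ≤ a → a ≤ b → |f b - f a| ≤ ∫ y in a..b, |g y|) {ε e : ℝ} (hε : 0 < ε)
    (he : 0 < e)
    (hE : ∫⁻ y in Ioi (0 : ℝ), ENNReal.ofReal (exp (-y) * (y * g y ^ 2)) ≤ ENNReal.ofReal e)
    {x : ℝ} (hx : 1 ≤ x) :
    exp (-x) * ((f x ^ 2 + ε) * log ((f x ^ 2 + ε) / (f 1 ^ 2 + e + ε)) - (f x ^ 2 + ε) +
      (f 1 ^ 2 + e + ε)) ≤
      240 * (exp (-(1 / 2) * x) * ∫ y in (1 : ℝ)..x, y * exp (-(1 / 2) * y) * g y ^ 2) +
        48 * e * exp (-(1 / 2) * x) := by
  set J := ∫ y in (1 : ℝ)..x, y * exp (-(1 / 2) * y) * g y ^ 2 with hJ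
  have hJ0 : 0 ≤ J := intervalIntegral.integral_nonneg hx fun y hy => by
    have : 0 ≤ y := by linarith [hy.1]
    positivity
  have hcs := cs_interval (w := fun y => y * exp (-(1 / 2) * y)) hx hg hgM (by fun_prop)
    (fun y hy => by
      have : 0 < y := by linarith [hy.1]
      positivity)
  have hK := K_up hx
  have hh : (f x - f 1) ^ 2 ≤ J * (20 * exp (1 / 2 * x) / (x + 4)) := by
    have h1 := hfg 1 x zero_le_one hx
    have h2 : (f x - f 1) ^ 2 ≤ (∫ y in (1 : ℝ)..x, |g y|) ^ 2 := by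
      rw [← sq_abs]; gcongr
    exact h2.trans (hcs.trans (mul_le_mul_of_nonneg_left hK hJ0))
  have hJe : J ≤ exp (1 / 2 * x) * e := by
    refine seg_le hg hgM he hE zero_le_one hx (exp_pos _).le (by fun_prop)
      (fun y hy => by
        have : 0 < y := by linarith [hy.1]
        positivity) fun y hy => ?_
    have : 0 < y := by linarith [hy.1]
    have h1 : exp (-(1 / 2) * y) ≤ exp (1 / 2 * x) * exp (-y) := by
      rw [← exp_add]; exact exp_le_exp.2 (by linarith [hy.2])
    nlinarith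
  have hE2 : exp (1 / 2 * x) * exp (1 / 2 * x) = exp x := by rw [← exp_add]; congr 1; ring
  have hp := exp_pos (1 / 2 * x)
  have hh2 : (f x - f 1) ^ 2 * (x + 4) ≤ 20 * J * exp (1 / 2 * x) := by
    have := mul_le_mul_of_nonneg_right hh (by linarith : 0 ≤ x + 4)
    rw [mul_assoc, div_mul_cancel₀ _ (by linarith)] at this
    linarith
  have hh3 : (f x - f 1) ^ 2 ≤ 4 * e * exp x := by
    have h1 : 20 * J * exp (1 / 2 * x) ≤ 20 * e * exp x := by
      rw [← hE2]; nlinarith
    nlinarith [sq_nonneg (f x - f 1)]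
  have h4 : (40 : ℝ) ≤ exp 4 := by
    have h1 : (2.7 : ℝ) ≤ exp 1 := by linarith [exp_one_gt_d9]
    have h2 : exp 4 = exp 1 ^ 4 := by rw [← exp_nat_mul]; norm_num
    rw [h2]
    calc (40 : ℝ) ≤ 2.7 ^ 4 := by norm_num
      _ ≤ _ := by gcongr
  have h1x : 1 ≤ exp x := one_le_exp (by linarith)
  have hpsi := psi_bound (f := f x) (c := f 1) (L := x + 4) hε he (by linarith) (by
    rw [exp_add]
    have := mul_le_mul_of_nonneg_left h4 (by positivity : 0 ≤ e * exp x)
    nlinarith)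
  have h5 : x + 4 ≤ 4 * exp (1 / 2 * x) := by linarith [add_one_le_exp (1 / 2 * x)]
  have h6 : (2 * (f x - f 1) ^ 2 + 2 * e) * (5 + 4 * (x + 4)) ≤
      240 * J * exp (1 / 2 * x) + 48 * e * exp (1 / 2 * x) := by
    have := sq_nonneg (f x - f 1)
    nlinarith
  have h7 : exp (-x) * exp (1 / 2 * x) = exp (-(1 / 2) * x) := by rw [← exp_add]; congr 1; ring
  calc _ ≤ exp (-x) * (240 * J * exp (1 / 2 * x) + 48 * e * exp (1 / 2 * x)) :=
        mul_le_mul_of_nonneg_left (hpsi.trans h6) (exp_pos _).le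
    _ = _ := by rw [← h7]; ring

lemma psi_down (hg : Measurable g) (hgM : ∀ y, |g y| ≤ M)
    (hfg : ∀ a b, 0 ≤ a → a ≤ b → |f b - f a| ≤ ∫ y in a..b, |g y|) {ε e : ℝ} (hε : 0 < ε)
    (he : 0 < e)
    (hE : ∫⁻ y in Ioi (0 : ℝ), ENNReal.ofReal (exp (-y) * (y * g y ^ 2)) ≤ ENNReal.ofReal e)
    {x : ℝ} (hx0 : 0 < x) (hx : x ≤ 1) :
    exp (-x) * ((f x ^ 2 + ε) * log ((f x ^ 2 + ε) / (f 1 ^ 2 + e + ε)) - (f x ^ 2 + ε) +
      (f 1 ^ 2 + e + ε)) ≤ 10946 * e * x ^ (-(1 / 2) : ℝ) := by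
  set r := x ^ (-(1 / 4) : ℝ) with hr
  have hr1 : 1 ≤ r := one_le_rpow_of_pos_of_le_one_of_nonpos hx0 hx (by norm_num)
  have hr2 : x ^ (-(1 / 2) : ℝ) = r * r := by rw [hr, ← rpow_add hx0]; norm_num
  have hcs := cs_interval (w := fun y => y) hx hg hgM (by fun_prop)
    (fun y hy => by linarith [hy.1])
  have hK := K_down hx0
  have hJ0 : 0 ≤ ∫ y in x..1, y * g y ^ 2 := intervalIntegral.integral_nonneg hx fun y hy => by
    have : 0 ≤ y := by linarith [hy.1]
    positivity
  have hJe : ∫ y in x..1, y * g y ^ 2 ≤ 3 * e := by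
    refine seg_le hg hgM he hE hx0.le hx (by norm_num) (w := fun y => y) (by fun_prop)
      (fun y hy => by linarith [hy.1]) fun y hy => ?_
    have : 0 < y := by linarith [hy.1]
    have h1 : 1 ≤ 3 * exp (-y) := by
      have h2 : exp y ≤ 3 := (exp_le_exp.2 hy.2).trans (by linarith [exp_one_lt_d9])
      rw [exp_neg, ← div_eq_mul_inv, le_div_iff₀ (exp_pos _)]; linarith
    nlinarith
  have hh : (f x - f 1) ^ 2 ≤ 12 * e * r := by
    have h1 := hfg x 1 hx0.le hx
    have h2 : (f x - f 1) ^ 2 ≤ (∫ y in x..1, |g y|) ^ 2 := by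
      rw [← sq_abs, abs_sub_comm]; gcongr
    have h3 := hcs.trans (mul_le_mul_of_nonneg_left hK hJ0)
    nlinarith [mul_le_mul_of_nonneg_right hJe (by positivity : 0 ≤ 4 * r)]
  have hpsi := psi_bound (f := f x) (c := f 1) (L := 104 * r) hε he (by positivity) (by
    have := mul_le_mul_of_nonneg_left (add_one_le_exp (104 * r)) he.le
    nlinarith)
  have h6 : (2 * (f x - f 1) ^ 2 + 2 * e) * (5 + 4 * (104 * r)) ≤ (26 * e * r) * (421 * r) := by
    refine mul_le_mul ?_ (by linarith) (by positivity) (by positivity)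
    nlinarith
  have h0 := psi_nonneg (z := f x ^ 2 + ε) (a := f 1 ^ 2 + e + ε) (by positivity) (by positivity)
  have h7 : exp (-x) ≤ 1 := exp_le_one_iff.2 (by linarith)
  rw [hr2]
  nlinarith [mul_le_mul_of_nonneg_right h7 h0]

lemma lintegral_rpow_half :
    ∫⁻ x in Ioc (0 : ℝ) 1, ENNReal.ofReal (x ^ (-(1 / 2) : ℝ)) = ENNReal.ofReal 2 := by
  rw [← ofReal_int zero_le_one (intervalIntegral.intervalIntegrable_rpow' (by norm_num))
    (fun y hy => rpow_nonneg hy.1.le _), integral_rpow (Or.inl (by norm_num))]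
  norm_num

lemma psi_lintegral (hf : Measurable f) (hg : Measurable g) (hgM : ∀ y, |g y| ≤ M)
    (hfg : ∀ a b, 0 ≤ a → a ≤ b → |f b - f a| ≤ ∫ y in a..b, |g y|) {ε e : ℝ} (hε : 0 < ε)
    (he : 0 < e)
    (hE : ∫⁻ y in Ioi (0 : ℝ), ENNReal.ofReal (exp (-y) * (y * g y ^ 2)) ≤ ENNReal.ofReal e) :
    ∫⁻ x, ENNReal.ofReal ((f x ^ 2 + ε) * log ((f x ^ 2 + ε) / (f 1 ^ 2 + e + ε)) -
      (f x ^ 2 + ε) + (f 1 ^ 2 + e + ε)) ∂nu ≤ ENNReal.ofReal (23000 * e) := by
  rw [lintegral_nu (by fun_prop), ← Ioc_union_Ioi_eq_Ioi zero_le_one,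
    lintegral_union measurableSet_Ioi (Ioc_disjoint_Ioi le_rfl)]
  have hA : ∫⁻ x in Ioc (0 : ℝ) 1, ENNReal.ofReal (exp (-x)) *
      ENNReal.ofReal ((f x ^ 2 + ε) * log ((f x ^ 2 + ε) / (f 1 ^ 2 + e + ε)) -
      (f x ^ 2 + ε) + (f 1 ^ 2 + e + ε)) ≤ ENNReal.ofReal (21892 * e) := by
    calc _ ≤ ∫⁻ x in Ioc (0 : ℝ) 1, ENNReal.ofReal (10946 * e) *
          ENNReal.ofReal (x ^ (-(1 / 2) : ℝ)) := by
          refine setLIntegral_mono' measurableSet_Ioc fun x hx => ?_
          rw [← ENNReal.ofReal_mul (exp_pos _).le, ← ENNReal.ofReal_mul (by positivity)]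
          exact ENNReal.ofReal_le_ofReal (psi_down hg hgM hfg hε he hE hx.1 hx.2)
      _ = _ := by
          rw [lintegral_const_mul _ (by fun_prop), lintegral_rpow_half,
            ← ENNReal.ofReal_mul (by positivity)]
          congr 1; ring
  have hT : ∫⁻ x in Ioi (1 : ℝ), ENNReal.ofReal (exp (-(1 / 2) * x)) *
      ∫⁻ y in Ioc 1 x, ENNReal.ofReal (y * exp (-(1 / 2) * y) * g y ^ 2) ≤
      ENNReal.ofReal 2 * ENNReal.ofReal e := by
    rw [tonelli_up (by fun_prop) (by fun_prop)]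
    calc _ ≤ ∫⁻ y in Ioi (1 : ℝ), ENNReal.ofReal 2 *
          ENNReal.ofReal (exp (-y) * (y * g y ^ 2)) := by
          refine setLIntegral_mono' measurableSet_Ioi fun y hy => ?_
          have hy' : 0 < y := lt_trans one_pos hy
          rw [← setLIntegral_congr Ioi_ae_eq_Ici, lintegral_exp_Ioi (by norm_num),
            ← ENNReal.ofReal_mul (by positivity), ← ENNReal.ofReal_mul (by positivity)]
          refine ENNReal.ofReal_le_ofReal (le_of_eq ?_)
          have : exp (-y) = exp (-(1 / 2) * y) * exp (-(1 / 2) * y) := by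
            rw [← exp_add]; congr 1; ring
          rw [this]; ring
      _ ≤ ∫⁻ y in Ioi (0 : ℝ), ENNReal.ofReal 2 *
          ENNReal.ofReal (exp (-y) * (y * g y ^ 2)) :=
          lintegral_mono_set (Ioi_subset_Ioi zero_le_one)
      _ ≤ _ := by
          rw [lintegral_const_mul _ (by fun_prop)]
          gcongr
  have hB : ∫⁻ x in Ioi (1 : ℝ), ENNReal.ofReal (exp (-x)) *
      ENNReal.ofReal ((f x ^ 2 + ε) * log ((f x ^ 2 + ε) / (f 1 ^ 2 + e + ε)) -
      (f x ^ 2 + ε) + (f 1 ^ 2 + e + ε)) ≤ ENNReal.ofReal (576 * e) := by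
    calc _ ≤ ∫⁻ x in Ioi (1 : ℝ), (ENNReal.ofReal (48 * e) * ENNReal.ofReal (exp (-(1 / 2) * x)) +
          ENNReal.ofReal 240 * (ENNReal.ofReal (exp (-(1 / 2) * x)) *
          ∫⁻ y in Ioc 1 x, ENNReal.ofReal (y * exp (-(1 / 2) * y) * g y ^ 2))) := by
          refine setLIntegral_mono' measurableSet_Ioi fun x hx => ?_
          have hx' : (1 : ℝ) ≤ x := le_of_lt hx
          have hJ0 : 0 ≤ ∫ y in (1 : ℝ)..x, y * exp (-(1 / 2) * y) * g y ^ 2 :=
            intervalIntegral.integral_nonneg hx' fun y hy => by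
              have : 0 ≤ y := by linarith [hy.1]
              positivity
          rw [← ofReal_int hx' (int_wg hg hgM (w := fun y => y * exp (-(1 / 2) * y))
            (by fun_prop) 1 x) (fun y hy => by
              have : 0 ≤ y := by linarith [hy.1]
              positivity), ← ENNReal.ofReal_mul (exp_pos _).le,
            ← ENNReal.ofReal_mul (by positivity), ← ENNReal.ofReal_mul (by positivity),
            ← ENNReal.ofReal_mul (by positivity),
            ← ENNReal.ofReal_add (by positivity) (by positivity)]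
          refine ENNReal.ofReal_le_ofReal ?_
          linarith [psi_up hg hgM hfg hε he hE hx']
      _ ≤ ENNReal.ofReal (48 * e) * ENNReal.ofReal 2 +
          ENNReal.ofReal 240 * (ENNReal.ofReal 2 * ENNReal.ofReal e) := by
          rw [lintegral_add_left (by fun_prop), lintegral_const_mul _ (by fun_prop),
            lintegral_const_mul' _ _ (by simp), lintegral_exp_Ioi (by norm_num)]
          gcongr
          have : exp (-(1 / 2) * 1) ≤ 1 := exp_le_one_iff.2 (by norm_num)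
          linarith
      _ = _ := by
          rw [← ENNReal.ofReal_mul (by positivity), ← ENNReal.ofReal_mul (by positivity),
            ← ENNReal.ofReal_mul (by positivity),
            ← ENNReal.ofReal_add (by positivity) (by positivity)]
          congr 1; ring
  calc _ ≤ ENNReal.ofReal (21892 * e) + ENNReal.ofReal (576 * e) := add_le_add hA hB
    _ ≤ _ := by
        rw [← ENNReal.ofReal_add (by positivity) (by positivity)]
        exact ENNReal.ofReal_le_ofReal (by linarith)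

lemma integrable_of_abs_le {α : Type*} [MeasurableSpace α] {P : Measure α} [IsFiniteMeasure P]
    {k : α → ℝ} (hk : Measurable k) {C : ℝ} (hC : ∀ x, |k x| ≤ C) : Integrable k P :=
  Integrable.of_bound hk.aestronglyMeasurable C (ae_of_all _ hC)

lemma abs_log_le {z ε B : ℝ} (hε : 0 < ε) (h1 : ε ≤ z) (h2 : z ≤ B) :
    |log z| ≤ |log ε| + |log B| := by
  have a1 := log_le_log hε h1
  have a2 := log_le_log (lt_of_lt_of_le hε h1) h2
  rw [abs_le]
  constructor
  · linarith [neg_abs_le (log ε), abs_nonneg (log B)]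
  · linarith [le_abs_self (log B), abs_nonneg (log ε)]

/-- Weighted logarithmic Sobolev inequality for the exponential law. -/
theorem lsi_one (hf : Measurable f) (hg : Measurable g) (hfM : ∀ y, |f y| ≤ M)
    (hgM : ∀ y, |g y| ≤ M)
    (hfg : ∀ a b, 0 ≤ a → a ≤ b → |f b - f a| ≤ ∫ y in a..b, |g y|) {ε : ℝ} (hε : 0 < ε) :
    ∫ y, (f y ^ 2 + ε) * log (f y ^ 2 + ε) ∂nu -
      (∫ y, f y ^ 2 + ε ∂nu) * log (∫ y, f y ^ 2 + ε ∂nu) ≤
      23000 * ∫ y, max y 0 * g y ^ 2 ∂nu := by
  have hZ : ∀ y, f y ^ 2 + ε ≤ M ^ 2 + ε := fun y => by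
    have : f y ^ 2 ≤ M ^ 2 := by rw [← sq_abs]; gcongr; exact hfM y
    linarith
  have hZ1 : ∀ y, |f y ^ 2 + ε| ≤ M ^ 2 + ε := fun y => by
    rw [abs_of_nonneg (by positivity)]; exact hZ y
  have hZ2 : ∀ y, |(f y ^ 2 + ε) * log (f y ^ 2 + ε)| ≤
      (M ^ 2 + ε) * (|log ε| + |log (M ^ 2 + ε)|) := fun y => by
    rw [abs_mul]
    exact mul_le_mul (hZ1 y) (abs_log_le hε (by nlinarith [sq_nonneg (f y)]) (hZ y))
      (abs_nonneg _) (by positivity)
  have i1 : Integrable (fun y => f y ^ 2 + ε) nu := integrable_of_abs_le (by fun_prop) hZ1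
  have i2 : Integrable (fun y => (f y ^ 2 + ε) * log (f y ^ 2 + ε)) nu :=
    integrable_of_abs_le (by fun_prop) hZ2
  have i3 : Integrable (fun y => max y 0 * g y ^ 2) nu := by
    refine integrable_pos_nu.mul_bdd (c := M ^ 2) (by fun_prop) (ae_of_all _ fun y => ?_)
    rw [Real.norm_eq_abs, abs_pow]; gcongr; exact hgM y
  have hE0 : 0 ≤ ∫ y, max y 0 * g y ^ 2 ∂nu := integral_nonneg fun y => by positivity
  have key : ∀ e, ∫ y, max y 0 * g y ^ 2 ∂nu < e →
      ∫ y, (f y ^ 2 + ε) * log (f y ^ 2 + ε) ∂nu -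
      (∫ y, f y ^ 2 + ε ∂nu) * log (∫ y, f y ^ 2 + ε ∂nu) ≤ 23000 * e := by
    intro e hee
    have he : 0 < e := lt_of_le_of_lt hE0 hee
    have hE : ∫⁻ y in Ioi (0 : ℝ), ENNReal.ofReal (exp (-y) * (y * g y ^ 2)) ≤
        ENNReal.ofReal e := by
      refine le_trans (le_of_eq ?_) (ENNReal.ofReal_le_ofReal hee.le)
      rw [ofReal_integral_eq_lintegral_ofReal i3 (ae_of_all _ fun y => by positivity),
        lintegral_nu (by fun_prop)]
      refine setLIntegral_congr_fun measurableSet_Ioi fun y hy => ?_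
      have hy' : 0 < y := hy
      rw [← ENNReal.ofReal_mul (exp_pos _).le, max_eq_left hy'.le]
    refine (ent_le_psi (a := f 1 ^ 2 + e + ε) (by positivity) (fun y => by positivity)
      i1 i2).trans ?_
    rw [integral_eq_lintegral_of_nonneg_ae (ae_of_all _ fun y =>
      psi_nonneg (by positivity) (by positivity)) (Measurable.aestronglyMeasurable (by fun_prop))]
    exact ENNReal.toReal_le_of_le_ofReal (by positivity) (psi_lintegral hf hg hgM hfg hε he hE)
  refine le_of_forall_pos_le_add fun η hη => ?_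
  have := key (∫ y, max y 0 * g y ^ 2 ∂nu + η / 23000)
    (by linarith [div_pos hη (by norm_num : (0 : ℝ) < 23000)])
  linarith

/-- Weighted L1 Poincare inequality for the exponential law. -/
theorem l1_one (hf : Measurable f) (hg : Measurable g) (hfM : ∀ y, |f y| ≤ M)
    (hgM : ∀ y, |g y| ≤ M)
    (hfg : ∀ a b, 0 ≤ a → a ≤ b → |f b - f a| ≤ ∫ y in a..b, |g y|) :
    ∫ y, |f y - ∫ z, f z ∂nu| ∂nu ≤ 6 * ∫ y, min (max y 0) 1 * |g y| ∂nu := by
  have i1 : Integrable f nu := integrable_of_abs_le hf hfM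
  have i2 : Integrable (fun y => |f y - f 1|) nu := (i1.sub (integrable_const _)).abs
  have i3 : Integrable (fun y => min (max y 0) 1 * |g y|) nu := by
    refine integrable_of_abs_le (by fun_prop) (C := M) fun y => ?_
    have h0 : 0 ≤ min (max y 0) 1 := le_min (le_max_right _ _) zero_le_one
    rw [abs_mul, abs_abs, abs_of_nonneg h0]
    nlinarith [min_le_right (max y 0) 1, hgM y, abs_nonneg (g y)]
  have h1 : |∫ z, f z ∂nu - f 1| ≤ ∫ y, |f y - f 1| ∂nu := by
    have : ∫ z, f z ∂nu - f 1 = ∫ z, (f z - f 1) ∂nu := by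
      rw [integral_sub i1 (integrable_const _)]; simp
    rw [this]; exact abs_integral_le_integral_abs
  have h2 : ∫ y, |f y - ∫ z, f z ∂nu| ∂nu ≤ 2 * ∫ y, |f y - f 1| ∂nu := by
    calc _ ≤ ∫ y, (|f y - f 1| + |∫ z, f z ∂nu - f 1|) ∂nu := by
          refine integral_mono (i1.sub (integrable_const _)).abs (i2.add (integrable_const _))
            fun y => ?_
          have := abs_sub_le (f y) (f 1) (∫ z, f z ∂nu)
          rw [abs_sub_comm (f 1)] at this
          exact this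
      _ ≤ _ := by
          rw [integral_add i2 (integrable_const _)]
          simp only [integral_const, probReal_univ, smul_eq_mul, one_mul]
          linarith
  have gi : ∀ a b, IntervalIntegrable (fun y => |g y|) volume a b := fun a b =>
    (intervalIntegrable_of_bdd hg hgM a b).abs
  have h3 : ∫⁻ y, ENNReal.ofReal |f y - f 1| ∂nu ≤
      ENNReal.ofReal 3 * ∫⁻ y, ENNReal.ofReal (min (max y 0) 1 * |g y|) ∂nu := by
    rw [lintegral_nu (by fun_prop), lintegral_nu (by fun_prop), ← Ioc_union_Ioi_eq_Ioi zero_le_one,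
      lintegral_union measurableSet_Ioi (Ioc_disjoint_Ioi le_rfl),
      lintegral_union measurableSet_Ioi (Ioc_disjoint_Ioi le_rfl), mul_add]
    refine add_le_add ?_ ?_
    · calc _ ≤ ∫⁻ x in Ioc (0 : ℝ) 1, ∫⁻ y in Ioc x 1, ENNReal.ofReal |g y| := by
            refine setLIntegral_mono' measurableSet_Ioc fun x hx => ?_
            rw [← ofReal_int hx.2 (gi x 1) fun y _ => abs_nonneg _,
              ← ENNReal.ofReal_mul (exp_pos _).le]
            refine ENNReal.ofReal_le_ofReal ?_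
            have a1 := hfg x 1 hx.1.le hx.2
            have a2 : exp (-x) ≤ 1 := exp_le_one_iff.2 (by linarith [hx.1])
            rw [abs_sub_comm] at a1
            nlinarith [abs_nonneg (f x - f 1)]
        _ ≤ _ := by
            rw [tonelli_down (by fun_prop), ← lintegral_const_mul _ (by fun_prop)]
            refine setLIntegral_mono' measurableSet_Ioc fun y hy => ?_
            rw [← ENNReal.ofReal_mul (abs_nonneg _), ← ENNReal.ofReal_mul (exp_pos _).le,
              ← ENNReal.ofReal_mul (by norm_num), max_eq_left hy.1.le, min_eq_left hy.2]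
            refine ENNReal.ofReal_le_ofReal ?_
            have h1 : 1 ≤ 3 * exp (-y) := by
              have h2 : exp y ≤ 3 := (exp_le_exp.2 hy.2).trans (by linarith [exp_one_lt_d9])
              rw [exp_neg, ← div_eq_mul_inv, le_div_iff₀ (exp_pos _)]; linarith
            nlinarith [mul_nonneg hy.1.le (abs_nonneg (g y))]
    · calc _ ≤ ∫⁻ x in Ioi (1 : ℝ), ENNReal.ofReal (exp (-1 * x)) *
            ∫⁻ y in Ioc 1 x, ENNReal.ofReal |g y| := by
            refine setLIntegral_mono' measurableSet_Ioi fun x hx => ?_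
            have hx' : (1 : ℝ) ≤ x := le_of_lt hx
            rw [← ofReal_int hx' (gi 1 x) fun y _ => abs_nonneg _, neg_one_mul]
            gcongr
            exact hfg 1 x zero_le_one hx'
        _ ≤ _ := by
            rw [tonelli_up (by fun_prop) (by fun_prop), ← lintegral_const_mul _ (by fun_prop)]
            refine setLIntegral_mono' measurableSet_Ioi fun y hy => ?_
            have hy' : (1 : ℝ) ≤ y := le_of_lt hy
            rw [← setLIntegral_congr Ioi_ae_eq_Ici, lintegral_exp_Ioi one_pos,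
              ← ENNReal.ofReal_mul (abs_nonneg _), ← ENNReal.ofReal_mul (exp_pos _).le,
              ← ENNReal.ofReal_mul (by norm_num), max_eq_left (by linarith), min_eq_right hy']
            refine ENNReal.ofReal_le_ofReal ?_
            rw [neg_one_mul]
            nlinarith [mul_nonneg (exp_pos (-y)).le (abs_nonneg (g y))]
  rw [← ofReal_integral_eq_lintegral_ofReal i2 (ae_of_all _ fun y => abs_nonneg _),
    ← ofReal_integral_eq_lintegral_ofReal i3 (ae_of_all _ fun y =>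
      mul_nonneg (le_min (le_max_right _ _) zero_le_one) (abs_nonneg _)),
    ← ENNReal.ofReal_mul (by norm_num), ENNReal.ofReal_le_ofReal_iff
      (mul_nonneg (by norm_num) (integral_nonneg fun y =>
        mul_nonneg (le_min (le_max_right _ _) zero_le_one) (abs_nonneg _)))] at h3
  linarith

end lsi

end Pool.Agent.Lib.MP_de94ef_pr
end

-- part Pool.Agent.Lib.MP_de94ef_pr.Tensor
section

/-!
Product of exponential laws: resampling, tensorisation of the entropy, and the
Falik-Samorodnitsky inequality.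
-/

open MeasureTheory ProbabilityTheory Set Real Function
open scoped ENNReal

namespace Pool.Agent.Lib.MP_de94ef_pr

/-- Bounded measurable real functions. -/
def Bdd {α : Type*} [MeasurableSpace α] (f : α → ℝ) : Prop :=
  Measurable f ∧ ∃ M, ∀ x, |f x| ≤ M

section bdd

variable {α : Type*} [MeasurableSpace α] {f g : α → ℝ}

lemma Bdd.const (c : ℝ) : Bdd fun _ : α => c := ⟨measurable_const, |c|, fun _ => le_rfl⟩

lemma Bdd.add (hf : Bdd f) (hg : Bdd g) : Bdd fun x => f x + g x := by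
  obtain ⟨h1, M, hM⟩ := hf
  obtain ⟨h2, N, hN⟩ := hg
  exact ⟨h1.add h2, M + N, fun x => (abs_add_le _ _).trans (add_le_add (hM x) (hN x))⟩

lemma Bdd.sub (hf : Bdd f) (hg : Bdd g) : Bdd fun x => f x - g x := by
  obtain ⟨h1, M, hM⟩ := hf
  obtain ⟨h2, N, hN⟩ := hg
  exact ⟨h1.sub h2, M + N, fun x => (abs_sub _ _).trans (add_le_add (hM x) (hN x))⟩

lemma Bdd.mul (hf : Bdd f) (hg : Bdd g) : Bdd fun x => f x * g x := by
  obtain ⟨h1, M, hM⟩ := hf
  obtain ⟨h2, N, hN⟩ := hg
  refine ⟨h1.mul h2, M * N, fun x => ?_⟩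
  rw [abs_mul]
  exact mul_le_mul (hM x) (hN x) (abs_nonneg _) ((abs_nonneg _).trans (hM x))

lemma Bdd.sq (hf : Bdd f) : Bdd fun x => f x ^ 2 := by
  simpa only [pow_two] using hf.mul hf

lemma Bdd.abs (hf : Bdd f) : Bdd fun x => |f x| := by
  obtain ⟨h1, M, hM⟩ := hf
  exact ⟨h1.abs, M, fun x => by simpa using hM x⟩

lemma Bdd.log (hf : Bdd f) {ε : ℝ} (hε : 0 < ε) (h : ∀ x, ε ≤ f x) : Bdd fun x => log (f x) := by
  obtain ⟨h1, M, hM⟩ := hf
  exact ⟨h1.log, _, fun x => abs_log_le hε (h x) ((le_abs_self _).trans (hM x))⟩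

lemma Bdd.exp (hf : Bdd f) : Bdd fun x => exp (f x) := by
  obtain ⟨h1, M, hM⟩ := hf
  refine ⟨h1.exp, Real.exp M, fun x => ?_⟩
  rw [abs_of_pos (exp_pos _)]
  exact exp_le_exp.2 ((le_abs_self _).trans (hM x))

lemma Bdd.sqrt (hf : Bdd f) : Bdd fun x => √(f x) := by
  obtain ⟨h1, M, hM⟩ := hf
  refine ⟨h1.sqrt, √M, fun x => ?_⟩
  rw [abs_of_nonneg (sqrt_nonneg _)]
  exact sqrt_le_sqrt ((le_abs_self _).trans (hM x))

lemma Bdd.sum {κ : Type*} (s : Finset κ) {F : κ → α → ℝ} (h : ∀ i ∈ s, Bdd (F i)) :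
    Bdd fun x => ∑ i ∈ s, F i x := by
  classical
  induction s using Finset.induction_on with
  | empty => simpa using Bdd.const 0
  | insert i s hi ih =>
    simp only [Finset.sum_insert hi]
    exact (h i (Finset.mem_insert_self _ _)).add
      (ih fun j hj => h j (Finset.mem_insert_of_mem hj))

lemma Bdd.comp {β : Type*} [MeasurableSpace β] (hf : Bdd f) {φ : β → α} (hφ : Measurable φ) :
    Bdd fun x => f (φ x) := by
  obtain ⟨h1, M, hM⟩ := hf
  exact ⟨h1.comp hφ, M, fun x => hM _⟩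

lemma Bdd.integrable (hf : Bdd f) {P : Measure α} [IsFiniteMeasure P] : Integrable f P := by
  obtain ⟨h1, M, hM⟩ := hf
  exact integrable_of_abs_le h1 hM

lemma Bdd.mul_integrable (hf : Bdd f) {P : Measure α} (hg : Integrable g P) :
    Integrable (fun x => g x * f x) P := by
  obtain ⟨h1, M, hM⟩ := hf
  exact hg.mul_bdd h1.aestronglyMeasurable (ae_of_all _ hM)

lemma gibbs {P : Measure α} [IsProbabilityMeasure P] {Z W : α → ℝ} (hZ : Bdd Z) (hW : Bdd W)
    {ε : ℝ} (hε : 0 < ε) (hZε : ∀ x, ε ≤ Z x) (hWε : ∀ x, ε ≤ W x) :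
    ∫ x, Z x * (log (W x) - log (∫ y, W y ∂P)) ∂P ≤
      ∫ x, Z x * log (Z x) ∂P - (∫ x, Z x ∂P) * log (∫ x, Z x ∂P) := by
  set w := ∫ y, W y ∂P with hw
  set z := ∫ y, Z y ∂P with hz
  have hw0 : ε ≤ w := by
    have := integral_mono (integrable_const ε) (hW.integrable (P := P)) hWε
    simpa using this
  have hz0 : ε ≤ z := by
    have := integral_mono (integrable_const ε) (hZ.integrable (P := P)) hZε
    simpa using this
  have hw1 : 0 < w := by linarith
  have hz1 : 0 < z := by linarith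
  have i1 : Integrable (fun x => Z x * log (Z x)) P := (hZ.mul (hZ.log hε hZε)).integrable
  have i2 : Integrable (fun x => (log z + 1) * Z x) P := hZ.integrable.const_mul _
  have i3 : Integrable (fun x => z / w * W x) P := hW.integrable.const_mul _
  have i4 : Integrable (fun x => Z x * log (Z x) - (log z + 1) * Z x) P := i1.sub i2
  calc _ ≤ ∫ x, (Z x * log (Z x) - (log z + 1) * Z x + z / w * W x) ∂P := by
        refine integral_mono (hZ.mul ((hW.log hε hWε).sub (Bdd.const _))).integrable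
          (i4.add i3) fun x => ?_
        have a1 : 0 < Z x := by linarith [hZε x]
        have a2 : 0 < W x := by linarith [hWε x]
        have h := log_le_sub_one_of_pos (x := W x * z / (w * Z x)) (by positivity)
        rw [log_div (by positivity) (by positivity), log_mul a2.ne' hz1.ne',
          log_mul hw1.ne' a1.ne'] at h
        have h2 := mul_le_mul_of_nonneg_left h a1.le
        have h3 : Z x * (W x * z / (w * Z x) - 1) = z / w * W x - Z x := by field_simp
        simp only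
        nlinarith
    _ = _ := by
        rw [integral_add i4 i3, integral_sub i1 i2, integral_const_mul, integral_const_mul,
          ← hw, ← hz]
        field_simp
        ring

lemma ent_lower {P : Measure α} [IsProbabilityMeasure P] {Z : α → ℝ} (hZ : Bdd Z)
    {ε : ℝ} (hε : 0 < ε) (hZε : ∀ x, ε ≤ Z x) {a : ℝ} (ha : 0 < a) :
    (1 + log a) * ∫ x, Z x ∂P - a * (∫ x, √(Z x) ∂P) ^ 2 ≤
      ∫ x, Z x * log (Z x) ∂P - (∫ x, Z x ∂P) * log (∫ x, Z x ∂P) := by
  set z := ∫ y, Z y ∂P with hz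
  have hz0 : ε ≤ z := by
    have := integral_mono (integrable_const ε) (hZ.integrable (P := P)) hZε
    simpa using this
  have hz1 : 0 < z := by linarith
  have i1 : Integrable (fun x => Z x * log (Z x)) P := (hZ.mul (hZ.log hε hZε)).integrable
  have i2 : Integrable (fun x => (2 + log a + log z) * Z x) P := hZ.integrable.const_mul _
  have i3 : Integrable (fun x => 2 * √(a * z) * √(Z x)) P := hZ.sqrt.integrable.const_mul _
  have h := integral_mono (i2.sub i3) i1 fun x => by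
    have a1 : 0 < Z x := by linarith [hZε x]
    have hv : 0 < √(Z x) := sqrt_pos.2 a1
    have hr : 0 < √(a * z) := sqrt_pos.2 (by positivity)
    have h := log_le_sub_one_of_pos (x := √(a * z) / √(Z x)) (by positivity)
    rw [log_div hr.ne' hv.ne', log_sqrt (by positivity), log_sqrt a1.le,
      log_mul ha.ne' hz1.ne'] at h
    have h2 := mul_le_mul_of_nonneg_left h a1.le
    have h3 : Z x * (√(a * z) / √(Z x) - 1) = √(a * z) * √(Z x) - Z x := by
      have : Z x = √(Z x) * √(Z x) := (mul_self_sqrt a1.le).symm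
      rw [mul_sub, mul_one]
      congr 1
      nth_rewrite 1 [this]
      field_simp
    simp only [Pi.sub_apply]
    nlinarith
  rw [integral_sub' i2 i3, integral_const_mul, integral_const_mul, ← hz] at h
  set I := ∫ x, √(Z x) ∂P
  have h4 : 2 * √(a * z) * I ≤ z + a * I ^ 2 := by
    rw [sqrt_mul ha.le]
    have e1 := mul_self_sqrt ha.le
    have e2 := mul_self_sqrt hz1.le
    nlinarith [sq_nonneg (√z - √a * I)]
  nlinarith

end bdd

variable {ι : Type} [DecidableEq ι]

/-- The law of a family of independent standard exponential variables. -/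
noncomputable abbrev PP (ι : Type) : Measure (ι → ℝ) := Measure.infinitePi fun _ : ι => nu

lemma measurePreserving_update (i : ι) :
    MeasurePreserving (fun p : (ι → ℝ) × ℝ => update p.1 i p.2) ((PP ι).prod nu) (PP ι) := by
  have hm : Measurable (fun p : (ι → ℝ) × ℝ => update p.1 i p.2) := by fun_prop
  refine ⟨hm, ?_⟩
  refine Measure.eq_infinitePi _ fun s t ht => ?_
  rw [Measure.map_apply hm (MeasurableSet.pi s.countable_toSet fun i _ => ht i)]
  by_cases hi : i ∈ s
  · have key : (fun p : (ι → ℝ) × ℝ => update p.1 i p.2) ⁻¹' (Set.pi (s : Set ι) t) =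
        (Set.pi ((s.erase i : Finset ι) : Set ι) t) ×ˢ (t i) := by
      ext ⟨u, b⟩
      simp only [Set.mem_preimage, Set.mem_pi, Finset.mem_coe, Set.mem_prod, Finset.mem_erase]
      constructor
      · intro h
        refine ⟨fun j hj => ?_, ?_⟩
        · have := h j hj.2
          rwa [update_of_ne hj.1] at this
        · simpa using h i hi
      · rintro ⟨h1, h2⟩ j hj
        by_cases hji : j = i
        · subst hji; simpa using h2
        · rw [update_of_ne hji]; exact h1 j ⟨hji, hj⟩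
    rw [key, Measure.prod_prod, Measure.infinitePi_pi _ (fun i _ => ht i),
      Finset.prod_erase_mul _ _ hi]
  · have key : (fun p : (ι → ℝ) × ℝ => update p.1 i p.2) ⁻¹' (Set.pi (s : Set ι) t) =
        (Set.pi (s : Set ι) t) ×ˢ Set.univ := by
      ext ⟨u, b⟩
      simp only [Set.mem_preimage, Set.mem_pi, Finset.mem_coe, Set.mem_prod, Set.mem_univ,
        and_true]
      refine forall₂_congr fun j hj => ?_
      rw [update_of_ne (by rintro rfl; exact hi hj)]
    rw [key, Measure.prod_prod, Measure.infinitePi_pi _ (fun i _ => ht i)]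
    simp

lemma lintegral_update (e : ι) {F : (ι → ℝ) → ℝ≥0∞} (hF : Measurable F) :
    ∫⁻ ω, F ω ∂PP ι = ∫⁻ ω, ∫⁻ y, F (update ω e y) ∂nu ∂PP ι := by
  rw [← (measurePreserving_update e).lintegral_comp hF, lintegral_prod _ (by fun_prop)]

lemma integral_update (e : ι) {F : (ι → ℝ) → ℝ} (hF : Integrable F (PP ι)) :
    ∫ ω, F ω ∂PP ι = ∫ ω, ∫ y, F (update ω e y) ∂nu ∂PP ι := by
  have h := measurePreserving_update (ι := ι) e
  have h2 := integral_map (μ := (PP ι).prod nu) h.measurable.aemeasurable (f := F)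
    (by rw [h.map_eq]; exact hF.aestronglyMeasurable)
  rw [h.map_eq] at h2
  rw [h2]
  exact integral_prod (fun p : (ι → ℝ) × ℝ => F (update p.1 e p.2))
    (h.integrable_comp_of_integrable hF)

/-- Averaging over one coordinate. -/
noncomputable def Ex (e : ι) (f : (ι → ℝ) → ℝ) (ω : ι → ℝ) : ℝ := ∫ y, f (update ω e y) ∂nu

lemma measurable_Ex (e : ι) {f : (ι → ℝ) → ℝ} (hf : Measurable f) : Measurable (Ex e f) := by
  have : StronglyMeasurable fun p : (ι → ℝ) × ℝ => f (update p.1 e p.2) :=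
    Measurable.stronglyMeasurable (by fun_prop)
  exact (this.integral_prod_right' (ν := nu)).measurable

lemma Bdd.slice {f : (ι → ℝ) → ℝ} (hf : Bdd f) (e : ι) (ω : ι → ℝ) :
    Bdd fun y => f (update ω e y) := hf.comp (by fun_prop)

lemma Bdd.Ex {f : (ι → ℝ) → ℝ} (hf : Bdd f) (e : ι) : Bdd (Ex e f) := by
  obtain ⟨h1, M, hM⟩ := hf
  refine ⟨measurable_Ex e h1, M, fun ω => ?_⟩
  have := norm_integral_le_of_norm_le_const (μ := nu) (f := fun y => f (update ω e y)) (C := M)
    (ae_of_all _ fun y => hM _)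
  simpa [MP_de94ef_pr.Ex] using this

@[simp] lemma Ex_update (e : ι) (f : (ι → ℝ) → ℝ) (ω : ι → ℝ) (y : ℝ) :
    Ex e f (update ω e y) = Ex e f ω := by simp [Ex]

lemma integral_Ex (e : ι) {f : (ι → ℝ) → ℝ} (hf : Integrable f (PP ι)) :
    ∫ ω, Ex e f ω ∂PP ι = ∫ ω, f ω ∂PP ι := (integral_update e hf).symm

lemma integral_mul_Ex (e : ι) {w k : (ι → ℝ) → ℝ} (hw : Integrable w (PP ι))
    (hwe : ∀ ω y, w (update ω e y) = w ω) (hk : Bdd k) :
    ∫ ω, w ω * k ω ∂PP ι = ∫ ω, w ω * Ex e k ω ∂PP ι := by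
  rw [integral_update e (hk.mul_integrable hw)]
  simp only [hwe, integral_const_mul, Ex]

lemma Ex_comm {e e' : ι} (h : e ≠ e') {f : (ι → ℝ) → ℝ} (hf : Bdd f) (ω : ι → ℝ) :
    Ex e (Ex e' f) ω = Ex e' (Ex e f) ω := by
  unfold Ex
  rw [integral_integral_swap]
  · simp only [update_comm h]
  · exact (hf.comp (φ := fun p : ℝ × ℝ => update (update ω e p.1) e' p.2) (by fun_prop)).integrable

lemma Ex_le {f : (ι → ℝ) → ℝ} (hf : Bdd f) {ε : ℝ} (h : ∀ ω, ε ≤ f ω) (e : ι) (ω : ι → ℝ) :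
    ε ≤ Ex e f ω := by
  have := integral_mono (integrable_const ε) ((hf.slice e ω).integrable (P := nu)) fun y => h _
  simpa [Ex] using this

lemma dependsOn_Ex {f : (ι → ℝ) → ℝ} {e : ι} {S : Finset ι}
    (hf : DependsOn f ((insert e S : Finset ι) : Set ι)) : DependsOn (Ex e f) (S : Set ι) := by
  intro ω ω' h
  unfold Ex
  congr 1
  funext y
  refine hf fun i hi => ?_
  by_cases hie : i = e
  · subst hie; simp
  · rw [update_of_ne hie, update_of_ne hie]
    simp only [Finset.coe_insert, mem_insert_iff, hie, false_or] at hi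
    exact h i hi

/-- Entropy with respect to one coordinate. -/
noncomputable def EntX (e : ι) (Z : (ι → ℝ) → ℝ) (ω : ι → ℝ) : ℝ :=
  Ex e (fun ω => Z ω * log (Z ω)) ω - Ex e Z ω * log (Ex e Z ω)

lemma bdd_EntX (e : ι) {Z : (ι → ℝ) → ℝ} (hZ : Bdd Z) {ε : ℝ} (hε : 0 < ε) (hZε : ∀ ω, ε ≤ Z ω) :
    Bdd (EntX e Z) :=
  ((hZ.mul (hZ.log hε hZε)).Ex e).sub ((hZ.Ex e).mul ((hZ.Ex e).log hε (Ex_le hZ hZε e)))

lemma ent_tensor {Z : (ι → ℝ) → ℝ} (hZ : Bdd Z) {ε : ℝ} (hε : 0 < ε) (hZε : ∀ ω, ε ≤ Z ω)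
    (S : Finset ι) : ∀ W : (ι → ℝ) → ℝ, Bdd W → (∀ ω, ε ≤ W ω) → DependsOn W (S : Set ι) →
      ∫ ω, Z ω * (log (W ω) - log (∫ η, W η ∂PP ι)) ∂PP ι ≤ ∑ e ∈ S, ∫ ω, EntX e Z ω ∂PP ι := by
  induction S using Finset.induction_on with
  | empty =>
    intro W _ _ hD
    have : ∀ ω, ∫ η, W η ∂PP ι = W ω := fun ω => by
      have : W = fun _ => W ω := funext fun η => hD (by simp)
      rw [this]; simp
    simp only [Finset.sum_empty]
    refine le_of_eq (integral_eq_zero_of_ae (ae_of_all _ fun ω => ?_))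
    simp only [this ω, sub_self, mul_zero, Pi.zero_apply]
  | insert e S he ih =>
    intro W hW hWε hD
    have h1 := ih (Ex e W) (hW.Ex e) (Ex_le hW hWε e) (dependsOn_Ex hD)
    rw [integral_Ex e hW.integrable] at h1
    have b1 : Bdd fun ω => Z ω * (log (W ω) - log (Ex e W ω)) :=
      hZ.mul ((hW.log hε hWε).sub ((hW.Ex e).log hε (Ex_le hW hWε e)))
    have b2 : Bdd fun ω => Z ω * (log (Ex e W ω) - log (∫ η, W η ∂PP ι)) :=
      hZ.mul (((hW.Ex e).log hε (Ex_le hW hWε e)).sub (Bdd.const _))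
    have h2 : ∫ ω, Z ω * (log (W ω) - log (Ex e W ω)) ∂PP ι ≤ ∫ ω, EntX e Z ω ∂PP ι := by
      rw [← integral_Ex e b1.integrable]
      refine integral_mono (b1.Ex e).integrable (bdd_EntX e hZ hε hZε).integrable fun ω => ?_
      have := gibbs (P := nu) (hZ.slice e ω) (hW.slice e ω) hε (fun y => hZε _) (fun y => hWε _)
      simpa only [Ex, EntX, update_idem] using this
    rw [Finset.sum_insert he]
    have h3 : ∫ ω, Z ω * (log (W ω) - log (∫ η, W η ∂PP ι)) ∂PP ι =
        ∫ ω, Z ω * (log (W ω) - log (Ex e W ω)) ∂PP ι +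
        ∫ ω, Z ω * (log (Ex e W ω) - log (∫ η, W η ∂PP ι)) ∂PP ι := by
      rw [← integral_add b1.integrable b2.integrable]
      congr 1; funext ω; ring
    linarith

/-- `g` is a derivative of `f` in the coordinate `e` on the positive half-line. -/
def HasD (f : (ι → ℝ) → ℝ) (e : ι) (g : (ι → ℝ) → ℝ) : Prop :=
  ∀ ω a b, 0 ≤ a → a ≤ b →
    f (update ω e b) - f (update ω e a) = ∫ y in a..b, g (update ω e y)

omit [DecidableEq ι] in
lemma integrable_pos_coord (e : ι) : Integrable (fun ω : ι → ℝ => max (ω e) 0) (PP ι) :=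
  (measurePreserving_eval_infinitePi (fun _ : ι => nu) e).integrable_comp_of_integrable
    integrable_pos_nu

lemma HasD.slice {f g : (ι → ℝ) → ℝ} {e : ι} (h : HasD f e g) (ω : ι → ℝ) (a b : ℝ)
    (ha : 0 ≤ a) (hab : a ≤ b) :
    |f (update ω e b) - f (update ω e a)| ≤ ∫ y in a..b, |g (update ω e y)| := by
  rw [h ω a b ha hab]
  exact intervalIntegral.abs_integral_le_integral_abs hab

lemma entX_le {V g : (ι → ℝ) → ℝ} {e : ι} (hV : Bdd V) (hg : Bdd g) (h : HasD V e g) {ε : ℝ}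
    (hε : 0 < ε) :
    ∫ ω, EntX e (fun ω => V ω ^ 2 + ε) ω ∂PP ι ≤ 23000 * ∫ ω, max (ω e) 0 * g ω ^ 2 ∂PP ι := by
  have i1 : Integrable (fun ω : ι → ℝ => max (ω e) 0 * g ω ^ 2) (PP ι) :=
    hg.sq.mul_integrable (integrable_pos_coord e)
  rw [integral_update e i1, ← integral_const_mul]
  have i2 := ((measurePreserving_update e).integrable_comp_of_integrable i1).integral_prod_left
  refine integral_mono (bdd_EntX e (hV.sq.add (Bdd.const ε)) hε
    (fun ω => by nlinarith [sq_nonneg (V ω)])).integrable (i2.const_mul _) fun ω => ?_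
  obtain ⟨h1, M, hM⟩ := hV
  obtain ⟨h2, N, hN⟩ := hg
  have := lsi_one (f := fun y => V (update ω e y)) (g := fun y => g (update ω e y))
    (M := max M N) (by fun_prop) (by fun_prop) (fun y => (hM _).trans (le_max_left _ _))
    (fun y => (hN _).trans (le_max_right _ _)) (h.slice ω) hε
  simpa only [EntX, Ex, update_self] using this

/-- Logarithmic Sobolev inequality, in the form used below. -/
theorem lsi_prod {V : (ι → ℝ) → ℝ} {g : ι → (ι → ℝ) → ℝ} {S : Finset ι} (hV : Bdd V)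
    (hD : DependsOn V (S : Set ι)) (hg : ∀ e ∈ S, Bdd (g e)) (h : ∀ e ∈ S, HasD V e (g e))
    {a : ℝ} (ha : 0 < a) :
    (1 + log a) * ∫ ω, V ω ^ 2 ∂PP ι - a * (∫ ω, |V ω| ∂PP ι) ^ 2 ≤
      23000 * ∑ e ∈ S, ∫ ω, max (ω e) 0 * g e ω ^ 2 ∂PP ι := by
  have key : ∀ η : ℝ, 0 < η → (1 + log a) * (∫ ω, V ω ^ 2 ∂PP ι + η ^ 2) -
      a * (∫ ω, |V ω| ∂PP ι + η) ^ 2 ≤
      23000 * ∑ e ∈ S, ∫ ω, max (ω e) 0 * g e ω ^ 2 ∂PP ι := by
    intro η hη
    have hε : 0 < η ^ 2 := by positivity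
    have hZ : Bdd fun ω => V ω ^ 2 + η ^ 2 := hV.sq.add (Bdd.const _)
    have hZε : ∀ ω, η ^ 2 ≤ V ω ^ 2 + η ^ 2 := fun ω => by nlinarith [sq_nonneg (V ω)]
    have h1 := ent_tensor hZ hε hZε S _ hZ hZε (fun ω ω' hω => by simp only [hD hω])
    have h2 := ent_lower (P := PP ι) hZ hε hZε ha
    have h3 : ∑ e ∈ S, ∫ ω, EntX e (fun ω => V ω ^ 2 + η ^ 2) ω ∂PP ι ≤
        23000 * ∑ e ∈ S, ∫ ω, max (ω e) 0 * g e ω ^ 2 ∂PP ι := by
      rw [Finset.mul_sum]
      exact Finset.sum_le_sum fun e he => entX_le hV (hg e he) (h e he) hε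
    have h4 : ∫ ω, (V ω ^ 2 + η ^ 2) * (log (V ω ^ 2 + η ^ 2) -
        log (∫ η', V η' ^ 2 + η ^ 2 ∂PP ι)) ∂PP ι =
        ∫ ω, (V ω ^ 2 + η ^ 2) * log (V ω ^ 2 + η ^ 2) ∂PP ι -
        (∫ ω, V ω ^ 2 + η ^ 2 ∂PP ι) * log (∫ η', V η' ^ 2 + η ^ 2 ∂PP ι) := by
      rw [← integral_mul_const, ← integral_sub (hZ.mul (hZ.log hε hZε)).integrable
        (hZ.integrable.mul_const _)]
      congr 1; funext ω; ring
    have h5 : ∫ ω, V ω ^ 2 + η ^ 2 ∂PP ι = ∫ ω, V ω ^ 2 ∂PP ι + η ^ 2 := by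
      rw [integral_add hV.sq.integrable (integrable_const _)]; simp
    have h6 : ∫ ω, √(V ω ^ 2 + η ^ 2) ∂PP ι ≤ ∫ ω, |V ω| ∂PP ι + η := by
      have : ∫ ω, |V ω| ∂PP ι + η = ∫ ω, (|V ω| + η) ∂PP ι := by
        rw [integral_add hV.abs.integrable (integrable_const _)]; simp
      rw [this]
      refine integral_mono hZ.sqrt.integrable (hV.abs.add (Bdd.const _)).integrable fun ω => ?_
      refine sqrt_le_iff.2 ⟨by positivity, ?_⟩
      rw [← sq_abs (V ω)]
      nlinarith [abs_nonneg (V ω)]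
    have h7 : (∫ ω, √(V ω ^ 2 + η ^ 2) ∂PP ι) ^ 2 ≤ (∫ ω, |V ω| ∂PP ι + η) ^ 2 := by
      have : 0 ≤ ∫ ω, √(V ω ^ 2 + η ^ 2) ∂PP ι := integral_nonneg fun ω => sqrt_nonneg _
      gcongr
    rw [h4] at h1
    rw [← h5]
    nlinarith [mul_le_mul_of_nonneg_left h7 ha.le]
  have hc : Continuous fun η : ℝ => (1 + log a) * (∫ ω, V ω ^ 2 ∂PP ι + η ^ 2) -
      a * (∫ ω, |V ω| ∂PP ι + η) ^ 2 := by fun_prop
  have := le_of_tendsto ((hc.tendsto 0).mono_left (nhdsWithin_le_nhds (s := Ioi 0)))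
    (eventually_nhdsWithin_of_forall (s := Ioi 0) key)
  simpa using this

lemma HasD.Ex {f g : (ι → ℝ) → ℝ} {e e' : ι} (hne : e ≠ e') (hf : Bdd f) (hg : Bdd g)
    (h : HasD f e g) : HasD (Ex e' f) e (Ex e' g) := by
  intro ω a b ha hab
  unfold MP_de94ef_pr.Ex
  rw [← integral_sub (hf.slice e' _).integrable (hf.slice e' _).integrable,
    intervalIntegral_integral_swap]
  · congr 1; funext y
    simp only [update_comm hne]
    exact h _ a b ha hab
  · have : IsFiniteMeasure (volume.restrict (uIoc a b)) := ⟨by simp [uIoc]⟩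
    exact (hg.comp (φ := fun p : ℝ × ℝ => update (update ω e p.1) e' p.2) (by fun_prop)).integrable

lemma HasD.sub {f g f' g' : (ι → ℝ) → ℝ} {e : ι} (hg : Bdd g) (hg' : Bdd g') (h : HasD f e g)
    (h' : HasD f' e g') : HasD (fun ω => f ω - f' ω) e (fun ω => g ω - g' ω) := by
  intro ω a b ha hab
  obtain ⟨m1, M, hM⟩ := hg.slice e ω
  obtain ⟨m2, N, hN⟩ := hg'.slice e ω
  rw [intervalIntegral.integral_sub (intervalIntegrable_of_bdd m1 hM a b)
    (intervalIntegrable_of_bdd m2 hN a b), ← h ω a b ha hab, ← h' ω a b ha hab]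
  ring

lemma pyth (e : ι) {w H : (ι → ℝ) → ℝ} (hw : Integrable w (PP ι))
    (hwe : ∀ ω y, w (update ω e y) = w ω) (hH : Bdd H) :
    ∫ ω, w ω * (H ω - Ex e H ω) ^ 2 ∂PP ι + ∫ ω, w ω * Ex e H ω ^ 2 ∂PP ι =
      ∫ ω, w ω * H ω ^ 2 ∂PP ι := by
  have hE := hH.Ex e
  have i1 : Integrable (fun ω => w ω * Ex e H ω) (PP ι) := hE.mul_integrable hw
  have h1 := integral_mul_Ex e i1 (fun ω y => by simp [hwe]) hH
  have i2 : Integrable (fun ω => w ω * Ex e H ω * H ω) (PP ι) := hH.mul_integrable i1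
  have i3 : Integrable (fun ω => w ω * Ex e H ω * Ex e H ω) (PP ι) := hE.mul_integrable i1
  have i4 : Integrable (fun ω => w ω * H ω ^ 2) (PP ι) := hH.sq.mul_integrable hw
  have i5 : Integrable (fun ω => 2 * (w ω * Ex e H ω * H ω - w ω * Ex e H ω * Ex e H ω)) (PP ι) :=
    (i2.sub i3).const_mul 2
  rw [← integral_add ((hH.sub hE).sq.mul_integrable hw) (hE.sq.mul_integrable hw)]
  have : ∫ ω, w ω * H ω ^ 2 ∂PP ι = ∫ ω, (w ω * H ω ^ 2 -
      2 * (w ω * Ex e H ω * H ω - w ω * Ex e H ω * Ex e H ω)) ∂PP ι := by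
    rw [integral_sub i4 i5, integral_const_mul, integral_sub i2 i3, h1]; ring
  rw [this]
  congr 1; funext ω; ring

lemma infl_Ex {e e' : ι} (hne : e ≠ e') {G : (ι → ℝ) → ℝ} (hG : Bdd G) :
    ∫ ω, |Ex e' G ω - Ex e (Ex e' G) ω| ∂PP ι ≤ ∫ ω, |G ω - Ex e G ω| ∂PP ι := by
  have b := (hG.sub (hG.Ex e)).abs
  rw [← integral_Ex e' b.integrable]
  refine integral_mono ((hG.Ex e').sub ((hG.Ex e').Ex e)).abs.integrable (b.Ex e').integrable
    fun ω => ?_
  simp only
  rw [Ex_comm hne hG]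
  have := integral_sub (μ := nu) (hG.slice e' ω).integrable ((hG.Ex e).slice e' ω).integrable
  change |∫ y, G (update ω e' y) ∂nu - ∫ y, Ex e G (update ω e' y) ∂nu| ≤ _
  rw [← this]
  exact abs_integral_le_integral_abs

/-- The Falik-Samorodnitsky inequality for products of exponential laws. -/
theorem fs_prod {a : ℝ} (ha : 0 < a) (S : Finset ι) :
    ∀ (G : (ι → ℝ) → ℝ) (g : ι → (ι → ℝ) → ℝ), Bdd G → DependsOn G (S : Set ι) →
      (∀ e ∈ S, Bdd (g e)) → (∀ e ∈ S, HasD G e (g e)) →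
      (1 + log a) * (∫ ω, G ω ^ 2 ∂PP ι - (∫ ω, G ω ∂PP ι) ^ 2) ≤
        23000 * ∑ e ∈ S, ∫ ω, max (ω e) 0 * g e ω ^ 2 ∂PP ι +
        a * ∑ e ∈ S, (∫ ω, |G ω - Ex e G ω| ∂PP ι) ^ 2 := by
  induction S using Finset.induction_on with
  | empty =>
    intro G g _ hD _ _
    have : G = fun _ => G 0 := funext fun η => hD (by simp)
    rw [this]; simp
  | insert e S he ih =>
    intro G g hG hD hg h
    have hmem : ∀ i ∈ S, i ∈ insert e S := fun i hi => Finset.mem_insert_of_mem hi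
    have hne : ∀ i ∈ S, i ≠ e := fun i hi hie => he (hie ▸ hi)
    have h1 := ih (Ex e G) (fun i => Ex e (g i)) (hG.Ex e) (dependsOn_Ex hD)
      (fun i hi => (hg i (hmem i hi)).Ex e)
      (fun i hi => (h i (hmem i hi)).Ex (hne i hi) hG (hg i (hmem i hi)))
    have h2 := lsi_prod (V := fun ω => G ω - Ex e G ω) (S := insert e S)
      (g := fun i ω => if i = e then g e ω else g i ω - Ex e (g i) ω) (hG.sub (hG.Ex e))
      (fun ω ω' hω => by
        simp only [hD hω, dependsOn_Ex hD fun i hi => hω i (hmem i hi)])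
      (fun i hi => by
        by_cases hie : i = e
        · simpa [hie] using hg e (Finset.mem_insert_self _ _)
        · simpa [hie] using (hg i hi).sub ((hg i hi).Ex e))
      (fun i hi => by
        by_cases hie : i = e
        · subst hie
          intro ω a b ha hab
          simp only [Ex_update, if_true]
          rw [← h i hi ω a b ha hab]; ring
        · simp only [hie, if_false]
          exact HasD.sub (hg i hi) ((hg i hi).Ex e) (h i hi) ((h i hi).Ex hie hG (hg i hi))) ha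
    have h3 := pyth e (w := fun _ => 1) (integrable_const _) (fun _ _ => rfl) hG
    simp only [one_mul] at h3
    rw [integral_Ex e hG.integrable] at h1
    rw [Finset.sum_insert he] at h2
    simp only [if_true] at h2
    have h4 : ∑ i ∈ S, ∫ ω, max (ω i) 0 *
        (if i = e then g e ω else g i ω - Ex e (g i) ω) ^ 2 ∂PP ι +
        ∑ i ∈ S, ∫ ω, max (ω i) 0 * Ex e (g i) ω ^ 2 ∂PP ι =
        ∑ i ∈ S, ∫ ω, max (ω i) 0 * g i ω ^ 2 ∂PP ι := by
      rw [← Finset.sum_add_distrib]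
      refine Finset.sum_congr rfl fun i hi => ?_
      simp only [hne i hi, if_false]
      exact pyth e (integrable_pos_coord i) (fun ω y => by rw [update_of_ne (hne i hi)])
        (hg i (hmem i hi))
    have h5 : ∑ i ∈ S, (∫ ω, |Ex e G ω - Ex i (Ex e G) ω| ∂PP ι) ^ 2 ≤
        ∑ i ∈ S, (∫ ω, |G ω - Ex i G ω| ∂PP ι) ^ 2 := by
      refine Finset.sum_le_sum fun i hi => ?_
      have : 0 ≤ ∫ ω, |Ex e G ω - Ex i (Ex e G) ω| ∂PP ι := integral_nonneg fun ω => abs_nonneg _
      have := infl_Ex (hne i hi) hG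
      gcongr
    rw [Finset.sum_insert he, Finset.sum_insert he, ← h3, ← h4]
    nlinarith [mul_le_mul_of_nonneg_left h5 ha.le]

/-- The L1 influence of a coordinate. -/
theorem infl_le {G g : (ι → ℝ) → ℝ} {e : ι} (hG : Bdd G) (hg : Bdd g) (h : HasD G e g) :
    ∫ ω, |G ω - Ex e G ω| ∂PP ι ≤ 6 * ∫ ω, min (max (ω e) 0) 1 * |g ω| ∂PP ι := by
  have b0 : Bdd fun ω : ι → ℝ => min (max (ω e) 0) 1 := by
    refine ⟨by fun_prop, 1, fun ω => ?_⟩
    rw [abs_of_nonneg (le_min (le_max_right _ _) zero_le_one)]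
    exact min_le_right _ _
  have b1 := (hG.sub (hG.Ex e)).abs
  have b2 := b0.mul hg.abs
  rw [← integral_Ex e b1.integrable, ← integral_Ex e b2.integrable, ← integral_const_mul]
  refine integral_mono (b1.Ex e).integrable ((b2.Ex e).integrable.const_mul _) fun ω => ?_
  obtain ⟨h1, M, hM⟩ := hG
  obtain ⟨h2, N, hN⟩ := hg
  have := l1_one (f := fun y => G (update ω e y)) (g := fun y => g (update ω e y))
    (M := max M N) (by fun_prop) (by fun_prop) (fun y => (hM _).trans (le_max_left _ _))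
    (fun y => (hN _).trans (le_max_right _ _)) (h.slice ω)
  simpa only [Ex, update_self, update_idem] using this

end Pool.Agent.Lib.MP_de94ef_pr
end
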