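import Pool.Agent.Lib.MP_de94ef_pr.Tensor

-- part Pool.Agent.Lib.MP_de94ef_pr.MinPlus
section

/-!
Laplace transform bounds for averages of min-plus functionals of exponential variables.
-/

open MeasureTheory ProbabilityTheory Set Real Function Filter Topology
open scoped ENNReal

namespace Pool.Agent.Lib.MP_de94ef_pr

section general

variable {α : Type*} [MeasurableSpace α] {P : Measure α} [IsProbabilityMeasure P]

lemma cs_bdd {u v : α → ℝ} (hu : Bdd u) (hv : Bdd v) :
    (∫ x, u x * v x ∂P) ^ 2 ≤ (∫ x, u x ^ 2 ∂P) * ∫ x, v x ^ 2 ∂P := by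
  have i1 : Integrable (fun x => u x ^ 2) P := hu.sq.integrable
  have i2 : Integrable (fun x => u x * v x) P := (hu.mul hv).integrable
  have i3 : Integrable (fun x => v x ^ 2) P := hv.sq.integrable
  have key : ∀ t : ℝ, 0 ≤ (∫ x, u x ^ 2 ∂P) * (t * t) +
      (-2 * ∫ x, u x * v x ∂P) * t + ∫ x, v x ^ 2 ∂P := by
    intro t
    have i4 : Integrable (fun x => t * t * u x ^ 2 + -2 * t * (u x * v x)) P :=
      (i1.const_mul _).add (i2.const_mul _)
    have : (∫ x, u x ^ 2 ∂P) * (t * t) + (-2 * ∫ x, u x * v x ∂P) * t + ∫ x, v x ^ 2 ∂P =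
        ∫ x, (t * t * u x ^ 2 + -2 * t * (u x * v x) + v x ^ 2) ∂P := by
      rw [integral_add i4 i3, integral_add (i1.const_mul _) (i2.const_mul _),
        integral_const_mul, integral_const_mul]
      ring
    rw [this]
    refine integral_nonneg fun x => ?_
    have : t * t * u x ^ 2 + -2 * t * (u x * v x) + v x ^ 2 = (t * u x - v x) ^ 2 := by ring
    simp only [Pi.zero_apply]
    rw [this]; positivity
  have := discrim_le_zero key
  unfold discrim at this
  nlinarith

lemma Bdd.expmul {F : α → ℝ} (hF : Bdd F) (s : ℝ) : Bdd fun x => Real.exp (s * F x) :=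
  ((Bdd.const s).mul hF).exp

lemma int_exp_pos {F : α → ℝ} (hF : Bdd F) (s : ℝ) : 0 < ∫ x, exp (s * F x) ∂P := by
  rw [integral_pos_iff_support_of_nonneg (fun x => (exp_pos _).le) (hF.expmul s).integrable]
  have : Function.support (fun x => exp (s * F x)) = univ := by ext x; simp
  simp [this]

lemma tilt_le {F : α → ℝ} (hF : Bdd F) (h0 : ∀ x, 0 ≤ F x) {n : ℝ} (hn : 0 ≤ n)
    (h1 : ∫ x, F x ∂P ≤ n) (h2 : ∫ x, exp (1 / 2 * F x) ∂P ≤ exp n) {θ : ℝ} (hθ : |θ| ≤ 1 / 4) :
    ∫ x, F x * exp (θ * F x) ∂P ≤ (8 * n + 4) * ∫ x, exp (θ * F x) ∂P := by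
  have i1 : Integrable (fun x => exp (θ * F x)) P := (hF.expmul θ).integrable
  have i2 : Integrable (fun x => exp (1 / 2 * F x)) P := (hF.expmul _).integrable
  have hθ' := abs_le.1 hθ
  have a1 : ∫ x, F x * exp (θ * F x) ∂P ≤
      ∫ x, (8 * n * exp (θ * F x) + 4 * exp (-(2 * n)) * exp (1 / 2 * F x)) ∂P := by
    refine integral_mono (hF.mul (hF.expmul θ)).integrable
      ((i1.const_mul _).add (i2.const_mul _)) fun x => ?_
    have b1 := add_one_le_exp ((F x - 8 * n) / 4)
    have b2 : exp (θ * F x) ≤ exp (F x / 4) := exp_le_exp.2 (by nlinarith [h0 x])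
    have b3 : exp (-(2 * n)) * exp (1 / 2 * F x) = exp ((F x - 8 * n) / 4) * exp (F x / 4) := by
      rw [← exp_add, ← exp_add]; congr 1; ring
    have b4 := exp_pos (θ * F x)
    have b5 := exp_pos ((F x - 8 * n) / 4)
    simp only
    rw [mul_assoc 4, b3]
    nlinarith [mul_le_mul_of_nonneg_left b2 b5.le, mul_le_mul_of_nonneg_right b1 b4.le]
  rw [integral_add (i1.const_mul _) (i2.const_mul _), integral_const_mul, integral_const_mul] at a1
  have a2 : ∫ x, exp (-n) * (1 + n + θ * F x) ∂P ≤ ∫ x, exp (θ * F x) ∂P := by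
    refine integral_mono (((Bdd.const _).add ((Bdd.const _).mul hF)).integrable.const_mul _) i1
      fun x => ?_
    have b1 := add_one_le_exp (θ * F x + n)
    have b2 : exp (θ * F x) = exp (-n) * exp (θ * F x + n) := by rw [← exp_add]; congr 1; ring
    simp only
    rw [b2]
    exact mul_le_mul_of_nonneg_left (by linarith) (exp_pos _).le
  rw [integral_const_mul, integral_add (integrable_const _) (hF.integrable.const_mul _),
    integral_const_mul] at a2
  simp only [integral_const, probReal_univ, smul_eq_mul, one_mul] at a2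
  have a3 : 0 ≤ ∫ x, F x ∂P := integral_nonneg h0
  have a4 : exp (-n) ≤ ∫ x, exp (θ * F x) ∂P := by
    have : 1 ≤ 1 + n + θ * ∫ x, F x ∂P := by nlinarith
    nlinarith [exp_pos (-n)]
  have a5 : exp (-(2 * n)) * exp n = exp (-n) := by rw [← exp_add]; congr 1; ring
  nlinarith [mul_le_mul_of_nonneg_left h2 (exp_pos (-(2 * n))).le]

lemma herbst {F : α → ℝ} (hF : Bdd F) {s0 K : ℝ}
    (h : ∀ s, |s| ≤ s0 → log (∫ x, exp (s * F x) ∂P) ≤
      2 * log (∫ x, exp (s / 2 * F x) ∂P) + K * s ^ 2) {s : ℝ} (hs : |s| ≤ s0) :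
    ∫ x, exp (s * (F x - ∫ y, F y ∂P)) ∂P ≤ exp (2 * K * s ^ 2) := by
  set c := ∫ y, F y ∂P with hc
  have hY : Bdd fun x => F x - c := hF.sub (Bdd.const c)
  set ψ : ℝ → ℝ := fun s => log (∫ x, exp (s * (F x - c)) ∂P) with hψ
  have e1 : ∀ s, ψ s = log (∫ x, exp (s * F x) ∂P) - s * c := by
    intro s
    have : ∀ x, exp (s * (F x - c)) = exp (s * F x) * exp (-(s * c)) := fun x => by
      rw [← exp_add]; congr 1; ring
    simp only [hψ, this]
    rw [integral_mul_const, log_mul (int_exp_pos hF s).ne' (exp_pos _).ne', log_exp]; ring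
  have h' : ∀ s, |s| ≤ s0 → ψ s ≤ 2 * ψ (s / 2) + K * s ^ 2 := by
    intro s hs; rw [e1, e1]; linarith [h s hs]
  have it : ∀ n : ℕ, ∀ s, |s| ≤ s0 →
      ψ s ≤ 2 * K * s ^ 2 * (1 - (1 / 2) ^ n) + 2 ^ n * ψ (s / 2 ^ n) := by
    intro n
    induction n with
    | zero => intro s _; simp
    | succ n ih =>
      intro s hs
      have a1 := h' s hs
      have a2 := ih (s / 2) (by rw [abs_div, abs_two]; linarith [abs_nonneg s])
      have a3 : s / 2 / 2 ^ n = s / 2 ^ (n + 1) := by rw [div_div, pow_succ']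
      rw [a3] at a2
      rw [pow_succ (1 / 2 : ℝ) n, pow_succ (2 : ℝ) n] at *
      nlinarith
  obtain ⟨hm, M, hM⟩ := hY
  have hY : Bdd fun x => F x - c := hF.sub (Bdd.const c)
  have small : ∀ r : ℝ, |r| * M ≤ 1 → ψ r ≤ r ^ 2 * M ^ 2 := by
    intro r hr
    refine (log_le_sub_one_of_pos (int_exp_pos hY r)).trans ?_
    have i1 : Integrable (fun x => r * (F x - c)) P := hY.integrable.const_mul _
    have a1 : ∫ x, exp (r * (F x - c)) ∂P ≤ ∫ x, (r * (F x - c) + (1 + r ^ 2 * M ^ 2)) ∂P := by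
      refine integral_mono (hY.expmul r).integrable (i1.add (integrable_const _)) fun x => ?_
      have b0 : |r * (F x - c)| ≤ |r| * M := by
        rw [abs_mul]; exact mul_le_mul_of_nonneg_left (hM x) (abs_nonneg _)
      have b1 := abs_exp_sub_one_sub_id_le (b0.trans hr)
      have b2 : (r * (F x - c)) ^ 2 ≤ r ^ 2 * M ^ 2 := by
        rw [← sq_abs, ← sq_abs r, ← mul_pow]; gcongr
      simp only
      linarith [(abs_le.1 b1).2]
    rw [integral_add i1 (integrable_const _), integral_const_mul,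
      integral_sub hF.integrable (integrable_const _)] at a1
    simp only [integral_const, probReal_univ, smul_eq_mul, one_mul, ← hc] at a1
    linarith
  have lim : Tendsto (fun n : ℕ => 2 * K * s ^ 2 * (1 - (1 / 2 : ℝ) ^ n) +
      s ^ 2 * M ^ 2 * (1 / 2 : ℝ) ^ n) atTop (𝓝 (2 * K * s ^ 2 * (1 - 0) + s ^ 2 * M ^ 2 * 0)) := by
    have := tendsto_pow_atTop_nhds_zero_of_lt_one (r := (1 / 2 : ℝ)) (by norm_num) (by norm_num)
    exact ((tendsto_const_nhds.sub this).const_mul _).add (this.const_mul _)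
  have ev : ∀ᶠ n : ℕ in atTop, ψ s ≤ 2 * K * s ^ 2 * (1 - (1 / 2 : ℝ) ^ n) +
      s ^ 2 * M ^ 2 * (1 / 2 : ℝ) ^ n := by
    have t1 : Tendsto (fun n : ℕ => |s| * M * (1 / 2 : ℝ) ^ n) atTop (𝓝 (|s| * M * 0)) :=
      (tendsto_pow_atTop_nhds_zero_of_lt_one (by norm_num) (by norm_num)).const_mul _
    filter_upwards [t1.eventually (Iic_mem_nhds (by simp : |s| * M * 0 < 1))] with n hn
    have a1 := small (s / 2 ^ n) (by
      rw [abs_div, abs_of_pos (by positivity : (0 : ℝ) < 2 ^ n)]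
      have : |s| / 2 ^ n * M = |s| * M * (1 / 2) ^ n := by rw [one_div, inv_pow]; field_simp
      rw [this]; exact hn)
    have a2 : 2 ^ n * ((s / 2 ^ n) ^ 2 * M ^ 2) = s ^ 2 * M ^ 2 * (1 / 2 : ℝ) ^ n := by
      rw [one_div, inv_pow]; field_simp
    have a3 := mul_le_mul_of_nonneg_left a1 (by positivity : (0 : ℝ) ≤ 2 ^ n)
    linarith [it n s hs]
  have := ge_of_tendsto lim ev
  rw [← log_le_iff_le_exp (int_exp_pos hY s)]
  simpa using this

end general

variable {ι : Type} [DecidableEq ι]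

open Classical in
/-- Indicator that the coordinate `e` is pivotal for `φ`. -/
noncomputable def piv (φ : (ι → ℝ) → ℝ) (K : ℝ) (e : ι) (ω : ι → ℝ) : ℝ :=
  if max (ω e) 0 + φ (update ω e 0) < φ (update ω e K) then 1 else 0

/-- Bounded min-plus functionals. -/
structure IsMP (φ : (ι → ℝ) → ℝ) (K : ℝ) : Prop where
  meas : Measurable φ
  nonneg : ∀ ω, 0 ≤ φ ω
  le : ∀ ω, φ ω ≤ K
  shape : ∀ ω e y, 0 ≤ y → φ (update ω e y) = min (φ (update ω e K)) (φ (update ω e 0) + y)
  pivsum : ∀ ω (S : Finset ι), ∑ e ∈ S, max (ω e) 0 * piv φ K e ω ≤ φ ω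

lemma piv_nonneg (φ : (ι → ℝ) → ℝ) (K : ℝ) (e : ι) (ω : ι → ℝ) : 0 ≤ piv φ K e ω := by
  unfold piv; split_ifs <;> norm_num

lemma piv_le_one (φ : (ι → ℝ) → ℝ) (K : ℝ) (e : ι) (ω : ι → ℝ) : piv φ K e ω ≤ 1 := by
  unfold piv; split_ifs <;> norm_num

lemma measurable_piv {φ : (ι → ℝ) → ℝ} (hφ : Measurable φ) (K : ℝ) (e : ι) :
    Measurable (piv φ K e) :=
  Measurable.ite (measurableSet_lt (by fun_prop) (by fun_prop)) measurable_const measurable_const

lemma bdd_piv {φ : (ι → ℝ) → ℝ} (hφ : Measurable φ) (K : ℝ) (e : ι) : Bdd (piv φ K e) :=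
  ⟨measurable_piv hφ K e, 1, fun ω => by
    rw [abs_of_nonneg (piv_nonneg _ _ _ _)]; exact piv_le_one _ _ _ _⟩

lemma IsMP.bdd {φ : (ι → ℝ) → ℝ} {K : ℝ} (h : IsMP φ K) : Bdd φ :=
  ⟨h.meas, K, fun ω => by rw [abs_of_nonneg (h.nonneg ω)]; exact h.le ω⟩

lemma hasDeriv_min (A B y : ℝ) :
    HasDerivWithinAt (fun y' => min A (B + y')) (if y + B < A then 1 else 0) (Ioi y) y := by
  split_ifs with h
  · have h1 : HasDerivAt (fun y' => B + y') 1 y := (hasDerivAt_id y).const_add B
    refine (h1.congr_of_eventuallyEq ?_).hasDerivWithinAt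
    filter_upwards [Iio_mem_nhds (show y < A - B by linarith)] with y' hy'
    exact min_eq_right (by linarith [mem_Iio.1 hy'])
  · refine (hasDerivWithinAt_const y (Ioi y) A).congr (fun y' hy' => ?_) ?_
    · exact min_eq_left (by linarith [mem_Ioi.1 hy', not_lt.1 h])
    · exact min_eq_left (by linarith [not_lt.1 h])

section avg

variable {κ : Type} {Z : Finset κ} {φ : κ → (ι → ℝ) → ℝ} {K : ℝ}

/-- Average of a finite family of functionals. -/
noncomputable def avg (Z : Finset κ) (φ : κ → (ι → ℝ) → ℝ) (ω : ι → ℝ) : ℝ :=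
  (Z.card : ℝ)⁻¹ * ∑ z ∈ Z, φ z ω

omit [DecidableEq ι] in
lemma bdd_avg (h : ∀ z ∈ Z, Bdd (φ z)) : Bdd (avg Z φ) := (Bdd.const _).mul (Bdd.sum Z h)

omit [DecidableEq ι] in
lemma avg_nonneg {ω : ι → ℝ} (h : ∀ z ∈ Z, 0 ≤ φ z ω) : 0 ≤ avg Z φ ω :=
  mul_nonneg (by positivity) (Finset.sum_nonneg h)

omit [DecidableEq ι] in
lemma avg_le {ω : ι → ℝ} {c : ℝ} (hc : 0 ≤ c) (h : ∀ z ∈ Z, φ z ω ≤ c) : avg Z φ ω ≤ c := by
  unfold avg
  rcases Nat.eq_zero_or_pos Z.card with h0 | h0
  · simp [h0, hc]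
  · have : (0 : ℝ) < Z.card := by exact_mod_cast h0
    rw [inv_mul_le_iff₀ this]
    simpa using Finset.sum_le_card_nsmul Z _ c h

lemma hasD_exp_avg (h : ∀ z ∈ Z, IsMP (φ z) K) (t : ℝ) (e : ι) :
    HasD (fun ω => exp (t * avg Z φ ω)) e
      (fun ω => t * exp (t * avg Z φ ω) * avg Z (fun z => piv (φ z) K e) ω) := by
  intro ω a b ha hab
  set H : ℝ → ℝ := fun y => exp (t * ((Z.card : ℝ)⁻¹ *
    ∑ z ∈ Z, min (φ z (update ω e K)) (φ z (update ω e 0) + y))) with hH
  have e1 : ∀ y, 0 ≤ y → exp (t * avg Z φ (update ω e y)) = H y := by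
    intro y hy
    simp only [hH, avg]
    rw [Finset.sum_congr rfl fun z hz => (h z hz).shape ω e y hy]
  have b1 : Bdd fun ω => t * exp (t * avg Z φ ω) * avg Z (fun z => piv (φ z) K e) ω :=
    ((Bdd.const t).mul ((bdd_avg fun z hz => (h z hz).bdd).expmul t)).mul
      (bdd_avg fun z hz => bdd_piv (h z hz).meas K e)
  obtain ⟨m1, M, hM⟩ := b1.slice e ω
  simp only
  rw [e1 a ha, e1 b (ha.trans hab)]
  refine (intervalIntegral.integral_eq_sub_of_hasDeriv_right_of_le hab ?_ (fun y hy => ?_)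
    (intervalIntegrable_of_bdd m1 hM a b)).symm
  · exact Continuous.continuousOn (by simp only [hH]; fun_prop)
  · have hy0 : 0 ≤ y := ha.trans hy.1.le
    have d1 := ((HasDerivWithinAt.fun_sum (u := Z) fun z _ =>
      hasDeriv_min (φ z (update ω e K)) (φ z (update ω e 0)) y).const_mul
      (Z.card : ℝ)⁻¹).const_mul t |>.exp
    refine d1.congr_deriv ?_
    rw [e1 y hy0]
    simp only [hH, avg, piv, update_self, update_idem, max_eq_left hy0]
    ring

lemma sum_piv_avg (h : ∀ z ∈ Z, IsMP (φ z) K) (S : Finset ι) (ω : ι → ℝ) :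
    ∑ e ∈ S, max (ω e) 0 * avg Z (fun z => piv (φ z) K e) ω ≤ avg Z φ ω := by
  unfold avg
  have : ∑ e ∈ S, max (ω e) 0 * ((Z.card : ℝ)⁻¹ * ∑ z ∈ Z, piv (φ z) K e ω) =
      (Z.card : ℝ)⁻¹ * ∑ z ∈ Z, ∑ e ∈ S, max (ω e) 0 * piv (φ z) K e ω := by
    rw [Finset.sum_comm, Finset.mul_sum]
    refine Finset.sum_congr rfl fun e _ => ?_
    rw [← Finset.mul_sum]; ring
  rw [this]
  gcongr with z hz
  exact (h z hz).pivsum ω S

lemma energy_le (h : ∀ z ∈ Z, IsMP (φ z) K) (S : Finset ι) (t : ℝ) :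
    ∑ e ∈ S, ∫ ω, max (ω e) 0 *
      (t * exp (t * avg Z φ ω) * avg Z (fun z => piv (φ z) K e) ω) ^ 2 ∂PP ι ≤
      t ^ 2 * ∫ ω, avg Z φ ω * exp (2 * t * avg Z φ ω) ∂PP ι := by
  have bF : Bdd (avg Z φ) := bdd_avg fun z hz => (h z hz).bdd
  have i1 : ∀ e ∈ S, Integrable (fun ω : ι → ℝ => max (ω e) 0 *
      (t * exp (t * avg Z φ ω) * avg Z (fun z => piv (φ z) K e) ω) ^ 2) (PP ι) := fun e _ =>
    (((Bdd.const t).mul (bF.expmul t)).mul
      (bdd_avg fun z hz => bdd_piv (h z hz).meas K e)).sq.mul_integrable (integrable_pos_coord e)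
  rw [← integral_finsetSum _ i1, ← integral_const_mul]
  refine integral_mono (integrable_finsetSum _ i1)
    ((bF.mul (bF.expmul _)).integrable.const_mul _) fun ω => ?_
  have e1 : exp (2 * t * avg Z φ ω) = exp (t * avg Z φ ω) ^ 2 := by
    rw [← exp_nat_mul]; congr 1; push_cast; ring
  simp only
  calc _ ≤ ∑ e ∈ S, (t * exp (t * avg Z φ ω)) ^ 2 *
        (max (ω e) 0 * avg Z (fun z => piv (φ z) K e) ω) := by
        refine Finset.sum_le_sum fun e _ => ?_
        have p0 : 0 ≤ avg Z (fun z => piv (φ z) K e) ω := avg_nonneg fun z _ => piv_nonneg _ _ _ _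
        have p1 : avg Z (fun z => piv (φ z) K e) ω ≤ 1 :=
          avg_le zero_le_one fun z _ => piv_le_one _ _ _ _
        have p2 : avg Z (fun z => piv (φ z) K e) ω ^ 2 ≤ avg Z (fun z => piv (φ z) K e) ω := by
          nlinarith
        have := mul_le_mul_of_nonneg_left p2
          (by positivity : 0 ≤ (t * exp (t * avg Z φ ω)) ^ 2 * max (ω e) 0)
        nlinarith
    _ ≤ (t * exp (t * avg Z φ ω)) ^ 2 * avg Z φ ω := by
        rw [← Finset.mul_sum]
        exact mul_le_mul_of_nonneg_left (sum_piv_avg h S ω) (by positivity)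
    _ = _ := by rw [e1]; ring

omit [DecidableEq ι] in
lemma dependsOn_exp_avg {S : Finset ι} (hD : ∀ z ∈ Z, DependsOn (φ z) (S : Set ι)) (t : ℝ) :
    DependsOn (fun ω => exp (t * avg Z φ ω)) (S : Set ι) := by
  intro ω ω' hω
  simp only [avg]
  rw [Finset.sum_congr rfl fun z hz => hD z hz hω]

/-- Sub-Gaussian bound. -/
theorem sg_abs (h : ∀ z ∈ Z, IsMP (φ z) K) {S : Finset ι}
    (hD : ∀ z ∈ Z, DependsOn (φ z) (S : Set ι)) {n : ℝ} (hn : 0 ≤ n)
    (h1 : ∫ ω, avg Z φ ω ∂PP ι ≤ n) (h2 : ∫ ω, exp (1 / 2 * avg Z φ ω) ∂PP ι ≤ exp n)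
    {s : ℝ} (hs : |s| ≤ 1 / 4) :
    ∫ ω, exp (s * (avg Z φ ω - ∫ η, avg Z φ η ∂PP ι)) ∂PP ι ≤
      exp (2 * (5750 * (8 * n + 4)) * s ^ 2) := by
  have bF : Bdd (avg Z φ) := bdd_avg fun z hz => (h z hz).bdd
  refine herbst bF (fun s hs => ?_) hs
  have p1 := int_exp_pos (P := PP ι) bF s
  have p2 := int_exp_pos (P := PP ι) bF (s / 2)
  have a1 := lsi_prod (bF.expmul (s / 2)) (dependsOn_exp_avg hD (s / 2))
    (fun e _ => ((Bdd.const (s / 2)).mul (bF.expmul (s / 2))).mul
      (bdd_avg fun z hz => bdd_piv (h z hz).meas K e))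
    (fun e _ => hasD_exp_avg h (s / 2) e)
    (a := (∫ ω, exp (s * avg Z φ ω) ∂PP ι) / (∫ ω, exp (s / 2 * avg Z φ ω) ∂PP ι) ^ 2)
    (by positivity)
  have a2 := energy_le h S (s / 2)
  have a3 := tilt_le bF (fun ω => avg_nonneg fun z hz => (h z hz).nonneg ω) hn h1 h2 hs
  have e1 : ∀ ω, exp (s / 2 * avg Z φ ω) ^ 2 = exp (s * avg Z φ ω) := fun ω => by
    rw [← exp_nat_mul]; congr 1; push_cast; ring
  have e2 : 2 * (s / 2) = s := by ring
  simp only [e1, abs_of_pos (exp_pos _)] at a1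
  rw [e2] at a2
  rw [div_mul_cancel₀ _ (by positivity), log_div p1.ne' (by positivity), Real.log_pow] at a1
  have a4 := mul_le_mul_of_nonneg_left a3 (by positivity : 0 ≤ (s / 2) ^ 2)
  have a5 : (log (∫ ω, exp (s * avg Z φ ω) ∂PP ι) -
      2 * log (∫ ω, exp (s / 2 * avg Z φ ω) ∂PP ι)) * ∫ ω, exp (s * avg Z φ ω) ∂PP ι ≤
      (5750 * (8 * n + 4) * s ^ 2) * ∫ ω, exp (s * avg Z φ ω) ∂PP ι := by
    push_cast at a1
    nlinarith
  have := le_of_mul_le_mul_right a5 p1
  linarith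

lemma infl_sum_le (h : ∀ z ∈ Z, IsMP (φ z) K) (S : Finset ι) (t : ℝ) {b D : ℝ} (hb : 0 ≤ b)
    (hD : 0 ≤ D)
    (hβ : ∀ e, ∫ ω, max (ω e) 0 * avg Z (fun z => piv (φ z) K e) ω ∂PP ι ≤ b ^ 2)
    (hF : ∫ ω, avg Z φ ω * exp (t * avg Z φ ω) ∂PP ι ≤ D * ∫ ω, exp (t * avg Z φ ω) ∂PP ι) :
    ∑ e ∈ S, (∫ ω, |exp (t * avg Z φ ω) - Ex e (fun ω => exp (t * avg Z φ ω)) ω| ∂PP ι) ^ 2 ≤
      36 * t ^ 2 * b * D * ∫ ω, exp (t * avg Z φ ω) ^ 2 ∂PP ι := by
  have bF : Bdd (avg Z φ) := bdd_avg fun z hz => (h z hz).bdd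
  have bG := bF.expmul t
  have bp : ∀ e, Bdd (avg Z fun z => piv (φ z) K e) := fun e =>
    bdd_avg fun z hz => bdd_piv (h z hz).meas K e
  have bw : ∀ e, Bdd fun ω : ι → ℝ => min (max (ω e) 0) 1 := fun e => by
    refine ⟨by fun_prop, 1, fun ω => ?_⟩
    rw [abs_of_nonneg (le_min (le_max_right _ _) zero_le_one)]
    exact min_le_right _ _
  have p0 : ∀ e ω, 0 ≤ avg Z (fun z => piv (φ z) K e) ω := fun e ω =>
    avg_nonneg fun z _ => piv_nonneg _ _ _ _
  have p1 : ∀ e ω, avg Z (fun z => piv (φ z) K e) ω ≤ 1 := fun e ω =>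
    avg_le zero_le_one fun z _ => piv_le_one _ _ _ _
  have w0 : ∀ e (ω : ι → ℝ), 0 ≤ min (max (ω e) 0) 1 := fun e ω =>
    le_min (le_max_right _ _) zero_le_one
  set J : ι → ℝ := fun e => ∫ ω, exp (t * avg Z φ ω) *
    (min (max (ω e) 0) 1 * avg Z (fun z => piv (φ z) K e) ω) ∂PP ι with hJ
  set Q := ∫ ω, exp (t * avg Z φ ω) ^ 2 ∂PP ι with hQ
  have Q0 : 0 ≤ Q := integral_nonneg fun ω => by positivity
  have J0 : ∀ e, 0 ≤ J e := fun e => integral_nonneg fun ω =>
    mul_nonneg (exp_pos _).le (mul_nonneg (w0 e ω) (p0 e ω))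
  have a1 : ∀ e, ∫ ω, |exp (t * avg Z φ ω) - Ex e (fun ω => exp (t * avg Z φ ω)) ω| ∂PP ι ≤
      6 * |t| * J e := by
    intro e
    refine (infl_le bG (((Bdd.const t).mul bG).mul (bp e)) (hasD_exp_avg h t e)).trans
      (le_of_eq ?_)
    rw [mul_assoc, hJ, ← integral_const_mul |t|]
    congr 2; funext ω
    rw [abs_mul, abs_mul, abs_of_pos (exp_pos _), abs_of_nonneg (p0 e ω)]; ring
  have a2 : ∀ e, J e ≤ b * √Q := by
    intro e
    refine abs_le_of_sq_le_sq' ?_ (by positivity) |>.2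
    refine (cs_bdd bG ((bw e).mul (bp e))).trans ?_
    rw [mul_pow, sq_sqrt Q0, mul_comm]
    refine mul_le_mul_of_nonneg_right (le_trans ?_ (hβ e)) Q0
    refine integral_mono ((bw e).mul (bp e)).sq.integrable
      ((bp e).mul_integrable (integrable_pos_coord e)) fun ω => ?_
    have c1 : min (max (ω e) 0) 1 * avg Z (fun z => piv (φ z) K e) ω ≤ 1 :=
      mul_le_one₀ (min_le_right _ _) (p0 e ω) (p1 e ω)
    have c2 : min (max (ω e) 0) 1 * avg Z (fun z => piv (φ z) K e) ω ≤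
        max (ω e) 0 * avg Z (fun z => piv (φ z) K e) ω :=
      mul_le_mul_of_nonneg_right (min_le_left _ _) (p0 e ω)
    have c3 := mul_nonneg (w0 e ω) (p0 e ω)
    simp only
    nlinarith
  have a3 : ∑ e ∈ S, J e ≤ D * √Q := by
    have i1 : ∀ e ∈ S, Integrable (fun ω => exp (t * avg Z φ ω) *
        (min (max (ω e) 0) 1 * avg Z (fun z => piv (φ z) K e) ω)) (PP ι) := fun e _ =>
      (bG.mul ((bw e).mul (bp e))).integrable
    have c1 : ∑ e ∈ S, J e ≤ ∫ ω, avg Z φ ω * exp (t * avg Z φ ω) ∂PP ι := by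
      simp only [hJ]
      rw [← integral_finsetSum _ i1]
      refine integral_mono (integrable_finsetSum _ i1) (bF.mul bG).integrable fun ω => ?_
      simp only
      rw [← Finset.mul_sum, mul_comm]
      refine mul_le_mul_of_nonneg_right (le_trans ?_ (sum_piv_avg h S ω)) (exp_pos _).le
      exact Finset.sum_le_sum fun e _ => mul_le_mul_of_nonneg_right (min_le_left _ _) (p0 e ω)
    have c2 : ∫ ω, exp (t * avg Z φ ω) ∂PP ι ≤ √Q := by
      refine le_sqrt_of_sq_le ?_
      simpa using cs_bdd (P := PP ι) bG (Bdd.const 1)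
    nlinarith
  calc _ ≤ ∑ e ∈ S, 36 * t ^ 2 * (b * √Q) * J e := by
        refine Finset.sum_le_sum fun e _ => ?_
        have c0 : 0 ≤ ∫ ω, |exp (t * avg Z φ ω) - Ex e (fun ω => exp (t * avg Z φ ω)) ω| ∂PP ι :=
          integral_nonneg fun ω => abs_nonneg _
        calc _ ≤ (6 * |t| * J e) ^ 2 := by gcongr; exact a1 e
          _ = 36 * t ^ 2 * J e * J e := by rw [← sq_abs t]; ring
          _ ≤ _ := by gcongr; exacts [J0 e, a2 e]
    _ ≤ 36 * t ^ 2 * (b * √Q) * (D * √Q) := by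
        rw [← Finset.mul_sum]; gcongr
    _ = 36 * t ^ 2 * b * D * (√Q * √Q) := by ring
    _ = _ := by rw [mul_self_sqrt Q0]

/-- Superconcentration bound. -/
theorem sc_abs (h : ∀ z ∈ Z, IsMP (φ z) K) {S : Finset ι}
    (hD : ∀ z ∈ Z, DependsOn (φ z) (S : Set ι)) {n : ℝ} (hn : 0 ≤ n)
    (h1 : ∫ ω, avg Z φ ω ∂PP ι ≤ n) (h2 : ∫ ω, exp (1 / 2 * avg Z φ ω) ∂PP ι ≤ exp n)
    {a b l : ℝ} (ha : 0 < a) (hb : 0 ≤ b) (hab : a * b ≤ 1) (hl : 0 < l) (hla : l ≤ 1 + log a)
    (hβ : ∀ e, ∫ ω, max (ω e) 0 * avg Z (fun z => piv (φ z) K e) ω ∂PP ι ≤ b ^ 2)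
    {s : ℝ} (hs : |s| ≤ 1 / 4) (hs2 : 12000 * (8 * n + 4) / l * s ^ 2 ≤ 1) :
    ∫ ω, exp (s * (avg Z φ ω - ∫ η, avg Z φ η ∂PP ι)) ∂PP ι ≤
      exp (2 * (12000 * (8 * n + 4) / l) * s ^ 2) := by
  have bF : Bdd (avg Z φ) := bdd_avg fun z hz => (h z hz).bdd
  refine herbst bF (s0 := |s|) (fun r hr => ?_) le_rfl
  have hr1 : |r| ≤ 1 / 4 := hr.trans hs
  have hr2 : 12000 * (8 * n + 4) / l * r ^ 2 ≤ 1 := by
    refine le_trans ?_ hs2
    have : r ^ 2 ≤ s ^ 2 := by rw [← sq_abs r, ← sq_abs s]; gcongr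
    gcongr
  have F0 : ∀ ω, 0 ≤ avg Z φ ω := fun ω => avg_nonneg fun z hz => (h z hz).nonneg ω
  have p1 := int_exp_pos (P := PP ι) bF r
  have p2 := int_exp_pos (P := PP ι) bF (r / 2)
  have a1 := fs_prod ha S _ _ (bF.expmul (r / 2)) (dependsOn_exp_avg hD (r / 2))
    (fun e _ => ((Bdd.const (r / 2)).mul (bF.expmul (r / 2))).mul
      (bdd_avg fun z hz => bdd_piv (h z hz).meas K e))
    (fun e _ => hasD_exp_avg h (r / 2) e)
  have a2 := energy_le h S (r / 2)
  have a3 := tilt_le bF F0 hn h1 h2 hr1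
  have a4 := infl_sum_le h S (r / 2) hb (D := 8 * n + 4) (by positivity) hβ
    (tilt_le bF F0 hn h1 h2 (by rw [abs_div, abs_two]; linarith [abs_nonneg r]))
  have e1 : ∀ ω, exp (r / 2 * avg Z φ ω) ^ 2 = exp (r * avg Z φ ω) := fun ω => by
    rw [← exp_nat_mul]; congr 1; push_cast; ring
  have e2 : 2 * (r / 2) = r := by ring
  simp only [e1] at a1 a4
  rw [e2] at a2
  set Q := ∫ ω, exp (r * avg Z φ ω) ∂PP ι
  set R := ∫ ω, exp (r / 2 * avg Z φ ω) ∂PP ι
  set D := 8 * n + 4
  have D0 : 0 ≤ D := by positivity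
  have a5 := mul_le_mul_of_nonneg_left a3 (by positivity : 0 ≤ (r / 2) ^ 2)
  have a6 := mul_le_mul_of_nonneg_left a4 ha.le
  have a7 : a * (36 * (r / 2) ^ 2 * b * D * Q) ≤ 36 * (r / 2) ^ 2 * D * Q := by
    have := mul_le_mul_of_nonneg_left hab (by positivity : 0 ≤ 36 * (r / 2) ^ 2 * D * Q)
    nlinarith
  have a8 : (1 + log a) * (Q - R ^ 2) ≤ 6000 * D * r ^ 2 * Q := by
    have : 0 ≤ D * r ^ 2 * Q := by positivity
    nlinarith
  set x := 6000 * D / l * r ^ 2 with hx
  have x0 : 0 ≤ x := by positivity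
  have x1 : x ≤ 1 / 2 := by
    have : 12000 * D / l * r ^ 2 = 2 * x := by rw [hx]; ring
    linarith
  have a9 : Q * (1 - x) ≤ R ^ 2 := by
    by_contra hc
    push Not at hc
    have c1 : 0 ≤ Q - R ^ 2 := by nlinarith
    have c2 : l * (Q - R ^ 2) ≤ 6000 * D * r ^ 2 * Q :=
      (mul_le_mul_of_nonneg_right hla c1).trans a8
    have c3 : 6000 * D * r ^ 2 = l * x := by rw [hx]; field_simp
    rw [c3] at c2
    nlinarith
  have b1 : log Q + log (1 - x) ≤ 2 * log R := by
    rw [← log_mul p1.ne' (by linarith)]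
    have := log_le_log (mul_pos p1 (by linarith)) a9
    rw [Real.log_pow] at this
    exact_mod_cast this
  have b2 : -(2 * x) ≤ log (1 - x) := by
    have := one_sub_inv_le_log_of_pos (by linarith : 0 < 1 - x)
    refine le_trans ?_ this
    have : (1 - x)⁻¹ ≤ 1 + 2 * x := by
      rw [inv_le_iff_one_le_mul₀ (by linarith)]; nlinarith
    linarith
  have : 12000 * D / l * r ^ 2 = 2 * x := by rw [hx]; ring
  linarith

end avg

end Pool.Agent.Lib.MP_de94ef_pr
end

-- part Pool.Agent.Lib.MP_de94ef_pr.Walks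
section

/-!
First-passage percolation on the square lattice: walks, passage times, translations.
-/

open MeasureTheory ProbabilityTheory Set Real Function Filter Topology
open scoped ENNReal

namespace Pool.Agent.Lib.MP_de94ef_pr

section wt

variable {ι : Type}

/-- Total weight of a finite set of coordinates. -/
noncomputable def wt (ω : ι → ℝ) (S : Finset ι) : ℝ := ∑ e ∈ S, max (ω e) 0

lemma wt_nonneg (ω : ι → ℝ) (S : Finset ι) : 0 ≤ wt ω S :=
  Finset.sum_nonneg fun _ _ => le_max_right _ _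

lemma wt_mono (ω : ι → ℝ) {S S' : Finset ι} (h : S ⊆ S') : wt ω S ≤ wt ω S' :=
  Finset.sum_le_sum_of_subset_of_nonneg h fun _ _ _ => le_max_right _ _

@[simp] lemma wt_empty (ω : ι → ℝ) : wt ω ∅ = 0 := rfl

@[fun_prop] lemma measurable_wt (S : Finset ι) : Measurable fun ω : ι → ℝ => wt ω S := by
  unfold wt; fun_prop

variable [DecidableEq ι]

lemma wt_union_le (ω : ι → ℝ) (S S' : Finset ι) : wt ω (S ∪ S') ≤ wt ω S + wt ω S' := by
  have := Finset.sum_union_inter (s₁ := S) (s₂ := S') (f := fun e => max (ω e) 0)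
  have h2 := wt_nonneg ω (S ∩ S')
  unfold wt at *
  linarith

lemma wt_union (ω : ι → ℝ) {S S' : Finset ι} (h : Disjoint S S') :
    wt ω (S ∪ S') = wt ω S + wt ω S' := Finset.sum_union h

lemma wt_update_of_notMem (ω : ι → ℝ) {S : Finset ι} {e : ι} (h : e ∉ S) (y : ℝ) :
    wt (update ω e y) S = wt ω S :=
  Finset.sum_congr rfl fun i hi => by rw [update_of_ne (by rintro rfl; exact h hi)]

lemma wt_update_of_mem (ω : ι → ℝ) {S : Finset ι} {e : ι} (h : e ∈ S) (y : ℝ) :
    wt (update ω e y) S = max y 0 + wt ω (S.erase e) := by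
  rw [← wt_update_of_notMem ω (Finset.notMem_erase e S) y]
  unfold wt
  rw [← Finset.add_sum_erase S _ h, update_self]

lemma lintegral_exp_wt {t : ℝ} (ht : t < 1) (S : Finset ι) :
    ∫⁻ ω, ENNReal.ofReal (exp (t * wt ω S)) ∂PP ι = ENNReal.ofReal (1 / (1 - t)) ^ S.card := by
  induction S using Finset.induction_on with
  | empty => simp
  | insert e S he ih =>
    rw [lintegral_update e (by fun_prop), Finset.card_insert_of_notMem he, pow_succ', ← ih,
      ← lintegral_const_mul _ (by fun_prop)]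
    refine lintegral_congr fun ω => ?_
    rw [← lintegral_exp_nu ht, ← lintegral_mul_const _ (by fun_prop)]
    refine lintegral_congr fun y => ?_
    rw [wt_update_of_mem ω (Finset.mem_insert_self e S), Finset.erase_insert he, mul_add, exp_add,
      ENNReal.ofReal_mul (exp_pos _).le]

lemma lintegral_exp_wt_le {t n : ℝ} (ht0 : 0 ≤ t) (ht : t ≤ 1 / 2) {S : Finset ι}
    (hn : (S.card : ℝ) ≤ n) :
    ∫⁻ ω, ENNReal.ofReal (exp (t * wt ω S)) ∂PP ι ≤ ENNReal.ofReal (exp (2 * t * n)) := by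
  rw [lintegral_exp_wt (by linarith), ← ENNReal.ofReal_pow (by
    apply div_nonneg <;> linarith)]
  refine ENNReal.ofReal_le_ofReal ?_
  have h1 : 1 / (1 - t) ≤ exp (2 * t) := by
    rw [div_le_iff₀ (by linarith)]
    nlinarith [add_one_le_exp (2 * t)]
  calc _ ≤ exp (2 * t) ^ S.card := by
        gcongr; apply div_nonneg <;> linarith
    _ = exp (2 * t * S.card) := by rw [← exp_nat_mul]; congr 1; ring
    _ ≤ _ := by gcongr

omit [DecidableEq ι] in
lemma integrable_wt (S : Finset ι) : Integrable (fun ω : ι → ℝ => wt ω S) (PP ι) :=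
  integrable_finsetSum _ fun e _ => integrable_pos_coord e

omit [DecidableEq ι] in
lemma integral_wt (S : Finset ι) : ∫ ω, wt ω S ∂PP ι = S.card := by
  unfold wt
  rw [integral_finsetSum _ fun e _ => integrable_pos_coord e]
  have : ∀ e : ι, ∫ ω : ι → ℝ, max (ω e) 0 ∂PP ι = 1 := fun e => by
    have h := measurePreserving_eval_infinitePi (fun _ : ι => nu) e
    have h2 := integral_map (μ := PP ι) h.measurable.aemeasurable (f := fun y : ℝ => max y 0)
      (Measurable.aestronglyMeasurable (by fun_prop))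
    rw [h.map_eq, integral_pos_nu] at h2
    exact h2.symm
  simp [this]

end wt

/-- Vertices. -/
abbrev VV := ℤ × ℤ

/-- Pairs of vertices, indexing the weights. -/
abbrev EE := Sym2 VV

/-- The nearest-neighbour graph. -/
def GG : SimpleGraph VV where
  Adj u v := |v.1 - u.1| + |v.2 - u.2| = 1
  symm := ⟨fun u v h => by rw [abs_sub_comm u.1, abs_sub_comm u.2]; exact h⟩
  loopless := ⟨fun u h => by simp at h⟩

/-- The l1 norm of a lattice vector. -/
def n1 (v : VV) : ℝ := |(v.1 : ℝ)| + |(v.2 : ℝ)|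

lemma n1_nonneg (v : VV) : 0 ≤ n1 v := by unfold n1; positivity

lemma n1_neg (v : VV) : n1 (-v) = n1 v := by simp [n1]

lemma n1_add_le (u v : VV) : n1 (u + v) ≤ n1 u + n1 v := by
  simp only [n1, Prod.fst_add, Prod.snd_add, Int.cast_add]
  linarith [abs_add_le (u.1 : ℝ) v.1, abs_add_le (u.2 : ℝ) v.2]

lemma n1_of_adj {u v : VV} (h : GG.Adj u v) : n1 (v - u) = 1 := by
  have : ((|v.1 - u.1| + |v.2 - u.2| : ℤ) : ℝ) = 1 := by rw [show _ = (1 : ℤ) from h]; simp
  simpa [n1] using this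

/-- `w` lies in the rectangle spanned by `u` and `v`. -/
def Btw (u v w : VV) : Prop :=
  min u.1 v.1 ≤ w.1 ∧ w.1 ≤ max u.1 v.1 ∧ min u.2 v.2 ≤ w.2 ∧ w.2 ≤ max u.2 v.2

lemma exists_stair_aux (n : ℕ) : ∀ u v : VV, |v.1 - u.1| + |v.2 - u.2| = n →
    ∃ p : GG.Walk u v, p.length = n ∧ ∀ w ∈ p.support, Btw u v w := by
  induction n with
  | zero =>
    intro u v h
    have a1 := abs_nonneg (v.1 - u.1)
    have a2 := abs_nonneg (v.2 - u.2)
    have h1 : v.1 = u.1 := by rw [← sub_eq_zero, ← abs_eq_zero]; omega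
    have h2 : v.2 = u.2 := by rw [← sub_eq_zero, ← abs_eq_zero]; omega
    obtain rfl : v = u := Prod.ext h1 h2
    exact ⟨.nil, rfl, by simp [Btw]⟩
  | succ n ih =>
    intro u v h
    have step : ∀ u' : VV, GG.Adj u u' → |v.1 - u'.1| + |v.2 - u'.2| = n →
        (∀ w, Btw u' v w → Btw u v w) →
        ∃ p : GG.Walk u v, p.length = n + 1 ∧ ∀ w ∈ p.support, Btw u v w := by
      intro u' ha hn hb
      obtain ⟨p, hp, hs⟩ := ih u' v hn
      refine ⟨.cons ha p, by simp [hp], fun w hw => ?_⟩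
      rw [SimpleGraph.Walk.support_cons, List.mem_cons] at hw
      rcases hw with rfl | hw
      · simp [Btw]
      · exact hb w (hs w hw)
    push_cast at h
    rcases lt_trichotomy u.1 v.1 with h1 | h1 | h1
    · refine step (u.1 + 1, u.2) (by simp [GG]) ?_ fun w hw => ?_
      · simp only; rw [abs_of_nonneg (by omega)] at h; rw [abs_of_nonneg (by omega)]; omega
      · simp only [Btw] at hw ⊢; omega
    · rcases lt_trichotomy u.2 v.2 with h2 | h2 | h2
      · refine step (u.1, u.2 + 1) (by simp [GG]) ?_ fun w hw => ?_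
        · simp only
          rw [abs_of_nonneg (a := v.2 - u.2) (by omega)] at h
          rw [abs_of_nonneg (a := v.2 - (u.2 + 1)) (by omega)]; omega
        · simp only [Btw] at hw ⊢; omega
      · rw [h1, h2] at h; simp at h; omega
      · refine step (u.1, u.2 - 1) (by simp [GG]) ?_ fun w hw => ?_
        · simp only
          rw [abs_of_nonpos (a := v.2 - u.2) (by omega)] at h
          rw [abs_of_nonpos (a := v.2 - (u.2 - 1)) (by omega)]; omega
        · simp only [Btw] at hw ⊢; omega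
    · refine step (u.1 - 1, u.2) (by simp [GG]) ?_ fun w hw => ?_
      · simp only; rw [abs_of_nonpos (by omega)] at h; rw [abs_of_nonpos (by omega)]; omega
      · simp only [Btw] at hw ⊢; omega

lemma exists_stair (u v : VV) : ∃ p : GG.Walk u v, (p.edges.toFinset.card : ℝ) ≤ n1 (v - u) ∧
    ∀ w ∈ p.support, Btw u v w := by
  have h0 : 0 ≤ |v.1 - u.1| + |v.2 - u.2| := by positivity
  obtain ⟨p, hp, hs⟩ := exists_stair_aux (|v.1 - u.1| + |v.2 - u.2|).toNat u v
    (Int.toNat_of_nonneg h0).symm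
  refine ⟨p, ?_, hs⟩
  have h1 : p.edges.toFinset.card ≤ p.length := by
    rw [← p.length_edges]; exact List.toFinset_card_le _
  have h2 : ((p.length : ℤ) : ℝ) = n1 (v - u) := by
    rw [hp, Int.toNat_of_nonneg h0]; simp [n1]
  rw [← h2]; exact_mod_cast h1

/-- A monotone lattice path. -/
noncomputable def stair (u v : VV) : GG.Walk u v := (exists_stair u v).choose

/-- The set of edges of a walk. -/
def es {u v : VV} (p : GG.Walk u v) : Finset EE := p.edges.toFinset

lemma mem_es {u v : VV} {p : GG.Walk u v} {e : EE} : e ∈ es p ↔ e ∈ p.edges := List.mem_toFinset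

lemma es_append {u v w : VV} (p : GG.Walk u v) (q : GG.Walk v w) :
    es (p.append q) = es p ∪ es q := by simp [es]

lemma es_reverse {u v : VV} (p : GG.Walk u v) : es p.reverse = es p := by
  ext e; simp [es]

lemma card_stair (u v : VV) : ((es (stair u v)).card : ℝ) ≤ n1 (v - u) :=
  (exists_stair u v).choose_spec.1

lemma btw_stair (u v : VV) : ∀ w ∈ (stair u v).support, Btw u v w :=
  (exists_stair u v).choose_spec.2

instance instNonemptyWalk (u v : VV) : Nonempty (GG.Walk u v) := ⟨stair u v⟩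

instance instCountableWalk (u v : VV) : Countable (GG.Walk u v) :=
  SimpleGraph.Walk.support_injective.countable

instance instCountableEE : Countable EE :=
  (show Surjective (fun p : VV × VV => (s(p.1, p.2) : EE)) from
    fun e => Sym2.ind (fun a b => ⟨(a, b), rfl⟩) e).countable

/-- Passage time. -/
noncomputable def TT (ω : EE → ℝ) (u v : VV) : ℝ := ⨅ p : GG.Walk u v, wt ω (es p)

lemma bdd_wt (ω : EE → ℝ) (u v : VV) : BddBelow (range fun p : GG.Walk u v => wt ω (es p)) :=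
  ⟨0, by rintro _ ⟨p, rfl⟩; exact wt_nonneg _ _⟩

lemma TT_le (ω : EE → ℝ) {u v : VV} (p : GG.Walk u v) : TT ω u v ≤ wt ω (es p) :=
  ciInf_le (bdd_wt ω u v) p

lemma TT_nonneg (ω : EE → ℝ) (u v : VV) : 0 ≤ TT ω u v := le_ciInf fun _ => wt_nonneg _ _

lemma le_TT {ω : EE → ℝ} {u v : VV} {c : ℝ}
    (h : ∀ p : GG.Walk u v, p.IsPath → c ≤ wt ω (es p)) : c ≤ TT ω u v :=
  le_ciInf fun p => (h p.bypass p.bypass_isPath).trans
    (wt_mono ω fun _ he => mem_es.2 (p.edges_bypass_subset_edges (mem_es.1 he)))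

lemma exists_lt_TT {ω : EE → ℝ} {u v : VV} {c : ℝ} (h : TT ω u v < c) :
    ∃ p : GG.Walk u v, p.IsPath ∧ wt ω (es p) < c := by
  by_contra hc
  push Not at hc
  exact absurd (le_TT hc) (not_le.2 h)

@[fun_prop] lemma measurable_TT (u v : VV) : Measurable fun ω => TT ω u v :=
  Measurable.iInf fun p => measurable_wt (es p)

lemma TT_triangle (ω : EE → ℝ) (u v w : VV) : TT ω u w ≤ TT ω u v + TT ω v w := by
  have : ∀ (p : GG.Walk u v) (q : GG.Walk v w), TT ω u w ≤ wt ω (es p) + wt ω (es q) := by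
    intro p q
    refine (TT_le ω (p.append q)).trans ?_
    rw [es_append]; exact wt_union_le _ _ _
  have h2 : ∀ p : GG.Walk u v, TT ω u w - wt ω (es p) ≤ TT ω v w := fun p =>
    le_TT fun q _ => by linarith [this p q]
  have h3 : TT ω u w - TT ω v w ≤ TT ω u v := le_TT fun p _ => by linarith [h2 p]
  linarith

lemma TT_symm (ω : EE → ℝ) (u v : VV) : TT ω u v = TT ω v u := by
  have : ∀ u v, TT ω u v ≤ TT ω v u := fun u v =>
    le_TT fun p _ => by rw [← es_reverse]; exact TT_le ω _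
  exact le_antisymm (this u v) (this v u)

lemma TT_self (ω : EE → ℝ) (u : VV) : TT ω u u = 0 :=
  le_antisymm (by simpa [es] using TT_le ω (SimpleGraph.Walk.nil : GG.Walk u u)) (TT_nonneg _ _ _)

lemma integrable_TT (u v : VV) : Integrable (fun ω => TT ω u v) (PP EE) :=
  (integrable_wt (es (stair u v))).mono' (measurable_TT u v).aestronglyMeasurable
    (ae_of_all _ fun ω => by
      rw [Real.norm_eq_abs, abs_of_nonneg (TT_nonneg _ _ _)]; exact TT_le ω _)

/-- Translation of pairs of vertices. -/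
def sh (z : VV) (e : EE) : EE := Sym2.map (fun w => w + z) e

lemma sh_sh (z z' : VV) (e : EE) : sh z (sh z' e) = sh (z' + z) e := by
  simp only [sh, Sym2.map_map]; congr 1; funext w; simp [add_assoc]

@[simp] lemma sh_zero (e : EE) : sh 0 e = e := by simp [sh]

lemma sh_injective (z : VV) : Injective (sh z) := fun e e' h => by
  have := congrArg (sh (-z)) h
  simpa [sh_sh] using this

/-- Translation of environments. -/
def tau (z : VV) (ω : EE → ℝ) : EE → ℝ := fun e => ω (sh z e)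

lemma tau_tau (z z' : VV) (ω : EE → ℝ) : tau z' (tau z ω) = tau (z' + z) ω := by
  funext e; simp [tau, sh_sh]

@[simp] lemma tau_zero (ω : EE → ℝ) : tau 0 ω = ω := by funext e; simp [tau]

@[fun_prop] lemma measurable_tau (z : VV) : Measurable (tau z) := by unfold tau; fun_prop

lemma measurePreserving_tau (z : VV) : MeasurePreserving (tau z) (PP EE) (PP EE) :=
  ⟨measurable_tau z, Measure.map_infinitePi_infinitePi_of_inj (P := fun _ : EE => nu)
    (sh_injective z)⟩

lemma tau_update (z : VV) (ω : EE → ℝ) (e : EE) (y : ℝ) :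
    tau z (update ω e y) = update (tau z ω) (sh (-z) e) y := by
  funext e'
  by_cases h : e' = sh (-z) e
  · subst h; simp [tau, sh_sh]
  · rw [update_of_ne h]
    unfold tau
    rw [update_of_ne]
    rintro rfl
    simp [sh_sh] at h

lemma wt_tau (z : VV) (ω : EE → ℝ) (S : Finset EE) : wt (tau z ω) S = wt ω (S.image (sh z)) := by
  unfold wt
  rw [Finset.sum_image fun a _ b _ h => sh_injective z h]
  rfl

/-- Translation as a graph homomorphism. -/
def shHom (z : VV) : GG →g GG where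
  toFun w := w + z
  map_rel' h := by simpa [GG] using h

lemma es_map (z : VV) {u v : VV} (p : GG.Walk u v) :
    es (p.map (shHom z)) = (es p).image (sh z) := by
  ext e
  simp only [es, SimpleGraph.Walk.edges_map, List.mem_toFinset, List.mem_map, Finset.mem_image]
  rfl

lemma TT_tau (z : VV) (ω : EE → ℝ) (u v : VV) : TT (tau z ω) u v = TT ω (u + z) (v + z) := by
  have : ∀ z ω u v, TT ω (u + z) (v + z) ≤ TT (tau z ω) u v := fun z ω u v =>
    le_TT fun p _ => by
      rw [wt_tau, ← es_map]; exact TT_le ω (p.map (shHom z))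
  refine le_antisymm ?_ (this z ω u v)
  have h := this (-z) (tau z ω) (u + z) (v + z)
  simpa [tau_tau] using h

lemma integral_tau (z : VV) {f : (EE → ℝ) → ℝ} (hf : Measurable f) :
    ∫ ω, f (tau z ω) ∂PP EE = ∫ ω, f ω ∂PP EE := by
  have h := measurePreserving_tau z
  have h2 := integral_map (μ := PP EE) h.measurable.aemeasurable (f := f) hf.aestronglyMeasurable
  rw [h.map_eq] at h2
  exact h2.symm

/-- Mean passage time. -/
noncomputable def hh (v : VV) : ℝ := ∫ ω, TT ω 0 v ∂PP EE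

lemma integral_TT (u v : VV) : ∫ ω, TT ω u v ∂PP EE = hh (v - u) := by
  rw [hh, ← integral_tau u (measurable_TT 0 (v - u))]
  simp [TT_tau]

lemma hh_nonneg (v : VV) : 0 ≤ hh v := integral_nonneg fun _ => TT_nonneg _ _ _

lemma hh_le (v : VV) : hh v ≤ n1 v := by
  have := card_stair 0 v
  rw [← integral_wt, sub_zero] at this
  exact (integral_mono (integrable_TT 0 v) (integrable_wt _) fun ω => TT_le ω _).trans this

lemma hh_add (u v : VV) : hh (u + v) ≤ hh u + hh v := by
  have h1 := integral_TT u (u + v)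
  rw [add_sub_cancel_left] at h1
  rw [← h1, hh, hh, ← integral_add (integrable_TT _ _) (integrable_TT _ _)]
  exact integral_mono (integrable_TT _ _) ((integrable_TT _ _).add (integrable_TT _ _))
    fun ω => TT_triangle ω _ _ _

lemma hh_neg (v : VV) : hh (-v) = hh v := by
  have h1 := integral_TT v 0
  rw [zero_sub] at h1
  rw [← h1, hh]
  simp only [TT_symm _ v 0]

lemma hh_zero : hh 0 = 0 := by simp [hh, TT_self]

lemma hh_lip (u v : VV) : hh u ≤ hh v + n1 (u - v) := by
  have := hh_add v (u - v)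
  rw [add_sub_cancel] at this
  linarith [hh_le (u - v)]

lemma hh_nsmul (n : ℕ) (v : VV) : hh (n • v) ≤ n * hh v := by
  induction n with
  | zero => simp [hh_zero]
  | succ n ih =>
    rw [succ_nsmul]
    push_cast
    linarith [hh_add (n • v) v]

lemma first_hit {u v : VV} (p : GG.Walk u v) (B : Set VV) (h : ∃ w ∈ p.support, w ∈ B) :
    ∃ u' ∈ B, ∃ q : GG.Walk u u', (∀ e ∈ q.edges, e ∈ p.edges ∧ ¬ ∀ w ∈ e, w ∈ B) ∧
      ∀ w ∈ q.support, w ∈ p.support := by
  induction p with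
  | nil =>
    obtain ⟨w, hw, hB⟩ := h
    simp only [SimpleGraph.Walk.support_nil, List.mem_singleton] at hw
    subst hw
    exact ⟨w, hB, .nil, by simp, by simp⟩
  | @cons a b c hab p ih =>
    by_cases ha : a ∈ B
    · exact ⟨a, ha, .nil, by simp, by simp⟩
    · obtain ⟨w, hw, hB⟩ := h
      rw [SimpleGraph.Walk.support_cons, List.mem_cons] at hw
      rcases hw with rfl | hw
      · exact absurd hB ha
      obtain ⟨u', hu', q, hq1, hq2⟩ := ih ⟨w, hw, hB⟩
      refine ⟨u', hu', .cons hab q, fun e he => ?_, fun w hw => ?_⟩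
      · rw [SimpleGraph.Walk.edges_cons, List.mem_cons] at he ⊢
        rcases he with rfl | he
        · exact ⟨Or.inl rfl, fun h => ha (h a (by simp))⟩
        · exact ⟨Or.inr (hq1 e he).1, (hq1 e he).2⟩
      · rw [SimpleGraph.Walk.support_cons, List.mem_cons] at hw ⊢
        rcases hw with rfl | hw
        · exact Or.inl rfl
        · exact Or.inr (hq2 w hw)

lemma crossing {φ : VV → ℝ} (hφ : ∀ a b, GG.Adj a b → φ b ≤ φ a + 1) {c : ℝ} {u v : VV}
    (p : GG.Walk u v) (hu : φ u ≤ c + 1) (hv : c ≤ φ v) :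
    ∃ (w : VV) (p1 : GG.Walk u w) (p2 : GG.Walk w v), p = p1.append p2 ∧ c ≤ φ w ∧
      φ w ≤ c + 1 := by
  induction p with
  | nil => exact ⟨_, .nil, .nil, rfl, hv, hu⟩
  | @cons a b d hab p ih =>
    by_cases ha : c ≤ φ a
    · exact ⟨a, .nil, .cons hab p, rfl, ha, hu⟩
    · obtain ⟨w, p1, p2, h1, h2, h3⟩ := ih (by linarith [hφ a b hab, not_le.1 ha]) hv
      exact ⟨w, .cons hab p1, p2, by rw [h1]; rfl, h2, h3⟩

lemma disjoint_of_isTrail {u v w : VV} {p : GG.Walk u v} {q : GG.Walk v w}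
    (h : (p.append q).IsTrail) : Disjoint (es p) (es q) := by
  have := h.edges_nodup
  rw [SimpleGraph.Walk.edges_append, List.nodup_append] at this
  rw [Finset.disjoint_left]
  intro e he he'
  exact this.2.2 e (mem_es.1 he) e (mem_es.1 he') rfl

end Pool.Agent.Lib.MP_de94ef_pr
end

-- part Pool.Agent.Lib.MP_de94ef_pr.Val
section

/-!
Truncated passage times in finite boxes as min-plus functionals.
-/

open MeasureTheory ProbabilityTheory Set Real Function Filter Topology
open scoped ENNReal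

namespace Pool.Agent.Lib.MP_de94ef_pr

section val

variable {ι : Type} {I : Type} {c : I → ℝ} {ρ : I → Finset ι}

/-- Value of a family of weighted finite sets. -/
noncomputable def val (c : I → ℝ) (ρ : I → Finset ι) (ω : ι → ℝ) : ℝ := ⨅ i, (c i + wt ω (ρ i))

lemma val_le (hc : ∀ i, 0 ≤ c i) (ω : ι → ℝ) (i : I) : val c ρ ω ≤ c i + wt ω (ρ i) :=
  ciInf_le ⟨0, by rintro _ ⟨j, rfl⟩; exact add_nonneg (hc j) (wt_nonneg _ _)⟩ i

lemma le_val [Nonempty I] {ω : ι → ℝ} {a : ℝ} (h : ∀ i, a ≤ c i + wt ω (ρ i)) :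
    a ≤ val c ρ ω := le_ciInf h

lemma exists_lt_val [Nonempty I] {ω : ι → ℝ} {a : ℝ} (h : val c ρ ω < a) :
    ∃ i, c i + wt ω (ρ i) < a := by
  by_contra hc
  push Not at hc
  exact absurd (le_val hc) (not_le.2 h)

lemma measurable_val [Countable I] : Measurable (val c ρ) :=
  Measurable.iInf fun i => (measurable_wt (ρ i)).const_add _

lemma dependsOn_val {S : Set ι} (h : ∀ i, (ρ i : Set ι) ⊆ S) : DependsOn (val c ρ) S := by
  intro ω ω' hω
  unfold val wt
  congr 1; funext i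
  rw [Finset.sum_congr rfl fun e he => by rw [hω e (h i he)]]

variable [DecidableEq ι] [Nonempty I]

lemma val_lip (hc : ∀ i, 0 ≤ c i) (ω : ι → ℝ) (e : ι) :
    val c ρ ω ≤ max (ω e) 0 + val c ρ (update ω e 0) := by
  have : val c ρ ω - max (ω e) 0 ≤ val c ρ (update ω e 0) := le_val fun i => by
    have h1 := val_le (ρ := ρ) hc ω i
    by_cases he : e ∈ ρ i
    · have h2 := wt_update_of_mem ω he (ω e)
      rw [update_eq_self] at h2
      rw [wt_update_of_mem ω he]
      simp only [max_self, zero_add]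
      linarith
    · rw [wt_update_of_notMem ω he]
      linarith [le_max_right (ω e) 0]
  linarith

lemma near_opt (hc : ∀ i, 0 ≤ c i) (K : ℝ) (ω : ι → ℝ) (S : Finset ι) {ε : ℝ} (hε : 0 < ε) :
    ∃ i, c i + wt ω (ρ i) < val c ρ ω + ε ∧ ∀ e ∈ S, piv (val c ρ) K e ω ≠ 0 → e ∈ ρ i := by
  have : ∃ δ > 0, ∀ e ∈ S, piv (val c ρ) K e ω ≠ 0 → ∀ i, e ∉ ρ i →
      val c ρ ω + δ ≤ c i + wt ω (ρ i) := by
    induction S using Finset.induction_on with
    | empty => exact ⟨1, one_pos, by simp⟩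
    | insert e S _ ih =>
      obtain ⟨δ, hδ, h⟩ := ih
      by_cases hp : max (ω e) 0 + val c ρ (update ω e 0) < val c ρ (update ω e K)
      · refine ⟨min δ (val c ρ (update ω e K) - (max (ω e) 0 + val c ρ (update ω e 0))),
          lt_min hδ (by linarith), fun e' he' hp' i hi => ?_⟩
        rcases Finset.mem_insert.1 he' with rfl | he'
        · have h1 := val_le (ρ := ρ) hc (update ω e' K) i
          rw [wt_update_of_notMem ω hi] at h1
          linarith [val_lip (ρ := ρ) hc ω e', min_le_right δ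
            (val c ρ (update ω e' K) - (max (ω e') 0 + val c ρ (update ω e' 0)))]
        · linarith [h e' he' hp' i hi, min_le_left δ
            (val c ρ (update ω e K) - (max (ω e) 0 + val c ρ (update ω e 0)))]
      · refine ⟨δ, hδ, fun e' he' hp' i hi => ?_⟩
        rcases Finset.mem_insert.1 he' with rfl | he'
        · simp [piv, hp] at hp'
        · exact h e' he' hp' i hi
  obtain ⟨δ, hδ, h⟩ := this
  obtain ⟨i, hi⟩ := exists_lt_val (c := c) (ρ := ρ) (ω := ω) (a := val c ρ ω + min ε δ)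
    (by linarith [lt_min hε hδ])
  refine ⟨i, by linarith [min_le_left ε δ], fun e he hp => ?_⟩
  by_contra hc
  linarith [h e he hp i hc, min_le_right ε δ]

omit [Nonempty I] in
lemma pivsum_le {φ : (ι → ℝ) → ℝ} {K : ℝ} {ω : ι → ℝ} {S A : Finset ι}
    (h : ∀ e ∈ S, piv φ K e ω ≠ 0 → e ∈ A) :
    ∑ e ∈ S, max (ω e) 0 * piv φ K e ω ≤ wt ω (S ∩ A) := by
  rw [wt, ← Finset.filter_mem_eq_inter, Finset.sum_filter]
  refine Finset.sum_le_sum fun e he => ?_
  split_ifs with hA
  · exact mul_le_of_le_one_right (le_max_right _ _) (piv_le_one _ _ _ _)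
  · have : piv φ K e ω = 0 := by by_contra hp; exact hA (h e he hp)
    simp [this]

theorem isMP_val [Countable I] (hc : ∀ i, 0 ≤ c i) {K : ℝ} (i0 : I) (h0 : ρ i0 = ∅)
    (hK : c i0 = K) : IsMP (val c ρ) K := by
  have hle : ∀ ω, val c ρ ω ≤ K := fun ω => by simpa [h0, hK] using val_le (ρ := ρ) hc ω i0
  have hK0 : 0 ≤ K := hK ▸ hc i0
  refine ⟨measurable_val, fun ω => le_val fun i => add_nonneg (hc i) (wt_nonneg _ _), hle,
    fun ω e y hy => le_antisymm (le_min ?_ ?_) ?_, fun ω S => ?_⟩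
  · refine le_val fun i => ?_
    by_cases he : e ∈ ρ i
    · by_cases hyK : y ≤ K
      · refine (val_le hc _ i).trans ?_
        rw [wt_update_of_mem ω he, wt_update_of_mem ω he]
        gcongr
      · rw [wt_update_of_mem ω he, max_eq_left hK0]
        linarith [hle (update ω e y), hc i, wt_nonneg ω ((ρ i).erase e)]
    · refine (val_le hc _ i).trans ?_
      rw [wt_update_of_notMem ω he, wt_update_of_notMem ω he]
  · have := val_lip (ρ := ρ) hc (update ω e y) e
    rw [update_self, update_idem, max_eq_left hy] at this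
    linarith
  · refine le_val fun i => ?_
    by_cases he : e ∈ ρ i
    · refine (min_le_right _ _).trans ?_
      have := val_le (ρ := ρ) hc (update ω e 0) i
      rw [wt_update_of_mem ω he] at this ⊢
      rw [max_eq_left hy]
      simp only [max_self, zero_add] at this
      linarith
    · refine (min_le_left _ _).trans ?_
      have := val_le (ρ := ρ) hc (update ω e K) i
      rwa [wt_update_of_notMem ω he] at this ⊢
  · refine le_of_forall_pos_le_add fun ε hε => ?_
    obtain ⟨i, h1, h2⟩ := near_opt (ρ := ρ) hc K ω S hε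
    linarith [pivsum_le h2, wt_mono ω (Finset.inter_subset_right (s₁ := S) (s₂ := ρ i)), hc i]

end val

lemma piv_tau (φ : (EE → ℝ) → ℝ) (K : ℝ) (z : VV) (e : EE) (ω : EE → ℝ) :
    piv (fun ω => φ (tau z ω)) K e ω = piv φ K (sh (-z) e) (tau z ω) := by
  have : tau z ω (sh (-z) e) = ω e := by simp [tau, sh_sh]
  simp only [piv, tau_update, this]

lemma IsMP.tau {φ : (EE → ℝ) → ℝ} {K : ℝ} (h : IsMP φ K) (z : VV) :
    IsMP (fun ω => φ (tau z ω)) K := by
  refine ⟨h.meas.comp (measurable_tau z), fun ω => h.nonneg _, fun ω => h.le _,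
    fun ω e y hy => ?_, fun ω S => ?_⟩
  · simp only [tau_update]; exact h.shape _ _ _ hy
  · refine le_trans (le_of_eq ?_) (h.pivsum (MP_de94ef_pr.tau z ω) (S.image (sh (-z))))
    rw [Finset.sum_image fun a _ b _ h => sh_injective (-z) h]
    refine Finset.sum_congr rfl fun e _ => ?_
    rw [piv_tau]
    simp [MP_de94ef_pr.tau, sh_sh]

lemma dependsOn_tau {φ : (EE → ℝ) → ℝ} {S : Finset EE} (h : DependsOn φ (S : Set EE)) (z : VV) :
    DependsOn (fun ω => φ (tau z ω)) ((S.image (sh z) : Finset EE) : Set EE) :=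
  fun _ _ hω => h fun _ he => hω _ (Finset.mem_coe.2 (Finset.mem_image_of_mem _ he))

/-- The box of radius `L` around `a`. -/
noncomputable def box (a : VV) (L : ℕ) : Finset VV :=
  Finset.Icc (a.1 - L, a.2 - L) (a.1 + L, a.2 + L)

lemma mem_box {a w : VV} {L : ℕ} :
    w ∈ box a L ↔ (a.1 - L ≤ w.1 ∧ a.2 - L ≤ w.2) ∧ w.1 ≤ a.1 + L ∧ w.2 ≤ a.2 + L := by
  simp [box, Prod.le_def]

lemma card_box (a : VV) (L : ℕ) : (box a L).card = (2 * L + 1) ^ 2 := by
  rw [box, Finset.Icc_prod_def, Finset.card_product]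
  simp only [Int.card_Icc]
  have : ∀ t : ℤ, (t + L + 1 - (t - L)).toNat = 2 * L + 1 := fun t => by omega
  rw [this, this, sq]

lemma Btw.mem_box {a u v w : VV} {L : ℕ} (h : Btw u v w) (hu : u ∈ box a L) (hv : v ∈ box a L) :
    w ∈ box a L := by
  simp only [MP_de94ef_pr.mem_box, Btw] at *
  omega

/-- Walks inside `A`, and an extra element. -/
abbrev Idx (A : Finset VV) (u v : VV) := Option {p : GG.Walk u v // ∀ w ∈ p.support, w ∈ A}

/-- Constants of the truncated family. -/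
def cT (K : ℝ) {A : Finset VV} {u v : VV} : Idx A u v → ℝ
  | none => K
  | some _ => 0

/-- Edge sets of the truncated family. -/
def pT {A : Finset VV} {u v : VV} : Idx A u v → Finset EE
  | none => ∅
  | some p => es p.1

/-- Passage time from the origin inside the box of radius `L`, truncated at `L`. -/
noncomputable def phiL (L : ℕ) (x : VV) : (EE → ℝ) → ℝ :=
  val (cT L (A := box 0 L) (u := 0) (v := x)) pT

lemma cT_nonneg (L : ℕ) {A : Finset VV} {u v : VV} (i : Idx A u v) : 0 ≤ cT L i := by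
  cases i <;> simp [cT]

lemma isMP_phiL (L : ℕ) (x : VV) : IsMP (phiL L x) L :=
  isMP_val (cT_nonneg L) none rfl rfl

lemma dependsOn_phiL (L : ℕ) (x : VV) :
    DependsOn (phiL L x) (((box 0 L).sym2 : Finset EE) : Set EE) := by
  refine dependsOn_val fun i => ?_
  cases i with
  | none => simp [pT]
  | some p =>
    intro e he
    rw [Finset.mem_coe, Finset.mem_sym2_iff]
    exact fun w hw => p.2 w (p.1.mem_support_of_mem_edges (mem_es.1 he) hw)

lemma phiL_le {L : ℕ} {x : VV} (ω : EE → ℝ) (p : GG.Walk 0 x)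
    (hp : ∀ w ∈ p.support, w ∈ box 0 L) : phiL L x ω ≤ wt ω (es p) := by
  simpa [cT, pT, phiL] using val_le (ρ := pT) (cT_nonneg L) ω (some ⟨p, hp⟩)

lemma exists_box (l : List VV) : ∃ L0 : ℕ, ∀ L ≥ L0, ∀ w ∈ l, w ∈ box 0 L := by
  induction l with
  | nil => exact ⟨0, by simp⟩
  | cons a l ih =>
    obtain ⟨L0, h⟩ := ih
    refine ⟨max L0 (a.1.natAbs + a.2.natAbs), fun L hL w hw => ?_⟩
    rcases List.mem_cons.1 hw with rfl | hw
    · have := le_trans (le_max_right _ _) hL
      simp only [mem_box, Prod.fst_zero, Prod.snd_zero]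
      omega
    · exact h L (le_trans (le_max_left _ _) hL) w hw

lemma tendsto_phiL (x : VV) (ω : EE → ℝ) :
    Tendsto (fun L : ℕ => phiL L x ω) atTop (𝓝 (TT ω 0 x)) := by
  rw [tendsto_order]
  constructor
  · intro a ha
    filter_upwards [tendsto_natCast_atTop_atTop.eventually_ge_atTop (TT ω 0 x)] with L hL
    refine lt_of_lt_of_le ha (le_val fun i => ?_)
    cases i with
    | none => simpa [cT, pT] using hL
    | some p => simpa [cT, pT] using TT_le ω p.1
  · intro a ha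
    obtain ⟨p, -, hp⟩ := exists_lt_TT ha
    obtain ⟨L0, h⟩ := exists_box p.support
    filter_upwards [eventually_ge_atTop L0] with L hL
    exact lt_of_le_of_lt (phiL_le ω p (h L hL)) hp

lemma local_piv (L : ℕ) (x : VV) (ω : EE → ℝ) (S : Finset EE) (B : Finset VV)
    (hS : ∀ e ∈ S, e ∈ GG.edgeSet → ∀ w ∈ e, w ∈ B) {y : ℝ} (hy0 : 0 ≤ y)
    (hy : ∀ u ∈ B, ∀ v ∈ B, wt ω (es (stair u v)) ≤ y) :
    ∑ e ∈ S, max (ω e) 0 * piv (phiL L x) L e ω ≤ y := by
  refine le_of_forall_pos_le_add fun ε hε => ?_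
  obtain ⟨i, h1, h2⟩ := near_opt (ρ := pT (A := box 0 L) (u := 0) (v := x)) (cT_nonneg L) L ω S hε
  refine (pivsum_le h2).trans ?_
  cases i with
  | none => simp [pT]; linarith
  | some p =>
    obtain ⟨p, hp⟩ := p
    simp only [cT, pT, zero_add] at h1 ⊢
    rcases (S ∩ es p).eq_empty_or_nonempty with h0 | ⟨e0, he0⟩
    · rw [h0]; simp; linarith
    have hB : ∀ e ∈ S ∩ es p, ∀ w ∈ e, w ∈ (B : Set VV) := fun e he =>
      hS e (Finset.mem_inter.1 he).1
        (p.edges_subset_edgeSet (mem_es.1 (Finset.mem_inter.1 he).2))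
    have hex : ∃ w ∈ p.support, w ∈ (B : Set VV) := by
      induction e0 using Sym2.ind with
      | h a b =>
        exact ⟨a, p.fst_mem_support_of_mem_edges (mem_es.1 (Finset.mem_inter.1 he0).2),
          hB _ he0 a (by simp)⟩
    obtain ⟨u, hu, q1, hq1, hq1'⟩ := first_hit p B hex
    obtain ⟨v, hv, q2, hq2, hq2'⟩ := first_hit p.reverse B (by simpa using hex)
    have hu' : u ∈ box 0 L := hp u (hq1' u q1.end_mem_support)
    have hv' : v ∈ box 0 L := hp v (by simpa using hq2' v q2.end_mem_support)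
    have h3 := phiL_le ω (q1.append ((stair u v).append q2.reverse)) (fun w hw => by
      simp only [SimpleGraph.Walk.mem_support_append_iff, SimpleGraph.Walk.support_reverse,
        List.mem_reverse] at hw
      rcases hw with hw | hw | hw
      · exact hp w (hq1' w hw)
      · exact (btw_stair u v w hw).mem_box hu' hv'
      · exact hp w (by simpa using hq2' w hw))
    rw [es_append, es_append, es_reverse, Finset.union_comm (es (stair u v)),
      ← Finset.union_assoc] at h3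
    have h4 := wt_union_le ω (es q1 ∪ es q2) (es (stair u v))
    have h5 : Disjoint (es q1 ∪ es q2) (S ∩ es p) := by
      rw [Finset.disjoint_left]
      intro e he he'
      rcases Finset.mem_union.1 he with he | he
      · exact (hq1 e (mem_es.1 he)).2 (hB e he')
      · exact (hq2 e (mem_es.1 he)).2 (hB e he')
    have h6 : (es q1 ∪ es q2) ∪ (S ∩ es p) ⊆ es p := by
      intro e he
      simp only [Finset.mem_union, Finset.mem_inter] at he
      rcases he with (he | he) | he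
      · exact mem_es.2 (hq1 e (mem_es.1 he)).1
      · exact mem_es.2 (by simpa using (hq2 e (mem_es.1 he)).1)
      · exact he.2
    have h7 := wt_mono ω h6
    rw [wt_union ω h5] at h7
    have h8 := hy u hu v hv
    unfold phiL at h3
    linarith

end Pool.Agent.Lib.MP_de94ef_pr
end
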